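import Pool.Agent.Helper57.SN.Defs

/-! # Project SN, statements B: structured levels (few of them) -/

set_option autoImplicit false

open Finset

namespace Pool.Agent.Helper57.SN

/-- B1 (Bohr kernel as a cosine polynomial with nonnegative coefficients).
`(1+cos θ)/2 = (e^{iθ/2}+e^{-iθ/2})²/4`, so `((1+cos θ)/2)^m0 = Σ_{k ≤ 2 m0} C(2 m0,k) 4^{-m0} e^{i(k-m0)θ}`.
Multiply out over `d ∈ D` and collect equal frequencies (induction on `D`: the class of functions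
`Σ_{g ∈ Sp} w g cos(gx)` with `w` even and nonnegative, `Sp = -Sp`, is closed under products:
`Σ_g w g e(gx) * Σ_h w' h e(hx)`). Constant term at least `(C(2 m0,m0)/4^m0)^|D| ≥ (1/(2 m0))^|D|`. -/
def St_ker : Prop := ∀ (K m0 : ℕ) (D : Finset ℕ), 1 ≤ m0 → ∃ (Sp : Finset ℤ) (w : ℤ → ℝ),
  (∀ g, 0 ≤ w g) ∧ (∀ g, w (-g) = w g) ∧ (∀ g ∈ Sp, -g ∈ Sp) ∧ (0 : ℤ) ∈ Sp ∧
  (∀ g ∈ Sp, Spn m0 D g) ∧ (∀ x : ℤ, ker K m0 D x = ∑ g ∈ Sp, w g * co K g x) ∧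
  (1 / (2 * m0) : ℝ) ^ D.card ≤ w 0

/-- weight of a vector of frequencies -/
noncomputable def Wt {ι : Type} [Fintype ι] (w : ι → ℤ → ℝ) (v : ι → ℤ) : ℝ := ∏ i, w i (v i)

/-- coefficient of the product of the kernels at the frequency `γ` -/
noncomputable def Rf {ι : Type} [Fintype ι] [DecidableEq ι] (Sp : ι → Finset ℤ) (w : ι → ℤ → ℝ) (γ : ℤ) : ℝ :=
  ∑ v ∈ Fintype.piFinset Sp, if ∑ i, v i = γ then Wt w v else 0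

/-- B2 (product kernel). `A x = Π_i Σ_s μ_i(s) κ_i(x-s)`, `κ_i(x) = Σ_{g ∈ Sp i} w_i(g) cos(gx)`
(`w_i` even, so `κ_i(x) = Σ w_i(g) e(gx)`), `μ_i` the geometric law of scale `2^(a i)` (statement A9,
given here as the hypothesis `hGL`).  Expanding and using orthogonality
`av(A(x) e(γx)) = Σ_{v : Σ v_i = γ} Wt w v * Π_i ψ_i(v_i)`, `ψ_i(g) = pre + i pim`.
`A ≥ 0`, `|F| ≤ 1`, `av A ≤ Rf 0`. -/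
def St_prod : Prop := ∀ (ι : Type) [Fintype ι] [DecidableEq ι] (K : ℕ) (a : ι → ℕ) (Sp : ι → Finset ℤ)
  (w : ι → ℤ → ℝ) (L : ι → ℤ) (b : ℕ → ℝ) (Ω : Finset ℕ) (M : ℝ), Glob K b Ω M →
  (∀ i, a i + 12 ≤ K) → (∀ i, ∃ μ : ℕ → ℝ, (∀ s, 0 ≤ μ s) ∧ (∑ s ∈ range (2 ^ K), μ s = 1) ∧
    ∀ h : ℤ, (∑ s ∈ range (2 ^ K), μ s * co K h s = pre K (a i) h) ∧
      (∑ s ∈ range (2 ^ K), μ s * si K h s = pim K (a i) h)) →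
  (∀ i g, 0 ≤ w i g) → (∀ i g, w i (-g) = w i g) → (∀ i, ∀ g ∈ Sp i, -g ∈ Sp i) →
  (∀ i, ∀ g ∈ Sp i, |g| ≤ L i) → 4 * ∑ i, L i ≤ 2 ^ K →
  (∀ i, ∀ x : ℤ, 0 ≤ ∑ g ∈ Sp i, w i g * co K g x) →
  ∑ ω ∈ Ω, b ω * ∑ v ∈ Fintype.piFinset Sp,
    (if ∑ i, v i = (ω : ℤ) then Wt w v * (∏ i, ((pre K (a i) (v i) : ℂ) + Complex.I * pim K (a i) (v i))).im
      else 0) ≤ Rf Sp w 0

/-- B3: `Rf γ` is the Fourier coefficient of `Π_i κ_i ≥ 0`. -/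
def St_Rf : Prop := ∀ (ι : Type) [Fintype ι] [DecidableEq ι] (K : ℕ) (Sp : ι → Finset ℤ)
  (w : ι → ℤ → ℝ) (L : ι → ℤ), (∀ i g, 0 ≤ w i g) → (∀ i g, w i (-g) = w i g) →
  (∀ i, ∀ g ∈ Sp i, -g ∈ Sp i) →
  (∀ i, ∀ g ∈ Sp i, |g| ≤ L i) → 4 * ∑ i, L i ≤ 2 ^ K →
  (∀ i, ∀ x : ℤ, 0 ≤ ∑ g ∈ Sp i, w i g * co K g x) →
  ∀ γ : ℤ, 4 * |γ| ≤ 2 ^ K →
    Rf Sp w γ = av K (fun x => (∏ i, ∑ g ∈ Sp i, w i g * co K g x) * co K γ x) ∧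
    0 ≤ Rf Sp w γ ∧ Rf Sp w γ ≤ Rf Sp w 0

/-- B4 (concentration on the Bohr set).  `R γ = av (κ cos γx)`, `κ = ker D ∈ [0,1]`.
If `1 - cos(dx) ≤ 1/(4 s²)` for all `d ∈ D'` then `|e(dx) - 1| ≤ 1/(√2 s)`, hence `|e(ξx) - 1| ≤ 1/√2`
and `cos(ξx) ≥ 3/4`; otherwise `κ(x) ≤ (1 - 1/(8 s²))^m0 ≤ exp(-m0/(8 s²))`.
So `R ξ ≥ (3/4)(R 0 - E) - E ≥ R 0/2` as `7 E ≤ R 0`. -/
def St_Bohr : Prop := ∀ (K m0 s : ℕ) (D D' : Finset ℕ) (ξ : ℤ), 1 ≤ s → D' ⊆ D → D'.card ≤ s →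
  Spn 1 D' ξ → 7 * Real.exp (-(m0 : ℝ) / (8 * s ^ 2)) ≤ av K (fun x => ker K m0 D x) →
  av K (fun x => ker K m0 D x) ≤ 2 * av K (fun x => ker K m0 D x * co K ξ x)

/-- B5 (few scales).  All `2^n` subset sums of a lacunary sequence are different and lie in
`Spn (n m) D`, which has at most `(2 n m + 1)^|D|` elements. -/
def St_count : Prop := ∀ (n m : ℕ) (D : Finset ℕ) (g : ℕ → ℤ), (∀ i < n, Spn m D (g i)) →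
  (∀ i < n, g i ≠ 0) → (∀ i, i + 1 < n → 4 * |g i| ≤ |g (i + 1)|) →
  2 ^ n ≤ (2 * n * m + 1) ^ D.card

/-- B6 (averaging over subsets of size `m`).
`Σ_{|J|=m} Σ_{l ∈ J} φ (J \ l) l = Σ_{|J'|=m-1} Σ_{l ∉ J'} φ J' l ≤ C(n,m-1) A`, and
`C(n,m-1) * (n-m+1) = m C(n,m)`; so the mean over `J` is at most `m A/(n-m+1) < c`. -/
def St_avg : Prop := ∀ (S : Finset ℕ) (m : ℕ) (φ : Finset ℕ → ℕ → ℝ) (A c : ℝ), 1 ≤ m → m ≤ S.card →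
  (∀ J' ⊆ S, J'.card + 1 = m → ∑ l ∈ S \ J', φ J' l ≤ A) →
  (m : ℝ) * A < ((S.card : ℝ) - m + 1) * c →
  ∃ J ⊆ S, J.card = m ∧ ∑ l ∈ J, φ (J.erase l) l < c

/-- level exponent `al` is hit by the span of `D` -/
def Hit (H m0 : ℕ) (D : Finset ℕ) (al : ℕ) : Prop :=
  ∃ g : ℤ, Spn (2 * m0) D g ∧ 2 ^ al ≤ 2 ^ (H + 2) * |g| ∧ |g| ≤ 2 ^ (al + H + 2)

/-- the frequency `γ` lands at level exponent `al` through the span of `D` -/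
def Land (H m0 : ℕ) (D : Finset ℕ) (al : ℕ) (γ : ℤ) : Prop :=
  2 ^ (al + H + 1) ≤ γ ∧ ∃ g : ℤ, Spn m0 D g ∧ 2 ^ al ≤ 2 ^ H * |γ - g| ∧ |γ - g| ≤ 2 ^ (al + H)

/-- B7: a frequency lands on at most one level that is not hit. -/
def St_land1 : Prop := ∀ (H m0 : ℕ) (D : Finset ℕ) (a1 a2 : ℕ) (γ : ℤ), 1 ≤ H → a1 + 4 * H ≤ a2 →
  Land H m0 D a1 γ → Land H m0 D a2 γ → Hit H m0 D a2

/-- B8: number of levels hit (B5 with `g` from `Spn (2 m0) D`, ratio `≥ 2^(2H-4) ≥ 4`). -/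
def St_hits : Prop := ∀ (H m0 T N : ℕ) (D : Finset ℕ) (a : ℕ → ℕ), 3 ≤ H →
  (∀ i j, i < j → j < T → a i + 4 * H ≤ a j) → 4 * N * m0 + 1 ≤ 2 ^ H → T ≤ N →
  ∀ E ⊆ range T, (∀ l ∈ E, Hit H m0 D (a l)) → E.card ≤ H * D.card

open Classical in
/-- B9: total mass of the frequencies that land somewhere.  If `γ` lands through `g` then
`γ/2 ≤ g ≤ 3γ/2`; with `2^e ≤ γ < 2^(e+1)`: `g ∈ [2^(e-1), 2^(e+2))`; B5 in each residue class of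
`e` modulo 5 (ratio at least 4) gives at most `5 H |D|` values of `e`; each carries mass at most `8`
(hypothesis `hm`, which is A12). -/
def St_landmass : Prop := ∀ (H m0 N : ℕ) (D Ω : Finset ℕ) (b : ℕ → ℝ), 3 ≤ H →
  (∀ ω ∈ Ω, 0 ≤ b ω) → (∀ ω ∈ Ω, 1 ≤ ω) → Ω.card ≤ N → 4 * N * m0 + 1 ≤ 2 ^ H →
  (∀ e : ℕ, ∑ ω ∈ Ω with (2 ^ e ≤ ω ∧ ω < 2 ^ (e + 1)), b ω ≤ 8) →
  ∑ ω ∈ Ω, (if ∃ al : ℕ, Land H m0 D al (ω : ℤ) then b ω else 0) ≤ 40 * H * D.card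

/-- B10 (shape of representations).  Levels `a i`, sets `D i` (disjoint, below `2^(a i + 2)`, at most
`s` elements); no level `a i` is hit by the union of the other `D j`.  Let `γ = Σ v_i > 0`,
`v_i ∈ Spn m0 (D i)`, not landing at any `a i` through the union of the others.
Proof: `|v_i| ≤ 4 s m0 2^(a i) ≤ 2^(a i + H)`; `g' = γ - v_i` is in `Spn m0` of the others (disjointness).
If `i` is active (`2^(a i) ≤ 2^H |v_i|`): not landing gives `γ < 2^(a i+H+1)`, so `|g'| ≤ 2^(a i+H+2)`, so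
(not hit) `2^(H+2) |g'| < 2^(a i)`; hence `v_i > 0` and `γ ≥ 2^(a i - H - 1)`, which for two active indices
contradicts the separation `4H`.  If `2^(a i) ≤ 2γ < 2^(a i + 3)` then `i` cannot be inactive (else `g'`
would hit), so `|γ - v_i|` is tiny again. -/
def St_shape : Prop := ∀ (ι : Type) [Fintype ι] [DecidableEq ι] (H m0 s : ℕ) (a : ι → ℕ)
  (D : ι → Finset ℕ), 3 ≤ H → 4 * s * m0 ≤ 2 ^ H →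
  (∀ i j, i ≠ j → a i + 4 * H ≤ a j ∨ a j + 4 * H ≤ a i) →
  (∀ i j, i ≠ j → Disjoint (D i) (D j)) →
  (∀ i, ∀ d ∈ D i, d < 2 ^ (a i + 2)) → (∀ i, (D i).card ≤ s) →
  (∀ i, ¬ Hit H m0 ((univ.erase i).biUnion D) (a i)) →
  ∀ (γ : ℤ) (v : ι → ℤ), 0 < γ → (∀ i, Spn m0 (D i) (v i)) → ∑ i, v i = γ →
    (∀ i, ¬ Land H m0 ((univ.erase i).biUnion D) (a i) γ) →
    (∀ i j, 2 ^ (a i) ≤ 2 ^ H * |v i| → 2 ^ (a j) ≤ 2 ^ H * |v j| → i = j) ∧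
    (∀ i, 2 ^ (a i) ≤ 2 ^ H * |v i| → 0 < v i) ∧
    (∀ i, 2 ^ (a i) ≤ 2 * γ → γ < 2 ^ (a i + 2) → 2 ^ (a i) ≤ 4 * v i ∧ v i ≤ 2 ^ (a i + 3))

/-- B11 (phases).  Hypotheses `e1 e2 e3 e4` are the estimates A10.  Inactive indices satisfy
`|ψ_j - 1| ≤ 2 |v_j|/2^(a j) ≤ 2/2^H`, always `|ψ| ≤ 1`, so `|Π_{j ≠ i} ψ_j - 1| ≤ 2 |ι|/2^H`. -/
def St_phase : Prop := ∀ (ι : Type) [Fintype ι] [DecidableEq ι] (K H : ℕ) (a : ι → ℕ) (v : ι → ℤ),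
  (∀ i, ∀ h : ℤ, 0 ≤ h → 2 * h ≤ 2 ^ K → 0 ≤ pim K (a i) h) →
  (∀ i, ∀ h : ℤ, 2 ^ (a i) ≤ 4 * h → h ≤ 2 ^ (a i + 3) → 1 / 8 ≤ pim K (a i) h) →
  (∀ i, ∀ h : ℤ, |1 - pre K (a i) h| ≤ |(h : ℝ)| / 2 ^ (a i) ∧ |pim K (a i) h| ≤ |(h : ℝ)| / 2 ^ (a i)) →
  (∀ i, ∀ h : ℤ, pre K (a i) h ^ 2 + pim K (a i) h ^ 2 ≤ 1) →
  (∀ i j, 2 ^ (a i) ≤ 2 ^ H * |v i| → 2 ^ (a j) ≤ 2 ^ H * |v j| → i = j) →
  (∀ i, 2 ^ (a i) ≤ 2 ^ H * |v i| → 0 < v i) → (∀ i, 2 * v i ≤ 2 ^ K) →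
  - (2 * (Fintype.card ι : ℝ) / 2 ^ H) ≤
      (∏ i, ((pre K (a i) (v i) : ℂ) + Complex.I * pim K (a i) (v i))).im ∧
  (∀ i, 2 ≤ H → 2 ^ (a i) ≤ 4 * v i → v i ≤ 2 ^ (a i + 3) → 1 / 8 - (2 * (Fintype.card ι : ℝ) / 2 ^ H) ≤
      (∏ i, ((pre K (a i) (v i) : ℂ) + Complex.I * pim K (a i) (v i))).im)

open Classical in
/-- B12 (core inequality).  `L i = 2^(a i + H)`, kernels from B1.  With `C(ω)` the coefficient in B2: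
not landing: `C(ω) ≥ - t Rf 0`, `t = 2|ι|/2^H ≤ 1/200`, `M t ≤ 1/8`; not landing and in some `P i`:
`C(ω) ≥ (1/8 - t) Rf ω ≥ (1/8 - t) Rf 0 / 2` (B3, B4, B10, B11); landing: `C(ω) ≥ - Rf 0`.
So `(1/8 - 1/200)/2 (|ι| τ - 1/4) - 1/8 - 1/4 ≤ 1`, `|ι| τ < 24`; `Rf 0 ≥ Π w_i 0 ≥ (1/(2 m0))^(|ι| s)`. -/
def St_core : Prop := ∀ (ι : Type) [Fintype ι] [DecidableEq ι] (K H m0 s : ℕ) (a : ι → ℕ)
  (D P : ι → Finset ℕ) (b : ℕ → ℝ) (Ω : Finset ℕ) (M τ : ℝ), Glob K b Ω M → 10 ≤ H → 1 ≤ m0 → 1 ≤ s →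
  4 * s * m0 ≤ 2 ^ H → (400 * Fintype.card ι ≤ 2 ^ H) → (16 * M * Fintype.card ι ≤ 2 ^ H) →
  7 * Real.exp (-(m0 : ℝ) / (8 * s ^ 2)) ≤ (1 / (2 * m0) : ℝ) ^ (Fintype.card ι * s) →
  (∀ i, a i + 2 * H + 12 ≤ K) →
  (∀ i j, i ≠ j → a i + 4 * H ≤ a j ∨ a j + 4 * H ≤ a i) →
  (∀ i, D i ⊆ P i) → (∀ i, (D i).card ≤ s) → (∀ i, P i ⊆ Ω) →
  (∀ i, ∀ ξ ∈ P i, Spn 1 (D i) (ξ : ℤ) ∧ 2 ^ (a i) ≤ 2 * ξ ∧ ξ < 2 ^ (a i + 2)) →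
  (∀ i, τ ≤ ∑ ξ ∈ P i, b ξ) →
  (∀ i, ¬ Hit H m0 ((univ.erase i).biUnion D) (a i)) →
  (∑ ω ∈ Ω, (if ∃ i, Land H m0 ((univ.erase i).biUnion D) (a i) (ω : ℤ) then b ω else 0) ≤ 1 / 4) →
  (Fintype.card ι : ℝ) * τ < 24

/-- B13 (few structured levels).  Choose `J ⊆ Sg`, `|J| = m`, by B6 with
`φ J' l = [l hit by ∪ D] + [not hit] (mass landing at l)`; `Σ_l φ J' l ≤ 41 H m s` by B7, B8, B9;
`m * 41 H m s < (|Sg| - m + 1)/4` if `|Sg| > 170 m² s H`; then B12 with `ι = J` contradicts `24 ≤ m τ`. -/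
def St_STR : Prop := ∀ (K H T N : ℕ) (b : ℕ → ℝ) (Ω : Finset ℕ) (a : ℕ → ℕ) (Om : ℕ → Finset ℕ)
  (B G M τ : ℝ) (s m m0 : ℕ) (Sg : Finset ℕ), Glob K b Ω M → Fam K H T b Ω a Om B G → 10 ≤ H →
  1 ≤ s → 1 ≤ m → 1 ≤ m0 → 24 ≤ m * τ → Ω.card ≤ N → T ≤ N → 4 * N * m0 + 1 ≤ 2 ^ H →
  4 * s * m0 ≤ 2 ^ H → 400 * m ≤ 2 ^ H → (16 * M * m ≤ 2 ^ H) →
  7 * Real.exp (-(m0 : ℝ) / (8 * s ^ 2)) ≤ (1 / (2 * m0) : ℝ) ^ (m * s) →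
  Sg ⊆ range T → (∀ l ∈ Sg, ∃ D ⊆ Om l, D.card ≤ s ∧ τ ≤ stm b (Om l) D) →
  Sg.card ≤ 170 * m ^ 2 * s * H

end Pool.Agent.Helper57.SN
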