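import Pool.Agent.Helper57.SN.StB

/-! # Project SN, module ker (helper68): the Bohr kernel as a cosine polynomial -/

set_option autoImplicit false

open Finset

namespace Pool.Agent.Helper57.SN

/-- the exponential of frequency `g` -/
noncomputable def ee_ker (K : ℕ) (g x : ℤ) : ℂ :=
  Complex.exp (((2 * Real.pi * g * x / 2 ^ K : ℝ) : ℂ) * Complex.I)

theorem ee_re_ker (K : ℕ) (g x : ℤ) : (ee_ker K g x).re = co K g x := by
  unfold ee_ker co
  exact Complex.exp_ofReal_mul_I_re _

theorem ee_add_ker (K : ℕ) (g h x : ℤ) : ee_ker K (g + h) x = ee_ker K g x * ee_ker K h x := by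
  unfold ee_ker
  rw [← Complex.exp_add]
  congr 1
  push_cast
  ring

theorem ee_zero_ker (K : ℕ) (x : ℤ) : ee_ker K 0 x = 1 := by
  unfold ee_ker
  simp

/-- one factor of the kernel -/
theorem fac_ker (K m0 : ℕ) (d x : ℤ) : (((1 + co K d x) / 2 : ℝ) : ℂ) ^ m0 =
    ∑ k ∈ range (2 * m0 + 1), (((2 * m0).choose k : ℂ) / 4 ^ m0) *
      ee_ker K (((k : ℤ) - m0) * d) x := by
  obtain ⟨u, hu⟩ : ∃ u : ℂ, u = Complex.exp (((Real.pi * d * x / 2 ^ K : ℝ) : ℂ) * Complex.I) :=
    ⟨_, rfl⟩
  have hu0 : u ≠ 0 := by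
    rw [hu]
    exact Complex.exp_ne_zero _
  have h1 : (((1 + co K d x) / 2 : ℝ) : ℂ) = (u + u⁻¹) ^ 2 / 4 := by
    have h2 : (((co K d x : ℝ)) : ℂ) = (u ^ 2 + (u ^ 2)⁻¹) / 2 := by
      unfold co
      rw [Complex.ofReal_cos, Complex.cos, hu, ← Complex.exp_nat_mul, ← Complex.exp_neg]
      congr 2
      · congr 1
        push_cast
        ring
      · congr 1
        push_cast
        ring
    push_cast
    rw [h2]
    field_simp
    ring
  have h3 : ∀ k ∈ range (2 * m0 + 1), u ^ k * (u⁻¹) ^ (2 * m0 - k) * ((2 * m0).choose k : ℂ) =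
      ((2 * m0).choose k : ℂ) * ee_ker K (((k : ℤ) - m0) * d) x := by
    intro k hk
    have hk' : k ≤ 2 * m0 := by
      have := mem_range.1 hk
      omega
    rw [mul_comm]
    congr 1
    have h4 : (u⁻¹) ^ (2 * m0 - k) = u ^ (-((2 * m0 - k : ℕ) : ℤ)) := by
      rw [zpow_neg, zpow_natCast, inv_pow]
    rw [h4, ← zpow_natCast u k, ← zpow_add₀ hu0, hu, ← Complex.exp_int_mul]
    unfold ee_ker
    congr 1
    push_cast [Nat.cast_sub hk']
    ring
  rw [h1, div_pow, ← pow_mul, add_pow, sum_div]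
  refine sum_congr rfl fun k hk => ?_
  rw [h3 k hk]
  ring

theorem spn_insert_ker {m : ℕ} {D : Finset ℕ} {d : ℕ} (hd : d ∉ D) {g k : ℤ}
    (hg : Spn m D g) (hk : |k| ≤ m) : Spn m (insert d D) (k * d + g) := by
  obtain ⟨c, hc, rfl⟩ := hg
  refine ⟨fun x => if x = d then k else c x, fun x => ?_, ?_⟩
  · change |if x = d then k else c x| ≤ (m : ℤ)
    split_ifs
    · exact hk
    · exact hc x
  · rw [sum_insert hd]
    simp only [if_true]
    congr 1
    refine sum_congr rfl fun x hx => ?_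
    rw [if_neg]
    intro h
    exact hd (h ▸ hx)

theorem cen_ker (m0 : ℕ) (h : 1 ≤ m0) :
    (1 / (2 * m0) : ℝ) ≤ ((2 * m0).choose m0 : ℝ) / 4 ^ m0 := by
  have h1 := Nat.four_pow_le_two_mul_self_mul_centralBinom m0 (by omega)
  rw [Nat.centralBinom] at h1
  have h2 : ((4 ^ m0 : ℕ) : ℝ) ≤ ((2 * m0 * (2 * m0).choose m0 : ℕ) : ℝ) := by exact_mod_cast h1
  push_cast at h2
  have h3 : (0 : ℝ) < m0 := by exact_mod_cast h
  rw [div_le_div_iff₀ (by positivity) (by positivity)]
  linarith

/-- the complex form -/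
theorem main_ker (K m0 : ℕ) (hm : 1 ≤ m0) (D : Finset ℕ) : ∃ (Sp : Finset ℤ) (w : ℤ → ℝ),
    (∀ g, 0 ≤ w g) ∧ (∀ g, w (-g) = w g) ∧ (∀ g ∈ Sp, -g ∈ Sp) ∧ (0 : ℤ) ∈ Sp ∧
    (∀ g ∈ Sp, Spn m0 D g) ∧
    (∀ x : ℤ, ((ker K m0 D x : ℝ) : ℂ) = ∑ g ∈ Sp, (w g : ℂ) * ee_ker K g x) ∧
    (1 / (2 * m0) : ℝ) ^ D.card ≤ w 0 := by
  classical
  induction D using Finset.induction_on with
  | empty =>
    refine ⟨{0}, fun g => if g = 0 then 1 else 0, fun g => ?_, fun g => ?_, fun g hg => ?_,
      mem_singleton_self 0, fun g hg => ?_, fun x => ?_, ?_⟩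
    · change (0 : ℝ) ≤ if g = 0 then 1 else 0
      split_ifs <;> norm_num
    · simp only [neg_eq_zero]
    · rw [mem_singleton] at hg ⊢
      rw [hg, neg_zero]
    · rw [mem_singleton] at hg
      exact ⟨fun _ => 0, fun d => by simp, by simp [hg]⟩
    · unfold ker
      simp [ee_zero_ker]
    · simp
  | insert d D hd ih =>
    obtain ⟨Sp, w, hw0, hwe, hSe, h0S, hSs, hker, hlow⟩ := ih
    -- the weights of the factor
    let p : ℤ → ℝ := fun k => if |k| ≤ (m0 : ℤ) then
      ((2 * m0).choose (k + m0).toNat : ℝ) / 4 ^ m0 else 0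
    let I : Finset ℤ := Icc (-(m0 : ℤ)) m0
    have hI : ∀ k, k ∈ I ↔ |k| ≤ (m0 : ℤ) := by
      intro k
      rw [mem_Icc, abs_le]
    have hIe : ∀ k ∈ I, -k ∈ I := by
      intro k hk
      rw [hI] at hk ⊢
      rwa [abs_neg]
    have hp0 : ∀ k, 0 ≤ p k := by
      intro k
      simp only [p]
      split_ifs
      · positivity
      · exact le_refl _
    have hpe : ∀ k, p (-k) = p k := by
      intro k
      simp only [p, abs_neg]
      split_ifs with hk
      · rw [abs_le] at hk
        have h1 : (-k + m0).toNat = 2 * m0 - (k + m0).toNat := by omega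
        have h2 : (k + m0).toNat ≤ 2 * m0 := by omega
        rw [h1, Nat.choose_symm h2]
      · rfl
    have hpfac : ∀ x : ℤ, (((1 + co K d x) / 2 : ℝ) : ℂ) ^ m0 =
        ∑ k ∈ I, (p k : ℂ) * ee_ker K (k * d) x := by
      intro x
      rw [fac_ker]
      symm
      refine sum_bij' (fun k _ => (k + m0).toNat) (fun k _ => (k : ℤ) - m0) ?_ ?_ ?_ ?_ ?_
      · intro k hk
        rw [hI, abs_le] at hk
        rw [mem_range]
        omega
      · intro k hk
        rw [mem_range] at hk
        rw [hI, abs_le]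
        omega
      · intro k hk
        rw [hI, abs_le] at hk
        omega
      · intro k hk
        omega
      · intro k hk
        rw [hI] at hk
        simp only [p]
        rw [if_pos hk]
        rw [abs_le] at hk
        have h1 : (((k + m0).toNat : ℕ) : ℤ) - m0 = k := by omega
        rw [h1]
        push_cast
        rfl
    let Sp' : Finset ℤ := (I ×ˢ Sp).image fun q => q.1 * d + q.2
    let w' : ℤ → ℝ := fun h => ∑ q ∈ I ×ˢ Sp, if q.1 * d + q.2 = h then p q.1 * w q.2 else 0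
    refine ⟨Sp', w', fun h => ?_, fun h => ?_, fun h hh => ?_, ?_, fun h hh => ?_,
      fun x => ?_, ?_⟩
    · refine sum_nonneg fun q _ => ?_
      split_ifs
      · exact mul_nonneg (hp0 _) (hw0 _)
      · exact le_refl _
    · refine sum_bij' (fun q _ => (-q.1, -q.2)) (fun q _ => (-q.1, -q.2)) ?_ ?_ ?_ ?_ ?_
      · intro q hq
        rw [mem_product] at hq ⊢
        exact ⟨hIe _ hq.1, hSe _ hq.2⟩
      · intro q hq
        rw [mem_product] at hq ⊢
        exact ⟨hIe _ hq.1, hSe _ hq.2⟩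
      · intro q _
        simp
      · intro q _
        simp
      · intro q _
        simp only
        rw [hpe, hwe]
        have h1 : q.1 * (d : ℤ) + q.2 = -h ↔ -q.1 * (d : ℤ) + -q.2 = h := by
          constructor <;> intro h2 <;> linarith
        rw [if_congr h1 rfl rfl]
    · obtain ⟨q, hq, rfl⟩ := mem_image.1 hh
      rw [mem_product] at hq
      refine mem_image.2 ⟨(-q.1, -q.2), mem_product.2 ⟨hIe _ hq.1, hSe _ hq.2⟩, ?_⟩
      simp only
      ring
    · refine mem_image.2 ⟨(0, 0), mem_product.2 ⟨?_, h0S⟩, by simp⟩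
      rw [hI]
      simp
    · obtain ⟨q, hq, rfl⟩ := mem_image.1 hh
      rw [mem_product] at hq
      exact spn_insert_ker hd (hSs _ hq.2) ((hI _).1 hq.1)
    · have h1 : ((ker K m0 (insert d D) x : ℝ) : ℂ) =
          (((1 + co K d x) / 2 : ℝ) : ℂ) ^ m0 * ((ker K m0 D x : ℝ) : ℂ) := by
        unfold ker
        rw [prod_insert hd]
        push_cast
        rfl
      rw [h1, hpfac, hker, sum_mul_sum, ← sum_product']
      have h2 : ∀ h ∈ Sp', (w' h : ℂ) * ee_ker K h x = ∑ q ∈ I ×ˢ Sp,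
          if q.1 * d + q.2 = h then ((p q.1 : ℂ) * ee_ker K (q.1 * d) x) *
            ((w q.2 : ℂ) * ee_ker K q.2 x) else 0 := by
        intro h _
        simp only [w']
        push_cast
        rw [sum_mul]
        refine sum_congr rfl fun q _ => ?_
        split_ifs with h3
        · rw [← h3, ee_add_ker]
          push_cast
          ring
        · simp
      rw [sum_congr rfl h2, sum_comm]
      refine sum_congr rfl fun q hq => ?_
      rw [sum_ite_eq]
      rw [if_pos (mem_image_of_mem _ hq)]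
    · rw [card_insert_of_notMem hd, pow_succ]
      have h1 : w 0 * p 0 ≤ w' 0 := by
        have h2 : (0, 0) ∈ I ×ˢ Sp := by
          rw [mem_product, hI]
          exact ⟨by simp, h0S⟩
        have h3 := single_le_sum (f := fun q : ℤ × ℤ =>
          if q.1 * d + q.2 = 0 then p q.1 * w q.2 else 0) (fun q _ => by
            split_ifs
            · exact mul_nonneg (hp0 _) (hw0 _)
            · exact le_refl _) h2
        simp only [zero_mul, zero_add, if_true] at h3
        rw [mul_comm]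
        exact h3
      refine le_trans ?_ h1
      refine mul_le_mul hlow ?_ (by positivity) (hw0 0)
      simp only [p, abs_zero, zero_add, Int.toNat_natCast]
      rw [if_pos (by positivity)]
      exact cen_ker m0 hm

theorem m_ker : St_ker := by
  intro K m0 D hm
  obtain ⟨Sp, w, h1, h2, h3, h4, h5, h6, h7⟩ := main_ker K m0 hm D
  refine ⟨Sp, w, h1, h2, h3, h4, h5, fun x => ?_, h7⟩
  have h8 := congrArg Complex.re (h6 x)
  rw [Complex.ofReal_re, Complex.re_sum] at h8
  rw [h8]
  refine sum_congr rfl fun g _ => ?_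
  rw [Complex.re_ofReal_mul, ee_re_ker]

end Pool.Agent.Helper57.SN
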