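import Pool.Agent.Helper57.SN.StA
import Pool.Agent.Helper57.SN.StB

/-! # Project SN, module Rf: coefficients of a product of nonnegative cosine polynomials -/

set_option autoImplicit false

open Finset

namespace Pool.Agent.Helper57.SN

/-- the exponential `e(hx)` -/
private noncomputable def E_Rf (K : ℕ) (h x : ℤ) : ℂ :=
  Complex.exp (((2 * Real.pi * h * x / 2 ^ K : ℝ) : ℂ) * Complex.I)

private theorem E_re_Rf (K : ℕ) (h x : ℤ) : (E_Rf K h x).re = co K h x :=
  Complex.exp_ofReal_mul_I_re _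

private theorem E_im_Rf (K : ℕ) (h x : ℤ) : (E_Rf K h x).im = si K h x :=
  Complex.exp_ofReal_mul_I_im _

private theorem E_sum_Rf {ι : Type} (K : ℕ) (x : ℤ) (s : Finset ι) (v : ι → ℤ) :
    E_Rf K (∑ i ∈ s, v i) x = ∏ i ∈ s, E_Rf K (v i) x := by
  classical
  unfold E_Rf
  rw [← Complex.exp_sum]
  congr 1
  rw [← Finset.sum_mul, ← Complex.ofReal_sum]
  congr 2
  push_cast
  rw [Finset.mul_sum, Finset.sum_mul, Finset.sum_div]

private theorem si_neg_Rf (K : ℕ) (h x : ℤ) : si K (-h) x = -si K h x := by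
  unfold si
  rw [← Real.sin_neg]
  congr 1
  push_cast
  ring

private theorem co_neg_Rf (K : ℕ) (h x : ℤ) : co K (-h) x = co K h x := by
  unfold co
  rw [← Real.cos_neg]
  congr 1
  push_cast
  ring

/-- a symmetric exponential sum is a cosine sum -/
private theorem sym_Rf (K : ℕ) (S : Finset ℤ) (w : ℤ → ℝ) (hw : ∀ g, w (-g) = w g)
    (hS : ∀ g ∈ S, -g ∈ S) (x : ℤ) :
    (((∑ g ∈ S, w g * co K g x : ℝ)) : ℂ) = ∑ g ∈ S, (w g : ℂ) * E_Rf K g x := by
  apply Complex.ext
  · rw [Complex.ofReal_re, Complex.re_sum]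
    refine Finset.sum_congr rfl fun g _ => ?_
    rw [Complex.re_ofReal_mul, E_re_Rf]
  · rw [Complex.ofReal_im, Complex.im_sum]
    have h1 : ∑ g ∈ S, ((w g : ℂ) * E_Rf K g x).im = ∑ g ∈ S, w g * si K g x := by
      refine Finset.sum_congr rfl fun g _ => ?_
      rw [Complex.im_ofReal_mul, E_im_Rf]
    rw [h1]
    have h2 : ∑ g ∈ S, w g * si K g x = ∑ g ∈ S, -(w g * si K g x) := by
      refine Finset.sum_nbij' (fun g => -g) (fun g => -g) (fun g hg => hS g hg)
        (fun g hg => hS g hg) (fun g _ => neg_neg g) (fun g _ => neg_neg g) ?_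
      intro g _
      show w g * si K g x = -(w (-g) * si K (-g) x)
      rw [hw, si_neg_Rf]
      ring
    rw [Finset.sum_neg_distrib] at h2
    linarith

/-- the product of the kernels as a cosine polynomial -/
private theorem prod_Rf {ι : Type} [Fintype ι] [DecidableEq ι] (K : ℕ) (Sp : ι → Finset ℤ)
    (w : ι → ℤ → ℝ) (hw : ∀ i g, w i (-g) = w i g) (hS : ∀ i, ∀ g ∈ Sp i, -g ∈ Sp i) (x : ℤ) :
    ∏ i, ∑ g ∈ Sp i, w i g * co K g x =
      ∑ v ∈ Fintype.piFinset Sp, Wt w v * co K (∑ i, v i) x := by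
  have h1 : ((∏ i, ∑ g ∈ Sp i, w i g * co K g x : ℝ) : ℂ) =
      ∑ v ∈ Fintype.piFinset Sp, ((Wt w v : ℝ) : ℂ) * E_Rf K (∑ i, v i) x := by
    rw [Complex.ofReal_prod]
    have h2 : ∀ i, ((∑ g ∈ Sp i, w i g * co K g x : ℝ) : ℂ) =
        ∑ g ∈ Sp i, (w i g : ℂ) * E_Rf K g x := fun i => sym_Rf K (Sp i) (w i) (hw i) (hS i) x
    rw [Finset.prod_congr rfl fun i _ => h2 i, Finset.prod_univ_sum]
    refine Finset.sum_congr rfl fun v _ => ?_
    rw [Finset.prod_mul_distrib, E_sum_Rf, Wt, Complex.ofReal_prod]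
  have h3 := congrArg Complex.re h1
  rw [Complex.ofReal_re, Complex.re_sum] at h3
  rw [h3]
  refine Finset.sum_congr rfl fun v _ => ?_
  rw [Complex.re_ofReal_mul, E_re_Rf]

private theorem co_mul_Rf (K : ℕ) (g h x : ℤ) :
    co K g x * co K h x = (co K (g - h) x + co K (g + h) x) / 2 := by
  unfold co
  push_cast
  rw [show 2 * Real.pi * ((g : ℝ) - h) * x / 2 ^ K =
    2 * Real.pi * g * x / 2 ^ K - 2 * Real.pi * h * x / 2 ^ K by ring,
    show 2 * Real.pi * ((g : ℝ) + h) * x / 2 ^ K =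
    2 * Real.pi * g * x / 2 ^ K + 2 * Real.pi * h * x / 2 ^ K by ring,
    Real.cos_sub, Real.cos_add]
  ring

theorem m_Rf (ho : St_orth) : St_Rf := by
  intro ι _ _ K Sp w L hw0 hw hS hL hK hpos γ hγ
  have horth := (ho K).1
  have hWt : ∀ v : ι → ℤ, 0 ≤ Wt w v := fun v => Finset.prod_nonneg fun i _ => hw0 i (v i)
  -- sizes
  have hsize : ∀ v ∈ Fintype.piFinset Sp, 4 * |∑ i, v i| ≤ 2 ^ K := by
    intro v hv
    have h1 : |∑ i, v i| ≤ ∑ i, L i :=
      (Finset.abs_sum_le_sum_abs _ _).trans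
        (Finset.sum_le_sum fun i _ => hL i _ (Fintype.mem_piFinset.1 hv i))
    linarith
  have hpowpos : (0 : ℤ) < 2 ^ K := by positivity
  -- symmetry
  have hsym : Rf Sp w (-γ) = Rf Sp w γ := by
    unfold Rf
    refine Finset.sum_nbij' (fun v i => -v i) (fun v i => -v i) ?_ ?_ ?_ ?_ ?_
    · intro v hv
      rw [Fintype.mem_piFinset] at hv ⊢
      exact fun i => hS i _ (hv i)
    · intro v hv
      rw [Fintype.mem_piFinset] at hv ⊢
      exact fun i => hS i _ (hv i)
    · intro v _; funext i; exact neg_neg _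
    · intro v _; funext i; exact neg_neg _
    · intro v _
      have h1 : ∑ i, -v i = -∑ i, v i := Finset.sum_neg_distrib _
      have h2 : Wt w (fun i => -v i) = Wt w v := by
        unfold Wt
        exact Finset.prod_congr rfl fun i _ => hw i _
      rw [h1, h2]
      have h3 : (∑ i, v i = -γ) ↔ (-∑ i, v i = γ) := by
        constructor <;> intro h <;> omega
      simp only [h3]
  -- the Fourier coefficient at any small frequency
  have hcoef : ∀ η : ℤ, 4 * |η| ≤ 2 ^ K →
      av K (fun x => (∏ i, ∑ g ∈ Sp i, w i g * co K g x) * co K η x) =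
        (Rf Sp w η + Rf Sp w (-η)) / 2 := by
    intro η hη
    have h1 : ∀ x : ℕ, (∏ i, ∑ g ∈ Sp i, w i g * co K g x) * co K η x =
        ∑ v ∈ Fintype.piFinset Sp, Wt w v *
          ((co K (∑ i, v i - η) x + co K (∑ i, v i + η) x) / 2) := by
      intro x
      rw [prod_Rf K Sp w hw hS, Finset.sum_mul]
      refine Finset.sum_congr rfl fun v _ => ?_
      rw [mul_assoc, co_mul_Rf]
    have h2 : av K (fun x => (∏ i, ∑ g ∈ Sp i, w i g * co K g x) * co K η x) =
        ∑ v ∈ Fintype.piFinset Sp, Wt w v *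
          ((av K (fun x => co K (∑ i, v i - η) x) + av K (fun x => co K (∑ i, v i + η) x)) / 2) := by
      unfold av
      rw [Finset.sum_congr rfl fun x _ => h1 x, Finset.sum_comm, Finset.sum_div]
      refine Finset.sum_congr rfl fun v _ => ?_
      rw [← Finset.mul_sum, ← Finset.sum_div, Finset.sum_add_distrib]
      ring
    rw [h2]
    have h3 : ∀ v ∈ Fintype.piFinset Sp, Wt w v *
          ((av K (fun x => co K (∑ i, v i - η) x) + av K (fun x => co K (∑ i, v i + η) x)) / 2) =
        ((if ∑ i, v i = η then Wt w v else 0) + (if ∑ i, v i = -η then Wt w v else 0)) / 2 := by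
      intro v hv
      have hv' := hsize v hv
      have hb1 : |∑ i, v i - η| < 2 ^ K := by
        have := abs_sub (∑ i, v i) η
        omega
      have hb2 : |∑ i, v i + η| < 2 ^ K := by
        have := abs_add_le (∑ i, v i) η
        omega
      rw [horth _ hb1, horth _ hb2]
      have e1 : (∑ i, v i - η = 0) ↔ (∑ i, v i = η) := sub_eq_zero
      have e2 : (∑ i, v i + η = 0) ↔ (∑ i, v i = -η) := by
        constructor <;> intro h <;> omega
      simp only [e1, e2]
      split_ifs <;> ring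
    rw [Finset.sum_congr rfl h3, ← Finset.sum_div, Finset.sum_add_distrib]
    rfl
  have hR : Rf Sp w γ = av K (fun x => (∏ i, ∑ g ∈ Sp i, w i g * co K g x) * co K γ x) := by
    rw [hcoef γ hγ, hsym]
    ring
  refine ⟨hR, ?_, ?_⟩
  · unfold Rf
    refine Finset.sum_nonneg fun v _ => ?_
    split_ifs
    · exact hWt v
    · exact le_rfl
  · have h0 : Rf Sp w 0 = av K (fun x => (∏ i, ∑ g ∈ Sp i, w i g * co K g x) * co K 0 x) := by
      rw [hcoef 0 (by simp), neg_zero]
      ring
    rw [hR, h0]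
    unfold av
    refine div_le_div_of_nonneg_right ?_ (by positivity)
    refine Finset.sum_le_sum fun x _ => ?_
    refine mul_le_mul_of_nonneg_left ?_ (Finset.prod_nonneg fun i _ => hpos i x)
    have h1 : co K 0 (x : ℤ) = 1 := by simp [co]
    rw [h1]
    exact Real.cos_le_one _

end Pool.Agent.Helper57.SN
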