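import Pool.Agent.Helper57.SN.StA

/-! # Project SN, module orth: orthogonality on the grid, Lipschitz bounds, product formula -/

set_option autoImplicit false

open Finset

namespace Pool.Agent.Helper57.SN

/-- the exponential sum over the full grid -/
private lemma expsum_orth (K : ℕ) (h : ℤ) (h0 : h ≠ 0) (hK : |h| < 2 ^ K) :
    ∑ x ∈ range (2 ^ K), Complex.exp ((x : ℂ) * (2 * Real.pi * Complex.I * h / 2 ^ K)) = 0 := by
  have hK0 : (2 : ℂ) ^ K ≠ 0 := pow_ne_zero _ two_ne_zero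
  have hpi : (2 * (Real.pi : ℂ) * Complex.I) ≠ 0 := Complex.two_pi_I_ne_zero
  have h1 : ∀ x : ℕ, Complex.exp ((x : ℂ) * (2 * Real.pi * Complex.I * h / 2 ^ K)) =
      Complex.exp (2 * Real.pi * Complex.I * h / 2 ^ K) ^ x := fun x => Complex.exp_nat_mul _ x
  simp only [h1]
  have hne : Complex.exp (2 * Real.pi * Complex.I * h / 2 ^ K) ≠ 1 := by
    intro h2
    obtain ⟨n, hn⟩ := Complex.exp_eq_one_iff.1 h2
    have h3 : (2 * (Real.pi : ℂ) * Complex.I) * (h : ℂ) =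
        (2 * (Real.pi : ℂ) * Complex.I) * ((n : ℂ) * 2 ^ K) := by
      rw [div_eq_iff hK0] at hn
      rw [hn]
      ring
    have h4 : (h : ℂ) = (n : ℂ) * 2 ^ K := mul_left_cancel₀ hpi h3
    have h5 : h = n * 2 ^ K := by exact_mod_cast h4
    rcases eq_or_ne n 0 with rfl | hn0
    · exact h0 (by rw [h5, zero_mul])
    · have h6 : (1 : ℤ) ≤ |n| := Int.one_le_abs hn0
      rw [h5, abs_mul, abs_of_nonneg (by positivity : (0 : ℤ) ≤ 2 ^ K)] at hK
      have h7 : (0 : ℤ) < 2 ^ K := by positivity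
      nlinarith
  rw [geom_sum_eq hne]
  have h8 : Complex.exp (2 * Real.pi * Complex.I * h / 2 ^ K) ^ (2 ^ K) = 1 := by
    rw [← Complex.exp_nat_mul]
    have h9 : ((2 ^ K : ℕ) : ℂ) * (2 * Real.pi * Complex.I * h / 2 ^ K) =
        (h : ℂ) * (2 * Real.pi * Complex.I) := by
      push_cast
      field_simp
    rw [h9]
    exact Complex.exp_int_mul_two_pi_mul_I h
  rw [h8, sub_self, zero_div]

private lemma arg_orth (K : ℕ) (h : ℤ) (x : ℕ) :
    (x : ℂ) * (2 * Real.pi * Complex.I * h / 2 ^ K) =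
      ((2 * Real.pi * h * (x : ℤ) / 2 ^ K : ℝ) : ℂ) * Complex.I := by
  push_cast
  ring

private lemma cosum_orth (K : ℕ) (h : ℤ) (h0 : h ≠ 0) (hK : |h| < 2 ^ K) :
    ∑ x ∈ range (2 ^ K), co K h x = 0 := by
  have h1 := congrArg Complex.re (expsum_orth K h h0 hK)
  rw [Complex.re_sum] at h1
  rw [← Complex.zero_re, ← h1]
  refine Finset.sum_congr rfl fun x _ => ?_
  rw [arg_orth, Complex.exp_ofReal_mul_I_re]
  rfl

private lemma sisum_orth (K : ℕ) (h : ℤ) (h0 : h ≠ 0) (hK : |h| < 2 ^ K) :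
    ∑ x ∈ range (2 ^ K), si K h x = 0 := by
  have h1 := congrArg Complex.im (expsum_orth K h h0 hK)
  rw [Complex.im_sum] at h1
  rw [← Complex.zero_im, ← h1]
  refine Finset.sum_congr rfl fun x _ => ?_
  rw [arg_orth, Complex.exp_ofReal_mul_I_im]
  rfl

private lemma dist_orth (K : ℕ) (h x y : ℤ) :
    |2 * Real.pi * (h : ℝ) * (x : ℝ) / 2 ^ K - 2 * Real.pi * (h : ℝ) * (y : ℝ) / 2 ^ K| =
      2 * Real.pi * |(h : ℝ)| * |(x : ℝ) - y| / 2 ^ K := by
  rw [← sub_div, ← mul_sub, abs_div, abs_mul, abs_mul,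
    abs_of_pos (by positivity : (0 : ℝ) < 2 * Real.pi),
    abs_of_pos (by positivity : (0 : ℝ) < 2 ^ K)]

theorem m_orth : St_orth := by
  intro K
  refine ⟨?_, ?_, ?_, ?_, ?_⟩
  · intro h hK
    unfold av
    split_ifs with h0
    · subst h0
      have h1 : ∀ x ∈ range (2 ^ K), co K 0 (x : ℕ) = 1 := fun x _ => by
        unfold co
        simp
      rw [Finset.sum_congr rfl h1]
      simp
    · rw [cosum_orth K h h0 hK, zero_div]
  · intro h hK
    unfold av
    rcases eq_or_ne h 0 with rfl | h0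
    · have h1 : ∀ x ∈ range (2 ^ K), si K 0 (x : ℕ) = 0 := fun x _ => by
        unfold si
        simp
      rw [Finset.sum_congr rfl h1]
      simp
    · rw [sisum_orth K h h0 hK, zero_div]
  · intro h x y
    have h1 := Real.lipschitzWith_cos.dist_le_mul (2 * Real.pi * (h : ℝ) * (x : ℝ) / 2 ^ K)
      (2 * Real.pi * (h : ℝ) * (y : ℝ) / 2 ^ K)
    rw [Real.dist_eq, Real.dist_eq, dist_orth, NNReal.coe_one, one_mul] at h1
    exact h1
  · intro h x y
    have h1 := Real.lipschitzWith_sin.dist_le_mul (2 * Real.pi * (h : ℝ) * (x : ℝ) / 2 ^ K)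
      (2 * Real.pi * (h : ℝ) * (y : ℝ) / 2 ^ K)
    rw [Real.dist_eq, Real.dist_eq, dist_orth, NNReal.coe_one, one_mul] at h1
    exact h1
  · intro g h x
    unfold si co
    have h1 : 2 * Real.pi * ((g - h : ℤ) : ℝ) * (x : ℝ) / 2 ^ K =
        2 * Real.pi * (g : ℝ) * (x : ℝ) / 2 ^ K - 2 * Real.pi * (h : ℝ) * (x : ℝ) / 2 ^ K := by
      push_cast
      ring
    have h2 : 2 * Real.pi * ((g + h : ℤ) : ℝ) * (x : ℝ) / 2 ^ K =
        2 * Real.pi * (g : ℝ) * (x : ℝ) / 2 ^ K + 2 * Real.pi * (h : ℝ) * (x : ℝ) / 2 ^ K := by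
      push_cast
      ring
    rw [h1, h2, Real.cos_sub, Real.cos_add]
    ring

end Pool.Agent.Helper57.SN
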