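import Pool.Agent.Helper57.SN.StB

set_option autoImplicit false

open Finset

namespace Pool.Agent.Helper57.SN

private theorem abs_sin_add_le_Bohr (x y : ℝ) : |Real.sin (x + y)| ≤ |Real.sin x| + |Real.sin y| := by
  rw [Real.sin_add]
  calc |Real.sin x * Real.cos y + Real.cos x * Real.sin y|
      ≤ |Real.sin x * Real.cos y| + |Real.cos x * Real.sin y| := abs_add_le _ _
    _ ≤ |Real.sin x| + |Real.sin y| := by
        rw [abs_mul, abs_mul]
        have h1 := Real.abs_cos_le_one x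
        have h2 := Real.abs_cos_le_one y
        have h3 := abs_nonneg (Real.sin x)
        have h4 := abs_nonneg (Real.sin y)
        nlinarith

private theorem abs_sin_sum_le_Bohr (D : Finset ℕ) (f : ℕ → ℝ) :
    |Real.sin (∑ d ∈ D, f d)| ≤ ∑ d ∈ D, |Real.sin (f d)| := by
  classical
  induction D using Finset.induction_on with
  | empty => simp
  | insert d D hd ih =>
    rw [Finset.sum_insert hd, Finset.sum_insert hd]
    exact (abs_sin_add_le_Bohr _ _).trans (by linarith)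

private theorem one_sub_cos_Bohr (x : ℝ) : 1 - Real.cos x = 2 * Real.sin (x / 2) ^ 2 := by
  have h := Real.cos_two_mul (x / 2)
  rw [show 2 * (x / 2) = x by ring] at h
  have h2 := Real.sin_sq_add_cos_sq (x / 2)
  linarith

/-- the good case -/
private theorem good_Bohr (K s : ℕ) (D' : Finset ℕ) (ξ x : ℤ) (hs : 1 ≤ s) (hc : D'.card ≤ s)
    (hξ : Spn 1 D' ξ) (hg : ∀ d ∈ D', 1 - co K d x ≤ 1 / (4 * (s : ℝ) ^ 2)) : 3 / 4 ≤ co K ξ x := by
  obtain ⟨c, hc1, hc2⟩ := hξ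
  set φ : ℕ → ℝ := fun d => (2 * Real.pi * d * x / 2 ^ K) / 2 with hφ
  have h1 : (2 * Real.pi * (ξ : ℝ) * x / 2 ^ K) / 2 = ∑ d ∈ D', (c d : ℝ) * φ d := by
    rw [hc2]
    push_cast
    simp only [hφ, Finset.mul_sum, Finset.sum_mul, Finset.sum_div]
    refine Finset.sum_congr rfl fun d _ => ?_
    ring
  have h2 : ∀ d, |Real.sin ((c d : ℝ) * φ d)| ≤ |Real.sin (φ d)| := by
    intro d
    have h3 := hc1 d
    have h4 : c d = -1 ∨ c d = 0 ∨ c d = 1 := by
      have := abs_le.1 h3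
      push_cast at this
      omega
    rcases h4 with h4 | h4 | h4
    · rw [h4]
      simp
    · rw [h4]
      simp
    · rw [h4]
      simp
  have h5 : ∀ d ∈ D', |Real.sin (φ d)| ^ 2 ≤ 1 / (8 * (s : ℝ) ^ 2) := by
    intro d hd
    have h6 := hg d hd
    unfold co at h6
    rw [one_sub_cos_Bohr] at h6
    rw [sq_abs]
    have h7 : (1 : ℝ) / (4 * (s : ℝ) ^ 2) = 2 * (1 / (8 * (s : ℝ) ^ 2)) := by
      field_simp
      norm_num
    rw [h7] at h6
    have h8 : (2 * Real.pi * ((d : ℤ) : ℝ) * x / 2 ^ K) / 2 = φ d := by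
      simp only [hφ]
      push_cast
      ring
    rw [h8] at h6
    linarith
  have h6 : |Real.sin ((2 * Real.pi * (ξ : ℝ) * x / 2 ^ K) / 2)| ≤ ∑ d ∈ D', |Real.sin (φ d)| := by
    rw [h1]
    exact (abs_sin_sum_le_Bohr _ _).trans (Finset.sum_le_sum fun d _ => h2 d)
  have h7 : (∑ d ∈ D', |Real.sin (φ d)|) ^ 2 ≤ 1 / 8 := by
    have hs0 : (0 : ℝ) < s := by exact_mod_cast hs
    have hcs : ((D'.card : ℝ)) ≤ s := by exact_mod_cast hc
    calc (∑ d ∈ D', |Real.sin (φ d)|) ^ 2 ≤ D'.card * ∑ d ∈ D', |Real.sin (φ d)| ^ 2 :=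
          sq_sum_le_card_mul_sum_sq
      _ ≤ D'.card * ∑ d ∈ D', 1 / (8 * (s : ℝ) ^ 2) := by
          refine mul_le_mul_of_nonneg_left (Finset.sum_le_sum h5) (by positivity)
      _ = (D'.card : ℝ) ^ 2 * (1 / (8 * (s : ℝ) ^ 2)) := by
          rw [Finset.sum_const, nsmul_eq_mul]
          ring
      _ ≤ (s : ℝ) ^ 2 * (1 / (8 * (s : ℝ) ^ 2)) := by
          refine mul_le_mul_of_nonneg_right ?_ (by positivity)
          exact pow_le_pow_left₀ (by positivity) hcs 2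
      _ = 1 / 8 := by field_simp
  have h8 : Real.sin ((2 * Real.pi * (ξ : ℝ) * x / 2 ^ K) / 2) ^ 2 ≤ 1 / 8 := by
    rw [← sq_abs]
    exact (pow_le_pow_left₀ (abs_nonneg _) h6 2).trans h7
  have h9 := one_sub_cos_Bohr (2 * Real.pi * (ξ : ℝ) * x / 2 ^ K)
  unfold co
  linarith

private theorem fac_Bohr (K m0 : ℕ) (d x : ℤ) : 0 ≤ ((1 + co K d x) / 2) ^ m0 ∧ ((1 + co K d x) / 2) ^ m0 ≤ 1 := by
  have h1 := Real.neg_one_le_cos (2 * Real.pi * d * x / 2 ^ K)
  have h2 := Real.cos_le_one (2 * Real.pi * d * x / 2 ^ K)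
  unfold co
  exact ⟨by apply pow_nonneg; linarith, pow_le_one₀ (by linarith) (by linarith)⟩

private theorem ker_Bohr (K m0 : ℕ) (D : Finset ℕ) (x : ℤ) : 0 ≤ ker K m0 D x ∧ ker K m0 D x ≤ 1 := by
  unfold ker
  exact ⟨Finset.prod_nonneg fun d _ => (fac_Bohr K m0 d x).1,
    Finset.prod_le_one (fun d _ => (fac_Bohr K m0 d x).1) (fun d _ => (fac_Bohr K m0 d x).2)⟩

/-- the bad case -/
private theorem bad_Bohr (K m0 s : ℕ) (D : Finset ℕ) (x : ℤ) (hs : 1 ≤ s) (d : ℕ) (hd : d ∈ D)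
    (hb : 1 / (4 * (s : ℝ) ^ 2) < 1 - co K d x) : ker K m0 D x ≤ Real.exp (-(m0 : ℝ) / (8 * s ^ 2)) := by
  classical
  have hs0 : (0 : ℝ) < s := by exact_mod_cast hs
  have h1 : ker K m0 D x ≤ ((1 + co K d x) / 2) ^ m0 := by
    unfold ker
    rw [← Finset.mul_prod_erase D _ hd]
    have h2 : ∏ e ∈ D.erase d, ((1 + co K e x) / 2) ^ m0 ≤ 1 :=
      Finset.prod_le_one (fun d _ => (fac_Bohr K m0 d x).1) (fun d _ => (fac_Bohr K m0 d x).2)
    exact mul_le_of_le_one_right (fac_Bohr K m0 d x).1 h2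
  refine h1.trans ?_
  have h3 : (1 + co K d x) / 2 ≤ Real.exp (-(1 / (8 * (s : ℝ) ^ 2))) := by
    have h4 := Real.add_one_le_exp (-(1 / (8 * (s : ℝ) ^ 2)))
    have h7 : (1 : ℝ) / (4 * (s : ℝ) ^ 2) = 2 * (1 / (8 * (s : ℝ) ^ 2)) := by
      field_simp
      norm_num
    rw [h7] at hb
    linarith
  have h5 : 0 ≤ (1 + co K d x) / 2 := by
    have h1 := Real.neg_one_le_cos (2 * Real.pi * (d : ℤ) * x / 2 ^ K)
    unfold co
    linarith
  calc ((1 + co K d x) / 2) ^ m0 ≤ (Real.exp (-(1 / (8 * (s : ℝ) ^ 2)))) ^ m0 :=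
        pow_le_pow_left₀ h5 h3 m0
    _ = Real.exp (-(m0 : ℝ) / (8 * s ^ 2)) := by
        rw [← Real.exp_nat_mul]
        congr 1
        ring

theorem m_Bohr : St_Bohr := by
  intro K m0 s D D' ξ hs hD hc hξ hE
  set E := Real.exp (-(m0 : ℝ) / (8 * s ^ 2)) with hEdef
  have hE0 : 0 < E := Real.exp_pos _
  have key : ∀ x : ℕ, 3 / 4 * ker K m0 D x - 7 / 4 * E ≤ ker K m0 D x * co K ξ x := by
    intro x
    obtain ⟨k0, k1⟩ := ker_Bohr K m0 D x
    by_cases hg : ∀ d ∈ D', 1 - co K d x ≤ 1 / (4 * (s : ℝ) ^ 2)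
    · have := good_Bohr K s D' ξ x hs hc hξ hg
      nlinarith
    · push Not at hg
      obtain ⟨d, hd, hb⟩ := hg
      have h1 := bad_Bohr K m0 s D x hs d (hD hd) hb
      have h2 := Real.neg_one_le_cos (2 * Real.pi * (ξ : ℝ) * ((x : ℤ) : ℝ) / 2 ^ K)
      have h3 : -1 ≤ co K ξ x := h2
      rw [← hEdef] at h1
      nlinarith
  have hP : (0 : ℝ) < 2 ^ K := by positivity
  have h1 : 3 / 4 * av K (fun x => ker K m0 D x) - 7 / 4 * E ≤
      av K (fun x => ker K m0 D x * co K ξ x) := by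
    unfold av
    rw [le_div_iff₀ hP]
    have h2 : (3 / 4 * ((∑ x ∈ range (2 ^ K), ker K m0 D x) / 2 ^ K) - 7 / 4 * E) * 2 ^ K =
        ∑ x ∈ range (2 ^ K), (3 / 4 * ker K m0 D x - 7 / 4 * E) := by
      rw [Finset.sum_sub_distrib, ← Finset.mul_sum, Finset.sum_const, card_range, nsmul_eq_mul]
      push_cast
      field_simp
    rw [h2]
    exact Finset.sum_le_sum fun x _ => key x
  linarith

end Pool.Agent.Helper57.SN
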