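import Pool.Agent.Helper57.SN.StA

set_option autoImplicit false

open Finset

namespace Pool.Agent.Helper57.SN

private theorem even_Car (K a : ℕ) (h : ℤ) : pre K a (-h) = pre K a h := by
  unfold pre gre
  have h1 : 2 * Real.pi * ((-h : ℤ) : ℝ) / 2 ^ K = -(2 * Real.pi * (h : ℝ) / 2 ^ K) := by
    push_cast; ring
  rw [h1, Real.cos_neg]

private theorem abs_Car (K a : ℕ) (h : ℤ) : pre K a |h| = pre K a h := by
  rcases abs_choice h with h1 | h1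
  · rw [h1]
  · rw [h1, even_Car]

theorem m_Car (h1 : St_GL) (h2 : St_GLmono) (h4 : St_orth) : St_Car := by
  intro K a b Ω M hG hK
  obtain ⟨μ, hμ0, hμ1, hμ⟩ := h1 K a hK
  obtain ⟨hmono, hgap⟩ := h2 K a hK
  obtain ⟨-, -, -, -, hprod⟩ := h4 K
  -- the average of the square
  have hsq : ∀ s : ℕ, SS K b Ω s ^ 2 =
      ∑ γ ∈ Ω, ∑ ξ ∈ Ω, b γ * b ξ * ((co K ((γ : ℤ) - ξ) s - co K ((γ : ℤ) + ξ) s) / 2) := by
    intro s
    unfold SS
    rw [sq, Finset.sum_mul_sum]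
    refine Finset.sum_congr rfl fun γ _ => Finset.sum_congr rfl fun ξ _ => ?_
    rw [← hprod]
    ring
  have hav : ∑ s ∈ range (2 ^ K), μ s * SS K b Ω s ^ 2 =
      ∑ γ ∈ Ω, ∑ ξ ∈ Ω, b γ * b ξ * ((pre K a ((γ : ℤ) - ξ) - pre K a ((γ : ℤ) + ξ)) / 2) := by
    simp_rw [hsq, Finset.mul_sum]
    rw [Finset.sum_comm]
    refine Finset.sum_congr rfl fun γ _ => ?_
    rw [Finset.sum_comm]
    refine Finset.sum_congr rfl fun ξ _ => ?_
    rw [← (hμ _).1, ← (hμ _).1, ← Finset.sum_sub_distrib, Finset.sum_div, Finset.mul_sum]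
    refine Finset.sum_congr rfl fun s _ => ?_
    ring
  have hle : ∑ s ∈ range (2 ^ K), μ s * SS K b Ω s ^ 2 ≤ 1 := by
    rw [← hμ1]
    refine Finset.sum_le_sum fun s _ => ?_
    have h5 : SS K b Ω s ^ 2 ≤ 1 := by
      have h6 := abs_le.1 (hG.bdd s)
      nlinarith [h6.1, h6.2]
    nlinarith [hμ0 s]
  -- every term is nonnegative, those of close pairs are large
  have hterm : ∀ γ ∈ Ω, ∀ ξ ∈ Ω,
      0 ≤ b γ * b ξ * ((pre K a ((γ : ℤ) - ξ) - pre K a ((γ : ℤ) + ξ)) / 2) := by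
    intro γ hγ ξ hξ
    have h5 := hG.small γ hγ
    have h6 := hG.small ξ hξ
    have h7 : 2 * ((γ : ℤ) + ξ) ≤ 2 ^ K := by
      have : 2 * (γ + ξ) ≤ 2 ^ K := by omega
      exact_mod_cast this
    have h8 : |(γ : ℤ) - ξ| ≤ γ + ξ := by
      rw [abs_le]; constructor <;> omega
    have h9 := hmono |(γ : ℤ) - ξ| (γ + ξ) (abs_nonneg _) h8 h7
    rw [abs_Car] at h9
    have := hG.b0 γ hγ
    have := hG.b0 ξ hξ
    have : 0 ≤ pre K a ((γ : ℤ) - ξ) - pre K a ((γ : ℤ) + ξ) := by linarith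
    positivity
  have hbig : ∀ γ ∈ Ω, ∀ ξ ∈ Ω, 2 ^ a ≤ γ → 2 ^ a ≤ ξ → |(γ : ℤ) - ξ| ≤ (2 ^ a : ℕ) →
      b γ * b ξ ≤ 16 * (b γ * b ξ * ((pre K a ((γ : ℤ) - ξ) - pre K a ((γ : ℤ) + ξ)) / 2)) := by
    intro γ hγ ξ hξ hγa hξa hclose
    have h5 := hG.small γ hγ
    have h6 := hG.small ξ hξ
    have h7 : 2 * ((γ : ℤ) + ξ) ≤ 2 ^ K := by
      have : 2 * (γ + ξ) ≤ 2 ^ K := by omega
      exact_mod_cast this
    have h8 : (2 : ℤ) ^ (a + 1) ≤ γ + ξ := by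
      have : 2 ^ (a + 1) ≤ γ + ξ := by rw [pow_succ]; omega
      exact_mod_cast this
    have h9 : |(γ : ℤ) - ξ| ≤ 2 ^ a := by exact_mod_cast hclose
    have h10 := hgap |(γ : ℤ) - ξ| (γ + ξ) (abs_nonneg _) h9 h8 h7
    rw [abs_Car] at h10
    have h11 := hG.b0 γ hγ
    have h12 := hG.b0 ξ hξ
    have h13 : 0 ≤ b γ * b ξ := mul_nonneg h11 h12
    nlinarith
  have hpm : pm b {ω ∈ Ω | 2 ^ a ≤ ω} (2 ^ a) ≤
      16 * ∑ γ ∈ Ω, ∑ ξ ∈ Ω, b γ * b ξ * ((pre K a ((γ : ℤ) - ξ) - pre K a ((γ : ℤ) + ξ)) / 2) := by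
    unfold pm
    rw [Finset.mul_sum, Finset.sum_filter]
    refine Finset.sum_le_sum fun γ hγ => ?_
    split_ifs with hγa
    · rw [Finset.mul_sum, Finset.sum_filter]
      refine Finset.sum_le_sum fun ξ hξ => ?_
      have h5 := hterm γ hγ ξ hξ
      split_ifs with hξa hc
      · exact hbig γ hγ ξ hξ hγa hξa hc
      · linarith
      · linarith
    · have h5 : 0 ≤ ∑ ξ ∈ Ω, b γ * b ξ *
          ((pre K a ((γ : ℤ) - ξ) - pre K a ((γ : ℤ) + ξ)) / 2) :=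
        Finset.sum_nonneg fun ξ hξ => hterm γ hγ ξ hξ
      linarith
  rw [← hav] at hpm
  linarith

end Pool.Agent.Helper57.SN
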