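import Pool.Agent.Helper57.SN.StA

set_option autoImplicit false

open Finset

namespace Pool.Agent.Helper57.SN

theorem m_CarFam (h : St_Car) : St_CarFam := by
  intro K H T b Ω a Om B G M hG hF hH c hc
  have hlv := hF.lv
  have h1 := h K (a c) b Ω M hG (by have := (hlv c hc).aK; omega)
  refine le_trans ?_ h1
  -- membership
  have hmem : ∀ l ∈ Ioo c T, ∀ ξ ∈ Om l, ξ ∈ ({ω ∈ Ω | 2 ^ (a c) ≤ ω} : Finset ℕ) := by
    intro l hl ξ hξ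
    rw [Finset.mem_Ioo] at hl
    refine Finset.mem_filter.2 ⟨hF.sub l hl.2 hξ, ?_⟩
    have h2 := (hlv l hl.2).lo ξ hξ
    have h3 := hF.sep c l hl.1 hl.2
    have h4 : 2 ^ (a c + 1) ≤ 2 ^ (a l) := Nat.pow_le_pow_right (by norm_num) (by omega)
    rw [pow_succ] at h4
    omega
  have hdisj' : ∀ l l' : ℕ, l < l' → l' < T → Disjoint (Om l) (Om l') := by
    intro l l' hll hl'
    rw [Finset.disjoint_left]
    intro ξ hξ hξ'
    have h2 := (hlv l (hll.trans hl')).hi ξ hξ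
    have h3 := (hlv l' hl').lo ξ hξ'
    have h4 := hF.sep l l' hll hl'
    have h5 : 2 ^ (a l + 3) ≤ 2 ^ (a l') := Nat.pow_le_pow_right (by norm_num) (by omega)
    have h6 : 2 ^ (a l + 3) = 2 * 2 ^ (a l + 2) := by rw [pow_succ]; ring
    omega
  have hdisj : Set.PairwiseDisjoint (↑(Ioo c T) : Set ℕ) Om := by
    intro l hl l' hl' hne
    rw [Finset.coe_Ioo] at hl hl'
    rcases lt_or_gt_of_ne hne with h2 | h2
    · exact hdisj' l l' h2 hl'.2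
    · exact (hdisj' l' l h2 hl.2).symm
  set U : Finset ℕ := {ω ∈ Ω | 2 ^ (a c) ≤ ω} with hU
  set A : ℕ := 2 ^ (a c) with hA
  have hb : ∀ ω ∈ U, 0 ≤ b ω := fun ω hω => hG.b0 ω (Finset.mem_filter.1 hω).1
  set f : ℕ → ℕ → ℝ := fun γ ξ => if |(γ : ℤ) - ξ| ≤ A then b γ * b ξ else 0 with hf
  have hf0 : ∀ γ ∈ U, ∀ ξ ∈ U, 0 ≤ f γ ξ := by
    intro γ hγ ξ hξ
    rw [hf]
    simp only
    split_ifs
    · exact mul_nonneg (hb γ hγ) (hb ξ hξ)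
    · exact le_rfl
  show ∑ l ∈ Ioo c T, ∑ γ ∈ Om l, ∑ ξ ∈ Om l, f γ ξ ≤ ∑ γ ∈ U, ∑ ξ ∈ U, f γ ξ
  calc ∑ l ∈ Ioo c T, ∑ γ ∈ Om l, ∑ ξ ∈ Om l, f γ ξ
      ≤ ∑ l ∈ Ioo c T, ∑ γ ∈ Om l, ∑ ξ ∈ U, f γ ξ := by
        refine Finset.sum_le_sum fun l hl => Finset.sum_le_sum fun γ hγ => ?_
        exact Finset.sum_le_sum_of_subset_of_nonneg (fun ξ hξ => hmem l hl ξ hξ)
          fun ξ hξ _ => hf0 γ (hmem l hl γ hγ) ξ hξ
    _ = ∑ γ ∈ (Ioo c T).biUnion Om, ∑ ξ ∈ U, f γ ξ := (Finset.sum_biUnion hdisj).symm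
    _ ≤ ∑ γ ∈ U, ∑ ξ ∈ U, f γ ξ := by
        refine Finset.sum_le_sum_of_subset_of_nonneg ?_ fun γ hγ _ =>
          Finset.sum_nonneg fun ξ hξ => hf0 γ hγ ξ hξ
        intro γ hγ
        obtain ⟨l, hl, hγl⟩ := Finset.mem_biUnion.1 hγ
        exact hmem l hl γ hγl

end Pool.Agent.Helper57.SN
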