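import Pool.Agent.Helper57.SN.StC

/-!
# Project SN, module Cheb: Chebyshev inequality for weighted samples
-/

set_option autoImplicit false

open Finset

namespace Pool.Agent.Helper57.SN

/-- Weighted sums over tuples factor. -/
private theorem sum_tup_Cheb (s : ℕ) (S : Finset ℕ) (h : Fin s → ℕ → ℝ) :
    ∑ d ∈ Fintype.piFinset (fun _ : Fin s => S), ∏ k, h k (d k) = ∏ k, ∑ ξ ∈ S, h k ξ :=
  (Finset.prod_univ_sum (fun _ : Fin s => S) h).symm

theorem m_Cheb : St_Cheb := by
  classical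
  intro s S b y κ β hs hb hy hβ hβ0 hκ h40 hlt
  set μ : ℝ := (∑ ξ ∈ S, b ξ * y ξ) / β with hμ
  have hμκ : κ / β < μ := by
    rw [hμ]
    exact div_lt_div_of_pos_right hlt hβ0
  set z : ℕ → ℝ := fun ξ => y ξ - μ with hz
  have hz0 : ∑ ξ ∈ S, b ξ * z ξ = 0 := by
    simp only [hz, mul_sub]
    rw [Finset.sum_sub_distrib, ← Finset.sum_mul, hβ, hμ]
    field_simp
    ring
  have hz2 : ∑ ξ ∈ S, b ξ * z ξ ^ 2 ≤ β := by
    have h1 : ∑ ξ ∈ S, b ξ * z ξ ^ 2 = ∑ ξ ∈ S, b ξ * y ξ ^ 2 - β * μ ^ 2 := by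
      have h2 : ∀ ξ, b ξ * z ξ ^ 2 = b ξ * y ξ ^ 2 - 2 * μ * (b ξ * z ξ) - b ξ * μ ^ 2 := by
        intro ξ
        simp only [hz]
        ring
      simp only [h2]
      rw [Finset.sum_sub_distrib, Finset.sum_sub_distrib, ← Finset.mul_sum, hz0, ← Finset.sum_mul,
        hβ]
      ring
    rw [h1]
    have h3 : ∑ ξ ∈ S, b ξ * y ξ ^ 2 ≤ ∑ ξ ∈ S, b ξ := by
      refine Finset.sum_le_sum fun ξ hξ => ?_
      have h4 : y ξ ^ 2 ≤ 1 := by
        have := sq_le_one_iff_abs_le_one (y ξ)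
        exact this.2 (hy ξ)
      nlinarith [hb ξ hξ]
    have h5 : 0 ≤ β * μ ^ 2 := by positivity
    linarith
  set Q := Fintype.piFinset (fun _ : Fin s => S) with hQ
  have hbd : ∀ d ∈ Q, 0 ≤ ∏ k, b (d k) := by
    intro d hd
    exact Finset.prod_nonneg fun k _ => hb _ (Fintype.mem_piFinset.1 hd k)
  have htot : ∑ d ∈ Q, ∏ k, b (d k) = β ^ s := by
    rw [hQ, sum_tup_Cheb s S (fun _ => b)]
    simp [hβ]
  -- second moment
  have hpair : ∀ i j : Fin s, ∑ d ∈ Q, (∏ k, b (d k)) * (z (d i) * z (d j)) =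
      if i = j then (∑ ξ ∈ S, b ξ * z ξ ^ 2) * β ^ (s - 1) else 0 := by
    intro i j
    have h1 : ∀ d : Fin s → ℕ, (∏ k, b (d k)) * (z (d i) * z (d j)) =
        ∏ k, b (d k) * ((if k = i then z (d k) else 1) * (if k = j then z (d k) else 1)) := by
      intro d
      rw [Finset.prod_mul_distrib, Finset.prod_mul_distrib, Finset.prod_ite_eq',
        Finset.prod_ite_eq', if_pos (Finset.mem_univ _), if_pos (Finset.mem_univ _)]
    simp only [h1]
    rw [hQ, sum_tup_Cheb s S (fun k ξ => b ξ * ((if k = i then z ξ else 1) *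
      (if k = j then z ξ else 1)))]
    split_ifs with hij
    · subst hij
      rw [← Finset.mul_prod_erase _ _ (Finset.mem_univ i)]
      congr 1
      · refine Finset.sum_congr rfl fun ξ _ => ?_
        simp only [if_true]
        ring
      · rw [Finset.prod_congr rfl (g := fun _ => β), Finset.prod_const,
          Finset.card_erase_of_mem (Finset.mem_univ i), Finset.card_univ, Fintype.card_fin]
        intro k hk
        have hk' : k ≠ i := Finset.ne_of_mem_erase hk
        simp only [if_neg hk', mul_one]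
        exact hβ
    · refine Finset.prod_eq_zero (Finset.mem_univ i) ?_
      rw [← hz0]
      refine Finset.sum_congr rfl fun ξ _ => ?_
      rw [if_pos rfl, if_neg hij, mul_one]
  have hsec : ∑ d ∈ Q, (∏ k, b (d k)) * (∑ i, z (d i)) ^ 2 ≤ s * β ^ s := by
    have h1 : ∀ d : Fin s → ℕ, (∏ k, b (d k)) * (∑ i, z (d i)) ^ 2 =
        ∑ i, ∑ j, (∏ k, b (d k)) * (z (d i) * z (d j)) := by
      intro d
      rw [sq, Finset.sum_mul_sum, Finset.mul_sum]
      refine Finset.sum_congr rfl fun i _ => ?_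
      rw [Finset.mul_sum]
    simp only [h1]
    rw [Finset.sum_comm]
    have h2 : ∀ i : Fin s, ∑ d ∈ Q, ∑ j, (∏ k, b (d k)) * (z (d i) * z (d j)) =
        (∑ ξ ∈ S, b ξ * z ξ ^ 2) * β ^ (s - 1) := by
      intro i
      rw [Finset.sum_comm]
      simp only [hpair]
      rw [Finset.sum_ite_eq, if_pos (Finset.mem_univ _)]
    simp only [h2]
    rw [Finset.sum_const, Finset.card_univ, Fintype.card_fin, nsmul_eq_mul]
    refine mul_le_mul_of_nonneg_left ?_ (Nat.cast_nonneg s)
    calc (∑ ξ ∈ S, b ξ * z ξ ^ 2) * β ^ (s - 1) ≤ β * β ^ (s - 1) :=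
          mul_le_mul_of_nonneg_right hz2 (by positivity)
      _ = β ^ s := by
          rw [← pow_succ', Nat.sub_add_cancel hs]
  -- Chebyshev
  set P : (Fin s → ℕ) → Prop := fun d => s * (κ / (2 * β)) ≤ ∑ i, y (d i) with hP
  have hspos : (0 : ℝ) < s := by exact_mod_cast hs
  have hbad : ∀ d ∈ Q, ¬ P d → (∏ k, b (d k)) * (s * (κ / (2 * β))) ^ 2 ≤
      (∏ k, b (d k)) * (∑ i, z (d i)) ^ 2 := by
    intro d hd hPd
    refine mul_le_mul_of_nonneg_left ?_ (hbd d hd)
    simp only [hP, not_le] at hPd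
    have h1 : ∑ i, z (d i) = ∑ i, y (d i) - s * μ := by
      simp only [hz]
      rw [Finset.sum_sub_distrib, Finset.sum_const, Finset.card_univ, Fintype.card_fin,
        nsmul_eq_mul]
    have h2 : κ / (2 * β) = κ / β / 2 := by
      field_simp
    have h3 : s * (κ / (2 * β)) ≤ -(∑ i, z (d i)) := by
      rw [h1]
      rw [h2] at hPd ⊢
      nlinarith
    have h4 : 0 ≤ s * (κ / (2 * β)) := by positivity
    nlinarith
  have h5 : ∑ d ∈ Q, (if P d then 0 else ∏ k, b (d k)) ≤ 1 / 10 * β ^ s := by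
    have h6 : (∑ d ∈ Q, (if P d then 0 else ∏ k, b (d k))) * (s * (κ / (2 * β))) ^ 2 ≤
        s * β ^ s := by
      refine le_trans ?_ hsec
      rw [Finset.sum_mul]
      refine Finset.sum_le_sum fun d hd => ?_
      split_ifs with h7
      · rw [zero_mul]
        exact mul_nonneg (hbd d hd) (sq_nonneg _)
      · exact hbad d hd h7
    have h8 : (10 : ℝ) * s ≤ (s * (κ / (2 * β))) ^ 2 := by
      have h9 : (s * (κ / (2 * β))) ^ 2 = s * (s * κ ^ 2) / (4 * β ^ 2) := by
        field_simp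
        ring
      rw [h9, le_div_iff₀ (by positivity)]
      nlinarith
    have h10 : 0 ≤ ∑ d ∈ Q, (if P d then 0 else ∏ k, b (d k)) :=
      Finset.sum_nonneg fun d hd => by
        split_ifs
        · exact le_rfl
        · exact hbd d hd
    have h11 : (∑ d ∈ Q, (if P d then 0 else ∏ k, b (d k))) * (10 * s) ≤ s * β ^ s :=
      (mul_le_mul_of_nonneg_left h8 h10).trans h6
    nlinarith
  have h12 : ∑ d ∈ Q, (if P d then ∏ k, b (d k) else 0) +
      ∑ d ∈ Q, (if P d then 0 else ∏ k, b (d k)) = β ^ s := by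
    rw [← htot, ← Finset.sum_add_distrib]
    refine Finset.sum_congr rfl fun d _ => ?_
    split_ifs <;> simp
  have h13 : 9 / 10 * β ^ s ≤ ∑ d ∈ Q, (if P d then ∏ k, b (d k) else 0) := by linarith
  refine h13.trans (le_of_eq ?_)
  refine Finset.sum_congr rfl fun d _ => ?_
  simp only [hP]

end Pool.Agent.Helper57.SN
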