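import Pool.Agent.Helper57.SN.StC

/-! # Project SN, module Dis: random tuples are dissociated -/

set_option autoImplicit false

open Finset

namespace Pool.Agent.Helper57.SN

/-- A tuple with a relation has an element in the span of the previous ones. -/
private theorem rel_Dis {s : ℕ} (d : Fin s → ℕ) (h : ¬ Dis d) :
    ∃ i : Fin s, Spn 1 ((univ.filter (· < i)).image d) (d i : ℤ) := by
  classical
  set P : Fin s → Prop := fun i => ∃ ε : Fin s → ℤ, (∀ j, |ε j| ≤ 1) ∧
    ∑ j, ε j * (d j : ℤ) = 0 ∧ ε i ≠ 0 ∧ ∀ j, i < j → ε j = 0 with hP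
  have hex : ∃ i, P i := by
    unfold Dis at h
    push Not at h
    obtain ⟨ε, h1, h2, i0, h3⟩ := h
    set Z := univ.filter (fun j => ε j ≠ 0) with hZ
    have hZn : Z.Nonempty := ⟨i0, by simp [hZ, h3]⟩
    refine ⟨Z.max' hZn, ε, h1, h2, ?_, fun j hj => ?_⟩
    · have hmem : ∀ x ∈ Z, ε x ≠ 0 := fun x hx => (Finset.mem_filter.1 hx).2
      exact hmem _ (Z.max'_mem hZn)
    · by_contra hne
      have hjZ : j ∈ Z := by simp [hZ, hne]
      exact absurd (Z.le_max' j hjZ) (not_le.2 hj)
  obtain ⟨i, hi, hmin⟩ : ∃ i, P i ∧ ∀ k < i, ¬ P k := by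
    have hwf : WellFounded ((· < ·) : Fin s → Fin s → Prop) := wellFounded_lt
    refine ⟨hwf.min {i | P i} hex, hwf.min_mem {i | P i} hex, fun k hk hPk => ?_⟩
    exact hwf.not_lt_min {i | P i} (x := k) hPk hk
  obtain ⟨ε, h1, h2, h3, h4⟩ := hi
  have hinj : ∀ j k, j < i → k < i → j < k → d j ≠ d k := by
    intro j k hj hk hjk hd
    apply hmin k hk
    refine ⟨fun l => if l = j then 1 else if l = k then -1 else 0, fun l => ?_, ?_, ?_, ?_⟩
    · dsimp only
      split_ifs <;> simp
    · have h5 : ∀ l, (if l = j then (1 : ℤ) else if l = k then -1 else 0) * (d l : ℤ) =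
          (if l = j then (d j : ℤ) else 0) + (if l = k then -(d k : ℤ) else 0) := by
        intro l
        by_cases hl : l = j
        · subst hl
          have : l ≠ k := hjk.ne
          simp [this]
        · by_cases hl2 : l = k
          · subst hl2
            simp [hl]
          · simp [hl, hl2]
      simp only [h5]
      rw [Finset.sum_add_distrib, Finset.sum_ite_eq' univ j, Finset.sum_ite_eq' univ k]
      simp [hd]
    · have : k ≠ j := hjk.ne'
      simp [this]
    · intro l hl
      have h6 : l ≠ k := hl.ne'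
      have h7 : l ≠ j := (hjk.trans hl).ne'
      simp [h6, h7]
  refine ⟨i, fun x => ∑ j ∈ (univ.filter (· < i)).filter (fun j => d j = x), -(ε i * ε j),
    fun x => ?_, ?_⟩
  · have h5 : ((univ.filter (· < i)).filter (fun j => d j = x)).card ≤ 1 := by
      rw [Finset.card_le_one]
      intro a ha b hb
      simp only [Finset.mem_filter, Finset.mem_univ, true_and] at ha hb
      rcases lt_trichotomy a b with h | h | h
      · exact absurd (ha.2.trans hb.2.symm) (hinj a b ha.1 hb.1 h)
      · exact h
      · exact absurd (hb.2.trans ha.2.symm) (hinj b a hb.1 ha.1 h)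
    refine (Finset.abs_sum_le_sum_abs _ _).trans ?_
    refine (Finset.sum_le_card_nsmul _ _ 1 fun j _ => ?_).trans ?_
    · rw [abs_neg, abs_mul]
      have := h1 i
      have := h1 j
      nlinarith [abs_nonneg (ε i), abs_nonneg (ε j)]
    · rw [nsmul_eq_mul, mul_one]
      exact_mod_cast h5
  · have hεi : ε i * ε i = 1 := by
      have h5 := h1 i
      rw [abs_le] at h5
      have h6 : ε i = 1 ∨ ε i = -1 := by omega
      rcases h6 with h6 | h6 <;> rw [h6] <;> norm_num
    have h5 : ∑ x ∈ (univ.filter (· < i)).image d,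
        (∑ j ∈ (univ.filter (· < i)).filter (fun j => d j = x), -(ε i * ε j)) * (x : ℤ) =
        ∑ j ∈ univ.filter (· < i), -(ε i * ε j) * (d j : ℤ) := by
      rw [← Finset.sum_fiberwise_of_maps_to (s := univ.filter (· < i))
        (t := (univ.filter (· < i)).image d) (g := d)
        (fun a ha => Finset.mem_image_of_mem _ ha)]
      refine Finset.sum_congr rfl fun x _ => ?_
      rw [Finset.sum_mul]
      refine Finset.sum_congr rfl fun j hj => ?_
      rw [(Finset.mem_filter.1 hj).2]
    rw [h5]
    have h6 : ∑ j, ε j * (d j : ℤ) = ∑ j ∈ univ.filter (· < i), ε j * (d j : ℤ) +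
        ε i * (d i : ℤ) := by
      rw [← Finset.sum_filter_add_sum_filter_not univ (· < i)]
      congr 1
      refine (Finset.sum_eq_single i ?_ ?_)
      · intro j hj hji
        rw [Finset.mem_filter] at hj
        have : i < j := lt_of_le_of_ne (not_lt.1 hj.2) (Ne.symm hji)
        rw [h4 j this, zero_mul]
      · intro hni
        exact absurd (by simp) hni
    rw [h6] at h2
    have h7 : ∑ j ∈ univ.filter (· < i), -(ε i * ε j) * (d j : ℤ) =
        -(ε i) * ∑ j ∈ univ.filter (· < i), ε j * (d j : ℤ) := by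
      rw [Finset.mul_sum]
      refine Finset.sum_congr rfl fun j _ => by ring
    rw [h7, show ∑ j ∈ univ.filter (· < i), ε j * (d j : ℤ) = -(ε i * (d i : ℤ)) by linarith]
    linear_combination (-(d i : ℤ)) * hεi

/-- The set of the previous elements does not depend on the element. -/
private theorem img_Dis {m : ℕ} (i : Fin (m + 1)) (x : ℕ) (e : Fin m → ℕ) :
    (univ.filter (· < i)).image (i.insertNth x e : Fin (m + 1) → ℕ) =
      (univ.filter (fun j => i.succAbove j < i)).image e := by
  classical
  ext y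
  simp only [Finset.mem_image, Finset.mem_filter, Finset.mem_univ, true_and]
  constructor
  · rintro ⟨k, hk, rfl⟩
    obtain ⟨j, rfl⟩ := Fin.exists_succAbove_eq hk.ne
    exact ⟨j, hk, by rw [Fin.insertNth_apply_succAbove]⟩
  · rintro ⟨j, hj, rfl⟩
    exact ⟨i.succAbove j, hj, by rw [Fin.insertNth_apply_succAbove]⟩

open Classical in
/-- One index. -/
private theorem one_Dis (m : ℕ) (S : Finset ℕ) (b : ℕ → ℝ) (τ β : ℝ)
    (hb : ∀ ξ ∈ S, 0 ≤ b ξ) (hβ : ∑ ξ ∈ S, b ξ = β)
    (hst : ∀ D ⊆ S, D.card < m + 1 → stm b S D ≤ τ) (i : Fin (m + 1)) :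
    ∑ d ∈ Fintype.piFinset (fun _ : Fin (m + 1) => S),
      (if Spn 1 ((univ.filter (· < i)).image d) (d i : ℤ) then ∏ j, b (d j) else 0) ≤
        τ * β ^ m := by
  have h1 : ∑ d ∈ Fintype.piFinset (fun _ : Fin (m + 1) => S),
      (if Spn 1 ((univ.filter (· < i)).image d) (d i : ℤ) then ∏ j, b (d j) else 0) =
      ∑ p ∈ (Fintype.piFinset (fun _ : Fin m => S)) ×ˢ S,
        (if Spn 1 ((univ.filter (fun j => i.succAbove j < i)).image p.1) (p.2 : ℤ) then
          b p.2 * ∏ j, b (p.1 j) else 0) := by
    refine Finset.sum_bij' (fun d _ => (i.removeNth d, d i)) (fun p _ => i.insertNth p.2 p.1)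
      ?_ ?_ ?_ ?_ ?_
    · intro d hd
      rw [Fintype.mem_piFinset] at hd
      rw [Finset.mem_product, Fintype.mem_piFinset]
      exact ⟨fun j => hd _, hd _⟩
    · intro p hp
      rw [Finset.mem_product, Fintype.mem_piFinset] at hp
      rw [Fintype.mem_piFinset]
      intro j
      rcases Fin.eq_self_or_eq_succAbove i j with h | ⟨l, h⟩
      · rw [h, Fin.insertNth_apply_same]
        exact hp.2
      · rw [h, Fin.insertNth_apply_succAbove]
        exact hp.1 l
    · intro d hd
      simp
    · intro p hp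
      simp
    · intro d hd
      have h2 : (univ.filter (· < i)).image d =
          (univ.filter (fun j => i.succAbove j < i)).image (i.removeNth d) := by
        have h3 := img_Dis i (d i) (i.removeNth d)
        rwa [Fin.insertNth_self_removeNth] at h3
      rw [h2, Fin.prod_univ_succAbove _ i]
      rfl
  rw [h1, Finset.sum_product]
  have h4 : ∀ e ∈ Fintype.piFinset (fun _ : Fin m => S),
      ∑ x ∈ S, (if Spn 1 ((univ.filter (fun j => i.succAbove j < i)).image e) (x : ℤ) then
          b x * ∏ j, b (e j) else 0) ≤ τ * ∏ j, b (e j) := by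
    intro e he
    rw [Fintype.mem_piFinset] at he
    have h5 : ∑ x ∈ S, (if Spn 1 ((univ.filter (fun j => i.succAbove j < i)).image e) (x : ℤ) then
          b x * ∏ j, b (e j) else 0) =
          stm b S ((univ.filter (fun j => i.succAbove j < i)).image e) * ∏ j, b (e j) := by
      rw [stm, Finset.sum_mul]
      refine Finset.sum_congr rfl fun x _ => ?_
      split_ifs
      · rfl
      · rw [zero_mul]
    rw [h5]
    apply mul_le_mul_of_nonneg_right
    · apply hst
      · intro y hy
        rw [Finset.mem_image] at hy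
        obtain ⟨j, -, rfl⟩ := hy
        exact he j
      · refine Nat.lt_succ_of_le ((Finset.card_image_le).trans ((Finset.card_le_univ _).trans ?_))
        rw [Fintype.card_fin]
    · exact Finset.prod_nonneg fun j _ => hb _ (he j)
  refine (Finset.sum_le_sum h4).trans (le_of_eq ?_)
  rw [← Finset.mul_sum]
  congr 1
  have h6 := Finset.prod_univ_sum (fun _ : Fin m => S) (fun _ x => b x)
  rw [← h6, hβ, Finset.prod_const, Finset.card_univ, Fintype.card_fin]

theorem m_Dis : St_Dis := by
  classical
  intro s S b τ β hs hb hβ hst hτ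
  obtain ⟨m, rfl⟩ := Nat.exists_eq_add_of_le' hs
  have hβ0 : 0 ≤ β := hβ ▸ Finset.sum_nonneg hb
  have h1 : ∀ d ∈ Fintype.piFinset (fun _ : Fin (m + 1) => S),
      (if Dis d then 0 else ∏ i, b (d i)) ≤ ∑ i : Fin (m + 1),
        (if Spn 1 ((univ.filter (· < i)).image d) (d i : ℤ) then ∏ j, b (d j) else 0) := by
    intro d hd
    rw [Fintype.mem_piFinset] at hd
    have hp : 0 ≤ ∏ j, b (d j) := Finset.prod_nonneg fun j _ => hb _ (hd j)
    have hnn : ∀ i ∈ (univ : Finset (Fin (m + 1))),
        0 ≤ (if Spn 1 ((univ.filter (· < i)).image d) (d i : ℤ) then ∏ j, b (d j) else 0) := by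
      intro i _
      split_ifs
      · exact hp
      · exact le_rfl
    split_ifs with h
    · exact Finset.sum_nonneg hnn
    · obtain ⟨i, hi⟩ := rel_Dis d h
      refine le_trans ?_ (Finset.single_le_sum hnn (Finset.mem_univ i))
      rw [if_pos hi]
  refine (Finset.sum_le_sum h1).trans ?_
  rw [Finset.sum_comm]
  refine (Finset.sum_le_card_nsmul _ _ _ fun i _ => one_Dis m S b τ β hb hβ hst i).trans ?_
  rw [Finset.card_univ, Fintype.card_fin, nsmul_eq_mul, pow_succ]
  have h2 : 0 ≤ β ^ m := pow_nonneg hβ0 m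
  nlinarith

end Pool.Agent.Helper57.SN
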