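import Pool.Agent.Helper57.SN.StA

set_option autoImplicit false

open Finset

namespace Pool.Agent.Helper57.SN

private theorem rh_GL (K a : ℕ) (h : a + 12 ≤ K) :
    0 < (2 : ℝ) ^ (a + 3) / 2 ^ K ∧ (2 : ℝ) ^ (a + 3) / 2 ^ K ≤ 1 / 512 := by
  constructor
  · positivity
  · rw [div_le_div_iff₀ (by positivity) (by norm_num)]
    have h1 : (2 : ℝ) ^ (a + 12) ≤ 2 ^ K := pow_le_pow_right₀ (by norm_num) h
    have h2 : (2 : ℝ) ^ (a + 12) = 2 ^ (a + 3) * 512 := by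
      rw [show a + 12 = (a + 3) + 9 by ring, pow_add]; norm_num
    linarith

theorem m_GL : St_GL := by
  intro K a hK
  obtain ⟨hk1, hk2⟩ := rh_GL K a hK
  set ρ : ℝ := rh K a with hρ
  have hρ1 : ρ = 1 - 2 ^ (a + 3) / 2 ^ K := rfl
  have hρ0 : 0 < ρ := by rw [hρ1]; linarith
  have hρlt : ρ < 1 := by rw [hρ1]; linarith
  have hN : (2 ^ K : ℕ) ≠ 0 := by positivity
  have hpow : ρ ^ (2 ^ K : ℕ) < 1 := pow_lt_one₀ hρ0.le hρlt hN
  have hden : 0 < 1 - ρ ^ (2 ^ K : ℕ) := by linarith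
  refine ⟨fun s => (1 - ρ) / (1 - ρ ^ (2 ^ K : ℕ)) * ρ ^ s, fun s => ?_, ?_, fun h => ?_⟩
  · have : 0 < 1 - ρ := by linarith
    positivity
  · rw [← Finset.mul_sum, geom_sum_eq hρlt.ne]
    have h1 : ρ - 1 ≠ 0 := by linarith
    have h2 : 1 - ρ ^ (2 ^ K : ℕ) ≠ 0 := hden.ne'
    field_simp
    ring
  · set θ : ℝ := 2 * Real.pi * h / 2 ^ K with hθ
    set z : ℂ := (ρ : ℂ) * Complex.exp (θ * Complex.I) with hz
    have hzre : z.re = ρ * Real.cos θ := by
      rw [hz, Complex.re_ofReal_mul, Complex.exp_ofReal_mul_I_re]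
    have hzim : z.im = ρ * Real.sin θ := by
      rw [hz, Complex.im_ofReal_mul, Complex.exp_ofReal_mul_I_im]
    have hnorm : ‖z‖ < 1 := by
      rw [hz, norm_mul, Complex.norm_exp_ofReal_mul_I, mul_one, Complex.norm_real, Real.norm_eq_abs,
        abs_of_pos hρ0]
      exact hρlt
    have hz1 : z ≠ 1 := by
      intro h1
      rw [h1, norm_one] at hnorm
      exact lt_irrefl _ hnorm
    have hzpow : ∀ s : ℕ, z ^ s = ((ρ ^ s : ℝ) : ℂ) * Complex.exp (((θ * s : ℝ) : ℂ) * Complex.I) := by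
      intro s
      rw [hz, mul_pow, ← Complex.exp_nat_mul]
      push_cast
      congr 2
      ring
    have hzN : z ^ (2 ^ K : ℕ) = ((ρ ^ (2 ^ K : ℕ) : ℝ) : ℂ) := by
      rw [hzpow]
      have h1 : ((θ * ((2 ^ K : ℕ) : ℝ) : ℝ) : ℂ) * Complex.I = (h : ℂ) * (2 * Real.pi * Complex.I) := by
        have h2 : θ * ((2 ^ K : ℕ) : ℝ) = h * (2 * Real.pi) := by
          rw [hθ]
          push_cast
          field_simp
        rw [h2]
        push_cast
        ring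
      rw [h1, Complex.exp_int_mul_two_pi_mul_I, mul_one]
    have hsum : ∑ s ∈ range (2 ^ K), (((1 - ρ) / (1 - ρ ^ (2 ^ K : ℕ)) : ℝ) : ℂ) * z ^ s =
        ((1 - ρ : ℝ) : ℂ) / (1 - z) := by
      rw [← Finset.mul_sum, geom_sum_eq hz1, hzN]
      have h1 : z - 1 ≠ 0 := sub_ne_zero.2 hz1
      have h2 : (1 : ℂ) - z ≠ 0 := by
        intro h3; exact h1 (by linear_combination -h3)
      have h3 : ((1 - ρ ^ (2 ^ K : ℕ) : ℝ) : ℂ) ≠ 0 := by exact_mod_cast hden.ne'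
      have h4 : (((1 - ρ) / (1 - ρ ^ (2 ^ K : ℕ)) : ℝ) : ℂ) =
        ((1 - ρ : ℝ) : ℂ) / ((1 - ρ ^ (2 ^ K : ℕ) : ℝ) : ℂ) := by push_cast; rfl
      rw [h4]
      have h5 : ((ρ ^ (2 ^ K : ℕ) : ℝ) : ℂ) - 1 = -((1 - ρ ^ (2 ^ K : ℕ) : ℝ) : ℂ) := by
        push_cast; ring
      rw [h5]
      have h6 : z - 1 = -(1 - z) := by ring
      rw [h6, neg_div_neg_eq]
      field_simp
    have hnsq : Complex.normSq (1 - z) = 1 - 2 * ρ * Real.cos θ + ρ ^ 2 := by
      rw [Complex.normSq_apply]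
      simp only [Complex.sub_re, Complex.sub_im, Complex.one_re, Complex.one_im, hzre, hzim]
      nlinarith [Real.sin_sq_add_cos_sq θ]
    have hcoe : ∀ s : ℕ, co K h s = Real.cos (θ * s) ∧ si K h s = Real.sin (θ * s) := by
      intro s
      have h1 : 2 * Real.pi * (h : ℝ) * (((s : ℤ)) : ℝ) / 2 ^ K = θ * s := by
        rw [hθ]; push_cast; ring
      unfold co si
      rw [h1]
      exact ⟨rfl, rfl⟩
    have hterm : ∀ s : ℕ, ((((1 - ρ) / (1 - ρ ^ (2 ^ K : ℕ)) : ℝ) : ℂ) * z ^ s).re =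
        (1 - ρ) / (1 - ρ ^ (2 ^ K : ℕ)) * ρ ^ s * co K h s ∧
        ((((1 - ρ) / (1 - ρ ^ (2 ^ K : ℕ)) : ℝ) : ℂ) * z ^ s).im =
        (1 - ρ) / (1 - ρ ^ (2 ^ K : ℕ)) * ρ ^ s * si K h s := by
      intro s
      rw [hzpow, (hcoe s).1, (hcoe s).2, Complex.re_ofReal_mul, Complex.im_ofReal_mul,
        Complex.re_ofReal_mul, Complex.im_ofReal_mul, Complex.exp_ofReal_mul_I_re,
        Complex.exp_ofReal_mul_I_im]
      constructor <;> ring
    have hre := congrArg Complex.re hsum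
    have him := congrArg Complex.im hsum
    rw [Complex.re_sum, Finset.sum_congr rfl fun s _ => (hterm s).1] at hre
    rw [Complex.im_sum, Finset.sum_congr rfl fun s _ => (hterm s).2] at him
    constructor
    · rw [hre, div_eq_mul_inv, Complex.re_ofReal_mul, Complex.inv_re, hnsq]
      show _ = gre ρ θ
      unfold gre
      simp only [Complex.sub_re, Complex.one_re, hzre]
      ring
    · rw [him, div_eq_mul_inv, Complex.im_ofReal_mul, Complex.inv_im, hnsq]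
      show _ = gim ρ θ
      unfold gim
      simp only [Complex.sub_im, Complex.one_im, hzim]
      ring

end Pool.Agent.Helper57.SN
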