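import Pool.Agent.Helper57.SN.StA

/-! # Project SN, module GLest: estimates for (1-ρ) / (1-ρ e^(iθ)) -/

set_option autoImplicit false

open Finset

namespace Pool.Agent.Helper57.SN

private lemma den_pos_GLest {ρ θ : ℝ} (h0 : 0 ≤ ρ) (_h1 : ρ < 1) :
    (1 - ρ) ^ 2 ≤ 1 - 2 * ρ * Real.cos θ + ρ ^ 2 := by
  have := Real.cos_le_one θ
  nlinarith

private lemma one_sub_gre_GLest {ρ θ : ℝ} (h0 : 0 ≤ ρ) (h1 : ρ < 1) :
    (1 - gre ρ θ) ^ 2 + gim ρ θ ^ 2 =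
      2 * ρ ^ 2 * (1 - Real.cos θ) / (1 - 2 * ρ * Real.cos θ + ρ ^ 2) := by
  have hD : 0 < 1 - 2 * ρ * Real.cos θ + ρ ^ 2 :=
    lt_of_lt_of_le (by nlinarith) (den_pos_GLest (θ := θ) h0 h1)
  have hs : Real.sin θ ^ 2 = 1 - Real.cos θ ^ 2 := Real.sin_sq θ
  set D := 1 - 2 * ρ * Real.cos θ + ρ ^ 2 with hDd
  have e1 : 1 - gre ρ θ = ρ * (1 + ρ) * (1 - Real.cos θ) / D := by
    unfold gre
    rw [← hDd, eq_div_iff hD.ne', sub_mul, div_mul_cancel₀ _ hD.ne', hDd]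
    ring
  have e2 : gim ρ θ = (1 - ρ) * (ρ * Real.sin θ) / D := rfl
  rw [e1, e2, div_pow, div_pow, ← add_div, div_eq_div_iff (by positivity) hD.ne']
  have : (ρ * (1 + ρ) * (1 - Real.cos θ)) ^ 2 + ((1 - ρ) * (ρ * Real.sin θ)) ^ 2
      = 2 * ρ ^ 2 * (1 - Real.cos θ) * D := by
    calc _ = (ρ * (1 + ρ) * (1 - Real.cos θ)) ^ 2 + (1 - ρ) ^ 2 * ρ ^ 2 * Real.sin θ ^ 2 := by ring
      _ = _ := by rw [hs, hDd]; ring
  rw [this]; ring

private lemma norm_sq_GLest {ρ θ : ℝ} (h0 : 0 ≤ ρ) (h1 : ρ < 1) :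
    gre ρ θ ^ 2 + gim ρ θ ^ 2 ≤ 1 := by
  have hD0 := den_pos_GLest (θ := θ) h0 h1
  have hD : 0 < 1 - 2 * ρ * Real.cos θ + ρ ^ 2 := lt_of_lt_of_le (by nlinarith) hD0
  have hs : Real.sin θ ^ 2 = 1 - Real.cos θ ^ 2 := Real.sin_sq θ
  set D := 1 - 2 * ρ * Real.cos θ + ρ ^ 2 with hDd
  have e1 : gre ρ θ = (1 - ρ) * (1 - ρ * Real.cos θ) / D := rfl
  have e2 : gim ρ θ = (1 - ρ) * (ρ * Real.sin θ) / D := rfl
  rw [e1, e2, div_pow, div_pow, ← add_div, div_le_one (by positivity)]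
  have : ((1 - ρ) * (1 - ρ * Real.cos θ)) ^ 2 + ((1 - ρ) * (ρ * Real.sin θ)) ^ 2
      = (1 - ρ) ^ 2 * D := by
    calc _ = (1 - ρ) ^ 2 * ((1 - ρ * Real.cos θ) ^ 2 + ρ ^ 2 * Real.sin θ ^ 2) := by ring
      _ = _ := by rw [hs, hDd]; ring
  rw [this, pow_two D]
  exact mul_le_mul_of_nonneg_right hD0 hD.le

private lemma kap_GLest {K a : ℕ} (h : a + 12 ≤ K) :
    (0 : ℝ) < 2 ^ (a + 3) / 2 ^ K ∧ (2 : ℝ) ^ (a + 3) / 2 ^ K ≤ 1 / 512 := by
  refine ⟨by positivity, ?_⟩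
  rw [div_le_div_iff₀ (by positivity) (by norm_num), one_mul]
  calc (2 : ℝ) ^ (a + 3) * 512 = 2 ^ (a + 12) := by
        rw [show a + 12 = a + 3 + 9 from rfl, pow_add _ (a + 3)]; norm_num
    _ ≤ 2 ^ K := pow_le_pow_right₀ (by norm_num) h

private lemma th_GLest (K a : ℕ) (h : ℤ) :
    2 * Real.pi * h / 2 ^ K = (Real.pi / 4 * (h / 2 ^ a)) * (2 ^ (a + 3) / 2 ^ K) := by
  rw [pow_add]
  field_simp
  ring

theorem m_GLest : St_GLest := by
  intro K a haK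
  obtain ⟨hk0, hk1⟩ := kap_GLest haK
  set κ : ℝ := 2 ^ (a + 3) / 2 ^ K with hκ
  have hρ : rh K a = 1 - κ := rfl
  have hρ0 : 0 ≤ rh K a := by rw [hρ]; linarith
  have hρ1 : rh K a < 1 := by rw [hρ]; linarith
  refine ⟨?_, ?_, ?_, ?_, ?_⟩
  · intro h h0 h1
    have h0' : (0 : ℝ) ≤ h := by exact_mod_cast h0
    have h1' : (2 : ℝ) * h ≤ 2 ^ K := by exact_mod_cast h1
    unfold pim gim
    have hD := den_pos_GLest (θ := 2 * Real.pi * h / 2 ^ K) hρ0 hρ1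
    have hs : 0 ≤ Real.sin (2 * Real.pi * h / 2 ^ K) := by
      apply Real.sin_nonneg_of_nonneg_of_le_pi
      · positivity
      · rw [div_le_iff₀ (by positivity)]
        nlinarith [Real.pi_pos]
    refine div_nonneg (mul_nonneg (by linarith) (mul_nonneg hρ0 hs)) ((sq_nonneg _).trans hD)
  · intro h h0 h1
    have h0' : (2 : ℝ) ^ a ≤ 4 * h := by exact_mod_cast h0
    have h1' : (h : ℝ) ≤ 2 ^ (a + 3) := by exact_mod_cast h1
    unfold pim gim
    rw [th_GLest K a h]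
    set s : ℝ := h / 2 ^ a with hs
    have hs0 : 1 / 4 ≤ s := by
      rw [hs, div_le_div_iff₀ (by norm_num) (by positivity)]; linarith
    have hs1 : s ≤ 8 := by
      rw [hs, div_le_iff₀ (by positivity)]
      calc (h : ℝ) ≤ 2 ^ (a + 3) := h1'
        _ = 8 * 2 ^ a := by rw [pow_add]; ring
    rw [← hκ]
    set θ : ℝ := Real.pi / 4 * s * κ with hθ
    have hp := Real.pi_gt_d2
    have hp2 := Real.pi_lt_d2
    have hr0 : 0.19 * κ ≤ θ := by
      rw [hθ]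
      refine mul_le_mul_of_nonneg_right ?_ hk0.le
      nlinarith
    have hr1 : θ ≤ 6.3 * κ := by
      rw [hθ]
      refine mul_le_mul_of_nonneg_right ?_ hk0.le
      nlinarith
    have hθ0 : 0 < θ := lt_of_lt_of_le (by positivity) hr0
    have hθ1 : θ ≤ 1 / 50 := by linarith
    have hsin := Real.sin_gt_sub_cube hθ0
    have hcos := Real.one_sub_sq_div_two_le_cos (x := θ)
    have hD := den_pos_GLest (θ := θ) hρ0 hρ1
    have hDpos : 0 < 1 - 2 * rh K a * Real.cos θ + rh K a ^ 2 :=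
      lt_of_lt_of_le (by nlinarith) hD
    rw [le_div_iff₀ hDpos]
    have hD2 : 1 - 2 * rh K a * Real.cos θ + rh K a ^ 2 ≤ κ ^ 2 + θ ^ 2 := by
      have : 1 - 2 * rh K a * Real.cos θ + rh K a ^ 2 =
        κ ^ 2 + rh K a * (2 * (1 - Real.cos θ)) := by rw [hρ]; ring
      rw [this]
      have h3 : 2 * (1 - Real.cos θ) ≤ θ ^ 2 := by linarith
      have h4 : 0 ≤ 2 * (1 - Real.cos θ) := by linarith [Real.cos_le_one θ]
      nlinarith
    have hsin2 : 0.99 * θ ≤ Real.sin θ := by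
      have : θ ^ 3 ≤ 0.01 * θ := by
        have : θ ^ 2 ≤ 0.01 := by nlinarith
        nlinarith
      linarith
    have hq : (θ - 0.19 * κ) * (6.3 * κ - θ) ≥ 0 := mul_nonneg (by linarith) (by linarith)
    have e : (1 : ℝ) - rh K a = κ := by rw [hρ]; ring
    rw [e]
    have h5 : 0.98 * θ ≤ rh K a * Real.sin θ := by
      have : (0.99 : ℝ) ≤ rh K a := by rw [hρ]; linarith
      nlinarith
    have h6 : κ * (0.98 * θ) ≤ κ * (rh K a * Real.sin θ) :=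
      mul_le_mul_of_nonneg_left h5 hk0.le
    nlinarith [mul_pos hk0 hθ0, sq_nonneg κ]
  · intro h
    have hid := one_sub_gre_GLest (θ := 2 * Real.pi * h / 2 ^ K) hρ0 hρ1
    have hD := den_pos_GLest (θ := 2 * Real.pi * h / 2 ^ K) hρ0 hρ1
    have hcos := Real.one_sub_sq_div_two_le_cos (x := 2 * Real.pi * h / 2 ^ K)
    have hDpos : 0 < 1 - 2 * rh K a * Real.cos (2 * Real.pi * h / 2 ^ K) + rh K a ^ 2 :=
      lt_of_lt_of_le (by nlinarith) hD
    have hub : (1 - pre K a h) ^ 2 + pim K a h ^ 2 ≤ (|(h : ℝ)| / 2 ^ a) ^ 2 := by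
      unfold pre pim
      rw [hid, div_le_iff₀ hDpos]
      rw [th_GLest K a h, ← hκ] at hcos hD ⊢
      set s : ℝ := h / 2 ^ a with hs
      set θ : ℝ := Real.pi / 4 * s * κ with hθ
      have e1 : (|(h : ℝ)| / 2 ^ a) ^ 2 = s ^ 2 := by
        rw [div_pow, sq_abs, hs, div_pow]
      rw [e1]
      have h3 : 2 * (1 - Real.cos θ) ≤ θ ^ 2 := by linarith
      have h4 : 0 ≤ 2 * (1 - Real.cos θ) := by linarith [Real.cos_le_one θ]
      have h5 : θ ^ 2 ≤ s ^ 2 * κ ^ 2 := by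
        have : (Real.pi / 4) ^ 2 ≤ 1 := by
          have hp2 := Real.pi_le_four
          have hp0 := Real.pi_pos
          rw [sq_le_one_iff₀ (by positivity)]
          linarith
        calc θ ^ 2 = (Real.pi / 4) ^ 2 * (s ^ 2 * κ ^ 2) := by rw [hθ]; ring
          _ ≤ 1 * (s ^ 2 * κ ^ 2) := mul_le_mul_of_nonneg_right this (by positivity)
          _ = _ := one_mul _
      have hρ2 : rh K a ^ 2 ≤ 1 := pow_le_one₀ hρ0 hρ1.le
      have e2 : (1 - rh K a) ^ 2 = κ ^ 2 := by rw [hρ]; ring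
      calc 2 * rh K a ^ 2 * (1 - Real.cos θ) = rh K a ^ 2 * (2 * (1 - Real.cos θ)) := by ring
        _ ≤ 1 * (2 * (1 - Real.cos θ)) := mul_le_mul_of_nonneg_right hρ2 h4
        _ ≤ s ^ 2 * κ ^ 2 := by linarith
        _ ≤ s ^ 2 * (1 - 2 * rh K a * Real.cos θ + rh K a ^ 2) := by
            rw [← e2]
            exact mul_le_mul_of_nonneg_left hD (sq_nonneg _)
    have hnn : 0 ≤ |(h : ℝ)| / 2 ^ a := by positivity
    constructor
    · exact abs_le_of_sq_le_sq (by nlinarith [sq_nonneg (pim K a h)]) hnn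
    · exact abs_le_of_sq_le_sq (by nlinarith [sq_nonneg (1 - pre K a h)]) hnn
  · intro h
    exact norm_sq_GLest hρ0 hρ1
  · intro h
    have e : 2 * Real.pi * ((-h : ℤ) : ℝ) / 2 ^ K = -(2 * Real.pi * h / 2 ^ K) := by
      push_cast; ring
    constructor
    · unfold pre gre
      rw [e, Real.cos_neg]
    · unfold pim gim
      rw [e, Real.cos_neg, Real.sin_neg]
      ring

end Pool.Agent.Helper57.SN
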