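import Pool.Agent.Helper57.SN.StA

set_option autoImplicit false

open Finset

namespace Pool.Agent.Helper57.SN

private theorem rh_GLmono (K a : ℕ) (h : a + 12 ≤ K) :
    0 < (2 : ℝ) ^ (a + 3) / 2 ^ K ∧ (2 : ℝ) ^ (a + 3) / 2 ^ K ≤ 1 / 512 := by
  constructor
  · positivity
  · rw [div_le_div_iff₀ (by positivity) (by norm_num)]
    have h1 : (2 : ℝ) ^ (a + 12) ≤ 2 ^ K := pow_le_pow_right₀ (by norm_num) h
    have h2 : (2 : ℝ) ^ (a + 12) = 2 ^ (a + 3) * 512 := by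
      rw [show a + 12 = (a + 3) + 9 by ring, pow_add]; norm_num
    linarith

/-- `gre` as a function of `u = 1 - cos θ`. -/
private theorem gre_GLmono (κ θ : ℝ) :
    gre (1 - κ) θ = κ * (κ + (1 - κ) * (1 - Real.cos θ)) /
      (κ ^ 2 + 2 * (1 - κ) * (1 - Real.cos θ)) := by
  unfold gre
  congr 1 <;> ring

private theorem dec_GLmono (κ u v : ℝ) (hκ : 0 < κ) (hκ1 : κ ≤ 1 / 512) (hu : 0 ≤ u)
    (huv : u ≤ v) :
    κ * (κ + (1 - κ) * v) / (κ ^ 2 + 2 * (1 - κ) * v) ≤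
      κ * (κ + (1 - κ) * u) / (κ ^ 2 + 2 * (1 - κ) * u) := by
  have h1 : 0 < 1 - κ := by linarith
  have hv : 0 ≤ v := hu.trans huv
  have h2 : 0 < κ ^ 2 + 2 * (1 - κ) * v := by positivity
  have h3 : 0 < κ ^ 2 + 2 * (1 - κ) * u := by positivity
  rw [div_le_div_iff₀ h2 h3]
  have h4 : 0 ≤ (1 - κ) * κ ^ 2 * (2 - κ) * (v - u) := by
    have : 0 ≤ v - u := by linarith
    have : 0 ≤ 2 - κ := by linarith
    positivity
  nlinarith [h4]

theorem m_GLmono : St_GLmono := by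
  intro K a hK
  obtain ⟨hk1, hk2⟩ := rh_GLmono K a hK
  set κ : ℝ := (2 : ℝ) ^ (a + 3) / 2 ^ K with hκ
  have hpre : ∀ h : ℤ, pre K a h = κ * (κ + (1 - κ) * (1 - Real.cos (2 * Real.pi * h / 2 ^ K))) /
      (κ ^ 2 + 2 * (1 - κ) * (1 - Real.cos (2 * Real.pi * h / 2 ^ K))) := fun h => gre_GLmono κ _
  have hK0 : (0 : ℝ) < 2 ^ K := by positivity
  have hθpi : ∀ h : ℤ, 2 * h ≤ 2 ^ K → 2 * Real.pi * (h : ℝ) / 2 ^ K ≤ Real.pi := by
    intro h hh
    have h1 : 2 * (h : ℝ) ≤ 2 ^ K := by exact_mod_cast hh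
    rw [div_le_iff₀ hK0]
    nlinarith [Real.pi_pos]
  have hθ0 : ∀ h : ℤ, 0 ≤ h → 0 ≤ 2 * Real.pi * (h : ℝ) / 2 ^ K := by
    intro h hh
    have h1 : (0 : ℝ) ≤ (h : ℝ) := by exact_mod_cast hh
    have := Real.pi_pos
    positivity
  have hmono : ∀ h1 h2 : ℤ, 0 ≤ h1 → h1 ≤ h2 → 2 * h2 ≤ 2 ^ K → pre K a h2 ≤ pre K a h1 := by
    intro h1 h2 h10 h12 h2K
    rw [hpre, hpre]
    refine dec_GLmono κ _ _ hk1 hk2 (by linarith [Real.cos_le_one (2 * Real.pi * h1 / 2 ^ K)]) ?_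
    have h3 : 2 * Real.pi * (h1 : ℝ) / 2 ^ K ≤ 2 * Real.pi * (h2 : ℝ) / 2 ^ K := by
      have h4 : (h1 : ℝ) ≤ h2 := by exact_mod_cast h12
      have := Real.pi_pos
      gcongr
    have h4 := Real.cos_le_cos_of_nonneg_of_le_pi (hθ0 h1 h10) (hθpi h2 h2K) h3
    linarith
  refine ⟨hmono, fun h1 h2 h10 h1a h2a h2K => ?_⟩
  -- compare with the two special angles
  have hp3 := Real.pi_gt_d2
  have hp4 := Real.pi_lt_d2
  have hA : 1 / 1.64 ≤ pre K a h1 := by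
    rw [hpre]
    set θ := 2 * Real.pi * (h1 : ℝ) / 2 ^ K with hθ
    have h3 : θ ≤ Real.pi / 4 * κ := by
      have h4 : (h1 : ℝ) ≤ 2 ^ a := by exact_mod_cast h1a
      rw [hθ, hκ, div_le_iff₀ hK0]
      have : Real.pi / 4 * (2 ^ (a + 3) / 2 ^ K) * 2 ^ K = 2 * Real.pi * (2 : ℝ) ^ a := by
        rw [pow_add]; field_simp; ring
      rw [this]
      nlinarith [Real.pi_pos]
    have h4 : 0 ≤ θ := hθ0 h1 h10
    have h5 : 1 - Real.cos θ ≤ 0.32 * κ ^ 2 := by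
      have h6 := Real.one_sub_sq_div_two_le_cos (x := θ)
      have h7 : θ ≤ 0.79 * κ := h3.trans (by nlinarith)
      nlinarith
    have h6 : 0 ≤ 1 - Real.cos θ := by linarith [Real.cos_le_one θ]
    have h7 := dec_GLmono κ _ _ hk1 hk2 h6 h5
    refine le_trans ?_ h7
    have h8 : 0 < κ ^ 2 + 2 * (1 - κ) * (0.32 * κ ^ 2) := by
      have : 0 < 1 - κ := by linarith
      positivity
    rw [div_le_div_iff₀ (by norm_num) h8]
    nlinarith [mul_pos hk1 hk1, mul_pos (mul_pos hk1 hk1) hk1]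
  have hB : pre K a h2 ≤ 0.3 := by
    have hcast : (2 : ℤ) ^ (a + 1) ≤ 2 ^ K := by
      exact pow_le_pow_right₀ (by norm_num) (by omega)
    refine (hmono (2 ^ (a + 1)) h2 (by positivity) h2a h2K).trans ?_
    rw [hpre]
    set θ := 2 * Real.pi * ((2 ^ (a + 1) : ℤ) : ℝ) / 2 ^ K with hθ
    have h3 : θ = Real.pi / 2 * κ := by
      rw [hθ, hκ]
      push_cast
      rw [pow_add, pow_add]
      ring
    have h4 : 1.57 * κ ≤ θ := by rw [h3]; nlinarith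
    have h5 : θ ≤ 1.58 * κ := by rw [h3]; nlinarith
    have h6 : |θ| ≤ 1 := by rw [abs_of_nonneg (by nlinarith)]; nlinarith
    have h7 := abs_le.1 (Real.cos_bound h6)
    have h8 : 1.2 * κ ^ 2 ≤ 1 - Real.cos θ := by
      have h9 : |θ| ^ 4 = θ ^ 2 * θ ^ 2 := by
        rw [← abs_pow, abs_of_nonneg (by positivity)]; ring
      rw [h9] at h7
      have h10 : θ ^ 2 ≤ 0.01 := by nlinarith
      have h11 : 2.4649 * κ ^ 2 ≤ θ ^ 2 := by nlinarith
      nlinarith [h7.2, sq_nonneg θ]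
    have h9 := dec_GLmono κ _ _ hk1 hk2 (by positivity) h8
    refine h9.trans ?_
    have h10 : 0 < κ ^ 2 + 2 * (1 - κ) * (1.2 * κ ^ 2) := by
      have : 0 < 1 - κ := by linarith
      positivity
    rw [div_le_iff₀ h10]
    have h11 : 0 ≤ κ ^ 2 * (1 / 512 - κ) := by
      have : 0 ≤ 1 / 512 - κ := by linarith
      positivity
    nlinarith [mul_pos hk1 hk1, mul_pos (mul_pos hk1 hk1) hk1, h11]
  norm_num at hA hB ⊢
  linarith

end Pool.Agent.Helper57.SN
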