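import Pool.Agent.Helper57.SN.StA

/-! # Project SN, module L2: the L2 norm of a level -/

set_option autoImplicit false

open Finset

namespace Pool.Agent.Helper57.SN

private theorem av_sum_L2 {ι : Type*} (K : ℕ) (s : Finset ι) (f : ι → ℕ → ℝ) :
    av K (fun x => ∑ i ∈ s, f i x) = ∑ i ∈ s, av K (f i) := by
  unfold av
  rw [Finset.sum_comm, Finset.sum_div]

private theorem av_mul_L2 (K : ℕ) (r : ℝ) (f : ℕ → ℝ) :
    av K (fun x => r * f x) = r * av K f := by
  unfold av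
  rw [← Finset.mul_sum, mul_div_assoc]

private theorem av_sub_L2 (K : ℕ) (f g : ℕ → ℝ) :
    av K (fun x => f x - g x) = av K f - av K g := by
  unfold av
  rw [Finset.sum_sub_distrib, sub_div]

private theorem av_le_L2 (K : ℕ) (f : ℕ → ℝ) (r : ℝ) (h : ∀ x, |f x| ≤ r) : |av K f| ≤ r := by
  unfold av
  rw [abs_div, abs_of_pos (by positivity : (0 : ℝ) < 2 ^ K), div_le_iff₀ (by positivity)]
  calc |∑ x ∈ range (2 ^ K), f x| ≤ ∑ x ∈ range (2 ^ K), |f x| := Finset.abs_sum_le_sum_abs _ _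
    _ ≤ ∑ x ∈ range (2 ^ K), r := Finset.sum_le_sum (fun x _ => h x)
    _ = r * 2 ^ K := by simp [mul_comm]

private theorem avSS_L2 (h4 : St_orth) (K H a : ℕ) (b : ℕ → ℝ) (S : Finset ℕ) (B : ℝ)
    (hL : Lv K H a b S B) :
    av K (fun x => SS K b S x ^ 2) = (∑ ξ ∈ S, b ξ ^ 2) / 2 := by
  obtain ⟨o1, -, -, -, o5⟩ := h4 K
  have hK : 2 ^ (a + 3) ≤ 2 ^ K :=
    Nat.pow_le_pow_right (by norm_num) (by have := hL.aK; omega)
  have hKz : (2 : ℤ) ^ (a + 3) ≤ 2 ^ K := by exact_mod_cast hK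
  have e1 : (fun x => SS K b S x ^ 2) = fun x : ℕ => ∑ γ ∈ S, ∑ ξ ∈ S,
      (b γ * b ξ / 2) * (co K ((γ : ℤ) - ξ) x - co K ((γ : ℤ) + ξ) x) := by
    funext x
    unfold SS
    rw [sq, Finset.sum_mul_sum]
    refine Finset.sum_congr rfl fun γ _ => Finset.sum_congr rfl fun ξ _ => ?_
    have := o5 γ ξ x
    calc b γ * si K γ x * (b ξ * si K ξ x) = b γ * b ξ * (si K γ x * si K ξ x) := by ring
      _ = _ := by rw [this]; ring
  rw [e1, av_sum_L2]
  have e2 : ∀ γ ∈ S, av K (fun x : ℕ => ∑ ξ ∈ S,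
      (b γ * b ξ / 2) * (co K ((γ : ℤ) - ξ) x - co K ((γ : ℤ) + ξ) x)) = b γ ^ 2 / 2 := by
    intro γ hγ
    rw [av_sum_L2]
    have e3 : ∀ ξ ∈ S, av K (fun x : ℕ =>
        (b γ * b ξ / 2) * (co K ((γ : ℤ) - ξ) x - co K ((γ : ℤ) + ξ) x)) =
        if γ = ξ then b γ * b ξ / 2 else 0 := by
      intro ξ hξ
      rw [av_mul_L2, av_sub_L2]
      have hg := hL.hi γ hγ
      have hx := hL.hi ξ hξ
      have gl := hL.lo γ hγ
      have p0 : 0 < 2 ^ a := by positivity
      have p2 : 2 ^ (a + 2) = 4 * 2 ^ a := by rw [pow_add]; ring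
      have p3 : (2 : ℤ) ^ (a + 3) = 8 * 2 ^ a := by rw [pow_add]; ring
      have hgz : (γ : ℤ) < 4 * 2 ^ a := by
        have : γ < 4 * 2 ^ a := by omega
        exact_mod_cast this
      have hxz : (ξ : ℤ) < 4 * 2 ^ a := by
        have : ξ < 4 * 2 ^ a := by omega
        exact_mod_cast this
      have g0 : (0 : ℤ) < γ := by
        have : 0 < γ := by omega
        exact_mod_cast this
      have x0 : (0 : ℤ) ≤ ξ := by positivity
      rw [o1 ((γ : ℤ) - ξ) (by rw [abs_lt]; constructor <;> linarith),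
        o1 ((γ : ℤ) + ξ) (by rw [abs_lt]; constructor <;> linarith)]
      rw [if_neg (by linarith : ¬ ((γ : ℤ) + ξ = 0))]
      by_cases hh : γ = ξ
      · subst hh; simp
      · rw [if_neg (by
          intro hc
          apply hh
          have : (γ : ℤ) = ξ := by linarith
          exact_mod_cast this), if_neg hh]
        ring
    rw [Finset.sum_congr rfl e3, Finset.sum_ite_eq, if_pos hγ]
    ring
  rw [Finset.sum_congr rfl e2, Finset.sum_div]

theorem m_L2 (h4 : St_orth) (h5 : St_dd) : St_L2 := by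
  intro K H a b S B hL
  obtain ⟨s1, s2, s3, -, -⟩ := h5 K H a b S B hL
  have hB : 0 ≤ B := le_trans (Finset.sum_nonneg hL.b0) hL.mass
  rw [← avSS_L2 h4 K H a b S B hL, ← av_sub_L2]
  apply av_le_L2
  intro x
  have e : dd K H a b S x ^ 2 - SS K b S x ^ 2 =
      (dd K H a b S x - SS K b S x) * (dd K H a b S x + SS K b S x) := by ring
  rw [e, abs_mul]
  have t : |dd K H a b S x + SS K b S x| ≤ 3 * B := by
    have := abs_add_le (dd K H a b S x) (SS K b S x)
    linarith [s1 x, s3 x]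
  calc |dd K H a b S x - SS K b S x| * |dd K H a b S x + SS K b S x|
      ≤ (27 * B / 2 ^ H) * (3 * B) :=
        mul_le_mul (s2 x) t (abs_nonneg _) (by positivity)
    _ = 81 * B ^ 2 / 2 ^ H := by ring

end Pool.Agent.Helper57.SN
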