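import Pool.Agent.Helper57.SN.StA

/-! # Project SN, module P2 (helper68): gain inequality for one level -/

set_option autoImplicit false

open Finset

namespace Pool.Agent.Helper57.SN

theorem av_add_P2 (K : ℕ) (f g : ℕ → ℝ) :
    av K (fun x => f x + g x) = av K f + av K g := by
  unfold av
  rw [sum_add_distrib, add_div]

theorem av_sub_P2 (K : ℕ) (f g : ℕ → ℝ) :
    av K (fun x => f x - g x) = av K f - av K g := by
  unfold av
  rw [sum_sub_distrib, sub_div]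

theorem av_mul_P2 (K : ℕ) (r : ℝ) (f : ℕ → ℝ) : av K (fun x => r * f x) = r * av K f := by
  unfold av
  rw [← mul_sum, mul_div_assoc]

theorem av_le_P2 (K : ℕ) {f g : ℕ → ℝ} (h : ∀ x, f x ≤ g x) : av K f ≤ av K g := by
  unfold av
  exact div_le_div_of_nonneg_right (sum_le_sum fun x _ => h x) (by positivity)

theorem av_nonneg_P2 (K : ℕ) {f : ℕ → ℝ} (h : ∀ x, 0 ≤ f x) : 0 ≤ av K f := by
  unfold av
  exact div_nonneg (sum_nonneg fun x _ => h x) (by positivity)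

theorem av_sum_P2 {ι : Type} (K : ℕ) (s : Finset ι) (f : ι → ℕ → ℝ) :
    av K (fun x => ∑ i ∈ s, f i x) = ∑ i ∈ s, av K (f i) := by
  unfold av
  rw [sum_comm, sum_div]

theorem abs_av_le_P2 (K : ℕ) {f g : ℕ → ℝ} (h : ∀ x, |f x| ≤ g x) : |av K f| ≤ av K g := by
  rw [abs_le]
  constructor
  · have h1 : av K (fun x => (-1) * g x) ≤ av K f := av_le_P2 K fun x => by
      linarith [(abs_le.1 (h x)).1]
    rw [av_mul_P2] at h1
    linarith
  · exact av_le_P2 K fun x => (abs_le.1 (h x)).2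

/-- averages against one frequency -/
theorem av_co_P2 (h2 : St_blk2) (h3 : St_trig) (K c : ℕ) (hc : c ≤ K) (g : ℕ → ℝ) (hg : BC c g)
    (hg0 : ∀ x, 0 ≤ g x) (h : ℤ) (hh : h ≠ 0) (hK : 2 * |h| ≤ 2 ^ K) :
    |av K (fun x => g x * co K h x)| ≤ 2 ^ K / (2 * |(h : ℝ)| * 2 ^ c) * av K g := by
  have h4 := (h2 c c K (le_refl _) hc).2.2.2 (fun x => co K h x) g hg
  rw [← h4, ← av_mul_P2]
  refine abs_av_le_P2 K fun x => ?_
  rw [abs_mul, abs_of_nonneg (hg0 x), mul_comm]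
  exact mul_le_mul_of_nonneg_right (h3 K c h x hc hh hK).1 (hg0 x)

theorem si_abs_P2 (K : ℕ) (g x : ℤ) : |si K g x| ≤ 1 := Real.abs_sin_le_one _

theorem SS_abs_P2 (K : ℕ) (b : ℕ → ℝ) (S : Finset ℕ) (hb : ∀ ξ ∈ S, 0 ≤ b ξ) (x : ℕ) :
    |SS K b S x| ≤ ∑ ξ ∈ S, b ξ := by
  unfold SS
  refine (abs_sum_le_sum_abs _ _).trans (sum_le_sum fun ξ hξ => ?_)
  rw [abs_mul, abs_of_nonneg (hb ξ hξ)]
  exact mul_le_of_le_one_right (hb ξ hξ) (si_abs_P2 K ξ x)

theorem m_P2 (_h1 : St_blk1) (h2 : St_blk2) (h3 : St_trig) (h4 : St_orth) (h5 : St_dd) :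
    St_P2 := by
  intro K H a b S Ω B M G hG hL hS hG2 hgap g hg hg0
  obtain ⟨hSB, hdS, hd2, -, -⟩ := h5 K H a b S B hL
  have hHa := hL.Ha
  have haK := hL.aK
  have hcK : K - a + H ≤ K := by omega
  have hb' : ∀ ω ∈ Ω \ S, 0 ≤ b ω := fun ω hω => hG.b0 ω (mem_sdiff.1 hω).1
  have hsplit : ∀ x, SS K b Ω x = SS K b S x + SS K b (Ω \ S) x := by
    intro x
    unfold SS
    rw [add_comm, sum_sdiff hS]
  have hmass : ∑ ω ∈ Ω \ S, b ω ≤ M :=
    (sum_le_sum_of_subset_of_nonneg sdiff_subset fun ω hω _ => hG.b0 ω hω).trans hG.mass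
  have hF' : ∀ x, |SS K b (Ω \ S) x| ≤ M := fun x => (SS_abs_P2 K b _ hb' x).trans hmass
  have hB0 : 0 ≤ B := (sum_nonneg hL.b0).trans hL.mass
  have hM0 : 0 ≤ M := (sum_nonneg hb').trans hmass
  have hag : 0 ≤ av K g := av_nonneg_P2 K hg0
  have h2H : (0 : ℝ) < 2 ^ H := by positivity
  -- the pointwise bound
  have hpt : ∀ x, g x * dd K H a b S x ^ 2 - (B / 2 ^ H * (54 * B + 27 * M)) * g x +
      g x * (SS K b (Ω \ S) x * SS K b S x) ≤ g x * (SS K b Ω x * dd K H a b S x) := by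
    intro x
    obtain ⟨e1, e2⟩ := abs_le.1 (hdS x)
    obtain ⟨e3, e4⟩ := abs_le.1 (hd2 x)
    obtain ⟨e5, e6⟩ := abs_le.1 (hF' x)
    have f1 : |(dd K H a b S x - SS K b S x) * dd K H a b S x| ≤ 27 * B / 2 ^ H * (2 * B) := by
      rw [abs_mul]
      exact mul_le_mul (hdS x) (hd2 x) (abs_nonneg _) (by positivity)
    have f2 : |SS K b (Ω \ S) x * (dd K H a b S x - SS K b S x)| ≤ M * (27 * B / 2 ^ H) := by
      rw [abs_mul]
      exact mul_le_mul (hF' x) (hdS x) (abs_nonneg _) hM0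
    have f3 := (abs_le.1 f1).2
    have f4 := (abs_le.1 f2).1
    have f5 : dd K H a b S x ^ 2 - B / 2 ^ H * (54 * B + 27 * M) +
        SS K b (Ω \ S) x * SS K b S x ≤ SS K b Ω x * dd K H a b S x := by
      rw [hsplit x]
      have f6 : B / 2 ^ H * (54 * B + 27 * M) =
          27 * B / 2 ^ H * (2 * B) + M * (27 * B / 2 ^ H) := by ring
      rw [f6]
      nlinarith [f3, f4]
    have f7 := mul_le_mul_of_nonneg_left f5 (hg0 x)
    linarith [f7]
  -- the product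
  have hco : ∀ ω ∈ Ω \ S, ∀ ξ ∈ S, |av K (fun x => g x * (si K ω x * si K ξ x))| ≤
      G / 2 ^ H * av K g := by
    intro ω hω ξ hξ
    obtain ⟨hωΩ, hωS⟩ := mem_sdiff.1 hω
    have e1 := hG.small ω hωΩ
    have e2 := hG.small ξ (hS hξ)
    have e3 := hG.pos ω hωΩ
    have e4 := hL.lo ξ hξ
    have hne : (ω : ℤ) - ξ ≠ 0 := by
      intro h
      have : ω = ξ := by omega
      exact hωS (this ▸ hξ)
    have hp : (0 : ℤ) < 2 ^ K := by positivity
    have e1' : 64 * (ω : ℤ) ≤ 2 ^ K := by exact_mod_cast e1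
    have e2' : 64 * (ξ : ℤ) ≤ 2 ^ K := by exact_mod_cast e2
    have k1 : 2 * |(ω : ℤ) - ξ| ≤ 2 ^ K := by
      have : |(ω : ℤ) - ξ| ≤ ω + ξ := by
        rw [abs_le]
        constructor <;> omega
      omega
    have k2 : 2 * |(ω : ℤ) + ξ| ≤ 2 ^ K := by
      rw [abs_of_nonneg (by positivity)]
      omega
    have g1 := av_co_P2 h2 h3 K (K - a + H) hcK g hg hg0 ((ω : ℤ) - ξ) hne k1
    have g2 := av_co_P2 h2 h3 K (K - a + H) hcK g hg hg0 ((ω : ℤ) + ξ) (by omega) k2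
    have hpow : (2 : ℝ) ^ K = 2 ^ (K - a + H) * 2 ^ a / 2 ^ H := by
      rw [eq_div_iff h2H.ne', ← pow_add, ← pow_add]
      congr 1
      omega
    have hc0 : (0 : ℝ) < 2 ^ (K - a + H) := by positivity
    have ha0 : (0 : ℝ) < 2 ^ a := by positivity
    have q1 : (2 : ℝ) ^ K / (2 * |(((ω : ℤ) - ξ : ℤ) : ℝ)| * 2 ^ (K - a + H)) ≤
        G / 2 ^ H / 2 := by
      have hgp := hgap ξ hξ ω hωΩ hωS
      push_cast
      have hpos : 0 < |(ω : ℝ) - ξ| := by
        rw [abs_pos]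
        intro h
        apply hne
        exact_mod_cast h
      rw [hpow, div_le_iff₀ (by positivity), div_le_iff₀ h2H]
      have : G / 2 ^ H / 2 * (2 * |(ω : ℝ) - ξ| * 2 ^ (K - a + H)) * 2 ^ H =
          G * |(ω : ℝ) - ξ| * 2 ^ (K - a + H) := by
        field_simp
      rw [this, mul_comm ((2 : ℝ) ^ (K - a + H))]
      exact mul_le_mul_of_nonneg_right hgp hc0.le
    have q2 : (2 : ℝ) ^ K / (2 * |(((ω : ℤ) + ξ : ℤ) : ℝ)| * 2 ^ (K - a + H)) ≤
        1 / 2 ^ H := by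
      push_cast
      have e4' : (2 : ℝ) ^ a ≤ 2 * ξ := by exact_mod_cast e4
      have hω0 : (0 : ℝ) ≤ ω := by positivity
      have hpos : (0 : ℝ) < |(ω : ℝ) + ξ| := by
        rw [abs_pos]
        linarith
      rw [hpow, div_le_iff₀ (by positivity), div_le_iff₀ h2H]
      have : 1 / 2 ^ H * (2 * |(ω : ℝ) + ξ| * 2 ^ (K - a + H)) * 2 ^ H =
          2 * |(ω : ℝ) + ξ| * 2 ^ (K - a + H) := by
        field_simp
      rw [this, mul_comm ((2 : ℝ) ^ (K - a + H))]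
      refine mul_le_mul_of_nonneg_right ?_ hc0.le
      rw [abs_of_nonneg (by linarith)]
      linarith
    have r1 : (fun x : ℕ => g x * (si K ω x * si K ξ x)) = fun x : ℕ =>
        (1 / 2) * (g x * co K ((ω : ℤ) - ξ) x - g x * co K ((ω : ℤ) + ξ) x) := by
      funext x
      rw [(h4 K).2.2.2.2 (ω : ℤ) (ξ : ℤ) (x : ℤ)]
      ring
    rw [r1, av_mul_P2, av_sub_P2]
    have g1' := g1.trans (mul_le_mul_of_nonneg_right q1 hag)
    have g2' := g2.trans (mul_le_mul_of_nonneg_right q2 hag)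
    have r2 := abs_sub (av K (fun x => g x * co K ((ω : ℤ) - ξ) x))
      (av K (fun x => g x * co K ((ω : ℤ) + ξ) x))
    rw [abs_mul, abs_of_nonneg (by norm_num : (0 : ℝ) ≤ 1 / 2)]
    have r3 : 1 / 2 ^ H * av K g ≤ G / 2 ^ H / 2 * av K g := by
      refine mul_le_mul_of_nonneg_right ?_ hag
      rw [div_div, div_le_div_iff₀ h2H (by positivity)]
      nlinarith
    nlinarith [mul_nonneg (div_nonneg (by linarith : (0 : ℝ) ≤ G) h2H.le) hag]
  have hprod : -(M * B * (G / 2 ^ H * av K g)) ≤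
      av K (fun x => g x * (SS K b (Ω \ S) x * SS K b S x)) := by
    have r1 : (fun x : ℕ => g x * (SS K b (Ω \ S) x * SS K b S x)) = fun x : ℕ =>
        ∑ ω ∈ Ω \ S, ∑ ξ ∈ S, (b ω * b ξ) * (g x * (si K ω x * si K ξ x)) := by
      funext x
      unfold SS
      rw [sum_mul_sum, mul_sum]
      refine sum_congr rfl fun ω _ => ?_
      rw [mul_sum]
      refine sum_congr rfl fun ξ _ => ?_
      ring
    rw [r1, av_sum_P2]
    have r2 : ∀ ω ∈ Ω \ S, -(b ω * B * (G / 2 ^ H * av K g)) ≤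
        av K (fun x => ∑ ξ ∈ S, (b ω * b ξ) * (g x * (si K ω x * si K ξ x))) := by
      intro ω hω
      rw [av_sum_P2]
      have r3 : ∀ ξ ∈ S, -(b ω * b ξ * (G / 2 ^ H * av K g)) ≤
          av K (fun x => (b ω * b ξ) * (g x * (si K ω x * si K ξ x))) := by
        intro ξ hξ
        rw [av_mul_P2]
        have r4 := (abs_le.1 (hco ω hω ξ hξ)).1
        have r5 := mul_le_mul_of_nonneg_left r4 (mul_nonneg (hb' ω hω) (hL.b0 ξ hξ))
        linarith [r5]
      refine le_trans ?_ (sum_le_sum r3)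
      rw [sum_neg_distrib, neg_le_neg_iff, ← sum_mul, ← mul_sum]
      refine mul_le_mul_of_nonneg_right ?_ (mul_nonneg (by positivity) hag)
      exact mul_le_mul_of_nonneg_left hL.mass (hb' ω hω)
    refine le_trans ?_ (sum_le_sum r2)
    rw [sum_neg_distrib, neg_le_neg_iff, ← sum_mul, ← sum_mul]
    refine mul_le_mul_of_nonneg_right ?_ (mul_nonneg (by positivity) hag)
    exact mul_le_mul_of_nonneg_right hmass hB0
  have hfin := av_le_P2 K hpt
  rw [av_add_P2, av_sub_P2, av_mul_P2] at hfin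
  have hx : B / 2 ^ H * (54 * B + 27 * M + G * M) * av K g =
      B / 2 ^ H * (54 * B + 27 * M) * av K g + M * B * (G / 2 ^ H * av K g) := by ring
  rw [hx]
  linarith [hfin, hprod]

end Pool.Agent.Helper57.SN
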