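import Pool.Agent.Helper57.SN.StA

/-! # Project SN, module P4 (helper68): increments of the block averages of the square -/

set_option autoImplicit false

open Finset

namespace Pool.Agent.Helper57.SN

theorem blk_sum_P4 {ι : Type} (c : ℕ) (s : Finset ι) (f : ι → ℕ → ℝ) (x : ℕ) :
    blk c (fun y => ∑ i ∈ s, f i y) x = ∑ i ∈ s, blk c (f i) x := by
  unfold blk
  rw [sum_comm, sum_div]

theorem blk_sub_P4 (c : ℕ) (f g : ℕ → ℝ) (x : ℕ) :
    blk c (fun y => f y - g y) x = blk c f x - blk c g x := by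
  unfold blk
  rw [sum_sub_distrib, sub_div]

theorem blk_mul_P4 (c : ℕ) (r : ℝ) (f : ℕ → ℝ) (x : ℕ) :
    blk c (fun y => r * f y) x = r * blk c f x := by
  unfold blk
  rw [← mul_sum, mul_div_assoc]

/-- large frequencies -/
theorem large_P4 (h3 : St_trig) (K H a' : ℕ) (haK : a' ≤ K) (hHa : H ≤ a') (h : ℤ)
    (hK : 2 * |h| ≤ 2 ^ K) (hh : 2 ^ a' ≤ |h|) (x : ℕ) :
    |blk (K - a' + H) (fun y => co K h y) x| ≤ 1 / 2 / 2 ^ H := by
  have hne : h ≠ 0 := by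
    intro h0
    rw [h0, abs_zero] at hh
    have : (0 : ℤ) < 2 ^ a' := by positivity
    omega
  refine (h3 K (K - a' + H) h x (by omega) hne hK).1.trans ?_
  have h2H : (0 : ℝ) < 2 ^ H := by positivity
  have hpow : (2 : ℝ) ^ K = 2 ^ (K - a' + H) * 2 ^ a' / 2 ^ H := by
    rw [eq_div_iff h2H.ne', ← pow_add, ← pow_add]
    congr 1
    omega
  have hc0 : (0 : ℝ) < 2 ^ (K - a' + H) := by positivity
  have hh' : (2 : ℝ) ^ a' ≤ |(h : ℝ)| := by exact_mod_cast hh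
  have hpos : (0 : ℝ) < |(h : ℝ)| := lt_of_lt_of_le (by positivity) hh'
  rw [hpow, div_le_iff₀ (by positivity), div_le_iff₀ h2H]
  have : 1 / 2 / 2 ^ H * (2 * |(h : ℝ)| * 2 ^ (K - a' + H)) * 2 ^ H =
      |(h : ℝ)| * 2 ^ (K - a' + H) := by
    field_simp
  rw [this, mul_comm ((2 : ℝ) ^ (K - a' + H))]
  exact mul_le_mul_of_nonneg_right hh' hc0.le

/-- small frequencies -/
theorem small_P4 (h1 : St_blk1) (h4 : St_orth) (K H a1 a' : ℕ) (haK : a' ≤ K) (hHa : H ≤ a')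
    (h1a : 2 * H ≤ a1) (ha1 : a1 ≤ a') (h : ℤ) (hh : |h| ≤ 2 ^ (a1 - 2 * H)) (x : ℕ) :
    |blk (K - a' + H) (fun y => co K h y) x - co K h x| ≤ 2 * Real.pi / 2 ^ H := by
  have e1 : blk (K - a' + H) (fun _ => co K h x) x = co K h x :=
    (h1 (K - a' + H)).2.2.2.2.2.2.2 (fun _ => co K h x) (fun _ _ _ => rfl) x
  have e2 : blk (K - a' + H) (fun y => co K h y) x - co K h x =
      blk (K - a' + H) (fun y => co K h y - co K h x) x := by
    rw [blk_sub_P4, e1]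
  rw [e2]
  refine (h1 (K - a' + H)).2.2.2.2.2.1 _ _ x fun y hy => ?_
  have e3 := (h4 K).2.2.1 h (y : ℤ) (x : ℤ)
  refine e3.trans ?_
  have h2H : (0 : ℝ) < 2 ^ H := by positivity
  have hyx : |(y : ℝ) - x| ≤ 2 ^ (K - a' + H) := by
    have hd1 := Nat.div_add_mod y (2 ^ (K - a' + H))
    have hd2 := Nat.div_add_mod x (2 ^ (K - a' + H))
    have hm1 := Nat.mod_lt y (show 0 < 2 ^ (K - a' + H) by positivity)
    have hm2 := Nat.mod_lt x (show 0 < 2 ^ (K - a' + H) by positivity)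
    rw [hy] at hd1
    have hn1 : 0 ≤ y % 2 ^ (K - a' + H) := Nat.zero_le _
    have hn2 : 0 ≤ x % 2 ^ (K - a' + H) := Nat.zero_le _
    have f1' : y ≤ x + 2 ^ (K - a' + H) := by linarith
    have f2' : x ≤ y + 2 ^ (K - a' + H) := by linarith
    have f1 : (y : ℤ) - x ≤ 2 ^ (K - a' + H) := by
      zify at f1'
      linarith
    have f2 : -(2 ^ (K - a' + H) : ℤ) ≤ (y : ℤ) - x := by
      zify at f2'
      linarith
    have f3 : |(y : ℤ) - x| ≤ 2 ^ (K - a' + H) := abs_le.2 ⟨f2, f1⟩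
    have f4 : ((|(y : ℤ) - x| : ℤ) : ℝ) ≤ ((2 ^ (K - a' + H) : ℤ) : ℝ) := by exact_mod_cast f3
    push_cast at f4
    exact f4
  have hh' : |(h : ℝ)| ≤ 2 ^ (a1 - 2 * H) := by exact_mod_cast hh
  have hp := Real.pi_pos
  have e4 : 2 * Real.pi * |(h : ℝ)| * |((y : ℤ) : ℝ) - ((x : ℤ) : ℝ)| ≤
      2 * Real.pi * 2 ^ (a1 - 2 * H) * 2 ^ (K - a' + H) := by
    push_cast
    refine mul_le_mul ?_ hyx (abs_nonneg _) (by positivity)
    exact mul_le_mul_of_nonneg_left hh' (by positivity)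
  refine (div_le_div_of_nonneg_right e4 (by positivity)).trans ?_
  rw [div_le_div_iff₀ (by positivity) h2H]
  have e5 : (2 : ℝ) ^ (a1 - 2 * H) * 2 ^ (K - a' + H) * 2 ^ H ≤ 2 ^ K := by
    rw [← pow_add, ← pow_add]
    exact pow_le_pow_right₀ (by norm_num) (by omega)
  calc 2 * Real.pi * 2 ^ (a1 - 2 * H) * 2 ^ (K - a' + H) * 2 ^ H =
        2 * Real.pi * (2 ^ (a1 - 2 * H) * 2 ^ (K - a' + H) * 2 ^ H) := by ring
    _ ≤ 2 * Real.pi * 2 ^ K := mul_le_mul_of_nonneg_left e5 (by positivity)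

/-- trivial bound -/
theorem triv_P4 (h1 : St_blk1) (K c : ℕ) (h : ℤ) (x : ℕ) :
    |blk c (fun y => co K h y) x| ≤ 1 :=
  (h1 c).2.2.2.2.2.1 _ _ x fun _ _ => Real.abs_cos_le_one _

theorem m_P4 (h1 : St_blk1) (_h2 : St_blk2) (h3 : St_trig) (h4 : St_orth) (h5 : St_dd) :
    St_P4 := by
  intro K H a a1 a2 b S B hL ha1 ha12 ha2 x
  obtain ⟨hSB, hdS, hd2, -, -⟩ := h5 K H a b S B hL
  have hHa := hL.Ha
  have haK := hL.aK
  have hB0 : 0 ≤ B := (sum_nonneg hL.b0).trans hL.mass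
  have h2H : (0 : ℝ) < 2 ^ H := by positivity
  have hpi := Real.pi_lt_d2
  have hpi0 := Real.pi_pos
  -- from `dd` to `SS`
  have hsq : ∀ c, |blk c (fun y => dd K H a b S y ^ 2) x -
      blk c (fun y => SS K b S y ^ 2) x| ≤ 81 * B ^ 2 / 2 ^ H := by
    intro c
    rw [← blk_sub_P4]
    refine (h1 c).2.2.2.2.2.1 _ _ x fun y _ => ?_
    have e1 : dd K H a b S y ^ 2 - SS K b S y ^ 2 = (dd K H a b S y - SS K b S y) *
        (dd K H a b S y + SS K b S y) := by ring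
    rw [e1, abs_mul]
    have e2 : |dd K H a b S y + SS K b S y| ≤ 3 * B := by
      refine (abs_add_le _ _).trans ?_
      linarith [hd2 y, hSB y]
    refine (mul_le_mul (hdS y) e2 (abs_nonneg _) (by positivity)).trans (le_of_eq ?_)
    ring
  -- one pair
  have hpair : ∀ γ ∈ S, ∀ ξ ∈ S,
      |blk (K - a2 + H) (fun y => si K γ y * si K ξ y) x -
        blk (K - a1 + H) (fun y => si K γ y * si K ξ y) x| ≤
      (if |(γ : ℤ) - ξ| ≤ ((2 ^ a2 : ℕ) : ℤ) ∧ ((2 ^ (a1 - 2 * H) : ℕ) : ℤ) < |(γ : ℤ) - ξ|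
        then 1 else 0) + 7 / 2 ^ H := by
    intro γ hγ ξ hξ
    have e1 := hL.hi γ hγ
    have e2 := hL.hi ξ hξ
    have e3 := hL.lo γ hγ
    have e4 := hL.lo ξ hξ
    have e5 : (2 : ℤ) ^ (a + 4) ≤ 2 ^ K := pow_le_pow_right₀ (by norm_num) (by omega)
    have e6 : (2 : ℤ) ^ a2 ≤ 2 ^ a := pow_le_pow_right₀ (by norm_num) ha2
    have e7 : (2 : ℤ) ^ a1 ≤ 2 ^ a2 := pow_le_pow_right₀ (by norm_num) (by omega)
    have e1' : (γ : ℤ) < 4 * 2 ^ a := by
      have : ((γ : ℕ) : ℤ) < ((2 ^ (a + 2) : ℕ) : ℤ) := by exact_mod_cast e1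
      push_cast at this
      rw [pow_add] at this
      linarith
    have e2' : (ξ : ℤ) < 4 * 2 ^ a := by
      have : ((ξ : ℕ) : ℤ) < ((2 ^ (a + 2) : ℕ) : ℤ) := by exact_mod_cast e2
      push_cast at this
      rw [pow_add] at this
      linarith
    have e3' : (2 : ℤ) ^ a ≤ 2 * γ := by exact_mod_cast e3
    have e4' : (2 : ℤ) ^ a ≤ 2 * ξ := by exact_mod_cast e4
    have e5' : 16 * (2 : ℤ) ^ a ≤ 2 ^ K := by
      rw [pow_add] at e5
      linarith
    have kd : 2 * |(γ : ℤ) - ξ| ≤ 2 ^ K := by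
      have : |(γ : ℤ) - ξ| ≤ γ + ξ := by
        rw [abs_le]
        constructor <;> omega
      linarith
    have ks : 2 * |(γ : ℤ) + ξ| ≤ 2 ^ K := by
      rw [abs_of_nonneg (by positivity)]
      linarith
    have ksl : (2 : ℤ) ^ a ≤ |(γ : ℤ) + ξ| := by
      rw [abs_of_nonneg (by positivity)]
      linarith
    have hP : ∀ c, blk c (fun y => si K γ y * si K ξ y) x = (1 / 2) *
        (blk c (fun y => co K ((γ : ℤ) - ξ) y) x - blk c (fun y => co K ((γ : ℤ) + ξ) y) x) := by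
      intro c
      rw [← blk_sub_P4, ← blk_mul_P4]
      congr 1
      funext y
      rw [(h4 K).2.2.2.2 (γ : ℤ) (ξ : ℤ) (y : ℤ)]
      ring
    have s1 := large_P4 h3 K H a2 (by omega) (by omega) ((γ : ℤ) + ξ) ks (e6.trans ksl) x
    have s2 := large_P4 h3 K H a1 (by omega) (by omega) ((γ : ℤ) + ξ) ks
      ((e7.trans e6).trans ksl) x
    rw [hP, hP, ← mul_sub, abs_mul, abs_of_nonneg (by norm_num : (0 : ℝ) ≤ 1 / 2)]
    have key : |blk (K - a2 + H) (fun y => co K ((γ : ℤ) - ξ) y) x -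
        blk (K - a1 + H) (fun y => co K ((γ : ℤ) - ξ) y) x| ≤
        (if |(γ : ℤ) - ξ| ≤ ((2 ^ a2 : ℕ) : ℤ) ∧ ((2 ^ (a1 - 2 * H) : ℕ) : ℤ) < |(γ : ℤ) - ξ|
          then 2 else 0) + 4 * Real.pi / 2 ^ H := by
      have hpp : 0 ≤ 4 * Real.pi / 2 ^ H := by positivity
      split_ifs with hc
      · have t1 := abs_le.1 (triv_P4 h1 K (K - a2 + H) ((γ : ℤ) - ξ) x)
        have t2 := abs_le.1 (triv_P4 h1 K (K - a1 + H) ((γ : ℤ) - ξ) x)
        rw [abs_le]
        constructor <;> linarith [t1.1, t1.2, t2.1, t2.2]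
      · rw [zero_add]
        push_cast at hc
        by_cases hbig : |(γ : ℤ) - ξ| ≤ 2 ^ a2
        · have hsm : |(γ : ℤ) - ξ| ≤ 2 ^ (a1 - 2 * H) := by
            by_contra hcon
            exact hc ⟨hbig, not_le.1 hcon⟩
          have t1 := abs_le.1 (small_P4 h1 h4 K H a1 a2 (by omega) (by omega) (by omega)
            (by omega) ((γ : ℤ) - ξ) hsm x)
          have t2 := abs_le.1 (small_P4 h1 h4 K H a1 a1 (by omega) (by omega) (by omega)
            (le_refl _) ((γ : ℤ) - ξ) hsm x)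
          have t3 : 4 * Real.pi / 2 ^ H = 2 * Real.pi / 2 ^ H + 2 * Real.pi / 2 ^ H := by ring
          rw [abs_le, t3]
          constructor <;> linarith [t1.1, t1.2, t2.1, t2.2]
        · have hbig' : (2 : ℤ) ^ a2 ≤ |(γ : ℤ) - ξ| := (not_le.1 hbig).le
          have t1 := abs_le.1 (large_P4 h3 K H a2 (by omega) (by omega) ((γ : ℤ) - ξ) kd hbig' x)
          have t2 := abs_le.1 (large_P4 h3 K H a1 (by omega) (by omega) ((γ : ℤ) - ξ) kd
            (e7.trans hbig') x)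
          have t3 : 1 / 2 / 2 ^ H + 1 / 2 / 2 ^ H ≤ 4 * Real.pi / 2 ^ H := by
            rw [← add_div]
            refine div_le_div_of_nonneg_right ?_ h2H.le
            linarith [Real.pi_gt_three]
          rw [abs_le]
          constructor <;> linarith [t1.1, t1.2, t2.1, t2.2]
    have s1' := abs_le.1 s1
    have s2' := abs_le.1 s2
    have kk := abs_le.1 key
    have t4 : 4 * Real.pi / 2 ^ H ≤ 12.6 / 2 ^ H := by
      refine div_le_div_of_nonneg_right ?_ h2H.le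
      linarith
    have t5 : (1 : ℝ) / 2 / 2 ^ H + 1 / 2 / 2 ^ H = 1 / 2 ^ H := by
      rw [← add_div]
      norm_num
    have t6 : 12.6 / 2 ^ H + 1 / 2 ^ H ≤ 14 / (2 : ℝ) ^ H := by
      rw [← add_div]
      refine div_le_div_of_nonneg_right ?_ h2H.le
      norm_num
    have t7 : 14 / (2 : ℝ) ^ H = 2 * (7 / 2 ^ H) := by ring
    have hfin : |blk (K - a2 + H) (fun y => co K ((γ : ℤ) - ξ) y) x -
        blk (K - a2 + H) (fun y => co K ((γ : ℤ) + ξ) y) x -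
        (blk (K - a1 + H) (fun y => co K ((γ : ℤ) - ξ) y) x -
        blk (K - a1 + H) (fun y => co K ((γ : ℤ) + ξ) y) x)| ≤
        (if |(γ : ℤ) - ξ| ≤ ((2 ^ a2 : ℕ) : ℤ) ∧ ((2 ^ (a1 - 2 * H) : ℕ) : ℤ) < |(γ : ℤ) - ξ|
          then 2 else 0) + 2 * (7 / 2 ^ H) := by
      rw [abs_le]
      constructor <;> linarith [s1'.1, s1'.2, s2'.1, s2'.2, kk.1, kk.2]
    split_ifs at hfin ⊢ with hc
    · linarith
    · linarith
  -- summation
  have hSS : ∀ c, blk c (fun y => SS K b S y ^ 2) x = ∑ γ ∈ S, ∑ ξ ∈ S,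
      (b γ * b ξ) * blk c (fun y => si K γ y * si K ξ y) x := by
    intro c
    have r1 : (fun y : ℕ => SS K b S y ^ 2) = fun y : ℕ =>
        ∑ γ ∈ S, ∑ ξ ∈ S, (b γ * b ξ) * (si K γ y * si K ξ y) := by
      funext y
      unfold SS
      rw [sq, sum_mul_sum]
      refine sum_congr rfl fun γ _ => sum_congr rfl fun ξ _ => ?_
      ring
    rw [r1, blk_sum_P4]
    refine sum_congr rfl fun γ _ => ?_
    rw [blk_sum_P4]
    refine sum_congr rfl fun ξ _ => ?_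
    rw [blk_mul_P4]
  have hsum : |blk (K - a2 + H) (fun y => SS K b S y ^ 2) x -
      blk (K - a1 + H) (fun y => SS K b S y ^ 2) x| ≤
      pm2 b S (2 ^ (a1 - 2 * H)) (2 ^ a2) + 7 * B ^ 2 / 2 ^ H := by
    rw [hSS, hSS, ← sum_sub_distrib]
    have r1 : ∀ γ ∈ S, |∑ ξ ∈ S, b γ * b ξ * blk (K - a2 + H) (fun y => si K γ y * si K ξ y) x -
        ∑ ξ ∈ S, b γ * b ξ * blk (K - a1 + H) (fun y => si K γ y * si K ξ y) x| ≤
        ∑ ξ ∈ S, (if |(γ : ℤ) - ξ| ≤ ((2 ^ a2 : ℕ) : ℤ) ∧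
          ((2 ^ (a1 - 2 * H) : ℕ) : ℤ) < |(γ : ℤ) - ξ| then b γ * b ξ else 0) +
          b γ * (7 * B / 2 ^ H) := by
      intro γ hγ
      rw [← sum_sub_distrib]
      have r2 : b γ * (7 * B / 2 ^ H) ≥ ∑ ξ ∈ S, (b γ * b ξ) * (7 / 2 ^ H) := by
        rw [← sum_mul, ← mul_sum, mul_assoc]
        refine mul_le_mul_of_nonneg_left ?_ (hL.b0 γ hγ)
        rw [mul_comm (7 : ℝ) B, mul_div_assoc]
        exact mul_le_mul_of_nonneg_right hL.mass (by positivity)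
      refine le_trans ?_ (add_le_add_right r2 _)
      rw [← sum_add_distrib]
      refine (abs_sum_le_sum_abs _ _).trans (sum_le_sum fun ξ hξ => ?_)
      rw [← mul_sub, abs_mul, abs_of_nonneg (mul_nonneg (hL.b0 γ hγ) (hL.b0 ξ hξ))]
      refine (mul_le_mul_of_nonneg_left (hpair γ hγ ξ hξ)
        (mul_nonneg (hL.b0 γ hγ) (hL.b0 ξ hξ))).trans (le_of_eq ?_)
      split_ifs <;> ring
    refine (abs_sum_le_sum_abs _ _).trans ((sum_le_sum r1).trans ?_)
    rw [sum_add_distrib]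
    refine add_le_add (le_of_eq ?_) ?_
    · unfold pm2
      rfl
    · rw [← sum_mul]
      have r3 : 7 * B ^ 2 / 2 ^ H = B * (7 * B / 2 ^ H) := by ring
      rw [r3]
      exact mul_le_mul_of_nonneg_right hL.mass (by positivity)
  have q1 := abs_le.1 (hsq (K - a2 + H))
  have q2 := abs_le.1 (hsq (K - a1 + H))
  have q3 := abs_le.1 hsum
  have q4 : 81 * B ^ 2 / 2 ^ H + 81 * B ^ 2 / 2 ^ H + 7 * B ^ 2 / 2 ^ H ≤
      200 * B ^ 2 / (2 : ℝ) ^ H := by
    rw [← add_div, ← add_div]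
    refine div_le_div_of_nonneg_right ?_ h2H.le
    nlinarith [sq_nonneg B]
  rw [abs_le]
  constructor <;> linarith [q1.1, q1.2, q2.1, q2.2, q3.1, q3.2]

end Pool.Agent.Helper57.SN
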