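import Pool.Agent.Helper57.SN.StC

/-!
# Project SN, module Rud: Rudin inequality for a dissociated tuple
-/

set_option autoImplicit false

open Finset

namespace Pool.Agent.Helper57.SN

/-- the character of frequency `g` -/
noncomputable def ee_Rud (K : ℕ) (g x : ℤ) : ℂ :=
  Complex.exp (((2 * Real.pi * g * x / 2 ^ K : ℝ) : ℂ) * Complex.I)

theorem ee_add_Rud (K : ℕ) (g h x : ℤ) : ee_Rud K (g + h) x = ee_Rud K g x * ee_Rud K h x := by
  rw [ee_Rud, ee_Rud, ee_Rud, ← Complex.exp_add]
  congr 1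
  push_cast
  ring

theorem ee_zero_Rud (K : ℕ) (x : ℤ) : ee_Rud K 0 x = 1 := by
  simp [ee_Rud]

theorem ee_sum_Rud {ι : Type} (K : ℕ) (A : Finset ι) (g : ι → ℤ) (x : ℤ) :
    ee_Rud K (∑ i ∈ A, g i) x = ∏ i ∈ A, ee_Rud K (g i) x := by
  classical
  induction A using Finset.induction_on with
  | empty => simp [ee_zero_Rud]
  | insert a A ha ih => rw [Finset.sum_insert ha, Finset.prod_insert ha, ee_add_Rud, ih]

theorem co_eq_ee_Rud (K : ℕ) (g x : ℤ) :
    ((co K g x : ℝ) : ℂ) = (ee_Rud K g x + ee_Rud K (-g) x) / 2 := by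
  rw [co, ee_Rud, ee_Rud, Complex.ofReal_cos, Complex.cos]
  congr 3
  push_cast
  ring

theorem si_eq_ee_Rud (K : ℕ) (g x : ℤ) :
    ((si K g x : ℝ) : ℂ) = ee_Rud K g x / (2 * Complex.I) + -(ee_Rud K (-g) x / (2 * Complex.I)) := by
  rw [si, ee_Rud, ee_Rud, Complex.ofReal_sin, Complex.sin]
  have h1 : -((2 * Real.pi * g * x / 2 ^ K : ℝ) : ℂ) * Complex.I =
      ((2 * Real.pi * ((-g : ℤ) : ℝ) * x / 2 ^ K : ℝ) : ℂ) * Complex.I := by
    push_cast
    ring
  rw [h1]
  have hI : Complex.I ≠ 0 := Complex.I_ne_zero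
  field_simp
  rw [Complex.I_sq]
  ring

/-- Orthogonality of the characters. -/
theorem sum_ee_Rud (K : ℕ) (g : ℤ) (hg : |g| < 2 ^ K) :
    ∑ x ∈ range (2 ^ K), ee_Rud K g (x : ℤ) = if g = 0 then (2 : ℂ) ^ K else 0 := by
  split_ifs with h0
  · subst h0
    simp [ee_zero_Rud]
  · set ζ : ℂ := Complex.exp (((2 * Real.pi * g / 2 ^ K : ℝ) : ℂ) * Complex.I) with hζ
    have h1 : ∀ x : ℕ, ee_Rud K g (x : ℤ) = ζ ^ x := by
      intro x
      rw [ee_Rud, hζ, ← Complex.exp_nat_mul]
      congr 1
      push_cast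
      ring
    simp only [h1]
    have hζN : ζ ^ (2 ^ K) = 1 := by
      rw [hζ, ← Complex.exp_nat_mul, Complex.exp_eq_one_iff]
      refine ⟨g, ?_⟩
      push_cast
      field_simp
    have hζ1 : ζ ≠ 1 := by
      intro h
      rw [hζ, Complex.exp_eq_one_iff] at h
      obtain ⟨n, hn⟩ := h
      have h2 : (g : ℂ) = n * 2 ^ K := by
        have h3 : (2 * Real.pi * Complex.I : ℂ) ≠ 0 := by
          simp [Real.pi_ne_zero]
        have h4 : (2 * Real.pi * Complex.I : ℂ) * (g : ℂ) =
            (2 * Real.pi * Complex.I : ℂ) * (n * 2 ^ K) := by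
          push_cast at hn
          field_simp at hn ⊢
          exact hn
        exact mul_left_cancel₀ h3 h4
      have h5 : g = n * 2 ^ K := by exact_mod_cast h2
      have h6 : n ≠ 0 := by
        rintro rfl
        apply h0
        rw [h5]
        simp
      have h7 : (2 : ℤ) ^ K ≤ |g| := by
        rw [h5, abs_mul, abs_of_pos (by positivity : (0 : ℤ) < 2 ^ K)]
        have : 1 ≤ |n| := Int.one_le_abs h6
        nlinarith [show (0 : ℤ) < 2 ^ K by positivity]
      omega
    have h8 := geom_sum_mul ζ (2 ^ K)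
    rw [hζN, sub_self] at h8
    exact (mul_eq_zero.1 h8).resolve_right (sub_ne_zero.2 hζ1)

/-- The products of the sines have mean value zero. -/
theorem prod_si_Rud (K s : ℕ) (d : Fin s → ℕ) (hd : Dis d) (hs : ∑ i, d i < 2 ^ K)
    (A : Finset (Fin s)) (hA : A.Nonempty) :
    ∑ x ∈ range (2 ^ K), ∏ i ∈ A, si K (d i) (x : ℤ) = 0 := by
  classical
  have h1 : ((∑ x ∈ range (2 ^ K), ∏ i ∈ A, si K (d i) (x : ℤ) : ℝ) : ℂ) = 0 := by
    push_cast
    simp only [si_eq_ee_Rud]
    simp only [Finset.prod_add]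
    rw [Finset.sum_comm]
    refine Finset.sum_eq_zero fun B hB => ?_
    have hBA : B ⊆ A := Finset.mem_powerset.1 hB
    set g : ℤ := ∑ i ∈ B, (d i : ℤ) + ∑ i ∈ A \ B, -(d i : ℤ) with hg
    have h2 : ∀ x : ℕ, (∏ i ∈ B, ee_Rud K (d i) (x : ℤ) / (2 * Complex.I)) *
        ∏ i ∈ A \ B, -(ee_Rud K (-(d i : ℤ)) (x : ℤ) / (2 * Complex.I)) =
        ((∏ _i ∈ B, (1 / (2 * Complex.I))) * ∏ _i ∈ A \ B, (-1 / (2 * Complex.I))) *
          ee_Rud K g (x : ℤ) := by
      intro x
      rw [hg, ee_add_Rud, ee_sum_Rud, ee_sum_Rud, mul_mul_mul_comm, ← Finset.prod_mul_distrib,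
        ← Finset.prod_mul_distrib]
      congr 1
      · refine Finset.prod_congr rfl fun i _ => ?_
        ring
      · refine Finset.prod_congr rfl fun i _ => ?_
        ring
    simp only [h2]
    rw [← Finset.mul_sum]
    set ε : Fin s → ℤ := fun i => if i ∈ B then 1 else if i ∈ A then -1 else 0 with hε
    have h3 : g = ∑ i, ε i * (d i : ℤ) := by
      have h4 : ∑ i, ε i * (d i : ℤ) = ∑ i ∈ A, ε i * (d i : ℤ) := by
        symm
        refine Finset.sum_subset (Finset.subset_univ _) fun i _ hi => ?_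
        have : ε i = 0 := by
          simp only [hε]
          rw [if_neg fun h => hi (hBA h), if_neg hi]
        rw [this, zero_mul]
      rw [h4, ← Finset.sum_sdiff hBA, add_comm, hg]
      congr 1
      · refine Finset.sum_congr rfl fun i hi => ?_
        simp only [hε]
        rw [if_pos hi, one_mul]
      · refine Finset.sum_congr rfl fun i hi => ?_
        rw [Finset.mem_sdiff] at hi
        simp only [hε]
        rw [if_neg hi.2, if_pos hi.1]
        ring
    have h5 : g ≠ 0 := by
      intro h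
      rw [h3] at h
      obtain ⟨i, hi⟩ := hA
      have h6 := hd ε (fun i => by
        simp only [hε]
        split_ifs <;> simp) h i
      simp only [hε] at h6
      split_ifs at h6
      omega
    have h7 : |g| < 2 ^ K := by
      rw [h3]
      calc |∑ i, ε i * (d i : ℤ)| ≤ ∑ i, |ε i * (d i : ℤ)| := Finset.abs_sum_le_sum_abs _ _
        _ ≤ ∑ i, (d i : ℤ) := by
            refine Finset.sum_le_sum fun i _ => ?_
            rw [abs_mul, Nat.abs_cast]
            have : |ε i| ≤ 1 := by
              simp only [hε]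
              split_ifs <;> simp
            nlinarith [Int.natCast_nonneg (d i)]
        _ < 2 ^ K := by exact_mod_cast hs
    rw [sum_ee_Rud K g h7, if_neg h5, mul_zero]
  exact_mod_cast h1

theorem m_Rud : St_Rud := by
  classical
  intro K s d hd hs
  have hN : (0 : ℝ) < 2 ^ K := by positivity
  have h1 : ∀ t : ℝ, av K (fun x => Real.exp (t * ∑ i, si K (d i) x)) ≤
      Real.exp (s * t ^ 2 / 2) := by
    intro t
    rw [av, div_le_iff₀ hN]
    have h2 : ∀ x : ℕ, Real.exp (t * ∑ i, si K (d i) (x : ℤ)) ≤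
        ∏ i, (si K (d i) (x : ℤ) * Real.sinh t + Real.cosh t) := by
      intro x
      rw [Finset.mul_sum, Real.exp_sum]
      refine Finset.prod_le_prod (fun i _ => (Real.exp_pos _).le) fun i _ => ?_
      set y := si K (d i) (x : ℤ) with hy
      have hy1 : |y| ≤ 1 := Real.abs_sin_le_one _
      obtain ⟨hy2, hy3⟩ := abs_le.1 hy1
      have hconv := convexOn_exp.2 (Set.mem_univ t) (Set.mem_univ (-t))
        (by linarith : (0 : ℝ) ≤ (1 + y) / 2) (by linarith : (0 : ℝ) ≤ (1 - y) / 2) (by ring)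
      simp only [smul_eq_mul] at hconv
      have h3 : (1 + y) / 2 * t + (1 - y) / 2 * -t = t * y := by ring
      rw [h3] at hconv
      refine hconv.trans (le_of_eq ?_)
      rw [Real.sinh_eq, Real.cosh_eq]
      ring
    calc ∑ x ∈ range (2 ^ K), Real.exp (t * ∑ i, si K (d i) (x : ℤ))
        ≤ ∑ x ∈ range (2 ^ K), ∏ i, (si K (d i) (x : ℤ) * Real.sinh t + Real.cosh t) :=
          Finset.sum_le_sum fun x _ => h2 x
      _ = ∑ A ∈ (univ : Finset (Fin s)).powerset, ∑ x ∈ range (2 ^ K),
            (∏ i ∈ A, si K (d i) (x : ℤ)) * (Real.sinh t ^ A.card *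
              Real.cosh t ^ (univ \ A).card) := by
          rw [Finset.sum_comm]
          refine Finset.sum_congr rfl fun x _ => ?_
          rw [Finset.prod_add]
          refine Finset.sum_congr rfl fun A _ => ?_
          rw [Finset.prod_mul_distrib, Finset.prod_const, Finset.prod_const]
          ring
      _ = ∑ x ∈ range (2 ^ K), Real.cosh t ^ s := by
          rw [← Finset.add_sum_erase _ _ (Finset.empty_mem_powerset _)]
          rw [Finset.sum_eq_zero (s := (univ : Finset (Fin s)).powerset.erase ∅), add_zero]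
          · refine Finset.sum_congr rfl fun x _ => ?_
            simp
          · intro A hA
            rw [← Finset.sum_mul, prod_si_Rud K s d hd hs A
              (Finset.nonempty_iff_ne_empty.2 (Finset.ne_of_mem_erase hA)), zero_mul]
      _ = Real.cosh t ^ s * 2 ^ K := by
          rw [Finset.sum_const, Finset.card_range, nsmul_eq_mul, mul_comm]
          push_cast
          ring
      _ ≤ Real.exp (s * t ^ 2 / 2) * 2 ^ K := by
          refine mul_le_mul_of_nonneg_right ?_ hN.le
          calc Real.cosh t ^ s ≤ Real.exp (t ^ 2 / 2) ^ s :=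
                pow_le_pow_left₀ (Real.cosh_pos t).le (Real.cosh_le_exp_half_sq t) s
            _ = Real.exp (s * t ^ 2 / 2) := by
                rw [← Real.exp_nat_mul]
                congr 1
                ring
  have h4 : ∀ c t : ℝ, 0 ≤ c → t ^ 2 = c ^ 2 → ∀ (T : Finset ℕ), T ⊆ range (2 ^ K) →
      (∀ x ∈ T, s * c ^ 2 ≤ t * ∑ i, si K (d i) (x : ℤ)) →
      (T.card : ℝ) ≤ Real.exp (-(c ^ 2 * s / 2)) * 2 ^ K := by
    intro c t hc htc T hT hTx
    have h5 := h1 t
    rw [av, div_le_iff₀ hN] at h5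
    have h6 : (T.card : ℝ) * Real.exp (s * c ^ 2) ≤
        ∑ x ∈ range (2 ^ K), Real.exp (t * ∑ i, si K (d i) (x : ℤ)) := by
      calc (T.card : ℝ) * Real.exp (s * c ^ 2) = ∑ x ∈ T, Real.exp (s * c ^ 2) := by
            rw [Finset.sum_const, nsmul_eq_mul]
        _ ≤ ∑ x ∈ T, Real.exp (t * ∑ i, si K (d i) (x : ℤ)) :=
            Finset.sum_le_sum fun x hx => Real.exp_le_exp.2 (hTx x hx)
        _ ≤ _ := Finset.sum_le_sum_of_subset_of_nonneg hT fun _ _ _ => (Real.exp_pos _).le
    have h7 := h6.trans h5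
    rw [htc] at h7
    have h8 : Real.exp (-(c ^ 2 * s / 2)) = Real.exp (s * c ^ 2 / 2) / Real.exp (s * c ^ 2) := by
      rw [← Real.exp_sub]
      congr 1
      ring
    rw [h8, div_mul_eq_mul_div, le_div_iff₀ (Real.exp_pos _)]
    exact h7
  refine ⟨h1, fun c hc => ?_, fun c hc => ?_⟩
  · refine h4 c c hc rfl _ (Finset.filter_subset _ _) fun x hx => ?_
    have := (Finset.mem_filter.1 hx).2
    nlinarith
  · refine h4 c (-c) hc (by ring) _ (Finset.filter_subset _ _) fun x hx => ?_
    have := (Finset.mem_filter.1 hx).2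
    nlinarith

end Pool.Agent.Helper57.SN
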