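import Pool.Agent.Helper57.SN.StA
import Pool.Agent.Helper57.SN.StB

/-! # Project SN, module STR: few structured levels -/

set_option autoImplicit false

open Finset

namespace Pool.Agent.Helper57.SN

open Classical in
/-- mass landing at a level exponent -/
private noncomputable def lm_STR (H m0 : ℕ) (D Ω : Finset ℕ) (b : ℕ → ℝ) (al : ℕ) : ℝ :=
  ∑ ω ∈ Ω, if Land H m0 D al (ω : ℤ) then b ω else 0

open Classical in
private noncomputable def phi_STR (H m0 : ℕ) (D : ℕ → Finset ℕ) (Ω : Finset ℕ) (b : ℕ → ℝ)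
    (a : ℕ → ℕ) (J' : Finset ℕ) (l : ℕ) : ℝ :=
  if Hit H m0 (J'.biUnion D) (a l) then 1 else lm_STR H m0 (J'.biUnion D) Ω b (a l)

private theorem spn_STR (m : ℕ) (D : Finset ℕ) (g : ℤ) (X : ℕ) (h : Spn m D g)
    (hX : ∀ d ∈ D, d ≤ X) : |g| ≤ (m * D.card * X : ℕ) := by
  obtain ⟨c, hc, rfl⟩ := h
  calc |∑ d ∈ D, c d * (d : ℤ)| ≤ ∑ d ∈ D, |c d * (d : ℤ)| := abs_sum_le_sum_abs _ _
    _ ≤ ∑ d ∈ D, ((m * X : ℕ) : ℤ) := by
        refine sum_le_sum fun d hd => ?_
        rw [abs_mul, Nat.abs_cast, Nat.cast_mul]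
        exact mul_le_mul (hc d) (by exact_mod_cast hX d hd) (by positivity) (by positivity)
    _ = ((m * D.card * X : ℕ) : ℤ) := by
        rw [sum_const, nsmul_eq_mul]
        push_cast
        ring

/-- the single element lies in its own span -/
private theorem spn_self_STR (D : Finset ℕ) (d : ℕ) (hd : d ∈ D) : Spn 1 D (d : ℤ) := by
  classical
  refine ⟨fun x => if x = d then 1 else 0, fun x => ?_, ?_⟩
  · show |(if x = d then (1 : ℤ) else 0)| ≤ ((1 : ℕ) : ℤ)
    split_ifs <;> simp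
  · rw [sum_eq_single d]
    · simp
    · intro x _ hx
      show (if x = d then (1 : ℤ) else 0) * (x : ℤ) = 0
      rw [if_neg hx, zero_mul]
    · intro h
      exact absurd hd h

/-- landing frequencies are small -/
private theorem land_small_STR (K H m0 s m : ℕ) (D : Finset ℕ) (al : ℕ) (γ : ℕ) (hH : 10 ≤ H)
    (hal : al + 2 * H + 12 ≤ K) (hD : ∀ d ∈ D, d ≤ 2 ^ (K - 2 * H - 10)) (hc : D.card ≤ m * s)
    (h1 : 4 * s * m0 ≤ 2 ^ H) (h2 : 400 * m ≤ 2 ^ H) (hL : Land H m0 D al (γ : ℤ)) :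
    γ < 2 ^ (K - 12) := by
  obtain ⟨_, g, hg, _, hg2⟩ := hL
  have h3 := spn_STR m0 D g _ hg hD
  have h4 : 2 ^ 10 * (m0 * D.card) ≤ 2 ^ (2 * H) := by
    calc 2 ^ 10 * (m0 * D.card) ≤ 2 ^ 10 * (m0 * (m * s)) := by gcongr
      _ ≤ (4 * s * m0) * (400 * m) := by nlinarith [Nat.zero_le (m0 * (m * s))]
      _ ≤ 2 ^ H * 2 ^ H := Nat.mul_le_mul h1 h2
      _ = 2 ^ (2 * H) := by rw [← pow_add]; congr 1; ring
  have h5 : 2 ^ 10 * (m0 * D.card * 2 ^ (K - 2 * H - 10)) ≤ 2 ^ (K - 10) := by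
    calc 2 ^ 10 * (m0 * D.card * 2 ^ (K - 2 * H - 10)) =
          (2 ^ 10 * (m0 * D.card)) * 2 ^ (K - 2 * H - 10) := by ring
      _ ≤ 2 ^ (2 * H) * 2 ^ (K - 2 * H - 10) := Nat.mul_le_mul_right _ h4
      _ = 2 ^ (K - 10) := by rw [← pow_add]; congr 1; omega
  have h6 : 2 ^ (K - 10) = 2 ^ 2 * 2 ^ (K - 12) := by rw [← pow_add]; congr 1; omega
  have h7 : 2 ^ 10 * 2 ^ (al + H) ≤ 2 ^ (K - 12) := by
    rw [← pow_add]
    exact Nat.pow_le_pow_right (by norm_num) (by omega)
  have h8 : (γ : ℤ) ≤ |g| + 2 ^ (al + H) := by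
    have h9 : (γ : ℤ) = g + (γ - g) := by ring
    rw [h9]
    exact add_le_add (le_abs_self g) ((le_abs_self _).trans hg2)
  have h10 : (γ : ℤ) ≤ (m0 * D.card * 2 ^ (K - 2 * H - 10) : ℕ) + ((2 ^ (al + H) : ℕ) : ℤ) := by
    push_cast at h3 ⊢
    linarith
  have h11 : γ ≤ m0 * D.card * 2 ^ (K - 2 * H - 10) + 2 ^ (al + H) := by exact_mod_cast h10
  have h12 : 0 < 2 ^ (K - 12) := by positivity
  omega

theorem m_STR (h1 : St_core) (h2 : St_avg) (h3 : St_land1) (h4 : St_hits) (h5 : St_landmass)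
    (h6 : St_mass) : St_STR := by
  classical
  intro K H T N b Ω a Om B G M τ s m m0 Sg hG hF hH hs hm hm0 hτ hΩN hTN hN hsm hm400 hM hexp hSg
    hst
  by_contra hcard
  rw [not_le] at hcard
  have hst' : ∀ l, ∃ D : Finset ℕ, l ∈ Sg → D ⊆ Om l ∧ D.card ≤ s ∧ τ ≤ stm b (Om l) D := by
    intro l
    by_cases hl : l ∈ Sg
    · obtain ⟨D, hD⟩ := hst l hl
      exact ⟨D, fun _ => hD⟩
    · exact ⟨∅, fun h => absurd h hl⟩
  choose D hD using hst'
  have hT : ∀ l ∈ Sg, l < T := fun l hl => mem_range.1 (hSg hl)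
  have hlv := fun l hl => hF.lv l (hT l hl)
  -- mass on dyadic blocks, for the small frequencies
  set Ω' : Finset ℕ := Ω.filter (fun ω => ω < 2 ^ (K - 12)) with hΩ'
  have hmass : ∀ e : ℕ, ∑ ω ∈ Ω' with (2 ^ e ≤ ω ∧ ω < 2 ^ (e + 1)), b ω ≤ 8 := by
    intro e
    by_cases he : e + 12 ≤ K
    · refine le_trans ?_ (h6 K e b Ω M hG he)
      refine sum_le_sum_of_subset_of_nonneg ?_ ?_
      · intro ω hω
        rw [mem_filter, hΩ', mem_filter] at hω
        rw [mem_filter]
        refine ⟨hω.1.1, by omega, ?_⟩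
        have : 2 ^ (e + 1) ≤ 2 ^ (e + 3) := Nat.pow_le_pow_right (by norm_num) (by omega)
        omega
      · intro ω hω _
        exact hG.b0 ω (mem_filter.1 hω).1
    · have hemp : (Ω'.filter fun ω => 2 ^ e ≤ ω ∧ ω < 2 ^ (e + 1)) = ∅ := by
        rw [filter_eq_empty_iff]
        intro ω hω h7
        rw [hΩ', mem_filter] at hω
        have : 2 ^ (K - 12) ≤ 2 ^ e := Nat.pow_le_pow_right (by norm_num) (by omega)
        omega
      rw [hemp, sum_empty]
      norm_num
  have hb0 : ∀ ω ∈ Ω, 0 ≤ b ω := hG.b0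
  -- union of the sets `D`
  have hun : ∀ J' ⊆ Sg, ((J'.biUnion D).card ≤ J'.card * s) ∧
      ∀ d ∈ J'.biUnion D, d ≤ 2 ^ (K - 2 * H - 10) := by
    intro J' hJ'
    refine ⟨card_biUnion_le_card_mul _ _ _ fun l hl => (hD l (hJ' hl)).2.1, ?_⟩
    intro d hd
    rw [mem_biUnion] at hd
    obtain ⟨l, hl, hdl⟩ := hd
    have h7 := (hlv l (hJ' hl)).hi d ((hD l (hJ' hl)).1 hdl)
    have h8 := (hlv l (hJ' hl)).aK
    have h9 : 2 ^ (a l + 2) ≤ 2 ^ (K - 2 * H - 10) :=
      Nat.pow_le_pow_right (by norm_num) (by omega)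
    omega
  -- the average
  have hsum : ∀ J' ⊆ Sg, J'.card + 1 = m →
      ∑ l ∈ Sg \ J', phi_STR H m0 D Ω b a J' l ≤ 41 * H * m * s := by
    intro J' hJ' hJm
    obtain ⟨hU1, hU2⟩ := hun J' hJ'
    set U := J'.biUnion D with hU
    have hU3 : U.card ≤ m * s := hU1.trans (Nat.mul_le_mul_right _ (by omega))
    have hsplit : ∑ l ∈ Sg \ J', phi_STR H m0 D Ω b a J' l =
        (((Sg \ J').filter fun l => Hit H m0 U (a l)).card : ℝ) +
          ∑ l ∈ (Sg \ J').filter (fun l => ¬ Hit H m0 U (a l)), lm_STR H m0 U Ω b (a l) := by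
      rw [← sum_filter_add_sum_filter_not (Sg \ J') (fun l => Hit H m0 U (a l))]
      congr 1
      · rw [card_eq_sum_ones, Nat.cast_sum, Nat.cast_one]
        refine sum_congr rfl fun l hl => ?_
        rw [phi_STR, ← hU, if_pos (mem_filter.1 hl).2]
      · refine sum_congr rfl fun l hl => ?_
        rw [phi_STR, ← hU, if_neg (mem_filter.1 hl).2]
    have hhit : ((Sg \ J').filter fun l => Hit H m0 U (a l)).card ≤ H * U.card := by
      refine h4 H m0 T N U a (by omega) hF.sep hN hTN _ ?_ ?_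
      · intro l hl
        exact hSg (mem_sdiff.1 (mem_filter.1 hl).1).1
      · intro l hl
        exact (mem_filter.1 hl).2
    have hland : ∑ l ∈ (Sg \ J').filter (fun l => ¬ Hit H m0 U (a l)), lm_STR H m0 U Ω b (a l) ≤
        40 * H * U.card := by
      have h7 := h5 H m0 N U Ω' b (by omega)
        (fun ω hω => hb0 ω (mem_filter.1 hω).1) (fun ω hω => hG.pos ω (mem_filter.1 hω).1)
        ((card_filter_le _ _).trans hΩN) hN hmass
      refine le_trans ?_ h7
      unfold lm_STR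
      rw [sum_comm, hΩ', sum_filter]
      refine sum_le_sum fun ω hω => ?_
      by_cases hex : ∃ l ∈ (Sg \ J').filter (fun l => ¬ Hit H m0 U (a l)), Land H m0 U (a l) (ω : ℤ)
      · obtain ⟨l, hl, hlL⟩ := hex
        have hlS : l ∈ Sg := (mem_sdiff.1 (mem_filter.1 hl).1).1
        rw [sum_eq_single l]
        · rw [if_pos hlL, if_pos, if_pos ⟨a l, hlL⟩]
          exact land_small_STR K H m0 s m U (a l) ω hH (hlv l hlS).aK hU2 hU3 hsm hm400 hlL
        · intro l' hl' hne
          rw [if_neg]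
          intro hlL'
          have hlS' : l' ∈ Sg := (mem_sdiff.1 (mem_filter.1 hl').1).1
          rcases lt_or_gt_of_ne hne with hlt | hlt
          · exact (mem_filter.1 hl).2 (h3 H m0 U (a l') (a l) ω (by omega)
              (hF.sep l' l hlt (hT l hlS)) hlL' hlL)
          · exact (mem_filter.1 hl').2 (h3 H m0 U (a l) (a l') ω (by omega)
              (hF.sep l l' hlt (hT l' hlS')) hlL hlL')
        · intro hn
          exact absurd hl hn
      · have h8 : ∑ l ∈ (Sg \ J').filter (fun l => ¬ Hit H m0 U (a l)),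
            (if Land H m0 U (a l) (ω : ℤ) then b ω else 0) = 0 := by
          refine sum_eq_zero fun l hl => ?_
          rw [if_neg]
          intro hlL
          exact hex ⟨l, hl, hlL⟩
        rw [h8]
        split_ifs
        · exact hb0 ω hω
        · exact le_rfl
        · exact le_rfl
    rw [hsplit]
    have h7 : (((Sg \ J').filter fun l => Hit H m0 U (a l)).card : ℝ) ≤ H * U.card := by
      exact_mod_cast hhit
    have h8 : (U.card : ℝ) ≤ m * s := by exact_mod_cast hU3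
    have h9 : (0 : ℝ) ≤ H := Nat.cast_nonneg H
    nlinarith
  have hmS : m ≤ Sg.card := by
    have : m ≤ 170 * m ^ 2 * s * H := by
      calc m ≤ m ^ 2 := by nlinarith
        _ ≤ 170 * m ^ 2 := by nlinarith [Nat.zero_le (m ^ 2)]
        _ = 170 * m ^ 2 * 1 * 1 := by ring
        _ ≤ 170 * m ^ 2 * s * H := by gcongr; omega
    omega
  obtain ⟨J, hJS, hJm, hJsum⟩ := h2 Sg m (phi_STR H m0 D Ω b a) (41 * H * m * s) (1 / 4) hm hmS
    hsum (by
      have h7 : ((170 * m ^ 2 * s * H : ℕ) : ℝ) + 1 ≤ Sg.card := by exact_mod_cast hcard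
      push_cast at h7
      have h8 : (m : ℝ) ≤ m ^ 2 * s * H := by
        have : m ≤ m ^ 2 * s * H := by
          calc m ≤ m ^ 2 := by nlinarith
            _ = m ^ 2 * 1 * 1 := by ring
            _ ≤ m ^ 2 * s * H := by gcongr; omega
        exact_mod_cast this
      have h9 : (0 : ℝ) ≤ m ^ 2 * s * H := by positivity
      nlinarith)
  have hlm0 : ∀ (U : Finset ℕ) (al : ℕ), 0 ≤ lm_STR H m0 U Ω b al := by
    intro U al
    refine sum_nonneg fun ω hω => ?_
    split_ifs
    · exact hb0 ω hω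
    · exact le_rfl
  have hphi0 : ∀ J' l, 0 ≤ phi_STR H m0 D Ω b a J' l := by
    intro J' l
    unfold phi_STR
    split_ifs
    · exact zero_le_one
    · exact hlm0 _ _
  have hnh : ∀ l ∈ J, ¬ Hit H m0 ((J.erase l).biUnion D) (a l) := by
    intro l hl hhit
    have h7 := (single_le_sum (f := fun l => phi_STR H m0 D Ω b a (J.erase l) l)
      (fun l _ => hphi0 _ _) hl).trans_lt hJsum
    simp only [phi_STR] at h7
    rw [if_pos hhit] at h7
    norm_num at h7
  have hpe : ∀ l ∈ J, phi_STR H m0 D Ω b a (J.erase l) l =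
      lm_STR H m0 ((J.erase l).biUnion D) Ω b (a l) := by
    intro l hl
    unfold phi_STR
    rw [if_neg (hnh l hl)]
  rw [sum_congr rfl hpe] at hJsum
  have hbU : ∀ i : J, (univ.erase i).biUnion (fun j : J => D j) = (J.erase i).biUnion D := by
    intro i
    ext d
    simp only [mem_biUnion, mem_erase, mem_univ, and_true, ne_eq]
    constructor
    · rintro ⟨j, hj, hd⟩
      exact ⟨j, ⟨fun h => hj (Subtype.ext h), j.2⟩, hd⟩
    · rintro ⟨j, ⟨hj, hjJ⟩, hd⟩
      exact ⟨⟨j, hjJ⟩, fun h => hj (congrArg Subtype.val h), hd⟩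
  have hcardJ : Fintype.card J = m := by rw [Fintype.card_coe, hJm]
  have hfin := h1 J K H m0 s (fun i => a i) (fun i => D i)
    (fun i => (Om i).filter fun ξ => Spn 1 (D i) (ξ : ℤ)) b Ω M τ hG hH hm0 hs hsm
    (by rw [hcardJ]; exact hm400) (by rw [hcardJ]; exact hM) (by rw [hcardJ]; exact hexp)
    (fun i => (hlv i (hJS i.2)).aK)
    (fun i j hij => by
      have hne : (i : ℕ) ≠ j := fun h => hij (Subtype.ext h)
      rcases lt_or_gt_of_ne hne with h | h
      · exact Or.inl (hF.sep i j h (hT j (hJS j.2)))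
      · exact Or.inr (hF.sep j i h (hT i (hJS i.2))))
    (fun i d hd => mem_filter.2 ⟨(hD i (hJS i.2)).1 hd, spn_self_STR _ _ hd⟩)
    (fun i => (hD i (hJS i.2)).2.1)
    (fun i ξ hξ => hF.sub i (hT i (hJS i.2)) (mem_filter.1 hξ).1)
    (fun i ξ hξ => ⟨(mem_filter.1 hξ).2, (hlv i (hJS i.2)).lo ξ (mem_filter.1 hξ).1,
      (hlv i (hJS i.2)).hi ξ (mem_filter.1 hξ).1⟩)
    (fun i => by
      refine ((hD i (hJS i.2)).2.2).trans (le_of_eq ?_)
      unfold stm
      rw [sum_filter])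
    (fun i => by rw [hbU]; exact hnh i i.2)
    (by
      refine le_trans ?_ hJsum.le
      rw [← sum_coe_sort J (fun l => lm_STR H m0 ((J.erase l).biUnion D) Ω b (a l))]
      unfold lm_STR
      rw [sum_comm]
      refine sum_le_sum fun ω hω => ?_
      by_cases hex : ∃ i : J, Land H m0 ((univ.erase i).biUnion fun j : J => D j) (a i) (ω : ℤ)
      · rw [if_pos hex]
        obtain ⟨i, hi⟩ := hex
        rw [hbU] at hi
        refine le_trans ?_ (single_le_sum
          (f := fun i : J => if Land H m0 ((J.erase i).biUnion D) (a i) (ω : ℤ) then b ω else 0)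
          (fun j _ => ?_) (mem_univ i))
        · rw [if_pos hi]
        · split_ifs
          · exact hb0 ω hω
          · exact le_rfl
      · rw [if_neg hex]
        refine sum_nonneg fun j _ => ?_
        split_ifs
        · exact hb0 ω hω
        · exact le_rfl)
  rw [hcardJ] at hfin
  linarith

end Pool.Agent.Helper57.SN

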