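import Pool.Agent.Helper57.SN.StC

/-! # Project SN, module Samp: the sampling lemma -/

set_option autoImplicit false

open Finset

namespace Pool.Agent.Helper57.SN

open Classical in
private lemma half_Samp (h2 : St_Cheb) (h3 : St_Dis) (s : ℕ) (S : Finset ℕ) (b : ℕ → ℝ)
    (τ κ β : ℝ) (X : Finset ℕ) (y : ℕ → ℕ → ℝ) (E : ℝ) (h1s : 1 ≤ s) (hb : ∀ ξ ∈ S, 0 ≤ b ξ)
    (hy : ∀ x ξ, |y x ξ| ≤ 1) (hβ : ∑ ξ ∈ S, b ξ = β) (hβ0 : 0 < β) (hκ : 0 < κ)
    (h40 : 40 * β ^ 2 ≤ s * κ ^ 2) (hD : ∀ D ⊆ S, D.card < s → stm b S D ≤ τ)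
    (hτ : 10 * s * τ ≤ β)
    (hR : ∀ d ∈ Fintype.piFinset (fun _ : Fin s => S), Dis d →
      ((X.filter (fun x : ℕ => s * (κ / (2 * β)) ≤ ∑ i, y x (d i))).card : ℝ) ≤ E) (hE : 0 ≤ E) :
    ((X.filter (fun x : ℕ => κ < ∑ ξ ∈ S, b ξ * y x ξ)).card : ℝ) ≤ 5 / 4 * E := by
  set P : (Fin s → ℕ) → ℝ := fun d => ∏ i, b (d i) with hP
  have hP0 : ∀ d ∈ Fintype.piFinset (fun _ : Fin s => S), 0 ≤ P d := fun d hd =>
    prod_nonneg fun i _ => hb _ (Fintype.mem_piFinset.1 hd i)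
  have hPs : ∑ d ∈ Fintype.piFinset (fun _ : Fin s => S), P d = β ^ s := by
    have := (Finset.prod_univ_sum (fun _ : Fin s => S) (fun _ j => b j)).symm
    rw [hP]
    refine this.trans ?_
    rw [hβ, prod_const, card_univ, Fintype.card_fin]
  set g : ℕ → ℝ := fun x => ∑ d ∈ Fintype.piFinset (fun _ : Fin s => S),
    if Dis d then (if s * (κ / (2 * β)) ≤ ∑ i, y x (d i) then P d else 0) else 0 with hg
  have hg0 : ∀ x, 0 ≤ g x := fun x => sum_nonneg fun d hd => by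
    split_ifs
    · exact hP0 d hd
    · exact le_refl _
    · exact le_refl _
  have hlow : ∀ x ∈ X.filter (fun x : ℕ => κ < ∑ ξ ∈ S, b ξ * y x ξ), 8 / 10 * β ^ s ≤ g x := by
    intro x hx
    have e1 := h2 s S b (y x) κ β h1s hb (hy x) hβ hβ0 hκ h40 (mem_filter.1 hx).2
    have e2 := h3 s S b τ β h1s hb hβ hD hτ
    have e3 : ∑ d ∈ Fintype.piFinset (fun _ : Fin s => S),
        (if s * (κ / (2 * β)) ≤ ∑ i, y x (d i) then ∏ i, b (d i) else 0) ≤
        g x + ∑ d ∈ Fintype.piFinset (fun _ : Fin s => S), (if Dis d then 0 else ∏ i, b (d i)) := by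
      rw [hg]
      simp only
      rw [← sum_add_distrib]
      refine sum_le_sum fun d hd => ?_
      have e4 := hP0 d hd
      rw [hP] at e4 ⊢
      simp only at e4 ⊢
      split_ifs <;> linarith
    linarith
  have hup : ∑ x ∈ X, g x ≤ β ^ s * E := by
    rw [hg]
    simp only
    rw [sum_comm, ← hPs, sum_mul]
    refine sum_le_sum fun d hd => ?_
    by_cases hdd : Dis d
    · simp only [if_pos hdd]
      rw [← sum_filter, sum_const, nsmul_eq_mul, mul_comm]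
      exact mul_le_mul_of_nonneg_left (hR d hd hdd) (hP0 d hd)
    · simp only [if_neg hdd, sum_const_zero]
      exact mul_nonneg (hP0 d hd) hE
  have hsub : ∑ x ∈ X.filter (fun x : ℕ => κ < ∑ ξ ∈ S, b ξ * y x ξ), g x ≤ ∑ x ∈ X, g x :=
    sum_le_sum_of_subset_of_nonneg (filter_subset _ _) fun x _ _ => hg0 x
  have hl : ((X.filter (fun x : ℕ => κ < ∑ ξ ∈ S, b ξ * y x ξ)).card : ℝ) * (8 / 10 * β ^ s) ≤
      ∑ x ∈ X.filter (fun x : ℕ => κ < ∑ ξ ∈ S, b ξ * y x ξ), g x := by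
    rw [← nsmul_eq_mul]
    exact card_nsmul_le_sum _ _ _ hlow
  have hβs : 0 < β ^ s := pow_pos hβ0 s
  have hfin := (hl.trans hsub).trans hup
  have e5 : ((X.filter (fun x : ℕ => κ < ∑ ξ ∈ S, b ξ * y x ξ)).card : ℝ) * (8 / 10) ≤ E := by
    refine le_of_mul_le_mul_right ?_ hβs
    linarith
  linarith

theorem m_Samp (h1 : St_Rud) (h2 : St_Cheb) (h3 : St_Dis) : St_Samp := by
  classical
  intro K H a s b S B τ κ hL hs1 hsH hκ hβ0 h40 hD hτ
  set β := ∑ ξ ∈ S, b ξ with hβ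
  have hβB : β ≤ B := hL.mass
  have hs0 : (0 : ℝ) < s := by exact_mod_cast hs1
  have hsq : β ^ 2 ≤ B ^ 2 := pow_le_pow_left₀ hβ0.le hβB 2
  set E := Real.exp (-(κ ^ 2 * s / (8 * B ^ 2))) * 2 ^ K with hE
  have hE0 : 0 ≤ E := by positivity
  have hsum : ∀ d ∈ Fintype.piFinset (fun _ : Fin s => S), ∑ i, d i < 2 ^ K := by
    intro d hd
    have e1 : ∀ i ∈ (univ : Finset (Fin s)), d i ≤ 2 ^ (a + 2) := fun i _ =>
      (hL.hi _ (Fintype.mem_piFinset.1 hd i)).le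
    have e2 := sum_le_card_nsmul _ _ _ e1
    rw [card_univ, Fintype.card_fin, smul_eq_mul] at e2
    have e5 : ∑ i, d i ≤ s * 2 ^ (a + 2) := e2
    have e3 : s * 2 ^ (a + 2) ≤ 2 ^ H * 2 ^ (a + 2) := Nat.mul_le_mul_right _ hsH
    rw [← pow_add] at e3
    have e4 : 2 ^ (H + (a + 2)) < 2 ^ K := Nat.pow_lt_pow_right (by norm_num) (by
      have := hL.aK
      omega)
    omega
  have hexp : Real.exp (-((κ / (2 * β)) ^ 2 * s / 2)) * 2 ^ K ≤ E := by
    rw [hE]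
    refine mul_le_mul_of_nonneg_right (Real.exp_le_exp.2 (neg_le_neg ?_)) (by positivity)
    rw [div_pow, mul_pow]
    have e1 : κ ^ 2 / (2 ^ 2 * β ^ 2) * s / 2 = κ ^ 2 * s / (8 * β ^ 2) := by
      field_simp
      norm_num
    rw [e1]
    exact div_le_div_of_nonneg_left (by positivity) (by positivity) (by linarith)
  have h40' : 40 * β ^ 2 ≤ s * κ ^ 2 := by linarith
  have hc0 : 0 ≤ κ / (2 * β) := by positivity
  have hpos := half_Samp h2 h3 s S b τ κ β (range (2 ^ K)) (fun x ξ => si K ξ x) E hs1 hL.b0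
    (fun x ξ => Real.abs_sin_le_one _) hβ.symm hβ0 hκ h40' hD hτ (by
      intro d hd hdd
      refine le_trans ?_ hexp
      exact (h1 K s d hdd (hsum d hd)).2.1 (κ / (2 * β)) hc0) hE0
  have hneg := half_Samp h2 h3 s S b τ κ β (range (2 ^ K)) (fun x ξ => -si K ξ x) E hs1 hL.b0
    (fun x ξ => by rw [abs_neg]; exact Real.abs_sin_le_one _) hβ.symm hβ0 hκ h40' hD hτ (by
      intro d hd hdd
      refine le_trans ?_ hexp
      refine le_trans (le_of_eq ?_) ((h1 K s d hdd (hsum d hd)).2.2 (κ / (2 * β)) hc0)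
      congr 2
      refine filter_congr fun x _ => ?_
      rw [sum_neg_distrib]
      constructor
      · intro h; linarith
      · intro h; linarith) hE0
  have hcov : (range (2 ^ K)).filter (fun x : ℕ => κ < |SS K b S x|) ⊆
      (range (2 ^ K)).filter (fun x : ℕ => κ < ∑ ξ ∈ S, b ξ * si K ξ x) ∪
      (range (2 ^ K)).filter (fun x : ℕ => κ < ∑ ξ ∈ S, b ξ * -si K ξ x) := by
    intro x hx
    rw [mem_filter] at hx
    rw [mem_union, mem_filter, mem_filter]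
    rcases lt_abs.1 hx.2 with h | h
    · exact Or.inl ⟨hx.1, h⟩
    · refine Or.inr ⟨hx.1, ?_⟩
      simp only [mul_neg, sum_neg_distrib]
      exact h
  have hcard : (((range (2 ^ K)).filter (fun x : ℕ => κ < |SS K b S x|)).card : ℝ) ≤
      (((range (2 ^ K)).filter (fun x : ℕ => κ < ∑ ξ ∈ S, b ξ * si K ξ x)).card : ℝ) +
      (((range (2 ^ K)).filter (fun x : ℕ => κ < ∑ ξ ∈ S, b ξ * -si K ξ x)).card : ℝ) := by
    exact_mod_cast (card_le_card hcov).trans (card_union_le _ _)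
  have e6 : 3 * Real.exp (-(κ ^ 2 * s / (8 * B ^ 2))) * 2 ^ K = 3 * E := by rw [hE]; ring
  rw [e6]
  linarith

end Pool.Agent.Helper57.SN
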