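import Pool.Agent.Helper57.SN.StB

/-! Project SN, module avg: averaging over subsets of size `m`. -/

set_option autoImplicit false

open Finset

namespace Pool.Agent.Helper57.SN

private theorem dbl_avg (S : Finset ℕ) (k : ℕ) (φ : Finset ℕ → ℕ → ℝ) :
    ∑ J ∈ powersetCard (k + 1) S, ∑ l ∈ J, φ (J.erase l) l =
      ∑ J' ∈ powersetCard k S, ∑ l ∈ S \ J', φ J' l := by
  rw [Finset.sum_sigma', Finset.sum_sigma']
  refine Finset.sum_nbij' (fun p => (⟨p.1.erase p.2, p.2⟩ : (_ : Finset ℕ) × ℕ))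
    (fun p => (⟨insert p.2 p.1, p.2⟩ : (_ : Finset ℕ) × ℕ)) ?_ ?_ ?_ ?_ ?_
  · rintro ⟨J, l⟩ h
    simp only [Finset.mem_sigma, Finset.mem_powersetCard, Finset.mem_sdiff] at h ⊢
    refine ⟨⟨(Finset.erase_subset _ _).trans h.1.1, ?_⟩, h.1.1 h.2, Finset.notMem_erase _ _⟩
    rw [Finset.card_erase_of_mem h.2, h.1.2]
    rfl
  · rintro ⟨J, l⟩ h
    simp only [Finset.mem_sigma, Finset.mem_powersetCard, Finset.mem_sdiff] at h ⊢
    refine ⟨⟨?_, ?_⟩, Finset.mem_insert_self _ _⟩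
    · exact Finset.insert_subset h.2.1 h.1.1
    · rw [Finset.card_insert_of_notMem h.2.2, h.1.2]
  · rintro ⟨J, l⟩ h
    simp only [Finset.mem_sigma, Finset.mem_powersetCard] at h
    simp only [Finset.insert_erase h.2]
  · rintro ⟨J, l⟩ h
    simp only [Finset.mem_sigma, Finset.mem_powersetCard, Finset.mem_sdiff] at h
    simp only [Finset.erase_insert h.2.2]
  · rintro ⟨J, l⟩ _
    rfl

theorem m_avg : St_avg := by
  intro S m φ A c hm hmS hA hlt
  obtain ⟨k, rfl⟩ : ∃ k, m = k + 1 := ⟨m - 1, by omega⟩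
  by_contra hcon
  push Not at hcon
  have h1 : ((S.card.choose (k + 1) : ℕ) : ℝ) * c ≤
      ∑ J ∈ powersetCard (k + 1) S, ∑ l ∈ J, φ (J.erase l) l := by
    rw [← Finset.card_powersetCard, ← nsmul_eq_mul]
    apply Finset.card_nsmul_le_sum
    intro J hJ
    rw [Finset.mem_powersetCard] at hJ
    exact hcon J hJ.1 hJ.2
  have h2 : ∑ J' ∈ powersetCard k S, ∑ l ∈ S \ J', φ J' l ≤ ((S.card.choose k : ℕ) : ℝ) * A := by
    rw [← Finset.card_powersetCard, ← nsmul_eq_mul]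
    apply Finset.sum_le_card_nsmul
    intro J hJ
    rw [Finset.mem_powersetCard] at hJ
    exact hA J hJ.1 (by rw [hJ.2])
  rw [dbl_avg] at h1
  have h3 := h1.trans h2
  have h4 : ((S.card.choose (k + 1) : ℕ) : ℝ) * ((k : ℝ) + 1) =
      ((S.card.choose k : ℕ) : ℝ) * ((S.card : ℝ) - k) := by
    have := Nat.choose_succ_right_eq S.card k
    have h5 : ((S.card - k : ℕ) : ℝ) = (S.card : ℝ) - k := by
      rw [Nat.cast_sub (by omega)]
    rw [← h5]
    exact_mod_cast this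
  have h5 : (0 : ℝ) < (S.card : ℝ) - k := by
    have : ((k + 1 : ℕ) : ℝ) ≤ S.card := by exact_mod_cast hmS
    push_cast at this
    linarith
  have h6 : (0 : ℝ) < ((S.card.choose (k + 1) : ℕ) : ℝ) := by
    exact_mod_cast Nat.choose_pos hmS
  have h7 := mul_le_mul_of_nonneg_right h3 h5.le
  push_cast at hlt
  have h8 : ((S.card.choose (k + 1) : ℕ) : ℝ) * (c * ((S.card : ℝ) - k)) ≤
      ((S.card.choose (k + 1) : ℕ) : ℝ) * (((k : ℝ) + 1) * A) := by
    calc ((S.card.choose (k + 1) : ℕ) : ℝ) * (c * ((S.card : ℝ) - k))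
        = ((S.card.choose (k + 1) : ℕ) : ℝ) * c * ((S.card : ℝ) - k) := by ring
      _ ≤ ((S.card.choose k : ℕ) : ℝ) * A * ((S.card : ℝ) - k) := h7
      _ = ((S.card.choose k : ℕ) : ℝ) * ((S.card : ℝ) - k) * A := by ring
      _ = ((S.card.choose (k + 1) : ℕ) : ℝ) * ((k : ℝ) + 1) * A := by rw [h4]
      _ = _ := by ring
  have h9 := le_of_mul_le_mul_left h8 h6
  nlinarith

end Pool.Agent.Helper57.SN
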