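import Pool.Agent.Helper57.SN.Defs
import Pool.Agent.Helper56.SS.Fil

/-! # Project SN, statements D: the dyadic blocks as an instance of the abstract theorem of helper56 -/

set_option autoImplicit false

open Finset
open Pool.Agent.Helper56.SS (Fil Dat Hyp Cuts)

namespace Pool.Agent.Helper57.SN

/-- `F` is the filtration by the coarse blocks of the levels `a 0 < … < a (T-1)`, then by points -/
def IsFil (K H T : ℕ) (a : ℕ → ℕ) (F : Fil (Fin (2 ^ K))) : Prop :=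
  (∀ j < T, ∀ w, F.lab j w = (w : ℕ) / 2 ^ (K - a j + H)) ∧ (∀ j, T ≤ j → ∀ w, F.lab j w = w)

/-- D1 -/
def St_exFil : Prop := ∀ (K H T : ℕ) (a : ℕ → ℕ), (∀ i j, i < j → j < T → a i ≤ a j) →
  ∃ F : Fil (Fin (2 ^ K)), IsFil K H T a F

/-- D2 (dictionary).  The block of `w` in `Fin (2^K)` is the dyadic block of `(w : ℕ)`.  A function `g` on
`Fin (2^K)` is extended by `x ↦ g (x mod 2^K)`. -/
def St_dict : Prop := ∀ (K H T : ℕ) (a : ℕ → ℕ) (F : Fil (Fin (2 ^ K))), IsFil K H T a F →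
  (∀ j < T, H ≤ a j ∧ a j ≤ K) →
  (∀ g : ℕ → ℝ, Pool.Agent.Helper56.SS.E (fun w : Fin (2 ^ K) => g w) = av K g) ∧
  (∀ j < T, ∀ (g : ℕ → ℝ) (w : Fin (2 ^ K)), F.C j (fun v => g v) w = blk (K - a j + H) g w) ∧
  (∀ j < T, ∀ g : Fin (2 ^ K) → ℝ, F.Meas j g →
    ∃ g' : ℕ → ℝ, BC (K - a j + H) g' ∧ (∀ w : Fin (2 ^ K), g' w = g w) ∧
      ((∀ w, 0 ≤ g w) → ∀ x, 0 ≤ g' x)) ∧
  (∀ j < T, ∀ g : ℕ → ℝ, BC (K - a j + H) g → F.Meas j (fun w => g w)) ∧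
  (∀ j, T ≤ j → ∀ g : Fin (2 ^ K) → ℝ, F.Meas j g)

/-- the data -/
noncomputable def dat (K H T : ℕ) (b : ℕ → ℝ) (Ω : Finset ℕ) (a : ℕ → ℕ) (Om : ℕ → Finset ℕ)
    (κ lam eta B0 : ℝ) (Gd : Finset ℕ) (F : Fil (Fin (2 ^ K))) : Dat (Fin (2 ^ K)) where
  F := F
  f := fun w => SS K b Ω w
  D := fun j w => if j < T then dd K H (a j) b (Om j) w else 0
  th := fun j w => if j < T then th K H (a j) b (Om j) κ w else 1
  G := Gd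
  lam := lam
  kap := 2 * κ
  eta := eta
  B0 := B0

/-- D3 (hypotheses of the abstract theorem), from A4, A6, A8, D2. -/
def St_hyp : Prop := ∀ (K H T : ℕ) (b : ℕ → ℝ) (Ω : Finset ℕ) (a : ℕ → ℕ) (Om : ℕ → Finset ℕ)
  (B G M κ lam : ℝ) (Gd : Finset ℕ) (F : Fil (Fin (2 ^ K))), Glob K b Ω M →
  Fam K H T b Ω a Om B G → IsFil K H T a F → 1 ≤ H → 2 ≤ G → 0 ≤ B → 0 < κ → 52 * B / 2 ^ H ≤ κ →
  1 ≤ lam → lam * (2 * κ) ≤ 1 / 4 → Gd ⊆ range T →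
  Hyp (dat K H T b Ω a Om κ lam (B / 2 ^ H * (54 * B + 27 * M + G * M)) (2 * B) Gd F)

open Classical in
/-- bound for the increment of the conditional variance of level `l` at `j` -/
noncomputable def eS (H T : ℕ) (b : ℕ → ℝ) (a : ℕ → ℕ) (Om : ℕ → Finset ℕ) (l j : ℕ) : ℝ :=
  if j + 1 < l ∧ l < T then pm2 b (Om l) (2 ^ (a j - 2 * H)) (2 ^ (a (j + 1))) else 0

/-- D4 (cuts at distances `dk k`), from A7 and D2. -/
def St_cuts : Prop := ∀ (K H T : ℕ) (b : ℕ → ℝ) (Ω : Finset ℕ) (a : ℕ → ℕ) (Om : ℕ → Finset ℕ)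
  (B G M κ lam eta B0 : ℝ) (Gd : Finset ℕ) (F : Fil (Fin (2 ^ K))) (Kc : ℕ) (dk : ℕ → ℕ)
  (t : ℕ → ℝ) (Mk : ℕ → ℝ), Glob K b Ω M →
  Fam K H T b Ω a Om B G → IsFil K H T a F → 1 ≤ H → Gd ⊆ range T →
  1 ≤ Kc → dk 0 = 0 → 1 ≤ dk 1 → (∀ k, dk k ≤ dk (k + 1)) → T ≤ dk Kc → t 0 = 2 * κ →
  (∀ k < Kc, 0 < t k) → (∀ k, 0 ≤ Mk k) →
  (∀ k, 1 ≤ k → k < Kc → ∀ j ∈ Gd,
    (∑ l ∈ range T, if j ∈ Ico (l - dk (k + 1)) (l - dk k) then eS H T b a Om l j else 0) ≤ Mk k) →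
  Cuts (dat K H T b Ω a Om κ lam eta B0 Gd F) Kc (fun k l => l - dk k) t (fun k => dk (k + 1))
    (eS H T b a Om) (200 * B ^ 2 / 2 ^ H) Mk

/-- D5 (the exceptional levels of one scale of distances are few), from A14, A15, A16 and Markov. -/
def St_bad : Prop := ∀ (K H T : ℕ) (b : ℕ → ℝ) (Ω : Finset ℕ) (a : ℕ → ℕ) (Om : ℕ → Finset ℕ)
  (B G M ρ : ℝ), Glob K b Ω M → Fam K H T b Ω a Om B G → 1 ≤ H → 0 < ρ →
  ∀ d d' : ℕ, 1 ≤ d → d ≤ d' →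
  (((range T).filter (fun j : ℕ =>
    ρ < ∑ l ∈ range T, if j ∈ Ico (l - d') (l - d) then eS H T b a Om l j else 0)).card : ℝ) ≤
    32 * T / (d * ρ)

end Pool.Agent.Helper57.SN
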