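import Pool.Agent.Helper57.SN.StA
import Pool.Agent.Helper57.SN.StD

/-! # Project SN, module bad (D5): few exceptional levels -/

set_option autoImplicit false

open Finset

namespace Pool.Agent.Helper57.SN

theorem m_bad (h1 : St_CarFam) (h2 : St_PMC) (h3 : St_pmFam) : St_bad := by
  classical
  intro K H T b Ω a Om B G M ρ hglob hfam hH hρ d d' hd hdd
  have hp := h3 K H T b Ω a Om B G hglob.b0 hfam hH
  have hmono : ∀ c c', c ≤ c' → c' < T → a c ≤ a c' := by
    intro c c' hcc hc'
    rcases Nat.lt_or_ge c c' with h | h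
    · have := hfam.sep c c' h hc'
      omega
    · have : c = c' := by omega
      rw [this]
  have heS0 : ∀ l j, 0 ≤ eS H T b a Om l j := by
    intro l j
    unfold eS
    split_ifs with h
    · exact (hp l h.2).2.2.1 _ _
    · exact le_refl _
  set mm : ℕ → ℕ → ℝ := fun l c => if l < T then pm b (Om l) (2 ^ (a c)) else 0 with hmm
  have hmmv : ∀ l c, l < T → mm l c = pm b (Om l) (2 ^ (a c)) := fun l c hl => if_pos hl
  have key := h2 T 16 mm (eS H T b a Om)
    (by
      intro l c
      simp only [hmm]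
      split_ifs with hl
      · exact (hp l hl).1 _
      · exact le_refl _)
    (by
      intro l c c' hcc hcl hl
      rw [hmmv l c hl, hmmv l c' hl]
      exact (hp l hl).2.1 _ _ (Nat.pow_le_pow_right (by norm_num) (hmono c c' hcc (by omega))))
    (by
      intro c hc
      rw [Finset.sum_congr rfl (fun l hl => hmmv l c (Finset.mem_Ioo.1 hl).2)]
      exact h1 K H T b Ω a Om B G M hglob hfam hH c hc)
    (by
      intro l hl j hj hjl
      rw [hmmv l _ hl, hmmv l _ hl]
      have h4 := (hp l hl).2.2.2.1 j hj (by omega)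
      unfold eS
      rw [if_pos ⟨hjl, hl⟩]
      exact h4)
    (by
      intro l hl hl1
      rw [hmmv l _ hl]
      unfold eS
      rw [if_pos ⟨by omega, hl⟩]
      exact (hp l hl).2.2.2.2.1 _ _)
    d d' hd hdd
  set S : ℕ → ℝ := fun j => ∑ l ∈ range T, if j ∈ Ico (l - d') (l - d) then eS H T b a Om l j else 0
    with hS
  have hS0 : ∀ j, 0 ≤ S j := fun j => Finset.sum_nonneg fun l _ => by
    split_ifs
    · exact heS0 _ _
    · exact le_refl _
  have hsum : ∑ j ∈ range T, S j = ∑ l ∈ range T, ∑ j ∈ Ico (l - d') (l - d), eS H T b a Om l j := by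
    simp only [hS]
    rw [Finset.sum_comm]
    refine Finset.sum_congr rfl fun l hl => ?_
    rw [← Finset.sum_filter]
    refine Finset.sum_congr ?_ fun _ _ => rfl
    ext j
    rw [Finset.mem_filter, Finset.mem_range]
    constructor
    · exact fun h => h.2
    · intro h
      refine ⟨?_, h⟩
      have h5 := (Finset.mem_Ico.1 h).2
      have h6 := Finset.mem_range.1 hl
      omega
  rw [← hsum] at key
  have hmark : ∀ A : Finset ℕ, A ⊆ range T → (∀ j ∈ A, ρ < S j) →
      (A.card : ℝ) ≤ 32 * T / (d * ρ) := by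
    intro A hA hAρ
    have h5 : (A.card : ℝ) * ρ ≤ ∑ j ∈ range T, S j := by
      calc (A.card : ℝ) * ρ = ∑ j ∈ A, ρ := by rw [Finset.sum_const, nsmul_eq_mul]
        _ ≤ ∑ j ∈ A, S j := Finset.sum_le_sum fun j hj => (hAρ j hj).le
        _ ≤ ∑ j ∈ range T, S j :=
          Finset.sum_le_sum_of_subset_of_nonneg hA fun j _ _ => hS0 j
    have hd0 : (0 : ℝ) < d := by exact_mod_cast hd
    rw [le_div_iff₀ (by positivity)]
    have h6 : (A.card : ℝ) * ρ ≤ 2 * 16 * T / d := h5.trans key
    rw [le_div_iff₀ hd0] at h6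
    linarith
  apply hmark
  · exact Finset.filter_subset _ _
  · intro j hj
    exact (Finset.mem_filter.1 hj).2

end Pool.Agent.Helper57.SN
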