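import Pool.Agent.Helper57.SN.StA

/-! # Project SN, module blk1: calculus of block averages -/

set_option autoImplicit false

open Finset

namespace Pool.Agent.Helper57.SN

private lemma lab_blk1 (a x y : ℕ) (hy : y < 2 ^ a) : (2 ^ a * (x / 2 ^ a) + y) / 2 ^ a = x / 2 ^ a := by
  have h : 0 < 2 ^ a := by positivity
  rw [Nat.mul_add_div h, Nat.div_eq_of_lt hy, Nat.add_zero]

theorem m_blk1 : St_blk1 := by
  intro a
  have hpos : (0 : ℝ) < 2 ^ a := by positivity
  refine ⟨?_, ?_, ?_, ?_, ?_, ?_, ?_, ?_⟩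
  · intro f x y hxy
    unfold blk
    rw [hxy]
  · intro f g hg x
    unfold blk
    have : ∑ y ∈ range (2 ^ a), g (2 ^ a * (x / 2 ^ a) + y) * f (2 ^ a * (x / 2 ^ a) + y)
        = g x * ∑ y ∈ range (2 ^ a), f (2 ^ a * (x / 2 ^ a) + y) := by
      rw [Finset.mul_sum]
      refine Finset.sum_congr rfl fun y hy => ?_
      rw [hg (2 ^ a * (x / 2 ^ a) + y) x (lab_blk1 a x y (Finset.mem_range.1 hy))]
    rw [this, mul_div_assoc]
  · intro f g x
    unfold blk
    rw [Finset.sum_add_distrib, add_div]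
  · intro f r x
    unfold blk
    rw [← Finset.mul_sum, mul_div_assoc]
  · intro f g x h
    unfold blk
    gcongr with y hy
    exact h _ (lab_blk1 a x y (Finset.mem_range.1 hy))
  · intro f r x h
    unfold blk
    rw [abs_div, abs_of_pos hpos, div_le_iff₀ hpos]
    calc |∑ y ∈ range (2 ^ a), f (2 ^ a * (x / 2 ^ a) + y)|
        ≤ ∑ y ∈ range (2 ^ a), |f (2 ^ a * (x / 2 ^ a) + y)| := Finset.abs_sum_le_sum_abs _ _
      _ ≤ ∑ y ∈ range (2 ^ a), r :=
          Finset.sum_le_sum fun y hy => h _ (lab_blk1 a x y (Finset.mem_range.1 hy))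
      _ = r * 2 ^ a := by
          rw [Finset.sum_const, Finset.card_range, nsmul_eq_mul]
          push_cast
          ring
  · intro f x
    unfold blk
    have hc : (∑ y ∈ range (2 ^ a), f (2 ^ a * (x / 2 ^ a) + y)) ^ 2
        ≤ (2 ^ a : ℝ) * ∑ y ∈ range (2 ^ a), f (2 ^ a * (x / 2 ^ a) + y) ^ 2 := by
      have := sq_sum_le_card_mul_sum_sq (s := range (2 ^ a))
        (f := fun y => f (2 ^ a * (x / 2 ^ a) + y))
      rw [Finset.card_range] at this
      push_cast at this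
      exact this
    rw [div_pow, div_le_div_iff₀ (by positivity) hpos]
    calc (∑ y ∈ range (2 ^ a), f (2 ^ a * (x / 2 ^ a) + y)) ^ 2 * 2 ^ a
        ≤ ((2 ^ a : ℝ) * ∑ y ∈ range (2 ^ a), f (2 ^ a * (x / 2 ^ a) + y) ^ 2) * 2 ^ a := by
          gcongr
      _ = (∑ y ∈ range (2 ^ a), f (2 ^ a * (x / 2 ^ a) + y) ^ 2) * (2 ^ a) ^ 2 := by ring
  · intro g hg x
    unfold blk
    have : ∑ y ∈ range (2 ^ a), g (2 ^ a * (x / 2 ^ a) + y) = ∑ y ∈ range (2 ^ a), g x :=
      Finset.sum_congr rfl fun y hy => hg _ _ (lab_blk1 a x y (Finset.mem_range.1 hy))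
    rw [this, Finset.sum_const, Finset.card_range, nsmul_eq_mul]
    push_cast
    field_simp

end Pool.Agent.Helper57.SN
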