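import Pool.Agent.Helper57.SN.StA

/-! # Project SN, module blk2: tower property of block averages (helper49 for helper57) -/

set_option autoImplicit false

open Finset

namespace Pool.Agent.Helper57.SN

private lemma sum_split_blk2 (F : ℕ → ℝ) (n M : ℕ) :
    ∑ y ∈ range (n * M), F y = ∑ m ∈ range M, ∑ z ∈ range n, F (n * m + z) := by
  induction M with
  | zero => simp
  | succ M ih => rw [Nat.mul_succ, sum_range_add, ih, sum_range_succ]

private lemma pow_split_blk2 {a' a : ℕ} (h : a' ≤ a) : 2 ^ a = 2 ^ a' * 2 ^ (a - a') := by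
  rw [← pow_add, Nat.add_sub_cancel' h]

private lemma bc_mono_blk2 {a' a : ℕ} (h : a' ≤ a) {g : ℕ → ℝ} (hg : BC a g) : BC a' g := by
  intro x y hxy
  apply hg
  rw [pow_split_blk2 h, ← Nat.div_div_eq_div_mul, ← Nat.div_div_eq_div_mul, hxy]

private lemma inner_blk2 (f : ℕ → ℝ) (a' c z : ℕ) (hz : z < 2 ^ a') :
    blk a' f (2 ^ a' * c + z) = (∑ y ∈ range (2 ^ a'), f (2 ^ a' * c + y)) / 2 ^ a' := by
  unfold blk
  have h : (2 ^ a' * c + z) / 2 ^ a' = c := by
    rw [Nat.mul_add_div (by positivity), Nat.div_eq_of_lt hz, add_zero]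
  rw [h]

private lemma tower_blk2 {a' a : ℕ} (h : a' ≤ a) (f : ℕ → ℝ) (x : ℕ) :
    blk a (blk a' f) x = blk a f x := by
  have key : ∑ y ∈ range (2 ^ a), blk a' f (2 ^ a * (x / 2 ^ a) + y)
      = ∑ y ∈ range (2 ^ a), f (2 ^ a * (x / 2 ^ a) + y) := by
    set q := x / 2 ^ a with hq
    have e : ∀ y, 2 ^ a * q + y = 2 ^ a' * (2 ^ (a - a') * q) + y := by
      intro y; rw [pow_split_blk2 h, mul_assoc]
    have e2 : ∀ F : ℕ → ℝ, ∑ y ∈ range (2 ^ a), F (2 ^ a * q + y)
        = ∑ m ∈ range (2 ^ (a - a')), ∑ z ∈ range (2 ^ a'),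
          F (2 ^ a' * (2 ^ (a - a') * q + m) + z) := by
      intro F
      rw [show ∑ y ∈ range (2 ^ a), F (2 ^ a * q + y)
        = ∑ y ∈ range (2 ^ a' * 2 ^ (a - a')), F (2 ^ a * q + y) by rw [← pow_split_blk2 h]]
      rw [sum_split_blk2 (fun y => F (2 ^ a * q + y))]
      refine sum_congr rfl fun m _ => sum_congr rfl fun z _ => ?_
      congr 1
      rw [e]; ring
    rw [e2, e2]
    refine sum_congr rfl fun m _ => ?_
    rw [sum_congr rfl (fun z hz => inner_blk2 f a' (2 ^ (a - a') * q + m) z (mem_range.mp hz))]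
    rw [sum_const, card_range, nsmul_eq_mul]
    push_cast
    field_simp
  unfold blk at key ⊢
  rw [key]

private lemma av_eq_blk2 (K : ℕ) (f : ℕ → ℝ) : av K f = blk K f 0 := by
  unfold av blk
  simp

theorem m_blk2 : St_blk2 := by
  intro a' a K h1 h2
  have h3 : ∀ (f : ℕ → ℝ), av K (blk a f) = av K f := by
    intro f
    rw [av_eq_blk2, av_eq_blk2, tower_blk2 h2]
  refine ⟨fun g hg => bc_mono_blk2 h1 hg, fun f x => tower_blk2 h1 f x, h3, ?_⟩
  intro f g hg
  have e : (fun x => g x * blk a f x) = blk a (fun x => g x * f x) := by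
    funext x
    unfold blk
    rw [← mul_div_assoc, mul_sum]
    congr 1
    refine sum_congr rfl fun y hy => ?_
    congr 1
    apply hg
    rw [Nat.mul_add_div (by positivity), Nat.div_eq_of_lt (mem_range.mp hy), add_zero]
  rw [e, h3]

end Pool.Agent.Helper57.SN
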