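import Pool.Agent.Helper57.SN.StA
import Pool.Agent.Helper57.SN.StB

/-! # Project SN, module core (B12): the core inequality for structured levels. -/

set_option autoImplicit false

open Finset

namespace Pool.Agent.Helper57.SN

theorem ker_nonneg_core (K m0 : ℕ) (D : Finset ℕ) (x : ℤ) : 0 ≤ ker K m0 D x := by
  unfold ker
  refine prod_nonneg fun d _ => pow_nonneg ?_ _
  unfold co
  have := Real.neg_one_le_cos (2 * Real.pi * ((d : ℤ) : ℝ) * (x : ℝ) / 2 ^ K)
  linarith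

theorem spn_le_core {m s A : ℕ} {D : Finset ℕ} {g : ℤ} (h : Spn m D g) (hs : D.card ≤ s)
    (hd : ∀ d ∈ D, d ≤ A) : |g| ≤ (s : ℤ) * m * A := by
  obtain ⟨c, hc, rfl⟩ := h
  calc |∑ d ∈ D, c d * (d : ℤ)| ≤ ∑ d ∈ D, |c d * (d : ℤ)| := abs_sum_le_sum_abs _ _
    _ ≤ ∑ d ∈ D, (m : ℤ) * A := by
        refine sum_le_sum fun d hdD => ?_
        rw [abs_mul]
        have h1 : |(d : ℤ)| ≤ A := by
          rw [abs_of_nonneg (by positivity)]
          exact_mod_cast hd d hdD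
        exact mul_le_mul (hc d) h1 (abs_nonneg _) (by positivity)
    _ = (D.card : ℤ) * m * A := by rw [sum_const, nsmul_eq_mul]; ring
    _ ≤ (s : ℤ) * m * A := by
        have : (D.card : ℤ) ≤ s := by exact_mod_cast hs
        have h0 : (0 : ℤ) ≤ (m : ℤ) * A := by positivity
        rw [mul_assoc, mul_assoc]
        exact mul_le_mul_of_nonneg_right this h0

theorem im_prod_le_core {ι : Type} [Fintype ι] (x y : ι → ℝ) (h : ∀ i, x i ^ 2 + y i ^ 2 ≤ 1) :
    -1 ≤ (∏ i, ((x i : ℂ) + Complex.I * y i)).im := by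
  have h1 : ‖∏ i, ((x i : ℂ) + Complex.I * y i)‖ ≤ 1 := by
    rw [norm_prod]
    refine prod_le_one (fun i _ => norm_nonneg _) fun i _ => ?_
    rw [← sq_le_one_iff₀ (norm_nonneg _), ← Complex.normSq_eq_norm_sq, Complex.normSq_apply]
    simp
    nlinarith [h i]
  have h2 := Complex.abs_im_le_norm (∏ i, ((x i : ℂ) + Complex.I * y i))
  have h3 := (abs_le.1 (h2.trans h1)).1
  exact h3

theorem Wt_nonneg_core {ι : Type} [Fintype ι] {w : ι → ℤ → ℝ} (hw : ∀ i g, 0 ≤ w i g) (v : ι → ℤ) :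
    0 ≤ Wt w v := prod_nonneg fun i _ => hw i (v i)

/-- lower bound of a coefficient -/
theorem coef_ge_core {ι : Type} [Fintype ι] [DecidableEq ι] (Sp : ι → Finset ℤ) (w : ι → ℤ → ℝ)
    (hw : ∀ i g, 0 ≤ w i g) (γ : ℤ) (im : (ι → ℤ) → ℝ) (c : ℝ)
    (h : ∀ v ∈ Fintype.piFinset Sp, ∑ i, v i = γ → c ≤ im v) :
    c * Rf Sp w γ ≤ ∑ v ∈ Fintype.piFinset Sp, (if ∑ i, v i = γ then Wt w v * im v else 0) := by
  unfold Rf
  rw [mul_sum]
  refine sum_le_sum fun v hv => ?_
  split_ifs with h1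
  · rw [mul_comm]
    exact mul_le_mul_of_nonneg_left (h v hv h1) (Wt_nonneg_core hw v)
  · simp

open Classical in
theorem m_core (h1 : St_ker) (h2 : St_prod) (h3 : St_Rf) (h4 : St_Bohr) (h5 : St_shape)
    (h6 : St_phase) (h7 : St_GL) (h8 : St_GLest) : St_core := by
  intro ι _ _ K H m0 s a D P b Ω M τ hG hH hm0 hs h4s h400 h16 hexp haK hsep hDP hDs hPΩ hP hτ
    hHit hLand
  choose Sp w hw0 hwe hSps hSp0 hSpn hker hwlow using fun i => h1 K m0 (D i) hm0
  set L : ι → ℤ := fun i => 2 ^ (a i + H) with hLdef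
  have hdlt : ∀ i, ∀ d ∈ D i, d < 2 ^ (a i + 2) := fun i d hd => (hP i d (hDP i hd)).2.2
  have h4s' : (4 : ℤ) * s * m0 ≤ 2 ^ H := by exact_mod_cast h4s
  have hL : ∀ i, ∀ g ∈ Sp i, |g| ≤ L i := by
    intro i g hg
    have h := spn_le_core (hSpn i g hg) (hDs i) (fun d hd => (hdlt i d hd).le)
    refine h.trans ?_
    push_cast
    have e1 : (s : ℤ) * m0 * 2 ^ (a i + 2) = 4 * s * m0 * 2 ^ (a i) := by ring
    rw [e1, hLdef]
    simp only
    rw [pow_add, mul_comm ((2 : ℤ) ^ a i)]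
    exact mul_le_mul_of_nonneg_right h4s' (by positivity)
  have hcard : Fintype.card ι ≤ 2 ^ H := by omega
  have hLle : ∀ i, 4096 * L i * 2 ^ H ≤ 2 ^ K := by
    intro i
    have e1 : 4096 * L i * 2 ^ H = 2 ^ (a i + 2 * H + 12) := by
      rw [hLdef]
      simp only
      rw [show (4096 : ℤ) = 2 ^ 12 by norm_num, ← pow_add, ← pow_add]
      congr 1
      omega
    rw [e1]
    exact pow_le_pow_right₀ (by norm_num) (haK i)
  have hLpos : ∀ i, 0 < L i := fun i => by rw [hLdef]; positivity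
  have hLsum : 4 * ∑ i, L i ≤ 2 ^ K := by
    have h2H : (0 : ℤ) < 2 ^ H := by positivity
    have e1 : (∑ i, L i) * (4096 * 2 ^ H) ≤ Fintype.card ι * 2 ^ K := by
      rw [sum_mul]
      calc ∑ i, L i * (4096 * 2 ^ H) ≤ ∑ _i : ι, (2 : ℤ) ^ K := by
            refine sum_le_sum fun i _ => ?_
            have := hLle i
            linarith
        _ = Fintype.card ι * 2 ^ K := by rw [sum_const, nsmul_eq_mul, card_univ]
    have e2 : (Fintype.card ι : ℤ) * 2 ^ K ≤ 2 ^ H * 2 ^ K :=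
      mul_le_mul_of_nonneg_right (by exact_mod_cast hcard) (by positivity)
    have e3 : 2 ^ H * ((∑ i, L i) * 4096) ≤ 2 ^ H * 2 ^ K := by linarith
    have e4 := le_of_mul_le_mul_left e3 h2H
    have e5 : 0 ≤ ∑ i, L i := sum_nonneg fun i _ => (hLpos i).le
    linarith
  have hnn : ∀ i, ∀ x : ℤ, 0 ≤ ∑ g ∈ Sp i, w i g * co K g x := by
    intro i x
    rw [← hker i x]
    exact ker_nonneg_core _ _ _ _
  have haK' : ∀ i, a i + 12 ≤ K := fun i => by have := haK i; omega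
  have hRf := h3 ι K Sp w L hw0 hwe hSps hL hLsum hnn
  have hprod := h2 ι K a Sp w L b Ω M hG haK' (fun i => h7 K (a i) (haK' i)) hw0 hwe hSps hL hLsum
    hnn
  set R0 := Rf Sp w 0 with hR0def
  -- disjointness
  have hPne : ∀ i j, i ≠ j → Disjoint (P i) (P j) := by
    have key : ∀ i j, a i + 4 * H ≤ a j → Disjoint (P i) (P j) := by
      intro i j hij
      rw [disjoint_left]
      intro ξ hi hj
      have e1 := (hP i ξ hi).2.2
      have e2 := (hP j ξ hj).2.1
      have e3 : 2 ^ (a i + 3) ≤ 2 ^ (a j) := Nat.pow_le_pow_right (by norm_num) (by omega)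
      have e4 : 2 ^ (a i + 3) = 2 * 2 ^ (a i + 2) := by ring
      omega
    intro i j hij
    rcases hsep i j hij with h | h
    · exact key i j h
    · exact (key j i h).symm
  have hDne : ∀ i j, i ≠ j → Disjoint (D i) (D j) := fun i j hij =>
    (hPne i j hij).mono (hDP i) (hDP j)
  -- lower bound of `R0`
  have hbase0 : (0 : ℝ) < 1 / (2 * m0) := by
    have : (0 : ℝ) < m0 := by exact_mod_cast hm0
    positivity
  have hbase1 : (1 / (2 * m0) : ℝ) ≤ 1 := by
    have : (1 : ℝ) ≤ m0 := by exact_mod_cast hm0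
    rw [div_le_one (by linarith)]
    linarith
  have hR0 : (1 / (2 * m0) : ℝ) ^ (Fintype.card ι * s) ≤ R0 := by
    have e1 : Wt w (fun _ => 0) ≤ R0 := by
      rw [hR0def]
      unfold Rf
      have hmem : (fun _ : ι => (0 : ℤ)) ∈ Fintype.piFinset Sp := by
        rw [Fintype.mem_piFinset]
        exact fun i => hSp0 i
      have := single_le_sum (f := fun v : ι → ℤ => if ∑ i, v i = 0 then Wt w v else 0)
        (fun v _ => by
          split_ifs
          · exact Wt_nonneg_core hw0 v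
          · exact le_rfl) hmem
      simpa using this
    refine le_trans ?_ e1
    unfold Wt
    calc (1 / (2 * m0) : ℝ) ^ (Fintype.card ι * s) = ∏ _i : ι, (1 / (2 * m0) : ℝ) ^ s := by
          rw [prod_const, card_univ, ← pow_mul, mul_comm (Fintype.card ι) s]
      _ ≤ ∏ i, w i 0 := by
          refine prod_le_prod (fun i _ => by positivity) fun i _ => ?_
          exact (pow_le_pow_of_le_one hbase0.le hbase1 (hDs i)).trans (hwlow i)
  have hR0pos : 0 < R0 := lt_of_lt_of_le (by positivity) hR0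
  -- the product kernel
  have hkerU : ∀ x : ℤ, (∏ i, ∑ g ∈ Sp i, w i g * co K g x) = ker K m0 (univ.biUnion D) x := by
    intro x
    unfold ker
    rw [prod_biUnion (fun i _ j _ hij => hDne i j hij)]
    refine prod_congr rfl fun i _ => ?_
    rw [← hker i x]
    rfl
  have hR0av : R0 = av K (fun x => ker K m0 (univ.biUnion D) x) := by
    have := (hRf 0 (by simp)).1
    rw [hR0def, this]
    congr 1
    funext x
    rw [hkerU]
    simp [co]
  have hPhalf : ∀ i, ∀ ξ ∈ P i, R0 ≤ 2 * Rf Sp w ξ := by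
    intro i ξ hξ
    have hsm := hG.small ξ (hPΩ i hξ)
    have hsm' : (64 : ℤ) * ξ ≤ 2 ^ K := by exact_mod_cast hsm
    have e1 := (hRf ξ (by rw [abs_of_nonneg (by positivity)]; linarith)).1
    have e2 := h4 K m0 s (univ.biUnion D) (D i) ξ hs (subset_biUnion_of_mem D (mem_univ i)) (hDs i)
      (hP i ξ hξ).1 (by rw [← hR0av]; exact hexp.trans hR0)
    rw [← hR0av] at e2
    rw [e1]
    refine e2.trans (le_of_eq ?_)
    congr 2
    funext x
    rw [hkerU]
  -- estimates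
  have e1 : ∀ i, ∀ h : ℤ, 0 ≤ h → 2 * h ≤ 2 ^ K → 0 ≤ pim K (a i) h := fun i =>
    (h8 K (a i) (haK' i)).1
  have e2 : ∀ i, ∀ h : ℤ, 2 ^ (a i) ≤ 4 * h → h ≤ 2 ^ (a i + 3) → 1 / 8 ≤ pim K (a i) h := fun i =>
    (h8 K (a i) (haK' i)).2.1
  have e3 : ∀ i, ∀ h : ℤ, |1 - pre K (a i) h| ≤ |(h : ℝ)| / 2 ^ (a i) ∧
      |pim K (a i) h| ≤ |(h : ℝ)| / 2 ^ (a i) := fun i => (h8 K (a i) (haK' i)).2.2.1
  have e4 : ∀ i, ∀ h : ℤ, pre K (a i) h ^ 2 + pim K (a i) h ^ 2 ≤ 1 := fun i =>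
    (h8 K (a i) (haK' i)).2.2.2.1
  set t : ℝ := 2 * (Fintype.card ι : ℝ) / 2 ^ H with ht
  have h2Hr : (0 : ℝ) < 2 ^ H := by positivity
  have ht0 : 0 ≤ t := by positivity
  have ht1 : t ≤ 1 / 200 := by
    rw [ht, div_le_div_iff₀ h2Hr (by norm_num)]
    have : (400 * (Fintype.card ι : ℝ)) ≤ 2 ^ H := by exact_mod_cast h400
    linarith
  have htM : t * M ≤ 1 / 8 := by
    rw [ht, div_mul_eq_mul_div, div_le_div_iff₀ h2Hr (by norm_num)]
    linarith
  -- the coefficients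
  set im : (ι → ℤ) → ℝ := fun v =>
    (∏ i, ((pre K (a i) (v i) : ℂ) + Complex.I * pim K (a i) (v i))).im with him
  have hvL : ∀ v ∈ Fintype.piFinset Sp, ∀ i, 2 * v i ≤ 2 ^ K := by
    intro v hv i
    have e5 := hL i (v i) (Fintype.mem_piFinset.1 hv i)
    have e6 := le_abs_self (v i)
    have e7 := hLle i
    have e8 : (1 : ℤ) ≤ 2 ^ H := one_le_pow₀ (by norm_num)
    have e9 := hLpos i
    nlinarith
  have hcoef : ∀ ω ∈ Ω, R0 * (6 / 100 * (if ∃ i, ω ∈ P i then 1 else 0) - t - 106 / 100 *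
      (if ∃ i, Land H m0 ((univ.erase i).biUnion D) (a i) (ω : ℤ) then 1 else 0)) ≤
      ∑ v ∈ Fintype.piFinset Sp, (if ∑ i, v i = (ω : ℤ) then Wt w v * im v else 0) := by
    intro ω hω
    have hsm' : (64 : ℤ) * ω ≤ 2 ^ K := by exact_mod_cast hG.small ω hω
    have hωpos : (0 : ℤ) < ω := by exact_mod_cast hG.pos ω hω
    obtain ⟨-, hR1, hR2⟩ := hRf ω (by rw [abs_of_nonneg (by positivity)]; linarith)
    by_cases hl : ∃ i, Land H m0 ((univ.erase i).biUnion D) (a i) (ω : ℤ)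
    · -- landing
      rw [if_pos hl]
      have hc := coef_ge_core Sp w hw0 (ω : ℤ) im (-1) (fun v hv _ =>
        im_prod_le_core _ _ fun i => e4 i (v i))
      refine le_trans ?_ hc
      have hle : (6 / 100 * (if ∃ i, ω ∈ P i then (1 : ℝ) else 0) - t - 106 / 100 * 1) ≤ -1 := by
        split_ifs <;> linarith
      calc R0 * (6 / 100 * (if ∃ i, ω ∈ P i then (1 : ℝ) else 0) - t - 106 / 100 * 1)
          ≤ R0 * (-1) := mul_le_mul_of_nonneg_left hle hR0pos.le
        _ ≤ -1 * Rf Sp w (ω : ℤ) := by linarith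
    · rw [if_neg hl]
      push Not at hl
      -- shape and phases
      have hsh : ∀ v ∈ Fintype.piFinset Sp, ∑ i, v i = (ω : ℤ) → _ := fun v hv hsum =>
        h5 ι H m0 s a D (by omega) h4s hsep hDne hdlt hDs hHit ω v hωpos
          (fun i => hSpn i (v i) (Fintype.mem_piFinset.1 hv i)) hsum hl
      have hph : ∀ v ∈ Fintype.piFinset Sp, ∑ i, v i = (ω : ℤ) → _ := fun v hv hsum =>
        h6 ι K H a v e1 e2 e3 e4 (hsh v hv hsum).1 (hsh v hv hsum).2.1 (hvL v hv)
      by_cases hp : ∃ i, ω ∈ P i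
      · rw [if_pos hp]
        obtain ⟨i, hi⟩ := hp
        have hc := coef_ge_core Sp w hw0 (ω : ℤ) im (1 / 8 - t) (fun v hv hsum => by
          have h9 := (hsh v hv hsum).2.2 i (by exact_mod_cast (hP i ω hi).2.1)
            (by exact_mod_cast (hP i ω hi).2.2)
          exact (hph v hv hsum).2 i (by omega) h9.1 h9.2)
        refine le_trans ?_ hc
        have h10 := hPhalf i ω hi
        nlinarith
      · rw [if_neg hp]
        have hc := coef_ge_core Sp w hw0 (ω : ℤ) im (-t) (fun v hv hsum => (hph v hv hsum).1)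
        refine le_trans ?_ hc
        nlinarith
  -- summation
  have hsum : R0 * (6 / 100 * (∑ ω ∈ Ω, if ∃ i, ω ∈ P i then b ω else 0) - t * (∑ ω ∈ Ω, b ω) -
      106 / 100 * (∑ ω ∈ Ω, (if ∃ i, Land H m0 ((univ.erase i).biUnion D) (a i) (ω : ℤ)
        then b ω else 0))) ≤ R0 := by
    refine le_trans (le_of_eq ?_) ((sum_le_sum fun ω hω =>
      mul_le_mul_of_nonneg_left (hcoef ω hω) (hG.b0 ω hω)).trans hprod)
    rw [mul_sum, mul_sum, mul_sum, ← sum_sub_distrib, ← sum_sub_distrib, mul_sum]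
    refine sum_congr rfl fun ω _ => ?_
    split_ifs <;> ring
  have hmassP : (Fintype.card ι : ℝ) * τ ≤ ∑ ω ∈ Ω, if ∃ i, ω ∈ P i then b ω else 0 := by
    calc (Fintype.card ι : ℝ) * τ = ∑ _i : ι, τ := by
          rw [sum_const, nsmul_eq_mul, card_univ]
      _ ≤ ∑ i, ∑ ξ ∈ P i, b ξ := sum_le_sum fun i _ => hτ i
      _ = ∑ ξ ∈ univ.biUnion P, b ξ := (sum_biUnion fun i _ j _ hij => hPne i j hij).symm
      _ ≤ ∑ ω ∈ Ω, if ∃ i, ω ∈ P i then b ω else 0 := by
          rw [← sum_filter]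
          refine le_of_eq (sum_congr ?_ fun _ _ => rfl)
          ext ω
          simp only [mem_biUnion, mem_univ, true_and, mem_filter]
          constructor
          · rintro ⟨i, hi⟩
            exact ⟨hPΩ i hi, i, hi⟩
          · exact fun h => h.2
  have hfin : 6 / 100 * (∑ ω ∈ Ω, if ∃ i, ω ∈ P i then b ω else 0) - t * (∑ ω ∈ Ω, b ω) -
      106 / 100 * (∑ ω ∈ Ω, (if ∃ i, Land H m0 ((univ.erase i).biUnion D) (a i) (ω : ℤ)
        then b ω else 0)) ≤ 1 := by
    by_contra hcon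
    push Not at hcon
    have := mul_lt_mul_of_pos_left hcon hR0pos
    linarith
  have htm : t * (∑ ω ∈ Ω, b ω) ≤ 1 / 8 := (mul_le_mul_of_nonneg_left hG.mass ht0).trans htM
  linarith

end Pool.Agent.Helper57.SN
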