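import Pool.Agent.Helper57.SN.StB

/-! # Project SN, module count (B5) -/

set_option autoImplicit false

open Finset

namespace Pool.Agent.Helper57.SN

private theorem three_sum_le_count (n : ℕ) (g : ℕ → ℤ) (hlac : ∀ i, i + 1 < n → 4 * |g i| ≤ |g (i + 1)|) :
    ∀ k < n, 3 * ∑ i ∈ range k, |g i| ≤ |g k| := by
  intro k
  induction k with
  | zero =>
    intro _
    simp
  | succ k ih =>
    intro hk
    rw [Finset.sum_range_succ]
    have h1 := ih (by omega)
    have h2 := hlac k hk
    linarith

private theorem rigid_count (g : ℕ → ℤ) (N : ℕ) (h0 : ∀ i < N, g i ≠ 0)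
    (hlac : ∀ i, i + 1 < N → 4 * |g i| ≤ |g (i + 1)|) (e : ℕ → ℤ) (he : ∀ i, |e i| ≤ 1) :
    ∀ n ≤ N, ∑ i ∈ range n, e i * g i = 0 → ∀ i < n, e i = 0 := by
  intro n
  induction n with
  | zero =>
    intro _ _ i hi
    omega
  | succ n ih =>
    intro hn hsum
    rw [Finset.sum_range_succ] at hsum
    have h3 := three_sum_le_count N g hlac n (by omega)
    have habs : |∑ i ∈ range n, e i * g i| ≤ ∑ i ∈ range n, |g i| := by
      refine (Finset.abs_sum_le_sum_abs _ _).trans (Finset.sum_le_sum fun i _ => ?_)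
      rw [abs_mul]
      exact mul_le_of_le_one_left (abs_nonneg _) (he i)
    have hen : e n = 0 := by
      by_contra hne
      have h4 : 1 ≤ |e n| := Int.one_le_abs hne
      have h5 : |e n * g n| = |∑ i ∈ range n, e i * g i| := by
        have : e n * g n = -∑ i ∈ range n, e i * g i := by linarith
        rw [this, abs_neg]
      rw [abs_mul] at h5
      have h6 : 1 ≤ |g n| := Int.one_le_abs (h0 n (by omega))
      nlinarith
    have hs0 : ∑ i ∈ range n, e i * g i = 0 := by
      rw [hen] at hsum
      linarith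
    intro i hi
    rcases Nat.lt_succ_iff_lt_or_eq.1 hi with h | h
    · exact ih (by omega) hs0 i h
    · rw [h]
      exact hen

theorem m_count : St_count := by
  intro n m D g hsp h0 hlac
  have hsp' : ∀ i, ∃ c : ℕ → ℤ, i < n → (∀ d, |c d| ≤ m) ∧ g i = ∑ d ∈ D, c d * d := by
    intro i
    by_cases hi : i < n
    · obtain ⟨c, hc⟩ := hsp i hi
      exact ⟨c, fun _ => hc⟩
    · exact ⟨fun _ => 0, fun h => absurd h hi⟩
  choose c hc using hsp'
  let Φ : Finset ℕ → (D → ℤ) := fun I d => ∑ i ∈ I, c i d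
  let box : Finset (D → ℤ) := Fintype.piFinset fun _ : D => Finset.Icc (-((n * m : ℕ) : ℤ)) ((n * m : ℕ) : ℤ)
  have hmaps : ∀ I ∈ (range n).powerset, Φ I ∈ box := by
    intro I hI
    rw [Finset.mem_powerset] at hI
    rw [Fintype.mem_piFinset]
    intro d
    rw [Finset.mem_Icc, ← abs_le]
    calc |∑ i ∈ I, c i d| ≤ ∑ i ∈ I, |c i d| := Finset.abs_sum_le_sum_abs _ _
      _ ≤ ∑ i ∈ I, (m : ℤ) := Finset.sum_le_sum fun i hi => (hc i (Finset.mem_range.1 (hI hi))).1 d
      _ = I.card * m := by rw [Finset.sum_const, nsmul_eq_mul]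
      _ ≤ n * m := by
        apply mul_le_mul_of_nonneg_right _ (by positivity)
        have := Finset.card_le_card hI
        rw [Finset.card_range] at this
        exact_mod_cast this
      _ = ((n * m : ℕ) : ℤ) := by push_cast; ring
  have hval : ∀ I ⊆ range n, ∑ i ∈ I, g i = ∑ d : D, Φ I d * (d : ℕ) := by
    intro I hI
    have h1 : ∀ i ∈ I, g i = ∑ d : D, c i d * ((d : ℕ) : ℤ) := by
      intro i hi
      rw [(hc i (Finset.mem_range.1 (hI hi))).2]
      exact (Finset.sum_coe_sort D (fun d => c i d * (d : ℤ))).symm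
    rw [Finset.sum_congr rfl h1, Finset.sum_comm]
    refine Finset.sum_congr rfl fun d _ => ?_
    rw [Finset.sum_mul]
  have hinj : Set.InjOn Φ ((range n).powerset : Finset (Finset ℕ)) := by
    intro I hI J hJ hIJ
    rw [Finset.mem_coe, Finset.mem_powerset] at hI hJ
    have hs : ∑ i ∈ I, g i = ∑ i ∈ J, g i := by
      rw [hval I hI, hval J hJ, hIJ]
    have hI' : ∑ i ∈ I, g i = ∑ i ∈ range n, (if i ∈ I then 1 else 0) * g i := by
      rw [← Finset.sum_subset hI (f := fun i => (if i ∈ I then (1 : ℤ) else 0) * g i)]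
      · exact Finset.sum_congr rfl fun i hi => by rw [if_pos hi, one_mul]
      · intro i _ hi
        rw [if_neg hi, zero_mul]
    have hJ' : ∑ i ∈ J, g i = ∑ i ∈ range n, (if i ∈ J then 1 else 0) * g i := by
      rw [← Finset.sum_subset hJ (f := fun i => (if i ∈ J then (1 : ℤ) else 0) * g i)]
      · exact Finset.sum_congr rfl fun i hi => by rw [if_pos hi, one_mul]
      · intro i _ hi
        rw [if_neg hi, zero_mul]
    have hz : ∑ i ∈ range n, ((if i ∈ I then (1 : ℤ) else 0) - (if i ∈ J then 1 else 0)) * g i = 0 := by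
      simp only [sub_mul, Finset.sum_sub_distrib]
      rw [← hI', ← hJ', hs, sub_self]
    have hr := rigid_count g n h0 hlac
      (fun i => (if i ∈ I then (1 : ℤ) else 0) - (if i ∈ J then 1 else 0))
      (fun i => by
        by_cases h1 : i ∈ I <;> by_cases h2 : i ∈ J <;> simp [h1, h2]) n le_rfl hz
    ext i
    by_cases hi : i < n
    · have := hr i hi
      by_cases h1 : i ∈ I <;> by_cases h2 : i ∈ J <;> simp [h1, h2] at this ⊢
    · constructor
      · intro h
        exact absurd (Finset.mem_range.1 (hI h)) hi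
      · intro h
        exact absurd (Finset.mem_range.1 (hJ h)) hi
  have hle := Finset.card_le_card_of_injOn Φ hmaps hinj
  rw [Finset.card_powerset, Finset.card_range] at hle
  refine hle.trans ?_
  rw [Fintype.card_piFinset]
  simp only [Int.card_Icc, Finset.prod_const, Finset.card_univ, Fintype.card_coe]
  apply Nat.pow_le_pow_left
  rw [mul_assoc 2 n m]
  generalize n * m = t
  omega

end Pool.Agent.Helper57.SN
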