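import Pool.Agent.Helper57.SN.StA
import Pool.Agent.Helper57.SN.StD

/-! # Project SN, module cuts: the cuts of the abstract theorem -/

set_option autoImplicit false

open Finset
open Pool.Agent.Helper56.SS (Fil Dat Hyp Cuts)

namespace Pool.Agent.Helper57.SN

private lemma pm2_nonneg_cuts (b : ℕ → ℝ) (S : Finset ℕ) (hb : ∀ ξ ∈ S, 0 ≤ b ξ) (A' A : ℕ) :
    0 ≤ pm2 b S A' A := by
  unfold pm2
  refine sum_nonneg fun γ hγ => sum_nonneg fun ξ hξ => ?_
  split_ifs
  · exact mul_nonneg (hb γ hγ) (hb ξ hξ)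
  · exact le_refl _

theorem m_cuts (h1 : St_P4) (h2 : St_dict) (_h3 : St_blk1) : St_cuts := by
  classical
  intro K H T b Ω a Om B G M κ lam eta B0 Gd F Kc dk t Mk hG hFam hIs hH hGd hKc hdk0 hdk1 hdk
    hT ht0 htp hMk hsum
  have hb0 : ∀ l < T, ∀ ξ ∈ Om l, 0 ≤ b ξ := fun l hl ξ hξ => hG.b0 ξ (hFam.sub l hl hξ)
  have he0 : ∀ l j, 0 ≤ eS H T b a Om l j := by
    intro l j
    unfold eS
    split_ifs with h
    · exact pm2_nonneg_cuts b (Om l) (hb0 l h.2) _ _
    · exact le_refl _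
  have hd := h2 K H T a F hIs (by
    intro j hj
    have e1 := (hFam.lv j hj).Ha
    have e2 := (hFam.lv j hj).aK
    omega)
  refine ⟨hKc, ?_, ?_, ?_, ht0, htp, ?_, he0, by positivity, ?_, hMk, ?_⟩
  · intro l _
    show l - dk 0 = l
    rw [hdk0, Nat.sub_zero]
  · intro l _ k _
    show l - dk (k + 1) ≤ l - dk k
    have := hdk k
    omega
  · intro l hl
    have e1 : l ∈ range T := hGd hl
    rw [mem_range] at e1
    show l - dk Kc = 0
    omega
  · intro l _ k _
    have e1 : (dat K H T b Ω a Om κ lam eta B0 Gd F).cnt (l - dk (k + 1)) (l - dk k) ≤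
        dk (k + 1) := by
      unfold Dat.cnt
      have e2 : ((dat K H T b Ω a Om κ lam eta B0 Gd F).G.filter
          (fun j => l - dk (k + 1) ≤ j ∧ j < l - dk k)) ⊆ Ico (l - dk (k + 1)) (l - dk k) := by
        intro j hj
        rw [mem_filter] at hj
        exact mem_Ico.2 hj.2
      have e3 := card_le_card e2
      rw [Nat.card_Ico] at e3
      omega
    show ((dat K H T b Ω a Om κ lam eta B0 Gd F).cnt (l - dk (k + 1)) (l - dk k) : ℝ) ≤
      (dk (k + 1) : ℝ)
    exact_mod_cast e1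
  · intro l hl j hj hjc w
    have hlT : l < T := mem_range.1 (hGd hl)
    have hjT : j < T := mem_range.1 (hGd hj)
    have hj1 : j < l - dk 1 := hjc
    have hjl : j + 1 < l := by omega
    have hfun : (fun v : Fin (2 ^ K) => (dat K H T b Ω a Om κ lam eta B0 Gd F).D l v ^ 2) =
        fun v : Fin (2 ^ K) => (fun x : ℕ => dd K H (a l) b (Om l) x ^ 2) v := by
      funext v
      show (if l < T then dd K H (a l) b (Om l) v else 0) ^ 2 = dd K H (a l) b (Om l) v ^ 2
      rw [if_pos hlT]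
    show |F.C (j + 1) (fun v : Fin (2 ^ K) => (dat K H T b Ω a Om κ lam eta B0 Gd F).D l v ^ 2) w -
      F.C j (fun v : Fin (2 ^ K) => (dat K H T b Ω a Om κ lam eta B0 Gd F).D l v ^ 2) w| ≤
      eS H T b a Om l j + 200 * B ^ 2 / 2 ^ H
    have c1 := hd.2.1 (j + 1) (by omega) (fun x : ℕ => dd K H (a l) b (Om l) x ^ 2) w
    have c2 := hd.2.1 j hjT (fun x : ℕ => dd K H (a l) b (Om l) x ^ 2) w
    rw [hfun]
    refine (le_of_eq (congrArg abs (congrArg₂ (· - ·) c1 c2))).trans ?_
    have e1 := (hFam.lv j hjT).Ha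
    have e2 := hFam.sep j (j + 1) (by omega) (by omega)
    have e3 := hFam.sep (j + 1) l hjl hlT
    have e4 := h1 K H (a l) (a j) (a (j + 1)) b (Om l) B (hFam.lv l hlT) e1 e2 (by omega) (w : ℕ)
    unfold eS
    rw [if_pos ⟨hjl, hlT⟩]
    exact e4
  · intro k hk1 hk j hj
    refine le_trans ?_ (hsum k hk1 hk j hj)
    rw [sum_filter]
    have e1 : ∀ l, (if l - dk (k + 1) ≤ j ∧ j < l - dk k then eS H T b a Om l j else 0) =
        if j ∈ Ico (l - dk (k + 1)) (l - dk k) then eS H T b a Om l j else 0 := by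
      intro l
      simp only [mem_Ico]
    refine le_trans (le_of_eq (sum_congr rfl fun l _ => e1 l)) ?_
    refine sum_le_sum_of_subset_of_nonneg hGd fun l _ _ => ?_
    split_ifs
    · exact he0 l j
    · exact le_refl _

end Pool.Agent.Helper57.SN
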