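import Pool.Agent.Helper57.SN.StA

/-! # Project SN, module dd: the level function is close to the sine polynomial -/

set_option autoImplicit false

open Finset

namespace Pool.Agent.Helper57.SN

private lemma blk_SS_dd (K a : ℕ) (b : ℕ → ℝ) (S : Finset ℕ) (x : ℕ) :
    blk a (SS K b S) x = ∑ ξ ∈ S, b ξ * blk a (fun y => si K ξ y) x := by
  unfold blk SS
  rw [Finset.sum_comm, Finset.sum_div]
  refine Finset.sum_congr rfl fun ξ _ => ?_
  rw [← Finset.mul_sum, mul_div_assoc]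

private lemma same_block_dd (a x y : ℕ) (h : y / 2 ^ a = x / 2 ^ a) :
    |((y : ℤ) : ℝ) - ((x : ℤ) : ℝ)| ≤ 2 ^ a := by
  have hx := Nat.div_add_mod x (2 ^ a)
  have hy := Nat.div_add_mod y (2 ^ a)
  have hp : 0 < 2 ^ a := by positivity
  have hx' := Nat.mod_lt x hp
  have hy' := Nat.mod_lt y hp
  rw [h] at hy
  have h1 : (x : ℝ) = 2 ^ a * ((x / 2 ^ a : ℕ) : ℝ) + ((x % 2 ^ a : ℕ) : ℝ) := by
    exact_mod_cast hx.symm
  have h2 : (y : ℝ) = 2 ^ a * ((x / 2 ^ a : ℕ) : ℝ) + ((y % 2 ^ a : ℕ) : ℝ) := by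
    exact_mod_cast hy.symm
  have h3 : ((x % 2 ^ a : ℕ) : ℝ) < 2 ^ a := by exact_mod_cast hx'
  have h4 : ((y % 2 ^ a : ℕ) : ℝ) < 2 ^ a := by exact_mod_cast hy'
  have h5 : (0 : ℝ) ≤ ((x % 2 ^ a : ℕ) : ℝ) := by positivity
  have h6 : (0 : ℝ) ≤ ((y % 2 ^ a : ℕ) : ℝ) := by positivity
  push_cast
  rw [h1, h2, abs_le]
  constructor <;> linarith

theorem m_dd (h1 : St_blk1) (h2 : St_blk2) (h3 : St_trig) (h4 : St_orth) : St_dd := by
  intro K H a b S B hL
  obtain ⟨Ha, aK, b0, lo, hi, mass⟩ := hL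
  have hB : 0 ≤ B := le_trans (Finset.sum_nonneg b0) mass
  have hSS : ∀ x, |SS K b S x| ≤ B := by
    intro x
    unfold SS
    refine (Finset.abs_sum_le_sum_abs _ _).trans (le_trans (Finset.sum_le_sum fun ξ hξ => ?_) mass)
    rw [abs_mul, abs_of_nonneg (b0 ξ hξ)]
    calc b ξ * |si K ξ x| ≤ b ξ * 1 := by
          gcongr
          · exact b0 ξ hξ
          · exact Real.abs_sin_le_one _
      _ = b ξ := mul_one _
  obtain ⟨p1, p2, p3, p4, p5, p6, p7, p8⟩ := h1 (K - a - H)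
  obtain ⟨q1, q2, q3, q4, q5, q6, q7, q8⟩ := h1 (K - a + H)
  obtain ⟨r1, r2, r3, r4⟩ := h2 (K - a - H) (K - a + H) K (by omega) (by omega)
  obtain ⟨o1, o2, o3, o4, o5⟩ := h4 K
  have hKr : (2 : ℝ) ^ K = 2 ^ (K - a - H) * 2 ^ a * 2 ^ H := by
    rw [← pow_add, ← pow_add]; congr 1; omega
  have hKc : (2 : ℝ) ^ (K - a + H) * 2 ^ a = 2 ^ K * 2 ^ H := by
    rw [← pow_add, ← pow_add]; congr 1; omega
  have hHp : (0 : ℝ) < 2 ^ H := by positivity
  have hfine : ∀ x, |blk (K - a - H) (SS K b S) x - SS K b S x| ≤ 26 * B / 2 ^ H := by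
    intro x
    have e1 : blk (K - a - H) (SS K b S) x - SS K b S x
        = ∑ ξ ∈ S, b ξ * (blk (K - a - H) (fun y => si K ξ y) x - si K ξ x) := by
      rw [blk_SS_dd]
      unfold SS
      rw [← Finset.sum_sub_distrib]
      refine Finset.sum_congr rfl fun ξ _ => ?_
      ring
    rw [e1]
    have e2 : ∀ ξ ∈ S, |blk (K - a - H) (fun y => si K ξ y) x - si K ξ x| ≤ 26 / 2 ^ H := by
      intro ξ hξ
      have e3 : blk (K - a - H) (fun y => si K ξ y) x - si K ξ x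
          = blk (K - a - H) (fun y => si K ξ y + (-1) * si K ξ x) x := by
        rw [p3 (fun y => si K ξ y) (fun _ => (-1) * si K ξ x) x]
        rw [p8 (fun _ => (-1) * si K ξ x) (fun _ _ _ => rfl) x]
        ring
      rw [e3]
      refine p6 _ _ x fun y hy => ?_
      have e4 := o4 ξ y x
      have e5 := same_block_dd (K - a - H) x y hy
      have e6 : (|((ξ : ℤ) : ℝ)| : ℝ) ≤ 2 ^ (a + 2) := by
        push_cast
        rw [abs_of_nonneg (by positivity)]
        exact_mod_cast (hi ξ hξ).le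
      have e7 : si K ξ y + (-1) * si K ξ x = si K ξ y - si K ξ x := by ring
      rw [e7]
      refine e4.trans ?_
      calc 2 * Real.pi * |((ξ : ℤ) : ℝ)| * |((y : ℤ) : ℝ) - ((x : ℤ) : ℝ)| / 2 ^ K
          ≤ 2 * 3.15 * 2 ^ (a + 2) * 2 ^ (K - a - H) / 2 ^ K := by
            gcongr
            exact Real.pi_lt_d2.le
        _ ≤ 26 / 2 ^ H := by
            rw [hKr, pow_add, div_le_div_iff₀ (by positivity) hHp]
            have : (0 : ℝ) < 2 ^ a := by positivity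
            have h' : (0 : ℝ) < 2 ^ (K - a - H) := by positivity
            have h'' : (0 : ℝ) < 2 ^ a * 2 ^ (K - a - H) * 2 ^ H := by positivity
            nlinarith
    calc |∑ ξ ∈ S, b ξ * (blk (K - a - H) (fun y => si K ξ y) x - si K ξ x)|
        ≤ ∑ ξ ∈ S, |b ξ * (blk (K - a - H) (fun y => si K ξ y) x - si K ξ x)| :=
          Finset.abs_sum_le_sum_abs _ _
      _ ≤ ∑ ξ ∈ S, b ξ * (26 / 2 ^ H) := by
          refine Finset.sum_le_sum fun ξ hξ => ?_
          rw [abs_mul, abs_of_nonneg (b0 ξ hξ)]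
          exact mul_le_mul_of_nonneg_left (e2 ξ hξ) (b0 ξ hξ)
      _ = (∑ ξ ∈ S, b ξ) * (26 / 2 ^ H) := by rw [Finset.sum_mul]
      _ ≤ B * (26 / 2 ^ H) := by gcongr
      _ = 26 * B / 2 ^ H := by ring
  have hcoarse : ∀ x, |blk (K - a + H) (SS K b S) x| ≤ B / 2 ^ H := by
    intro x
    rw [blk_SS_dd]
    have e2 : ∀ ξ ∈ S, |blk (K - a + H) (fun y => si K ξ y) x| ≤ 1 / 2 ^ H := by
      intro ξ hξ
      have l1 := lo ξ hξ
      have l2 := hi ξ hξ
      have l3 : 0 < 2 ^ a := by positivity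
      have hξ0 : 0 < ξ := by
        rcases Nat.eq_zero_or_pos ξ with h | h
        · rw [h] at l1; omega
        · exact h
      have l4 : 2 * ξ ≤ 2 ^ K := by
        have : 2 ^ (a + 3) ≤ 2 ^ K := Nat.pow_le_pow_right (by norm_num) (by omega)
        have h8 : 2 ^ (a + 3) = 2 * 2 ^ (a + 2) := by ring
        omega
      have e3 := (h3 K (K - a + H) (ξ : ℤ) x (by omega) (by exact_mod_cast hξ0.ne')
        (by rw [abs_of_nonneg (by positivity)]; exact_mod_cast l4)).2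
      refine e3.trans ?_
      have l5 : (2 : ℝ) ^ a ≤ 2 * (ξ : ℝ) := by exact_mod_cast l1
      have l6 : |((ξ : ℤ) : ℝ)| = (ξ : ℝ) := by
        push_cast
        exact abs_of_nonneg (by positivity)
      rw [l6, div_le_div_iff₀ (by positivity) hHp]
      have hKp : (0 : ℝ) < 2 ^ (K - a + H) := by positivity
      calc (2 : ℝ) ^ K * 2 ^ H = 2 ^ (K - a + H) * 2 ^ a := hKc.symm
        _ ≤ 2 ^ (K - a + H) * (2 * (ξ : ℝ)) := by gcongr
        _ = 1 * (2 * (ξ : ℝ) * 2 ^ (K - a + H)) := by ring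
    calc |∑ ξ ∈ S, b ξ * blk (K - a + H) (fun y => si K ξ y) x|
        ≤ ∑ ξ ∈ S, |b ξ * blk (K - a + H) (fun y => si K ξ y) x| :=
          Finset.abs_sum_le_sum_abs _ _
      _ ≤ ∑ ξ ∈ S, b ξ * (1 / 2 ^ H) := by
          refine Finset.sum_le_sum fun ξ hξ => ?_
          rw [abs_mul, abs_of_nonneg (b0 ξ hξ)]
          exact mul_le_mul_of_nonneg_left (e2 ξ hξ) (b0 ξ hξ)
      _ = (∑ ξ ∈ S, b ξ) * (1 / 2 ^ H) := by rw [Finset.sum_mul]
      _ ≤ B * (1 / 2 ^ H) := by gcongr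
      _ = B / 2 ^ H := by ring
  refine ⟨hSS, ?_, ?_, ?_, ?_⟩
  · intro x
    unfold dd
    have e1 := hfine x
    have e2 := hcoarse x
    rw [abs_le] at *
    have e3 : 27 * B / 2 ^ H = 26 * B / 2 ^ H + B / 2 ^ H := by ring
    constructor <;> linarith [e1.1, e1.2, e2.1, e2.2]
  · intro x
    unfold dd
    have e1 := p6 (SS K b S) B x fun y _ => hSS y
    have e2 := q6 (SS K b S) B x fun y _ => hSS y
    rw [abs_le] at *
    constructor <;> linarith [e1.1, e1.2, e2.1, e2.2]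
  · intro x y hxy
    unfold dd
    rw [p1 (SS K b S) x y hxy, r1 _ (q1 (SS K b S)) x y hxy]
  · intro x
    have e1 : dd K H a b S = fun y => blk (K - a - H) (SS K b S) y
        + (-1) * blk (K - a + H) (SS K b S) y := by
      funext y
      unfold dd
      ring
    rw [e1, q3 (blk (K - a - H) (SS K b S)) (fun y => (-1) * blk (K - a + H) (SS K b S) y) x,
      q4 (blk (K - a + H) (SS K b S)) (-1) x, r2, q8 _ (q1 _)]
    ring

end Pool.Agent.Helper57.SN
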