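import Pool.Agent.Helper57.SN.StD

/-! # Project SN, module exFil: the filtration by coarse blocks exists -/

set_option autoImplicit false

open Finset
open Pool.Agent.Helper56.SS (Fil)

namespace Pool.Agent.Helper57.SN

private theorem div_pow_exFil (m n x y : ℕ) (h : m ≤ n) (e : x / 2 ^ m = y / 2 ^ m) :
    x / 2 ^ n = y / 2 ^ n := by
  obtain ⟨k, rfl⟩ := Nat.exists_eq_add_of_le h
  rw [pow_add, ← Nat.div_div_eq_div_mul, ← Nat.div_div_eq_div_mul, e]

theorem m_exFil : St_exFil := by
  intro K H T a ha
  refine ⟨⟨fun j w => if j < T then (w : ℕ) / 2 ^ (K - a j + H) else (w : ℕ), ?_⟩, ?_, ?_⟩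
  · intro j w w' h
    by_cases h1 : j + 1 < T
    · have h2 : j < T := by omega
      simp only [h1, h2, if_true] at h ⊢
      have h3 : a j ≤ a (j + 1) := ha j (j + 1) (Nat.lt_succ_self j) h1
      exact div_pow_exFil _ _ _ _ (by omega) h
    · simp only [h1, if_false] at h
      rw [h]
  · intro j hj w
    simp [hj]
  · intro j hj w
    have : ¬ j < T := by omega
    simp [this]

end Pool.Agent.Helper57.SN
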