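import Pool.Agent.Helper57.SN.StC

set_option autoImplicit false

open Finset

namespace Pool.Agent.Helper57.SN

/-- disjointness of far levels -/
private theorem dj_fam (S : ℕ → Finset ℕ)
    (h : ∀ a, 1 ≤ a → ∀ ξ ∈ S a, 2 ^ a ≤ 2 * ξ ∧ ξ < 2 ^ (a + 2)) (a a' : ℕ) (ha : 1 ≤ a)
    (haa : a + 3 ≤ a') : Disjoint (S a) (S a') := by
  rw [Finset.disjoint_left]
  intro x hx hx'
  have h1 := (h a ha x hx).2
  have h2 := (h a' (by omega) x hx').1
  have h3 : 2 ^ (a + 3) ≤ 2 ^ a' := Nat.pow_le_pow_right (by norm_num) haa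
  have h4 : 2 ^ (a + 3) = 2 * 2 ^ (a + 2) := by ring
  omega

/-- the number of elements of a union of levels -/
private theorem card_fam (S : ℕ → Finset ℕ) (Ω : Finset ℕ) (hsub : ∀ a, S a ⊆ Ω)
    (h : ∀ a, 1 ≤ a → ∀ ξ ∈ S a, 2 ^ a ≤ 2 * ξ ∧ ξ < 2 ^ (a + 2)) (E : Finset ℕ)
    (h1 : ∀ a ∈ E, 1 ≤ a) (h3 : ∀ a ∈ E, ∀ a' ∈ E, a < a' → a + 3 ≤ a') :
    ∑ a ∈ E, (S a).card ≤ Ω.card := by
  rw [← Finset.card_biUnion]
  · apply Finset.card_le_card
    intro x hx
    obtain ⟨a, -, ha⟩ := Finset.mem_biUnion.mp hx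
    exact hsub a ha
  · intro a ha a' ha' hne
    rcases lt_or_gt_of_ne hne with hlt | hlt
    · exact dj_fam S h a a' (h1 a ha) (h3 a ha a' ha' hlt)
    · exact (dj_fam S h a' a (h1 a' ha') (h3 a' ha' a ha hlt)).symm

theorem m_fam (h1 : St_marg) (h2 : St_pig) : St_fam := by
  intro K H N b Ω M hG hM hΩ hcard hN hH hMH hHN hmass
  have hex : ∀ a : ℕ, ∃ S ⊆ Ω, 1 ≤ a → (∀ ω ∈ Ω, 2 ^ a ≤ ω → ω < 2 ^ (a + 1) → ω ∈ S) ∧
      (∀ ξ ∈ S, 2 ^ a ≤ 2 * ξ ∧ ξ < 2 ^ (a + 2)) ∧
      (∀ ξ ∈ S, ∀ ω ∈ Ω, ω ∉ S → (2 : ℝ) ^ a ≤ (2 * (N + 1)) * |(ω : ℝ) - ξ|) := by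
    intro a
    by_cases ha : 1 ≤ a
    · obtain ⟨S, hS, h⟩ := h1 a N Ω ha hcard
      exact ⟨S, hS, fun _ => h⟩
    · exact ⟨∅, Finset.empty_subset _, fun h => absurd h ha⟩
  choose S hSΩ hS using hex
  have hSb : ∀ a, 1 ≤ a → ∀ ξ ∈ S a, 2 ^ a ≤ 2 * ξ ∧ ξ < 2 ^ (a + 2) := fun a ha => (hS a ha).2.1
  set good : ℕ → Prop := fun a => 2 * H + 3 ≤ a ∧ a + 2 * H + 12 ≤ K with hgood
  have hdec : ∀ a, Decidable (good a) := fun a => by rw [hgood]; exact inferInstance
  set f : ℕ → ℝ := fun a => if 2 * H + 3 ≤ a ∧ a + 2 * H + 12 ≤ K then ∑ ξ ∈ S a, b ξ else 0 with hf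
  set n : ℕ → ℕ := fun a => if 2 * H + 3 ≤ a ∧ a + 2 * H + 12 ≤ K then (S a).card else 0 with hn
  have hb0 : ∀ a, ∀ ξ ∈ S a, 0 ≤ b ξ := fun a ξ hξ => hG.b0 ξ (hSΩ a hξ)
  have hf0 : ∀ a, 0 ≤ f a := by
    intro a
    rw [hf]
    simp only
    split_ifs
    · exact Finset.sum_nonneg (hb0 a)
    · exact le_rfl
  have hf8 : ∀ a, f a ≤ 8 := by
    intro a
    rw [hf]
    simp only
    split_ifs with h
    · refine le_trans ?_ (hmass a (by omega))
      apply Finset.sum_le_sum_of_subset_of_nonneg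
      · intro x hx
        rw [Finset.mem_filter]
        have := hSb a (by omega) x hx
        have h4 : 2 ^ (a + 3) = 2 * 2 ^ (a + 2) := by ring
        exact ⟨hSΩ a hx, by omega, by omega⟩
      · intro x hx _
        exact hG.b0 x (Finset.mem_filter.mp hx).1
    · norm_num
  have hpigN : ∀ r < 4 * H, ∑ a ∈ range K with a % (4 * H) = r, n a ≤ N := by
    intro r _
    have : ∑ a ∈ range K with a % (4 * H) = r, n a =
        ∑ a ∈ (range K).filter (fun a => a % (4 * H) = r ∧ (2 * H + 3 ≤ a ∧ a + 2 * H + 12 ≤ K)),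
          (S a).card := by
      rw [hn]
      simp only
      rw [← Finset.sum_filter, Finset.filter_filter]
    rw [this]
    refine le_trans (card_fam S Ω hSΩ hSb _ ?_ ?_) hcard
    · intro a ha
      have := (Finset.mem_filter.mp ha).2.2.1
      omega
    · intro a ha a' ha' hlt
      have e1 := (Finset.mem_filter.mp ha).2.1
      have e2 := (Finset.mem_filter.mp ha').2.1
      have d1 := Nat.div_add_mod a (4 * H)
      have d2 := Nat.div_add_mod a' (4 * H)
      rw [e1] at d1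
      rw [e2] at d2
      have hq : a / (4 * H) < a' / (4 * H) := by
        by_contra hcon
        push Not at hcon
        have := Nat.mul_le_mul_left (4 * H) hcon
        omega
      have := Nat.mul_le_mul_left (4 * H) (Nat.succ_le_of_lt hq)
      rw [Nat.mul_succ] at this
      omega
  -- total mass
  set g : ℕ → ℝ := fun e => ∑ ω ∈ Ω with Nat.log 2 ω = e, b ω with hg
  have hlog : ∀ ω ∈ Ω, Nat.log 2 ω + (2 * H + 13) ≤ K := by
    intro ω hω
    have hpos := hG.pos ω hω
    have h3 : 2 ^ Nat.log 2 ω ≤ ω := Nat.pow_log_le_self 2 (by omega)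
    have h4 : 2 ^ (Nat.log 2 ω + (2 * H + 13)) ≤ 2 ^ K := by
      rw [pow_add]
      exact le_trans (Nat.mul_le_mul_right _ h3) (hΩ ω hω)
    exact (Nat.pow_le_pow_iff_right (by norm_num)).mp h4
  have hsumg : ∑ e ∈ range K, g e = M := by
    rw [hM, hg]
    simp only
    apply Finset.sum_fiberwise_of_maps_to
    intro ω hω
    have := hlog ω hω
    rw [Finset.mem_range]
    omega
  have hgf : ∀ e, g e ≤ f e + (if e < 2 * H + 3 then 8 else 0) := by
    intro e
    by_cases hem : (Ω.filter (fun ω => Nat.log 2 ω = e)).Nonempty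
    · obtain ⟨ω0, hω0⟩ := hem
      rw [Finset.mem_filter] at hω0
      have hK := hlog ω0 hω0.1
      rw [hω0.2] at hK
      have hran : ∀ ω ∈ Ω.filter (fun ω => Nat.log 2 ω = e), 2 ^ e ≤ ω ∧ ω < 2 ^ (e + 1) := by
        intro ω hω
        rw [Finset.mem_filter] at hω
        have hpos := hG.pos ω hω.1
        have h3 : 2 ^ Nat.log 2 ω ≤ ω := Nat.pow_log_le_self 2 (by omega)
        have h4 : ω < 2 ^ (Nat.log 2 ω + 1) := Nat.lt_pow_succ_log_self (by norm_num) ω
        rw [hω.2] at h3 h4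
        exact ⟨h3, h4⟩
      split_ifs with he
      · have hle : g e ≤ 8 := by
          refine le_trans ?_ (hmass e (by omega))
          rw [hg]
          apply Finset.sum_le_sum_of_subset_of_nonneg
          · intro x hx
            have hr := hran x hx
            rw [Finset.mem_filter]
            have h4 : 2 ^ (e + 3) = 4 * 2 ^ (e + 1) := by ring
            exact ⟨(Finset.mem_filter.mp hx).1, by omega, by omega⟩
          · intro x hx _
            exact hG.b0 x (Finset.mem_filter.mp hx).1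
        linarith [hf0 e]
      · have hfe : f e = ∑ ξ ∈ S e, b ξ := by
          rw [hf]
          simp only
          rw [if_pos (by omega)]
        rw [hfe, add_zero, hg]
        apply Finset.sum_le_sum_of_subset_of_nonneg
        · intro x hx
          have hr := hran x hx
          exact (hS e (by omega)).1 x (Finset.mem_filter.mp hx).1 hr.1 hr.2
        · intro x hx _
          exact hb0 e x hx
    · rw [Finset.not_nonempty_iff_eq_empty] at hem
      have : g e = 0 := by
        rw [hg]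
        simp only
        rw [hem, Finset.sum_empty]
      rw [this]
      have := hf0 e
      split_ifs <;> linarith
  have hsum8 : ∑ e ∈ range K, (if e < 2 * H + 3 then (8 : ℝ) else 0) ≤ 8 * (2 * H + 3) := by
    rw [← Finset.sum_filter, Finset.sum_const, nsmul_eq_mul]
    have : ((range K).filter (fun e => e < 2 * H + 3)).card ≤ 2 * H + 3 := by
      calc _ ≤ (range (2 * H + 3)).card := by
            apply Finset.card_le_card
            intro x hx
            rw [Finset.mem_range]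
            exact (Finset.mem_filter.mp hx).2
        _ = _ := Finset.card_range _
    have h5 : ((((range K).filter (fun e => e < 2 * H + 3)).card : ℕ) : ℝ) ≤ 2 * H + 3 := by
      exact_mod_cast this
    linarith
  have hHr : (10 : ℝ) ≤ H := by exact_mod_cast hH
  have hMf : M / 2 ≤ ∑ a ∈ range K, f a := by
    have h6 : M ≤ ∑ e ∈ range K, f e + ∑ e ∈ range K, (if e < 2 * H + 3 then (8 : ℝ) else 0) := by
      rw [← hsumg, ← Finset.sum_add_distrib]
      exact Finset.sum_le_sum fun e _ => hgf e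
    linarith
  have hMpos : (1 : ℝ) ≤ M := by linarith
  have hpw : 16 * (4 * H : ℕ) * N ≤ (2 : ℝ) ^ H * (M / 2) := by
    have h7 : ((256 * H * N : ℕ) : ℝ) ≤ ((2 ^ H : ℕ) : ℝ) := by exact_mod_cast hHN
    push_cast at h7 ⊢
    have h8 : (0 : ℝ) ≤ H * N := by positivity
    nlinarith [mul_le_mul h7 hMpos zero_le_one (by positivity)]
  have hn0 : ∀ a < K, n a = 0 → f a = 0 := by
    intro a _ hna
    rw [hn] at hna
    rw [hf]
    simp only at hna ⊢
    split_ifs at hna ⊢ with h
    · rw [Finset.card_eq_zero] at hna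
      rw [hna, Finset.sum_empty]
    · rfl
  obtain ⟨E, β, hE, hEne, hβ0, hβ4, hEf, hEsep, hEn, hEM⟩ :=
    h2 K (4 * H) H N f n (M / 2) (by omega) (by omega) hN (by linarith)
      (fun a _ => ⟨hf0 a, hf8 a⟩) hn0 hpigN hMf hpw
  have hEgood : ∀ a ∈ E, 2 * H + 3 ≤ a ∧ a + 2 * H + 12 ≤ K := by
    intro a ha
    have h3 := (hEf a ha).1
    rw [hf] at h3
    simp only at h3
    split_ifs at h3 with h
    · exact h
    · linarith
  have hEfa : ∀ a ∈ E, f a = ∑ ξ ∈ S a, b ξ := by
    intro a ha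
    rw [hf]
    simp only
    rw [if_pos (hEgood a ha)]
  have hEna : ∀ a ∈ E, n a = (S a).card := by
    intro a ha
    rw [hn]
    simp only
    rw [if_pos (hEgood a ha)]
  have hEcard : E.card ≤ N := by
    refine le_trans ?_ (le_trans (card_fam S Ω hSΩ hSb E ?_ ?_) hcard)
    · rw [Finset.card_eq_sum_ones]
      apply Finset.sum_le_sum
      intro a ha
      rw [Nat.one_le_iff_ne_zero, ne_eq, Finset.card_eq_zero]
      intro h0
      have h3 := (hEf a ha).1
      rw [hEfa a ha, h0, Finset.sum_empty] at h3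
      linarith
    · intro a ha
      have := (hEgood a ha).1
      omega
    · intro a ha a' ha' hlt
      have := hEsep a ha a' ha' hlt
      omega
  set T := E.card with hT
  let u : ℕ → ℕ := fun i => if h : i < T then E.orderEmbOfFin hT.symm ⟨i, h⟩ else 0
  have hu : ∀ i, i < T → u i ∈ E := by
    intro i hi
    show (if h : i < T then E.orderEmbOfFin hT.symm ⟨i, h⟩ else 0) ∈ E
    rw [dif_pos hi]
    exact Finset.orderEmbOfFin_mem _ _ _
  have hulm : ∀ i j, i < j → j < T → u i < u j := by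
    intro i j hij hj
    show (if h : i < T then E.orderEmbOfFin hT.symm ⟨i, h⟩ else 0) <
      (if h : j < T then E.orderEmbOfFin hT.symm ⟨j, h⟩ else 0)
    rw [dif_pos (hij.trans hj), dif_pos hj]
    exact (E.orderEmbOfFin hT.symm).strictMono hij
  refine ⟨T, β, u, fun i => S (u i), Finset.card_pos.mpr hEne, hEcard, hβ0, hβ4, ⟨?_, ?_, ?_, ?_⟩,
    ?_, ?_, ?_⟩
  · intro i hi
    have hm := hu i hi
    have hgd := hEgood _ hm
    refine ⟨hgd.1, hgd.2, hb0 _, fun ξ hξ => (hSb _ (by omega) ξ hξ).1,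
      fun ξ hξ => (hSb _ (by omega) ξ hξ).2, ?_⟩
    rw [← hEfa _ hm]
    exact (hEf _ hm).2
  · intro i _
    exact hSΩ _
  · intro i hi
    have hgd := hEgood _ (hu i hi)
    exact (hS _ (by omega)).2.2
  · intro i j hij hj
    exact hEsep _ (hu i (hij.trans hj)) _ (hu j hj) (hulm i j hij hj)
  · intro i hi
    rw [← hEfa _ (hu i hi)]
    exact (hEf _ (hu i hi)).1.le
  · intro i hi
    have h3 := hEn _ (hu i hi)
    rw [hEna _ (hu i hi)] at h3
    exact h3
  · push_cast at hEM
    nlinarith [hEM]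

end Pool.Agent.Helper57.SN
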