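import Pool.Agent.Helper57.SN.StB

set_option autoImplicit false

open Finset

namespace Pool.Agent.Helper57.SN

theorem m_hits (h : St_count) : St_hits := by
  intro H m0 T N D a hH hsep hN hT E hE hhit
  -- choose the combinations
  have h1 : ∀ l : ℕ, ∃ g : ℤ, l ∈ E → Spn (2 * m0) D g ∧ 2 ^ (a l) ≤ 2 ^ (H + 2) * |g| ∧
      |g| ≤ 2 ^ (a l + H + 2) := by
    intro l
    by_cases hl : l ∈ E
    · obtain ⟨g, hg⟩ := hhit l hl
      exact ⟨g, fun _ => hg⟩
    · exact ⟨0, fun h => absurd h hl⟩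
  choose f hf using h1
  set n := E.card with hn
  have hnT : n ≤ T := by
    have := Finset.card_le_card hE
    rwa [card_range] at this
  set e := E.orderEmbOfFin hn.symm with he
  let g : ℕ → ℤ := fun i => if hi : i < n then f (e ⟨i, hi⟩) else 0
  have hg : ∀ i (hi : i < n), g i = f (e ⟨i, hi⟩) := fun i hi => dif_pos hi
  have hmem : ∀ i (hi : i < n), e ⟨i, hi⟩ ∈ E := fun i hi => Finset.orderEmbOfFin_mem E hn.symm _
  have hc := h n (2 * m0) D g (by
    intro i hi
    rw [hg i hi]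
    exact (hf _ (hmem i hi)).1) (by
    intro i hi h0
    rw [hg i hi] at h0
    have h2 := (hf _ (hmem i hi)).2.1
    rw [h0, abs_zero, mul_zero] at h2
    have h3 : (0 : ℤ) < 2 ^ (a (e ⟨i, hi⟩)) := by positivity
    omega) (by
    intro i hi
    have hi0 : i < n := by omega
    rw [hg i hi0, hg (i + 1) hi]
    have h2 := (hf _ (hmem i hi0)).2.2
    have h3 := (hf _ (hmem (i + 1) hi)).2.1
    have h4 : e ⟨i, hi0⟩ < e ⟨i + 1, hi⟩ := by
      rw [OrderEmbedding.lt_iff_lt]
      exact Fin.mk_lt_mk.2 (Nat.lt_succ_self i)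
    have h5 : e ⟨i + 1, hi⟩ < T := by
      have := hE (hmem (i + 1) hi)
      rwa [mem_range] at this
    have h6 := hsep _ _ h4 h5
    set u := f (e ⟨i, hi0⟩)
    set w := f (e ⟨i + 1, hi⟩)
    set A := a (e ⟨i, hi0⟩)
    set B := a (e ⟨i + 1, hi⟩)
    have h7 : (2 : ℤ) ^ (H + 2) * (4 * |u|) ≤ 2 ^ (H + 2) * |w| := by
      calc (2 : ℤ) ^ (H + 2) * (4 * |u|) ≤ 2 ^ (H + 2) * (4 * 2 ^ (A + H + 2)) := by
            refine mul_le_mul_of_nonneg_left ?_ (by positivity)
            linarith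
        _ = 2 ^ (A + 2 * H + 6) := by
            rw [show (4 : ℤ) = 2 ^ 2 by norm_num, ← pow_add, ← pow_add]
            congr 1
            ring
        _ ≤ 2 ^ B := pow_le_pow_right₀ (by norm_num) (by omega)
        _ ≤ 2 ^ (H + 2) * |w| := h3
    exact le_of_mul_le_mul_left h7 (by positivity))
  have h8 : (2 : ℕ) ^ n ≤ 2 ^ (H * D.card) := by
    calc (2 : ℕ) ^ n ≤ (2 * n * (2 * m0) + 1) ^ D.card := hc
      _ ≤ (2 ^ H) ^ D.card := by
          refine Nat.pow_le_pow_left ?_ _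
          refine le_trans ?_ hN
          have : n * m0 ≤ N * m0 := Nat.mul_le_mul_right _ (hnT.trans hT)
          nlinarith
      _ = 2 ^ (H * D.card) := by rw [pow_mul]
  exact (Nat.pow_le_pow_iff_right (by norm_num)).1 h8

end Pool.Agent.Helper57.SN
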