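import Pool.Agent.Helper57.SN.StA
import Pool.Agent.Helper57.SN.StD

/-! # Project SN, module hyp (D3): hypotheses of the abstract theorem -/

set_option autoImplicit false

open Finset
open Pool.Agent.Helper56.SS (Fil Dat Hyp Cuts)

namespace Pool.Agent.Helper57.SN

theorem m_hyp (h1 : St_blk1) (h2 : St_blk2) (h3 : St_dd) (h4 : St_P2) (h5 : St_th) (h6 : St_dict) :
    St_hyp := by
  intro K H T b Ω a Om B G M κ lam Gd F hglob hfam hF hH hG hB hκ hκB hlam hlk hGd
  have hHa : ∀ j < T, H ≤ a j ∧ a j ≤ K := by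
    intro j hj
    have e1 := (hfam.lv j hj).Ha
    have e2 := (hfam.lv j hj).aK
    omega
  obtain ⟨k1, k2, k3, k4, k5⟩ := h6 K H T a F hF hHa
  have hM : 0 ≤ M := le_trans (Finset.sum_nonneg fun ω hω => hglob.b0 ω hω) hglob.mass
  have hdd := fun j hj => h3 K H (a j) b (Om j) B (hfam.lv j hj)
  have hth := fun j hj => h5 K H (a j) b (Om j) B κ (hfam.lv j hj) hκB hκ
  have hDpos : ∀ j, j < T → (dat K H T b Ω a Om κ lam (B / 2 ^ H * (54 * B + 27 * M + G * M)) (2 * B) Gd F).D j
      = fun w : Fin (2 ^ K) => dd K H (a j) b (Om j) w := by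
    intro j hj
    funext w
    exact if_pos hj
  have hDneg : ∀ j, ¬ j < T → (dat K H T b Ω a Om κ lam (B / 2 ^ H * (54 * B + 27 * M + G * M)) (2 * B) Gd F).D j
      = fun _ => 0 := by
    intro j hj
    funext w
    exact if_neg hj
  have htpos : ∀ j, j < T → (dat K H T b Ω a Om κ lam (B / 2 ^ H * (54 * B + 27 * M + G * M)) (2 * B) Gd F).th j
      = fun w : Fin (2 ^ K) => th K H (a j) b (Om j) κ w := by
    intro j hj
    funext w
    exact if_pos hj
  have htneg : ∀ j, ¬ j < T → (dat K H T b Ω a Om κ lam (B / 2 ^ H * (54 * B + 27 * M + G * M)) (2 * B) Gd F).th j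
      = fun _ => 1 := by
    intro j hj
    funext w
    exact if_neg hj
  refine
    { lam_ge := hlam
      kap_pos := ?_
      lk := hlk
      eta_nonneg := ?_
      f_le := fun w => hglob.bdd w
      D_meas := ?_
      D_zero := ?_
      D_le := ?_
      th01 := ?_
      th_meas := ?_
      th_le := ?_
      gain := ?_ }
  · show 0 < 2 * κ
    linarith
  · show 0 ≤ B / 2 ^ H * (54 * B + 27 * M + G * M)
    have : 0 ≤ G * M := mul_nonneg (by linarith) hM
    exact mul_nonneg (by positivity) (by linarith)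
  · intro j
    by_cases hj : j < T
    · rw [hDpos j hj]
      by_cases hj1 : j + 1 < T
      · have hsep := hfam.sep j (j + 1) (Nat.lt_succ_self j) hj1
        have hKa := (hHa (j + 1) hj1).2
        have hKj := (hfam.lv (j + 1) hj1).aK
        have hBC := (h2 (K - a (j + 1) + H) (K - a j - H) K (by omega) (by omega)).1 _
          (hdd j hj).2.2.2.1
        exact k4 (j + 1) hj1 _ hBC
      · exact k5 (j + 1) (by omega) _
    · rw [hDneg j hj]
      exact F.meas_const _ _
  · intro j w
    by_cases hj : j < T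
    · rw [hDpos j hj]
      show F.C j (fun v => dd K H (a j) b (Om j) v) w = 0
      rw [k2 j hj (dd K H (a j) b (Om j)) w]
      exact (hdd j hj).2.2.2.2 w
    · rw [hDneg j hj]
      exact F.C_const _ _ _
  · intro j w
    by_cases hj : j < T
    · rw [hDpos j hj]
      exact (hdd j hj).2.2.1 w
    · rw [hDneg j hj]
      show |(0 : ℝ)| ≤ 2 * B
      rw [abs_zero]
      linarith
  · intro j w
    by_cases hj : j < T
    · rw [htpos j hj]
      exact (hth j hj).2.1 w
    · rw [htneg j hj]
      exact Or.inr rfl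
  · intro j
    by_cases hj : j < T
    · rw [htpos j hj]
      exact k4 j hj _ (hth j hj).1
    · rw [htneg j hj]
      exact F.meas_const _ _
  · intro j w hw
    by_cases hj : j < T
    · rw [hDpos j hj]
      rw [htpos j hj] at hw
      exact (hth j hj).2.2.1 w hw
    · rw [hDneg j hj]
      show |(0 : ℝ)| ≤ 2 * κ
      rw [abs_zero]
      linarith
  · intro j hj g hg hg0
    have hjT : j < T := Finset.mem_range.1 (hGd hj)
    rw [hDpos j hjT]
    obtain ⟨g', hg1, hg2, hg3⟩ := k3 j hjT g hg
    have hg3' := hg3 hg0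
    have key := h4 K H (a j) b (Om j) Ω B M G hglob (hfam.lv j hjT) (hfam.sub j hjT) hG
      (hfam.gap j hjT) g' hg1 hg3'
    rw [← k1, ← k1, ← k1] at key
    have e1 : (fun w : Fin (2 ^ K) => g w * (dd K H (a j) b (Om j) w) ^ 2) =
        fun w : Fin (2 ^ K) => g' w * (dd K H (a j) b (Om j) w) ^ 2 := by
      funext w
      rw [hg2 w]
    have e2 : g = fun w : Fin (2 ^ K) => g' w := by
      funext w
      rw [hg2 w]
    have e3 : (fun w : Fin (2 ^ K) => g w * SS K b Ω w * dd K H (a j) b (Om j) w) =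
        fun w : Fin (2 ^ K) => g' w * (SS K b Ω w * dd K H (a j) b (Om j) w) := by
      funext w
      rw [hg2 w, mul_assoc]
    show Pool.Agent.Helper56.SS.E (fun w : Fin (2 ^ K) => g w * (dd K H (a j) b (Om j) w) ^ 2) -
        B / 2 ^ H * (54 * B + 27 * M + G * M) * Pool.Agent.Helper56.SS.E g ≤
      Pool.Agent.Helper56.SS.E (fun w : Fin (2 ^ K) => g w * SS K b Ω w * dd K H (a j) b (Om j) w)
    rw [e1, e3]
    have e4 : Pool.Agent.Helper56.SS.E g = Pool.Agent.Helper56.SS.E (fun w : Fin (2 ^ K) => g' w) := by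
      exact congrArg _ e2
    rw [e4]
    exact key

end Pool.Agent.Helper57.SN
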