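import Pool.Agent.Helper57.SN.StB

/-! Project SN, module land1. -/

set_option autoImplicit false

namespace Pool.Agent.Helper57.SN

private theorem spn_sub_land1 {m : ℕ} {D : Finset ℕ} {g g' : ℤ} (h : Spn m D g)
    (h' : Spn m D g') : Spn (2 * m) D (g - g') := by
  obtain ⟨c, hc, rfl⟩ := h
  obtain ⟨c', hc', rfl⟩ := h'
  refine ⟨fun d => c d - c' d, fun d => ?_, ?_⟩
  · have h1 := abs_sub (c d) (c' d)
    have h2 := hc d
    have h3 := hc' d
    push_cast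
    linarith
  · rw [← Finset.sum_sub_distrib]
    apply Finset.sum_congr rfl
    intro d _
    ring

theorem m_land1 : St_land1 := by
  intro H m0 D a1 a2 γ hH ha h1 h2
  obtain ⟨-, g1, hg1, h1a, h1b⟩ := h1
  obtain ⟨-, g2, hg2, h2a, h2b⟩ := h2
  refine ⟨g1 - g2, spn_sub_land1 hg1 hg2, ?_, ?_⟩
  · have e1 : (γ - g2) = (γ - g1) + (g1 - g2) := by ring
    have t1 : |γ - g2| ≤ |γ - g1| + |g1 - g2| := by rw [e1]; exact abs_add_le _ _
    have p1 : (2 : ℤ) ^ (H + 2) * |γ - g1| ≤ 2 ^ a2 := by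
      calc (2 : ℤ) ^ (H + 2) * |γ - g1| ≤ 2 ^ (H + 2) * 2 ^ (a1 + H) :=
            mul_le_mul_of_nonneg_left h1b (by positivity)
        _ = 2 ^ (H + 2 + (a1 + H)) := by rw [← pow_add]
        _ ≤ 2 ^ a2 := pow_le_pow_right₀ (by norm_num) (by omega)
    have p2 : (2 : ℤ) ^ (H + 2) = 4 * 2 ^ H := by rw [pow_add]; ring
    have p3 : (2 : ℤ) ^ (H + 2) * |γ - g2| ≤ 2 ^ (H + 2) * |γ - g1| + 2 ^ (H + 2) * |g1 - g2| := by
      have := mul_le_mul_of_nonneg_left t1 (by positivity : (0 : ℤ) ≤ 2 ^ (H + 2))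
      linarith
    rw [p2] at p3 p1 ⊢
    have p4 : (4 : ℤ) * 2 ^ a2 ≤ 4 * 2 ^ H * |γ - g2| := by linarith
    have : (0 : ℤ) < 2 ^ a2 := by positivity
    linarith
  · have e1 : g1 - g2 = (γ - g2) - (γ - g1) := by ring
    have t1 : |g1 - g2| ≤ |γ - g2| + |γ - g1| := by rw [e1]; exact abs_sub _ _
    have p1 : (2 : ℤ) ^ (a1 + H) ≤ 2 ^ (a2 + H) := pow_le_pow_right₀ (by norm_num) (by omega)
    have p2 : (2 : ℤ) ^ (a2 + H + 2) = 4 * 2 ^ (a2 + H) := by rw [pow_add]; ring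
    have : (0 : ℤ) < 2 ^ (a2 + H) := by positivity
    rw [p2]
    linarith

end Pool.Agent.Helper57.SN
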