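import Pool.Agent.Helper57.SN.StB

/-! # Project SN, module landmass (helper68): mass of landing frequencies -/

set_option autoImplicit false

open Finset

namespace Pool.Agent.Helper57.SN

/-- number of scales in one residue class -/
theorem class_landmass (hcount : St_count) (H m0 N : ℕ) (D : Finset ℕ) (E : Finset ℕ)
    (hN : E.card ≤ N) (hH : 4 * N * m0 + 1 ≤ 2 ^ H)
    (hE : ∀ e ∈ E, ∀ e' ∈ E, e < e' → e + 5 ≤ e')
    (hg : ∀ e ∈ E, ∃ g : ℤ, Spn m0 D g ∧ (2 : ℤ) ^ e ≤ 2 * g ∧ g < 4 * 2 ^ e) :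
    E.card ≤ H * D.card := by
  classical
  choose! G hG1 hG2 hG3 using hg
  let f := E.orderEmbOfFin (rfl : E.card = E.card)
  have hfE : ∀ i, f i ∈ E := fun i => E.orderEmbOfFin_mem rfl i
  have h1 := hcount E.card m0 D (fun i => if h : i < E.card then G (f ⟨i, h⟩) else 0)
    (by
      intro i hi
      rw [dif_pos hi]
      exact hG1 _ (hfE _))
    (by
      intro i hi
      rw [dif_pos hi]
      have h2 := hG2 _ (hfE ⟨i, hi⟩)
      have h3 : (0 : ℤ) < 2 ^ (f ⟨i, hi⟩) := by positivity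
      intro h4
      rw [h4] at h2
      linarith)
    (by
      intro i hi
      have hi' : i < E.card := by omega
      rw [dif_pos hi, dif_pos hi']
      have h2 : f ⟨i, hi'⟩ < f ⟨i + 1, hi⟩ := by
        apply f.strictMono
        rw [Fin.mk_lt_mk]
        omega
      have h3 := hE _ (hfE ⟨i, hi'⟩) _ (hfE ⟨i + 1, hi⟩) h2
      have h4 := hG3 _ (hfE ⟨i, hi'⟩)
      have h5 := hG2 _ (hfE ⟨i + 1, hi⟩)
      have h6 := hG2 _ (hfE ⟨i, hi'⟩)
      have h7 : (2 : ℤ) ^ (f ⟨i, hi'⟩) * 2 ^ 5 ≤ 2 ^ (f ⟨i + 1, hi⟩) := by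
        rw [← pow_add]
        exact pow_le_pow_right₀ (by norm_num) h3
      have h8 : (0 : ℤ) < 2 ^ (f ⟨i, hi'⟩) := by positivity
      rw [abs_of_pos (by linarith), abs_of_pos (by linarith)]
      linarith)
  have h2 : 2 * E.card * m0 + 1 ≤ 2 ^ H := by
    have : 2 * E.card * m0 ≤ 4 * N * m0 := Nat.mul_le_mul_right _ (by omega)
    omega
  have h3 : (2 * E.card * m0 + 1) ^ D.card ≤ (2 ^ H) ^ D.card := Nat.pow_le_pow_left h2 _
  rw [← pow_mul] at h3
  exact (Nat.pow_le_pow_iff_right (by norm_num)).1 (h1.trans h3)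

theorem m_landmass (hcount : St_count) : St_landmass := by
  classical
  intro H m0 N D Ω b hH hb hpos hN hHN hm
  let Ω' : Finset ℕ := Ω.filter fun ω => ∃ al : ℕ, Land H m0 D al (ω : ℤ)
  let E : Finset ℕ := Ω'.image (Nat.log 2)
  have hlog : ∀ ω ∈ Ω', 2 ^ Nat.log 2 ω ≤ ω ∧ ω < 2 ^ (Nat.log 2 ω + 1) := by
    intro ω hω
    have h1 := hpos ω (mem_filter.1 hω).1
    exact ⟨Nat.pow_log_le_self 2 (by omega), Nat.lt_pow_succ_log_self (by norm_num) ω⟩
  have hEN : E.card ≤ N := card_image_le.trans ((card_filter_le _ _).trans hN)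
  have hEg : ∀ e ∈ E, ∃ g : ℤ, Spn m0 D g ∧ (2 : ℤ) ^ e ≤ 2 * g ∧ g < 4 * 2 ^ e := by
    intro e he
    obtain ⟨ω, hω, rfl⟩ := mem_image.1 he
    obtain ⟨h1, h2⟩ := hlog ω hω
    obtain ⟨al, h3, g, hg, -, h5⟩ := (mem_filter.1 hω).2
    refine ⟨g, hg, ?_⟩
    have h1' : (2 : ℤ) ^ Nat.log 2 ω ≤ ω := by exact_mod_cast h1
    have h2' : (ω : ℤ) < 2 ^ (Nat.log 2 ω + 1) := by exact_mod_cast h2
    have h6 : 2 * (2 : ℤ) ^ (al + H) ≤ ω := by
      have : (2 : ℤ) ^ (al + H + 1) = 2 * 2 ^ (al + H) := by ring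
      linarith
    have h7 := abs_le.1 h5
    rw [pow_succ] at h2'
    constructor
    · linarith [h7.2]
    · linarith [h7.1]
  have hEcard : E.card ≤ 5 * (H * D.card) := by
    have h1 : E.card = ∑ r ∈ range 5, (E.filter fun e => e % 5 = r).card :=
      card_eq_sum_card_fiberwise fun e _ => by
        rw [mem_coe, mem_range]
        exact Nat.mod_lt _ (by norm_num)
    rw [h1]
    have h2 : ∀ r ∈ range 5, (E.filter fun e => e % 5 = r).card ≤ H * D.card := by
      intro r _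
      refine class_landmass hcount H m0 N D _ ((card_filter_le _ _).trans hEN) hHN ?_ ?_
      · intro e he e' he' hee
        have h3 := (mem_filter.1 he).2
        have h4 := (mem_filter.1 he').2
        omega
      · intro e he
        exact hEg e (mem_filter.1 he).1
    refine (sum_le_sum h2).trans ?_
    rw [sum_const, card_range, smul_eq_mul]
  have hsum : ∑ ω ∈ Ω, (if ∃ al : ℕ, Land H m0 D al (ω : ℤ) then b ω else 0) =
      ∑ e ∈ E, ∑ ω ∈ Ω' with Nat.log 2 ω = e, b ω := by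
    rw [← sum_filter]
    exact (sum_fiberwise_of_maps_to (fun ω hω => mem_image_of_mem _ hω) _).symm
  rw [hsum]
  have h8 : ∀ e ∈ E, ∑ ω ∈ Ω' with Nat.log 2 ω = e, b ω ≤ 8 := by
    intro e _
    refine le_trans ?_ (hm e)
    refine sum_le_sum_of_subset_of_nonneg ?_ ?_
    · intro ω hω
      obtain ⟨h1, h2⟩ := mem_filter.1 hω
      refine mem_filter.2 ⟨(mem_filter.1 h1).1, ?_⟩
      rw [← h2]
      exact hlog ω h1
    · intro ω hω _
      exact hb ω (mem_filter.1 hω).1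
  refine (sum_le_sum h8).trans ?_
  rw [sum_const, nsmul_eq_mul]
  have h9 : (E.card : ℝ) ≤ ((5 * (H * D.card) : ℕ) : ℝ) := by exact_mod_cast hEcard
  push_cast at h9
  linarith

end Pool.Agent.Helper57.SN
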