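import Pool.Agent.Helper57.SN.StC

set_option autoImplicit false

open Finset

namespace Pool.Agent.Helper57.SN

/-- pigeonhole: one of `N + 1` windows is empty -/
private theorem win_marg (N : ℕ) (Ω : Finset ℕ) (hN : Ω.card ≤ N) (c w : ℝ) (hw : 0 < w) :
    ∃ i : ℕ, i ≤ N ∧ ∀ ω ∈ Ω, ¬ (c + i * w ≤ (ω : ℝ) ∧ (ω : ℝ) < c + (i + 1) * w) := by
  by_contra hcon
  push Not at hcon
  have h1 : ∀ i : ℕ, ∃ ω : ℕ, i ≤ N → ω ∈ Ω ∧ c + i * w ≤ (ω : ℝ) ∧ (ω : ℝ) < c + (i + 1) * w := by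
    intro i
    by_cases hi : i ≤ N
    · obtain ⟨ω, h1, h2, h3⟩ := hcon i hi
      exact ⟨ω, fun _ => ⟨h1, h2, h3⟩⟩
    · exact ⟨0, fun h => absurd h hi⟩
  choose f hf using h1
  have h2 : (range (N + 1)).card ≤ Ω.card := by
    refine Finset.card_le_card_of_injOn f ?_ ?_
    · intro i hi
      have : i ≤ N := by simpa [Nat.lt_succ_iff] using hi
      exact (hf i this).1
    · intro i hi j hj hij
      have hi' : i ≤ N := by simpa [Nat.lt_succ_iff] using hi
      have hj' : j ≤ N := by simpa [Nat.lt_succ_iff] using hj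
      have a1 := (hf i hi').2
      have a2 := (hf j hj').2
      rw [hij] at a1
      have b1 : (i : ℝ) * w < (j + 1) * w := by linarith [a1.1, a2.2]
      have b2 : (j : ℝ) * w < (i + 1) * w := by linarith [a1.2, a2.1]
      have c1 : (i : ℝ) < j + 1 := lt_of_mul_lt_mul_right b1 hw.le
      have c2 : (j : ℝ) < i + 1 := lt_of_mul_lt_mul_right b2 hw.le
      have d1 : i < j + 1 := by exact_mod_cast c1
      have d2 : j < i + 1 := by exact_mod_cast c2
      omega
  rw [card_range] at h2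
  omega

theorem m_marg : St_marg := by
  intro a N Ω ha hN
  obtain ⟨b, rfl⟩ : ∃ b, a = b + 1 := ⟨a - 1, by omega⟩
  have hN1 : (0 : ℝ) < N + 1 := by positivity
  set w : ℝ := 2 ^ b / (N + 1) with hw
  set w' : ℝ := 2 ^ (b + 2) / (N + 1) with hw'
  have hw0 : 0 < w := by positivity
  have hw'0 : 0 < w' := by positivity
  have hwN : w * (N + 1) = 2 ^ b := by rw [hw]; field_simp
  have hw'N : w' * (N + 1) = 2 ^ (b + 2) := by rw [hw']; field_simp
  obtain ⟨i, hi, hi2⟩ := win_marg N Ω hN (2 ^ b) w hw0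
  obtain ⟨j, hj, hj2⟩ := win_marg N Ω hN (2 ^ (b + 2)) w' hw'0
  have hiN : (i : ℝ) ≤ N := by exact_mod_cast hi
  have hjN : (j : ℝ) ≤ N := by exact_mod_cast hj
  have hi0 : (0 : ℝ) ≤ i := by positivity
  have hj0 : (0 : ℝ) ≤ j := by positivity
  have hR : (i + 1) * w ≤ 2 ^ b := by
    rw [← hwN]
    nlinarith
  have hL : (j : ℝ) * w' ≤ 2 ^ (b + 2) := by
    rw [← hw'N]
    nlinarith
  have hww : w ≤ w' := by
    have h1 : (2 : ℝ) ^ b ≤ 2 ^ (b + 2) := pow_le_pow_right₀ (by norm_num) (by omega)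
    rw [hw, hw']
    exact div_le_div_of_nonneg_right h1 hN1.le
  classical
  refine ⟨Ω.filter (fun ω : ℕ => (2 : ℝ) ^ b + (i + 1) * w ≤ (ω : ℝ) ∧ (ω : ℝ) < 2 ^ (b + 2) + j * w'),
    Finset.filter_subset _ _, ?_, ?_, ?_⟩
  · intro ω hω h1 h2
    rw [Finset.mem_filter]
    refine ⟨hω, ?_, ?_⟩
    · have h3 : ((2 : ℝ) ^ (b + 1)) ≤ ω := by exact_mod_cast h1
      rw [pow_succ] at h3
      linarith
    · have h3 : (ω : ℝ) < ((2 : ℝ) ^ (b + 1 + 1)) := by exact_mod_cast h2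
      have h4 : 0 ≤ (j : ℝ) * w' := by positivity
      have h5 : (2 : ℝ) ^ (b + 1 + 1) = 2 ^ (b + 2) := rfl
      linarith
  · intro ξ hξ
    rw [Finset.mem_filter] at hξ
    obtain ⟨_, h1, h2⟩ := hξ
    constructor
    · have h3 : ((2 : ℝ) ^ (b + 1)) ≤ 2 * ξ := by
        have h4 : 0 ≤ ((i : ℝ) + 1) * w := by positivity
        rw [pow_succ]
        linarith
      exact_mod_cast h3
    · have h3 : (ξ : ℝ) < ((2 : ℝ) ^ (b + 1 + 2)) := by
        have h5 : (2 : ℝ) ^ (b + 1 + 2) = 2 ^ (b + 2) * 2 := by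
          rw [show b + 1 + 2 = (b + 2) + 1 by ring, pow_succ]
        rw [h5]
        linarith
      exact_mod_cast h3
  · intro ξ hξ ω hω hωS
    rw [Finset.mem_filter] at hξ hωS
    obtain ⟨_, h1, h2⟩ := hξ
    have h3 : (2 : ℝ) ^ (b + 1) = 2 * (N + 1) * w := by
      rw [pow_succ, ← hwN]
      ring
    rw [h3]
    refine mul_le_mul_of_nonneg_left ?_ (by positivity)
    by_cases h4 : (2 : ℝ) ^ b + (i + 1) * w ≤ (ω : ℝ)
    · have h5 : (2 : ℝ) ^ (b + 2) + j * w' ≤ ω := by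
        by_contra h6
        push Not at h6
        exact hωS ⟨hω, h4, h6⟩
      have h7 : (2 : ℝ) ^ (b + 2) + (j + 1) * w' ≤ ω := by
        by_contra h6
        push Not at h6
        exact hj2 ω hω ⟨h5, h6⟩
      have h8 : w ≤ (ω : ℝ) - ξ := by
        have : (2 : ℝ) ^ (b + 2) + (j + 1) * w' = 2 ^ (b + 2) + j * w' + w' := by ring
        linarith
      exact h8.trans (le_abs_self _)
    · push Not at h4
      have h7 : (ω : ℝ) < 2 ^ b + i * w := by
        by_contra h6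
        push Not at h6
        exact hi2 ω hω ⟨h6, h4⟩
      have h8 : w ≤ (ξ : ℝ) - ω := by
        have : (2 : ℝ) ^ b + (i + 1) * w = 2 ^ b + i * w + w := by ring
        linarith
      rw [abs_sub_comm]
      exact h8.trans (le_abs_self _)

end Pool.Agent.Helper57.SN
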