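import Pool.Agent.Helper57.SN.StA

/-! # Project SN, module mass: dyadic mass bound. -/

set_option autoImplicit false

open Finset

namespace Pool.Agent.Helper57.SN

theorem m_mass (h1 : St_GL) (h2 : St_GLest) : St_mass := by
  intro K a b Ω M hG haK
  obtain ⟨μ, hμ0, hμ1, hμ⟩ := h1 K a haK
  obtain ⟨e1, e2, -, -, -⟩ := h2 K a haK
  have hsum : ∑ s ∈ range (2 ^ K), μ s * SS K b Ω s = ∑ ω ∈ Ω, b ω * pim K a (ω : ℤ) := by
    unfold SS
    have : ∀ s ∈ range (2 ^ K), μ s * ∑ ξ ∈ Ω, b ξ * si K ξ s =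
        ∑ ξ ∈ Ω, b ξ * (μ s * si K ξ s) := by
      intro s _
      rw [mul_sum]
      exact sum_congr rfl fun ξ _ => by ring
    rw [sum_congr rfl this, sum_comm]
    refine sum_congr rfl fun ξ _ => ?_
    rw [← mul_sum, (hμ (ξ : ℤ)).2]
  have hle : ∑ s ∈ range (2 ^ K), μ s * SS K b Ω s ≤ 1 := by
    calc ∑ s ∈ range (2 ^ K), μ s * SS K b Ω s ≤ ∑ s ∈ range (2 ^ K), μ s := by
          refine sum_le_sum fun s _ => ?_
          have := (abs_le.mp (hG.bdd s)).2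
          nlinarith [hμ0 s]
      _ = 1 := hμ1
  have hnn : ∀ ω ∈ Ω, 0 ≤ b ω * pim K a (ω : ℤ) := by
    intro ω hω
    refine mul_nonneg (hG.b0 ω hω) (e1 _ (by positivity) ?_)
    have := hG.small ω hω
    have h' : 2 * ω ≤ 2 ^ K := by omega
    exact_mod_cast h'
  have hband : ∑ ω ∈ Ω with (2 ^ a ≤ 4 * ω ∧ ω ≤ 2 ^ (a + 3)), b ω * (1 / 8) ≤
      ∑ ω ∈ Ω, b ω * pim K a (ω : ℤ) := by
    refine (sum_le_sum (g := fun ω => b ω * pim K a (ω : ℤ)) fun ω hω => ?_).trans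
      (sum_le_sum_of_subset_of_nonneg (filter_subset _ _) fun ω hω _ => hnn ω hω)
    rw [mem_filter] at hω
    refine mul_le_mul_of_nonneg_left (e2 _ ?_ ?_) (hG.b0 ω hω.1)
    · exact_mod_cast hω.2.1
    · exact_mod_cast hω.2.2
  rw [← sum_mul] at hband
  rw [hsum] at hle
  linarith

end Pool.Agent.Helper57.SN
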