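import Pool.Agent.Helper57.SN.StB

/-! # Project SN, module phase (B11) -/

set_option autoImplicit false

open Finset

namespace Pool.Agent.Helper57.SN

private theorem norm_prod_sub_one_phase {ι : Type} (s : Finset ι) (ψ : ι → ℂ)
    (h1 : ∀ i ∈ s, ‖ψ i‖ ≤ 1) : ‖∏ i ∈ s, ψ i‖ ≤ 1 ∧ ‖(∏ i ∈ s, ψ i) - 1‖ ≤ ∑ i ∈ s, ‖ψ i - 1‖ := by
  classical
  induction s using Finset.induction_on with
  | empty => simp
  | insert i s his ih =>
    obtain ⟨ih1, ih2⟩ := ih (fun j hj => h1 j (Finset.mem_insert_of_mem hj))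
    have hi := h1 i (Finset.mem_insert_self i s)
    rw [Finset.prod_insert his, Finset.sum_insert his]
    constructor
    · rw [norm_mul]
      exact mul_le_one₀ hi (norm_nonneg _) ih1
    · have e : ψ i * (∏ j ∈ s, ψ j) - 1 = (ψ i - 1) * (∏ j ∈ s, ψ j) + ((∏ j ∈ s, ψ j) - 1) := by ring
      rw [e]
      refine (norm_add_le _ _).trans ?_
      rw [norm_mul]
      have : ‖ψ i - 1‖ * ‖∏ j ∈ s, ψ j‖ ≤ ‖ψ i - 1‖ * 1 :=
        mul_le_mul_of_nonneg_left ih1 (norm_nonneg _)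
      linarith

theorem m_phase : St_phase := by
  intro ι _ _ K H a v e1 e2 e3 e4 huniq hact h2v
  set ψ : ι → ℂ := fun i => ((pre K (a i) (v i) : ℂ) + Complex.I * pim K (a i) (v i)) with hψ
  have hre : ∀ i, (ψ i).re = pre K (a i) (v i) := fun i => by simp [hψ]
  have him : ∀ i, (ψ i).im = pim K (a i) (v i) := fun i => by simp [hψ]
  have hn : ∀ i, ‖ψ i‖ ≤ 1 := by
    intro i
    have h := e4 i (v i)
    have h2 : ‖ψ i‖ ^ 2 ≤ 1 := by
      rw [Complex.sq_norm, Complex.normSq_apply, hre, him]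
      nlinarith
    have h3 := norm_nonneg (ψ i)
    nlinarith
  have h2H : (0 : ℝ) < 2 ^ H := by positivity
  have hin : ∀ i, ¬ (2 ^ (a i) ≤ 2 ^ H * |v i|) → ‖ψ i - 1‖ ≤ 2 / 2 ^ H := by
    intro i hi
    push Not at hi
    have hi' : (2 : ℝ) ^ H * |(v i : ℝ)| ≤ 2 ^ (a i) := by
      have : (2 : ℤ) ^ H * |v i| ≤ 2 ^ (a i) := hi.le
      exact_mod_cast this
    have hq : |(v i : ℝ)| / 2 ^ (a i) ≤ 1 / 2 ^ H := by
      rw [div_le_div_iff₀ (by positivity) (by positivity)]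
      linarith
    obtain ⟨h1, h2⟩ := e3 i (v i)
    have h3 : ‖ψ i - 1‖ ≤ |(ψ i - 1).re| + |(ψ i - 1).im| := Complex.norm_le_abs_re_add_abs_im _
    have h4 : (ψ i - 1).re = -(1 - pre K (a i) (v i)) := by
      rw [Complex.sub_re, hre, Complex.one_re]
      ring
    have h5 : (ψ i - 1).im = pim K (a i) (v i) := by
      rw [Complex.sub_im, him, Complex.one_im]
      ring
    rw [h4, h5, abs_neg] at h3
    have h6 : (2 : ℝ) / 2 ^ H = 1 / 2 ^ H + 1 / 2 ^ H := by ring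
    rw [h6]
    linarith
  have hcard : ∀ s : Finset ι, (∀ i ∈ s, ¬ (2 ^ (a i) ≤ 2 ^ H * |v i|)) →
      ‖(∏ i ∈ s, ψ i) - 1‖ ≤ 2 * (Fintype.card ι : ℝ) / 2 ^ H := by
    intro s hs
    refine (norm_prod_sub_one_phase s ψ (fun i _ => hn i)).2.trans ?_
    calc ∑ i ∈ s, ‖ψ i - 1‖ ≤ ∑ i ∈ s, (2 : ℝ) / 2 ^ H := Finset.sum_le_sum fun i hi => hin i (hs i hi)
      _ = s.card * (2 / 2 ^ H) := by rw [Finset.sum_const, nsmul_eq_mul]
      _ ≤ (Fintype.card ι : ℝ) * (2 / 2 ^ H) := by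
        apply mul_le_mul_of_nonneg_right _ (by positivity)
        exact_mod_cast Finset.card_le_univ s
      _ = 2 * (Fintype.card ι : ℝ) / 2 ^ H := by ring
  have hone : ∀ i, (2 ^ (a i) ≤ 2 ^ H * |v i|) →
      pim K (a i) (v i) - 2 * (Fintype.card ι : ℝ) / 2 ^ H ≤ (∏ i, ψ i).im := by
    intro i hi
    have h1 : ∀ j ∈ univ.erase i, ¬ (2 ^ (a j) ≤ 2 ^ H * |v j|) := by
      intro j hj hj2
      exact (Finset.ne_of_mem_erase hj) (huniq j i hj2 hi)
    have h2 := hcard _ h1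
    rw [← Finset.mul_prod_erase univ ψ (Finset.mem_univ i)]
    have e : ψ i * ∏ j ∈ univ.erase i, ψ j = ψ i + ψ i * ((∏ j ∈ univ.erase i, ψ j) - 1) := by ring
    rw [e, Complex.add_im, him]
    have h3 : |(ψ i * ((∏ j ∈ univ.erase i, ψ j) - 1)).im| ≤ 2 * (Fintype.card ι : ℝ) / 2 ^ H := by
      refine (Complex.abs_im_le_norm _).trans ?_
      rw [norm_mul]
      calc ‖ψ i‖ * ‖(∏ j ∈ univ.erase i, ψ j) - 1‖ ≤ 1 * ‖(∏ j ∈ univ.erase i, ψ j) - 1‖ :=
            mul_le_mul_of_nonneg_right (hn i) (norm_nonneg _)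
        _ ≤ _ := by rw [one_mul]; exact h2
    have h4 := (abs_le.1 h3).1
    linarith
  refine ⟨?_, ?_⟩
  · by_cases hex : ∃ i, 2 ^ (a i) ≤ 2 ^ H * |v i|
    · obtain ⟨i, hi⟩ := hex
      have h1 := hone i hi
      have h2 := e1 i (v i) (hact i hi).le (h2v i)
      linarith
    · push Not at hex
      have h1 := hcard univ (fun i _ => not_le.2 (hex i))
      have h2 : |((∏ i, ψ i) - 1).im| ≤ 2 * (Fintype.card ι : ℝ) / 2 ^ H :=
        (Complex.abs_im_le_norm _).trans h1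
      rw [Complex.sub_im, Complex.one_im, sub_zero] at h2
      have h3 := (abs_le.1 h2).1
      linarith
  · intro i hH h4 h8
    have hvpos : 0 < v i := by
      have : (0 : ℤ) < 2 ^ (a i) := by positivity
      omega
    have hi : 2 ^ (a i) ≤ 2 ^ H * |v i| := by
      rw [abs_of_pos hvpos]
      refine h4.trans ?_
      apply mul_le_mul_of_nonneg_right _ hvpos.le
      calc (4 : ℤ) = 2 ^ 2 := by norm_num
        _ ≤ 2 ^ H := pow_le_pow_right₀ (by norm_num) hH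
    have h1 := hone i hi
    have h2 := e2 i (v i) h4 h8
    linarith

end Pool.Agent.Helper57.SN
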