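import Pool.Agent.Helper57.SN.StC

/-! # Project SN, module pig: dyadic pigeonhole selection -/

set_option autoImplicit false

open Finset

namespace Pool.Agent.Helper57.SN

private theorem dy_pig (x : ℝ) (I : ℕ) (hI : 1 ≤ I) (h8 : x ≤ 8) (hx : 8 / 2 ^ I < x) :
    ∃ j < I, 8 / 2 ^ (j + 1) < x ∧ x ≤ 8 / 2 ^ j := by
  classical
  have hex : ∃ j : ℕ, 8 / 2 ^ (j + 1) < x := ⟨I - 1, by rwa [Nat.sub_add_cancel hI]⟩
  refine ⟨Nat.find hex, ?_, Nat.find_spec hex, ?_⟩
  · have h1 : Nat.find hex ≤ I - 1 := Nat.find_min' hex (by rwa [Nat.sub_add_cancel hI])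
    omega
  · rcases Nat.eq_zero_or_pos (Nat.find hex) with h | h
    · rw [h]
      simpa using h8
    · have h1 := Nat.find_min hex (m := Nat.find hex - 1) (by omega)
      rw [Nat.sub_add_cancel h] at h1
      exact not_lt.1 h1

theorem m_pig : St_pig := by
  classical
  intro A s0 I N f n M hs0 hI hN hM hf hnf hcls hMf hIM
  have hs0' : (0 : ℝ) < s0 := by exact_mod_cast hs0
  have hI' : (0 : ℝ) < I := by exact_mod_cast hI
  have hN' : (0 : ℝ) < N := by exact_mod_cast hN
  -- the residue class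
  obtain ⟨r, hr, hrM⟩ : ∃ r ∈ range s0, M / s0 ≤ ∑ a ∈ range A with a % s0 = r, f a := by
    apply Finset.exists_le_of_sum_le (s := range s0)
    · exact ⟨0, Finset.mem_range.2 hs0⟩
    · rw [Finset.sum_fiberwise_of_maps_to
        (fun a _ => Finset.mem_range.2 (Nat.mod_lt a hs0)), Finset.sum_const, card_range,
        nsmul_eq_mul]
      refine le_trans (le_of_eq ?_) hMf
      field_simp
  rw [Finset.mem_range] at hr
  set C := (range A).filter (fun a => a % s0 = r) with hC
  have hCA : ∀ a ∈ C, a < A := fun a ha => Finset.mem_range.1 (Finset.mem_filter.1 ha).1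
  have hCn : ∑ a ∈ C, n a ≤ N := hcls r hr
  set θ : ℝ := M / (2 * s0 * N) with hθ
  have hθ0 : 0 < θ := by positivity
  set D := C.filter (fun a => θ < f a) with hD
  have hsmall : ∑ a ∈ C with ¬ θ < f a, f a ≤ M / (2 * s0) := by
    have h1 : ∑ a ∈ C with ¬ θ < f a, f a ≤ ∑ a ∈ C with ¬ θ < f a, (n a : ℝ) * θ := by
      refine Finset.sum_le_sum fun a ha => ?_
      rw [Finset.mem_filter] at ha
      rcases Nat.eq_zero_or_pos (n a) with h | h
      · rw [hnf a (hCA a ha.1) h, h]
        simp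
      · have h2 : (1 : ℝ) ≤ n a := by exact_mod_cast h
        have h3 := not_lt.1 ha.2
        nlinarith
    have h2 : ∑ a ∈ C with ¬ θ < f a, (n a : ℝ) * θ ≤ N * θ := by
      rw [← Finset.sum_mul]
      apply mul_le_mul_of_nonneg_right _ hθ0.le
      have h3 : ∑ a ∈ C with ¬ θ < f a, n a ≤ N :=
        (Finset.sum_le_sum_of_subset (Finset.filter_subset _ _)).trans hCn
      exact_mod_cast h3
    refine (h1.trans h2).trans (le_of_eq ?_)
    rw [hθ]
    field_simp
  have hDsum : M / (2 * s0) ≤ ∑ a ∈ D, f a := by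
    have h1 := Finset.sum_filter_add_sum_filter_not C (fun a => θ < f a) f
    have h2 : M / s0 = M / (2 * s0) + M / (2 * s0) := by field_simp; ring
    rw [← hD] at h1
    linarith
  -- the dyadic class
  have hI8 : 8 / 2 ^ I ≤ θ := by
    rw [hθ, div_le_div_iff₀ (by positivity) (by positivity)]
    linarith
  have hj : ∀ a ∈ D, ∃ j < I, 8 / 2 ^ (j + 1) < f a ∧ f a ≤ 8 / 2 ^ j := by
    intro a ha
    rw [hD, Finset.mem_filter] at ha
    exact dy_pig (f a) I hI (hf a (hCA a ha.1)).2 (hI8.trans_lt ha.2)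
  choose! jf hjf using hj
  obtain ⟨j, hj, hjM⟩ : ∃ j ∈ range I, M / (2 * s0 * I) ≤ ∑ a ∈ D with jf a = j, f a := by
    apply Finset.exists_le_of_sum_le (s := range I)
    · exact ⟨0, Finset.mem_range.2 hI⟩
    · rw [Finset.sum_fiberwise_of_maps_to
        (fun a ha => Finset.mem_range.2 (hjf a ha).1), Finset.sum_const, card_range, nsmul_eq_mul]
      refine le_trans (le_of_eq ?_) hDsum
      field_simp
  set E0 := D.filter (fun a => jf a = j) with hE0
  set β : ℝ := 8 / 2 ^ (j + 1) with hβ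
  have hβ0 : 0 < β := by positivity
  have hβ2 : 2 * β = 8 / 2 ^ j := by rw [hβ, pow_succ]; field_simp
  have hβ4 : β ≤ 4 := by
    have h1 : (1 : ℝ) ≤ 2 ^ j := one_le_pow₀ (by norm_num)
    have h2 : 8 / (2 : ℝ) ^ j ≤ 8 := by
      rw [div_le_iff₀ (by positivity)]
      linarith
    linarith
  have hE0f : ∀ a ∈ E0, β < f a ∧ f a ≤ 2 * β := by
    intro a ha
    rw [hE0, Finset.mem_filter] at ha
    have h1 := hjf a ha.1
    rw [ha.2] at h1
    rw [hβ2]
    exact h1.2
  have hE0C : ∀ a ∈ E0, a ∈ C := by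
    intro a ha
    rw [hE0, Finset.mem_filter, hD, Finset.mem_filter] at ha
    exact ha.1.1
  have hE0sum : M / (2 * s0 * I) ≤ E0.card * (2 * β) := by
    refine hjM.trans ?_
    rw [← nsmul_eq_mul]
    exact Finset.sum_le_card_nsmul _ _ _ fun a ha => (hE0f a ha).2
  have hE0pos : 0 < E0.card := by
    by_contra h
    have h1 : E0.card = 0 := by omega
    rw [h1] at hE0sum
    have : 0 < M / (2 * s0 * I) := by positivity
    simp at hE0sum
    linarith
  set E := E0.filter (fun a => n a * E0.card ≤ 2 * N) with hE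
  have hbad : 2 * (E0.filter (fun a => ¬ n a * E0.card ≤ 2 * N)).card ≤ E0.card := by
    set Z := E0.filter (fun a => ¬ n a * E0.card ≤ 2 * N) with hZ
    have h1 : Z.card * (2 * N) ≤ ∑ a ∈ Z, n a * E0.card := by
      rw [← smul_eq_mul]
      refine Finset.card_nsmul_le_sum _ _ _ fun a ha => ?_
      rw [hZ, Finset.mem_filter] at ha
      omega
    have h2 : ∑ a ∈ Z, n a ≤ N := by
      refine le_trans (Finset.sum_le_sum_of_subset ?_) hCn
      intro a ha
      exact hE0C a (Finset.mem_filter.1 ha).1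
    rw [← Finset.sum_mul] at h1
    have h3 : (∑ a ∈ Z, n a) * E0.card ≤ N * E0.card := Nat.mul_le_mul_right _ h2
    have h4 : N * (2 * Z.card) ≤ N * E0.card := by
      calc N * (2 * Z.card) = Z.card * (2 * N) := by ring
        _ ≤ _ := h1.trans h3
    exact Nat.le_of_mul_le_mul_left h4 hN
  have hEc : E0.card ≤ 2 * E.card := by
    have h1 : E.card + (E0.filter (fun a => ¬ n a * E0.card ≤ 2 * N)).card = E0.card := by
      rw [hE]
      convert Finset.card_filter_add_card_filter_not (s := E0) (fun a => n a * E0.card ≤ 2 * N)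
    omega
  have hEE0 : E.card ≤ E0.card := Finset.card_filter_le _ _
  refine ⟨E, β, ?_, ?_, hβ0, hβ4, ?_, ?_, ?_, ?_⟩
  · intro a ha
    exact Finset.mem_range.2 (hCA a (hE0C a (Finset.mem_filter.1 ha).1))
  · rw [← Finset.card_pos]
    omega
  · intro a ha
    exact hE0f a (Finset.mem_filter.1 ha).1
  · intro a ha a' ha' hlt
    have h1 := (Finset.mem_filter.1 (hE0C a (Finset.mem_filter.1 ha).1)).2
    have h2 := (Finset.mem_filter.1 (hE0C a' (Finset.mem_filter.1 ha').1)).2
    have h3 : s0 ∣ a' - a := (Nat.modEq_iff_dvd' hlt.le).1 (h1.trans h2.symm)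
    have h4 := Nat.le_of_dvd (by omega) h3
    omega
  · intro a ha
    have h1 := (Finset.mem_filter.1 ha).2
    exact (Nat.mul_le_mul_left _ hEE0).trans h1
  · have h1 : (E0.card : ℝ) ≤ 2 * E.card := by exact_mod_cast hEc
    have h2 : M / (2 * s0 * I) * (2 * s0 * I) = M := by field_simp
    have h3 : M / (2 * s0 * I) ≤ (2 * E.card) * (2 * β) :=
      hE0sum.trans (mul_le_mul_of_nonneg_right h1 (by positivity))
    have h4 := mul_le_mul_of_nonneg_right h3 (show (0 : ℝ) ≤ 2 * s0 * I by positivity)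
    rw [h2] at h4
    refine h4.trans (le_of_eq ?_)
    ring

end Pool.Agent.Helper57.SN
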