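import Pool.Agent.Helper57.SN.StB
import Pool.Agent.Helper57.SN.M_Rud

/-!
# Project SN, module prod: the product kernel tested against the sine polynomial
-/

set_option autoImplicit false

open Finset

namespace Pool.Agent.Helper57.SN

private theorem ee_eq_prod (K : ℕ) (g x : ℤ) :
    ee_Rud K g x = (co K g x : ℂ) + Complex.I * (si K g x : ℂ) := by
  rw [ee_Rud, Complex.exp_mul_I, co, si, Complex.ofReal_cos, Complex.ofReal_sin]
  ring

private theorem ee_re_prod (K : ℕ) (g x : ℤ) : (ee_Rud K g x).re = co K g x := by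
  rw [ee_eq_prod]
  simp

private theorem ee_im_prod (K : ℕ) (g x : ℤ) : (ee_Rud K g x).im = si K g x := by
  rw [ee_eq_prod]
  simp

private theorem norm_ee_prod (K : ℕ) (g x : ℤ) : ‖ee_Rud K g x‖ = 1 := by
  rw [ee_Rud, Complex.norm_exp_ofReal_mul_I]

private theorem ee_shift_prod (K : ℕ) (g x s : ℤ) :
    ee_Rud K (-g) (x - s) = ee_Rud K (-g) x * ee_Rud K g s := by
  rw [ee_Rud, ee_Rud, ee_Rud, ← Complex.exp_add]
  congr 1
  push_cast
  ring

/-- The even kernel as a sum of characters. -/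
private theorem kap_prod (K : ℕ) (Sp : Finset ℤ) (w : ℤ → ℝ) (hw : ∀ g, w (-g) = w g)
    (hS : ∀ g ∈ Sp, -g ∈ Sp) (y : ℤ) :
    ((∑ g ∈ Sp, w g * co K g y : ℝ) : ℂ) = ∑ g ∈ Sp, (w g : ℂ) * ee_Rud K (-g) y := by
  have h1 : ∑ g ∈ Sp, (w g : ℂ) * ee_Rud K g y = ∑ g ∈ Sp, (w g : ℂ) * ee_Rud K (-g) y := by
    refine Finset.sum_nbij' (fun g => -g) (fun g => -g) (fun g hg => hS g hg)
      (fun g hg => hS g hg) (fun g _ => neg_neg g) (fun g _ => neg_neg g) fun g _ => ?_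
    rw [hw, neg_neg]
  push_cast
  simp only [co_eq_ee_Rud]
  have h2 : ∀ g : ℤ, (w g : ℂ) * ((ee_Rud K g y + ee_Rud K (-g) y) / 2) =
      ((w g : ℂ) * ee_Rud K g y) / 2 + ((w g : ℂ) * ee_Rud K (-g) y) / 2 := by
    intro g
    ring
  simp only [h2]
  rw [Finset.sum_add_distrib, ← Finset.sum_div, ← Finset.sum_div, h1]
  ring

theorem m_prod : St_prod := by
  intro ι _ _ K a Sp w L b Ω M hG ha hμ hw0 hwe hSp hL hLK hκ0
  choose μ hμ0 hμ1 hμ2 using hμ
  have hN : (0 : ℝ) < 2 ^ K := by positivity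
  set ψ : ι → ℤ → ℂ := fun i g => (pre K (a i) g : ℂ) + Complex.I * pim K (a i) g with hψ
  have hψ1 : ∀ i g, ψ i g = ∑ s ∈ range (2 ^ K), (μ i s : ℂ) * ee_Rud K g (s : ℤ) := by
    intro i g
    simp only [hψ]
    rw [← (hμ2 i g).1, ← (hμ2 i g).2]
    push_cast
    rw [Finset.mul_sum, ← Finset.sum_add_distrib]
    refine Finset.sum_congr rfl fun s _ => ?_
    rw [ee_eq_prod]
    ring
  have hψ2 : ∀ i g, ‖ψ i g‖ ≤ 1 := by
    intro i g
    rw [hψ1]
    refine (norm_sum_le _ _).trans (le_of_eq ?_)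
    rw [← hμ1 i]
    refine Finset.sum_congr rfl fun s _ => ?_
    rw [norm_mul, norm_ee_prod, mul_one, Complex.norm_real, Real.norm_eq_abs,
      abs_of_nonneg (hμ0 i s)]
  -- the product kernel
  set A : ℕ → ℝ := fun x => ∏ i, ∑ s ∈ range (2 ^ K), μ i s *
    ∑ g ∈ Sp i, w i g * co K g ((x : ℤ) - (s : ℤ)) with hA
  have hA0 : ∀ x, 0 ≤ A x := fun x => Finset.prod_nonneg fun i _ =>
    Finset.sum_nonneg fun s _ => mul_nonneg (hμ0 i s) (hκ0 i _)
  have hAc : ∀ x : ℕ, ((A x : ℝ) : ℂ) = ∑ v ∈ Fintype.piFinset Sp,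
      ((Wt w v : ℝ) : ℂ) * (∏ i, ψ i (v i)) * ee_Rud K (-∑ i, v i) (x : ℤ) := by
    intro x
    have h1 : ∀ i, ((∑ s ∈ range (2 ^ K), μ i s *
        ∑ g ∈ Sp i, w i g * co K g ((x : ℤ) - (s : ℤ)) : ℝ) : ℂ) =
        ∑ g ∈ Sp i, (w i g : ℂ) * ψ i g * ee_Rud K (-g) (x : ℤ) := by
      intro i
      have h2 : ((∑ s ∈ range (2 ^ K), μ i s *
        ∑ g ∈ Sp i, w i g * co K g ((x : ℤ) - (s : ℤ)) : ℝ) : ℂ) =
          ∑ s ∈ range (2 ^ K), (μ i s : ℂ) *
            ∑ g ∈ Sp i, (w i g : ℂ) * ee_Rud K (-g) ((x : ℤ) - (s : ℤ)) := by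
        rw [Complex.ofReal_sum]
        refine Finset.sum_congr rfl fun s _ => ?_
        rw [Complex.ofReal_mul, kap_prod K (Sp i) (w i) (hwe i) (hSp i)]
      rw [h2]
      simp only [Finset.mul_sum]
      rw [Finset.sum_comm]
      refine Finset.sum_congr rfl fun g _ => ?_
      rw [hψ1, Finset.mul_sum, Finset.sum_mul]
      refine Finset.sum_congr rfl fun s _ => ?_
      rw [ee_shift_prod]
      ring
    simp only [hA]
    rw [Complex.ofReal_prod]
    simp only [h1]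
    rw [Finset.prod_univ_sum]
    refine Finset.sum_congr rfl fun v _ => ?_
    rw [Finset.prod_mul_distrib, Finset.prod_mul_distrib, ← Finset.sum_neg_distrib, ee_sum_Rud,
      Wt, Complex.ofReal_prod]
  set Cf : ℤ → ℂ := fun γ => ∑ v ∈ Fintype.piFinset Sp,
    if ∑ i, v i = γ then ((Wt w v : ℝ) : ℂ) * (∏ i, ψ i (v i)) else 0 with hCf
  have hAγ : ∀ γ : ℤ, 4 * |γ| ≤ 2 ^ K →
      ∑ x ∈ range (2 ^ K), ((A x : ℝ) : ℂ) * ee_Rud K γ (x : ℤ) = 2 ^ K * Cf γ := by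
    intro γ hγ
    simp only [hAc, Finset.sum_mul]
    rw [Finset.sum_comm]
    simp only [hCf]
    rw [Finset.mul_sum]
    refine Finset.sum_congr rfl fun v hv => ?_
    have h1 : ∀ x : ℕ, ((Wt w v : ℝ) : ℂ) * (∏ i, ψ i (v i)) * ee_Rud K (-∑ i, v i) (x : ℤ) *
        ee_Rud K γ (x : ℤ) = ((Wt w v : ℝ) : ℂ) * (∏ i, ψ i (v i)) *
          ee_Rud K (-∑ i, v i + γ) (x : ℤ) := by
      intro x
      rw [ee_add_Rud]
      ring
    simp only [h1]
    rw [← Finset.mul_sum]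
    have h2 : |∑ i, v i| ≤ ∑ i, L i :=
      (Finset.abs_sum_le_sum_abs _ _).trans (Finset.sum_le_sum fun i _ =>
        hL i _ (Fintype.mem_piFinset.1 hv i))
    have h3 : |-∑ i, v i + γ| < 2 ^ K := by
      have h4 := abs_add_le (-∑ i, v i) γ
      rw [abs_neg] at h4
      have h5 : (0 : ℤ) < 2 ^ K := by positivity
      linarith
    rw [sum_ee_Rud K _ h3]
    by_cases h6 : ∑ i, v i = γ
    · rw [if_pos h6, if_pos (by rw [h6]; ring)]
      ring
    · rw [if_neg h6, if_neg (fun h => h6 (by linarith)), mul_zero, mul_zero]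
  have hΩ : ∀ ω ∈ Ω, 4 * |(ω : ℤ)| ≤ 2 ^ K := by
    intro ω hω
    have h1 := hG.small ω hω
    have h2 : (64 : ℤ) * ω ≤ 2 ^ K := by exact_mod_cast h1
    rw [Nat.abs_cast]
    have h3 : (0 : ℤ) ≤ ω := Int.natCast_nonneg ω
    linarith
  have him : ∀ γ : ℤ, 4 * |γ| ≤ 2 ^ K →
      ∑ x ∈ range (2 ^ K), A x * si K γ (x : ℤ) = 2 ^ K * (Cf γ).im := by
    intro γ hγ
    have h1 := congrArg Complex.im (hAγ γ hγ)
    rw [Complex.im_sum] at h1
    have h2 : (2 ^ K * Cf γ).im = 2 ^ K * (Cf γ).im := by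
      have : (2 : ℂ) ^ K = ((2 ^ K : ℝ) : ℂ) := by push_cast; rfl
      rw [this, Complex.im_ofReal_mul]
    rw [h2] at h1
    rw [← h1]
    refine Finset.sum_congr rfl fun x _ => ?_
    rw [Complex.im_ofReal_mul, ee_im_prod]
  have hre : ∑ x ∈ range (2 ^ K), A x = 2 ^ K * (Cf 0).re := by
    have h1 := congrArg Complex.re (hAγ 0 (by simp))
    rw [Complex.re_sum] at h1
    have h2 : (2 ^ K * Cf 0).re = 2 ^ K * (Cf 0).re := by
      have : (2 : ℂ) ^ K = ((2 ^ K : ℝ) : ℂ) := by push_cast; rfl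
      rw [this, Complex.re_ofReal_mul]
    rw [h2] at h1
    rw [← h1]
    refine Finset.sum_congr rfl fun x _ => ?_
    rw [Complex.re_ofReal_mul, ee_zero_Rud, Complex.one_re, mul_one]
  -- the left side
  have hleft : ∑ ω ∈ Ω, b ω * ∑ v ∈ Fintype.piFinset Sp,
      (if ∑ i, v i = (ω : ℤ) then Wt w v *
        (∏ i, ((pre K (a i) (v i) : ℂ) + Complex.I * pim K (a i) (v i))).im else 0) =
      ∑ ω ∈ Ω, b ω * (Cf ω).im := by
    refine Finset.sum_congr rfl fun ω _ => ?_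
    congr 1
    simp only [hCf]
    rw [Complex.im_sum]
    refine Finset.sum_congr rfl fun v _ => ?_
    split_ifs
    · rw [Complex.im_ofReal_mul]
    · rfl
  rw [hleft]
  have h1 : 2 ^ K * ∑ ω ∈ Ω, b ω * (Cf ω).im = ∑ x ∈ range (2 ^ K), A x * SS K b Ω x := by
    rw [Finset.mul_sum]
    simp only [SS, Finset.mul_sum]
    rw [Finset.sum_comm]
    refine Finset.sum_congr rfl fun ω hω => ?_
    rw [mul_left_comm, ← him ω (hΩ ω hω), Finset.mul_sum]
    refine Finset.sum_congr rfl fun x _ => ?_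
    ring
  have h2 : ∑ x ∈ range (2 ^ K), A x * SS K b Ω x ≤ ∑ x ∈ range (2 ^ K), A x := by
    refine Finset.sum_le_sum fun x _ => ?_
    have := (abs_le.1 (hG.bdd x)).2
    nlinarith [hA0 x]
  have h3 : (Cf 0).re ≤ Rf Sp w 0 := by
    simp only [hCf]
    rw [Complex.re_sum, Rf]
    refine Finset.sum_le_sum fun v _ => ?_
    split_ifs
    · rw [Complex.re_ofReal_mul]
      have h4 : 0 ≤ Wt w v := Finset.prod_nonneg fun i _ => hw0 i _
      have h5 : (∏ i, ψ i (v i)).re ≤ 1 := by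
        refine (Complex.re_le_norm _).trans ?_
        rw [norm_prod]
        exact Finset.prod_le_one (fun i _ => norm_nonneg _) fun i _ => hψ2 i _
      nlinarith
    · exact le_rfl
  have h6 : 2 ^ K * ∑ ω ∈ Ω, b ω * (Cf ω).im ≤ 2 ^ K * Rf Sp w 0 := by
    rw [h1]
    refine h2.trans ?_
    rw [hre]
    exact mul_le_mul_of_nonneg_left h3 hN.le
  exact le_of_mul_le_mul_left h6 hN

end Pool.Agent.Helper57.SN
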