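import Pool.Agent.Helper57.SN.StB

/-! # Project SN, module shape (helper68): shape of representations -/

set_option autoImplicit false

open Finset

namespace Pool.Agent.Helper57.SN

theorem spn_biUnion_shape {ι : Type} [DecidableEq ι] (m : ℕ) (D : ι → Finset ℕ) (v : ι → ℤ)
    (hdis : ∀ i j, i ≠ j → Disjoint (D i) (D j)) (J : Finset ι)
    (hv : ∀ i, Spn m (D i) (v i)) : Spn m (J.biUnion D) (∑ i ∈ J, v i) := by
  choose c hc hcv using hv
  refine ⟨fun d => ∑ j ∈ J, if d ∈ D j then c j d else 0, fun d => ?_, ?_⟩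
  · change |∑ j ∈ J, if d ∈ D j then c j d else 0| ≤ (m : ℤ)
    by_cases h : ∃ j ∈ J, d ∈ D j
    · obtain ⟨j, hj, hd⟩ := h
      rw [sum_eq_single j]
      · rw [if_pos hd]
        exact hc j d
      · intro k _ hk
        rw [if_neg]
        intro hd2
        exact disjoint_left.1 (hdis k j hk) hd2 hd
      · intro h
        exact absurd hj h
    · have h2 : ∀ j ∈ J, (if d ∈ D j then c j d else 0) = 0 := by
        intro j hj
        rw [if_neg]
        intro hd
        exact h ⟨j, hj, hd⟩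
      rw [sum_eq_zero h2, abs_zero]
      positivity
  · rw [sum_biUnion (fun i _ j _ hij => hdis i j hij)]
    refine sum_congr rfl fun i hi => ?_
    rw [hcv i]
    refine sum_congr rfl fun d hd => ?_
    congr 1
    change c i d = ∑ j ∈ J, if d ∈ D j then c j d else 0
    rw [sum_eq_single i]
    · rw [if_pos hd]
    · intro k _ hk
      rw [if_neg]
      intro hd2
      exact disjoint_left.1 (hdis k i hk) hd2 hd
    · intro h
      exact absurd hi h

theorem spn_mono_shape {m m' : ℕ} (h : m ≤ m') {D : Finset ℕ} {g : ℤ} (hg : Spn m D g) :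
    Spn m' D g := by
  obtain ⟨c, hc, hg⟩ := hg
  exact ⟨c, fun d => (hc d).trans (by exact_mod_cast h), hg⟩

theorem spn_abs_shape {m s A : ℕ} {D : Finset ℕ} {g : ℤ} (hD : ∀ d ∈ D, d < A)
    (hs : D.card ≤ s) (hg : Spn m D g) : |g| ≤ s * (m * A) := by
  obtain ⟨c, hc, rfl⟩ := hg
  refine (abs_sum_le_sum_abs _ _).trans ?_
  have h1 : ∀ d ∈ D, |c d * (d : ℤ)| ≤ m * A := by
    intro d hd
    rw [abs_mul]
    refine mul_le_mul (hc d) ?_ (abs_nonneg _) (by positivity)
    rw [abs_of_nonneg (by positivity)]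
    exact_mod_cast (hD d hd).le
  refine (sum_le_card_nsmul D _ _ h1).trans ?_
  rw [nsmul_eq_mul]
  refine mul_le_mul_of_nonneg_right ?_ (by positivity)
  exact_mod_cast hs

theorem m_shape : St_shape := by
  intro ι _ _ H m0 s a D hH hsm hsep hdis hDlt hDs hhit γ v hγ hv hsum hland
  have hQ8 : (8 : ℤ) ≤ 2 ^ H := by
    calc (8 : ℤ) = 2 ^ 3 := by norm_num
      _ ≤ 2 ^ H := pow_le_pow_right₀ (by norm_num) hH
  -- size of `v i`
  have hvs : ∀ i, |v i| ≤ 2 ^ (a i) * 2 ^ H := by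
    intro i
    have h1 := spn_abs_shape (hDlt i) (hDs i) (hv i)
    refine h1.trans ?_
    have h2 : ((4 * s * m0 : ℕ) : ℤ) ≤ ((2 ^ H : ℕ) : ℤ) := by exact_mod_cast hsm
    push_cast at h2 ⊢
    rw [pow_add]
    have h3 : (0 : ℤ) < 2 ^ (a i) := by positivity
    nlinarith
  -- the complement
  have hg' : ∀ i, Spn m0 ((univ.erase i).biUnion D) (γ - v i) := by
    intro i
    have h1 := spn_biUnion_shape m0 D v hdis (univ.erase i) hv
    have h2 : ∑ j ∈ univ.erase i, v j = γ - v i := by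
      rw [← hsum, ← add_sum_erase univ v (mem_univ i)]
      ring
    rwa [h2] at h1
  have hP : ∀ i, (0 : ℤ) < 2 ^ (a i) := fun i => by positivity
  -- not hit
  have hnh : ∀ i, |γ - v i| ≤ 2 ^ (a i) * 2 ^ H * 4 → 2 ^ H * 4 * |γ - v i| < 2 ^ (a i) := by
    intro i h1
    by_contra h2
    push Not at h2
    refine hhit i ⟨γ - v i, spn_mono_shape (by omega) (hg' i), ?_, ?_⟩
    · rw [pow_add]
      linarith
    · rw [pow_add, pow_add]
      linarith
  -- active indices
  have hact : ∀ i, 2 ^ (a i) ≤ 2 ^ H * |v i| → γ < 2 ^ (a i) * 2 ^ H * 2 ∧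
      2 ^ H * 4 * |γ - v i| < 2 ^ (a i) := by
    intro i hi
    have h1 : γ < 2 ^ (a i) * 2 ^ H * 2 := by
      by_contra h2
      push Not at h2
      refine hland i ⟨?_, γ - v i, hg' i, ?_, ?_⟩
      · rw [pow_add, pow_add]
        linarith
      · have h3 : γ - (γ - v i) = v i := by ring
        rw [h3]
        exact hi
      · have h3 : γ - (γ - v i) = v i := by ring
        rw [h3, pow_add]
        exact hvs i
    refine ⟨h1, hnh i ?_⟩
    have h2 := hvs i
    have h3 : |γ - v i| ≤ γ + |v i| := by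
      refine (abs_sub γ (v i)).trans ?_
      rw [abs_of_pos hγ]
    have h4 : 0 < 2 ^ (a i) * (2 : ℤ) ^ H := by positivity
    linarith
  have hB : ∀ i, 2 ^ (a i) ≤ 2 ^ H * |v i| → 0 < v i := by
    intro i hi
    obtain ⟨-, h2⟩ := hact i hi
    by_contra h3
    push Not at h3
    have h4 : |v i| ≤ |γ - v i| := by
      rw [abs_of_nonpos h3, abs_of_nonneg (by linarith)]
      linarith
    have h5 : 0 ≤ |γ - v i| := abs_nonneg _
    nlinarith [mul_le_mul_of_nonneg_left h4 (by positivity : (0 : ℤ) ≤ 2 ^ H)]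
  have hlow : ∀ i, 2 ^ (a i) ≤ 2 ^ H * |v i| → 2 ^ (a i) ≤ 2 ^ H * 4 * γ := by
    intro i hi
    obtain ⟨-, h2⟩ := hact i hi
    have h3 := hB i hi
    rw [abs_of_pos h3] at hi
    have h4 : v i ≤ γ + |γ - v i| := by
      have := neg_abs_le (γ - v i)
      linarith
    have h5 : (2 : ℤ) ^ H * v i ≤ 2 ^ H * (γ + |γ - v i|) :=
      mul_le_mul_of_nonneg_left h4 (by positivity)
    nlinarith
  have hA : ∀ i j, a i + 4 * H ≤ a j → 2 ^ (a i) ≤ 2 ^ H * |v i| →
      2 ^ (a j) ≤ 2 ^ H * |v j| → False := by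
    intro i j hij hi hj
    obtain ⟨h1, -⟩ := hact i hi
    have h2 := hlow j hj
    have h3 : (2 : ℤ) ^ (a i) * 2 ^ (4 * H) ≤ 2 ^ (a j) := by
      rw [← pow_add]
      exact pow_le_pow_right₀ (by norm_num) hij
    have h4 : (2 : ℤ) ^ (4 * H) = (2 ^ H) ^ 4 := by
      rw [← pow_mul]
      congr 1
      ring
    rw [h4] at h3
    have h5 : 2 ^ H * 4 * γ < 2 ^ H * 4 * (2 ^ (a i) * 2 ^ H * 2) :=
      mul_lt_mul_of_pos_left h1 (by positivity)
    have h6 : (2 : ℤ) ^ H * 4 * (2 ^ (a i) * 2 ^ H * 2) ≤ 2 ^ (a i) * (2 ^ H) ^ 4 := by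
      have h7 : (8 : ℤ) * (2 ^ H) ^ 2 ≤ (2 ^ H) ^ 4 := by
        have h8 : (8 : ℤ) ≤ (2 ^ H) ^ 2 := by nlinarith
        nlinarith [sq_nonneg ((2 : ℤ) ^ H)]
      have h9 := mul_le_mul_of_nonneg_left h7 (hP i).le
      linarith
    linarith
  refine ⟨?_, hB, ?_⟩
  · intro i j hi hj
    by_contra hne
    rcases hsep i j hne with h | h
    · exact hA i j h hi hj
    · exact hA j i h hj hi
  · intro i hi1 hi2
    have hp := hP i
    rw [pow_add] at hi2 ⊢
    have hact2 : 2 ^ (a i) ≤ 2 ^ H * |v i| := by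
      by_contra h1
      push Not at h1
      have h0 : 0 ≤ |v i| := abs_nonneg _
      have h2 : |γ - v i| ≤ γ + |v i| := by
        refine (abs_sub γ (v i)).trans ?_
        rw [abs_of_pos hγ]
      have h3 : γ - |v i| ≤ |γ - v i| := by
        have := le_abs_self (γ - v i)
        have := le_abs_self (v i)
        linarith
      have h6 : |v i| ≤ 2 ^ (a i) := by nlinarith
      have h7 : 8 * 2 ^ (a i) ≤ 2 ^ (a i) * (2 : ℤ) ^ H := by
        rw [mul_comm]
        exact mul_le_mul_of_nonneg_left hQ8 hp.le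
      have h4 := hnh i (by linarith)
      have h5 : 2 ^ H * 4 * (γ - |v i|) ≤ 2 ^ H * 4 * |γ - v i| :=
        mul_le_mul_of_nonneg_left h3 (by positivity)
      have h8 : (2 : ℤ) ^ H * 2 ^ (a i) ≤ 2 ^ H * (2 * γ) :=
        mul_le_mul_of_nonneg_left hi1 (by positivity)
      nlinarith
    obtain ⟨-, h2⟩ := hact i hact2
    have h3 : 0 ≤ |γ - v i| := abs_nonneg _
    have h4 : 4 * |γ - v i| < 2 ^ (a i) := by nlinarith
    have h5 := abs_le.1 (le_refl |γ - v i|)
    constructor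
    · linarith [h5.2]
    · linarith [h5.1]

end Pool.Agent.Helper57.SN
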