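import Pool.Agent.Helper57.SN.StA

/-! # Project SN, module th: the cut-off -/

set_option autoImplicit false

open Finset

namespace Pool.Agent.Helper57.SN

private lemma lip_th {K H a : ℕ} {b : ℕ → ℝ} {S : Finset ℕ} {B : ℝ} (hL : Lv K H a b S B)
    (h4 : St_orth) {x y : ℕ} (hxy : |(x : ℝ) - y| ≤ 2 ^ (K - a - H)) :
    |SS K b S x - SS K b S y| ≤ 26 * B / 2 ^ H := by
  obtain ⟨Ha, aK, b0, lo, hi, mass⟩ := hL
  have hB : 0 ≤ B := (sum_nonneg b0).trans mass
  have hK : (2 : ℝ) ^ K = 2 ^ (K - a - H) * 2 ^ a * 2 ^ H := by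
    rw [← pow_add, ← pow_add]; congr 1; omega
  have h1 : |SS K b S x - SS K b S y| ≤ ∑ ξ ∈ S, b ξ * (8 * Real.pi / 2 ^ H) := by
    unfold SS
    rw [← sum_sub_distrib]
    refine (abs_sum_le_sum_abs _ _).trans (sum_le_sum fun ξ hξ => ?_)
    rw [← mul_sub, abs_mul, abs_of_nonneg (b0 ξ hξ)]
    refine mul_le_mul_of_nonneg_left ?_ (b0 ξ hξ)
    have h5 := (h4 K).2.2.2.1 (ξ : ℤ) (x : ℤ) (y : ℤ)
    refine h5.trans ?_
    have hξ' : (ξ : ℝ) ≤ 2 ^ (a + 2) := by exact_mod_cast (hi ξ hξ).le
    have e1 : |((ξ : ℤ) : ℝ)| = ξ := by simp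
    have e2 : |((x : ℤ) : ℝ) - ((y : ℤ) : ℝ)| = |(x : ℝ) - y| := by simp
    rw [e1, e2, div_le_div_iff₀ (by positivity) (by positivity), hK]
    calc 2 * Real.pi * (ξ : ℝ) * |(x : ℝ) - y| * 2 ^ H
        ≤ 2 * Real.pi * 2 ^ (a + 2) * 2 ^ (K - a - H) * 2 ^ H := by
          have := Real.pi_pos
          gcongr
      _ = _ := by rw [pow_add]; ring
  refine h1.trans ?_
  rw [← sum_mul, mul_div_assoc', div_le_div_iff_of_pos_right (by positivity)]
  have hp := Real.pi_lt_d2
  have hp0 := Real.pi_pos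
  have hs0 : 0 ≤ ∑ ξ ∈ S, b ξ := sum_nonneg b0
  calc (∑ ξ ∈ S, b ξ) * (8 * Real.pi) ≤ B * (8 * Real.pi) :=
        mul_le_mul_of_nonneg_right mass (by positivity)
    _ ≤ 26 * B := by nlinarith

theorem m_th (_h1 : St_blk1) (h4 : St_orth) (h5 : St_dd) : St_th := by
  classical
  intro K H a b S B κ hL hκ hκ0
  have hlip := fun (x y : ℕ) (hxy : |(x : ℝ) - y| ≤ 2 ^ (K - a - H)) => lip_th hL h4 hxy
  have hdd := (h5 K H a b S B hL).2.1
  obtain ⟨Ha, aK, b0, lo, hi, mass⟩ := hL
  have hB : 0 ≤ B := (sum_nonneg b0).trans mass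
  set c := K - a + H with hc
  set f := K - a - H with hf
  have hcf : c = f + 2 * H := by omega
  have hcK : c ≤ K := by omega
  have hB1 : 27 * B / 2 ^ H ≤ κ := by
    refine le_trans ?_ hκ
    gcongr
    norm_num
  have hB2 : 26 * B / 2 ^ H ≤ κ / 2 := by
    have : 26 * B / 2 ^ H = (52 * B / 2 ^ H) / 2 := by ring
    rw [this]
    linarith
  refine ⟨?_, ?_, ?_, ?_⟩
  · intro x y hxy
    unfold th
    rw [← hc, hxy]
  · intro x
    unfold th
    split_ifs
    · right; rfl
    · left; rfl
  · intro x hx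
    have hx' : ∀ y < 2 ^ c, |SS K b S (2 ^ c * (x / 2 ^ c) + y)| ≤ κ := by
      by_contra hcon
      unfold th at hx
      rw [← hc, if_neg hcon] at hx
      exact zero_ne_one hx
    have h1 := hx' (x % 2 ^ c) (Nat.mod_lt _ (by positivity))
    rw [Nat.div_add_mod] at h1
    have h2 := hdd x
    calc |dd K H a b S x| = |(dd K H a b S x - SS K b S x) + SS K b S x| := by congr 1; ring
      _ ≤ |dd K H a b S x - SS K b S x| + |SS K b S x| := abs_add_le _ _
      _ ≤ 2 * κ := by linarith
  · set Z := (range (2 ^ K)).filter (fun x : ℕ => th K H a b S κ x = 0) with hZ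
    set P := (range (2 ^ K)).filter (fun x : ℕ => κ / 2 < |SS K b S x|) with hP
    have hKc : (2 : ℕ) ^ K = 2 ^ (K - c) * 2 ^ c := by rw [← pow_add]; congr 1; omega
    have hlab : ∀ x : ℕ, x < 2 ^ K → x / 2 ^ c < 2 ^ (K - c) := by
      intro x hx
      rw [Nat.div_lt_iff_lt_mul (by positivity), ← hKc]
      exact hx
    have hmZ : ∀ x ∈ Z, x / 2 ^ c ∈ range (2 ^ (K - c)) := fun x hx =>
      mem_range.2 (hlab x (mem_range.1 (mem_filter.1 hx).1))
    have hmP : ∀ x ∈ P, x / 2 ^ c ∈ range (2 ^ (K - c)) := fun x hx =>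
      mem_range.2 (hlab x (mem_range.1 (mem_filter.1 hx).1))
    have key : Z.card ≤ 2 ^ (2 * H) * P.card := by
      rw [card_eq_sum_card_fiberwise hmZ, card_eq_sum_card_fiberwise hmP, mul_sum]
      refine sum_le_sum fun m hm => ?_
      rcases (Z.filter (fun x => x / 2 ^ c = m)).eq_empty_or_nonempty with he | ⟨x, hx⟩
      · rw [he]; simp
      rw [mem_filter] at hx
      obtain ⟨hxZ, hxm⟩ := hx
      have hth : th K H a b S κ x = 0 := (mem_filter.1 hxZ).2
      have hbad : ∃ y0 < 2 ^ c, κ < |SS K b S (2 ^ c * m + y0)| := by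
        by_contra hcon
        push Not at hcon
        unfold th at hth
        rw [← hc, hxm, if_pos hcon] at hth
        exact one_ne_zero hth
      obtain ⟨y0, hy0, hbig⟩ := hbad
      -- the fibre of Z
      have hc1 : (Z.filter (fun x => x / 2 ^ c = m)).card ≤ 2 ^ c := by
        have hsub : Z.filter (fun x => x / 2 ^ c = m) ⊆ Ico (2 ^ c * m) (2 ^ c * m + 2 ^ c) := by
          intro z hz
          rw [mem_filter] at hz
          rw [mem_Ico, ← hz.2]
          have h6 := Nat.div_add_mod z (2 ^ c)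
          have h7 := Nat.mod_lt z (show 0 < 2 ^ c by positivity)
          omega
        refine (card_le_card hsub).trans ?_
        rw [Nat.card_Ico]; omega
      -- the fibre of P
      set w := 2 ^ c * m + y0 with hw
      have hwm : w / 2 ^ c = m := by
        rw [hw, Nat.mul_add_div (by positivity), Nat.div_eq_of_lt hy0, add_zero]
      set q := w / 2 ^ f with hq
      have hc2 : 2 ^ f ≤ (P.filter (fun x => x / 2 ^ c = m)).card := by
        have hinj : Set.InjOn (fun j => 2 ^ f * q + j) (range (2 ^ f) : Set ℕ) :=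
          fun i _ j _ hij => Nat.add_left_cancel hij
        have h8 := card_image_of_injOn hinj
        rw [card_range] at h8
        rw [← h8]
        refine card_le_card ?_
        intro z hz
        obtain ⟨j, hj, rfl⟩ := mem_image.1 hz
        rw [mem_range] at hj
        have hzf : (2 ^ f * q + j) / 2 ^ f = q := by
          rw [Nat.mul_add_div (by positivity), Nat.div_eq_of_lt hj, add_zero]
        have hzc : (2 ^ f * q + j) / 2 ^ c = m := by
          rw [hcf, pow_add, ← Nat.div_div_eq_div_mul, hzf, hq, Nat.div_div_eq_div_mul, ← pow_add,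
            ← hcf, hwm]
        rw [mem_filter, hP, mem_filter, mem_range]
        refine ⟨⟨?_, ?_⟩, hzc⟩
        · rw [mem_range] at hm
          rw [hKc]
          have h9 : (2 ^ f * q + j) < (m + 1) * 2 ^ c := by
            rw [← Nat.div_lt_iff_lt_mul (by positivity), hzc]; omega
          exact h9.trans_le (Nat.mul_le_mul_right _ hm)
        · have hdist : |((w : ℕ) : ℝ) - ((2 ^ f * q + j : ℕ) : ℝ)| ≤ 2 ^ f := by
            have h6 := Nat.div_add_mod w (2 ^ f)
            have h7 := Nat.mod_lt w (show 0 < 2 ^ f by positivity)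
            rw [← hq] at h6
            have e : ((w : ℕ) : ℝ) - ((2 ^ f * q + j : ℕ) : ℝ) = ((w % 2 ^ f : ℕ) : ℝ) - (j : ℝ) := by
              conv_lhs => rw [← h6]
              push_cast
              ring
            rw [e]
            have h10 : ((w % 2 ^ f : ℕ) : ℝ) < 2 ^ f := by exact_mod_cast h7
            have h11 : (j : ℝ) < 2 ^ f := by exact_mod_cast hj
            have h12 : (0 : ℝ) ≤ ((w % 2 ^ f : ℕ) : ℝ) := Nat.cast_nonneg _
            have h13 : (0 : ℝ) ≤ j := Nat.cast_nonneg _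
            rw [abs_le]
            constructor <;> linarith
          have h14 := hlip w (2 ^ f * q + j) hdist
          have h15 : |SS K b S w| ≤ |SS K b S w - SS K b S (2 ^ f * q + j)|
              + |SS K b S (2 ^ f * q + j)| := by
            have := abs_add_le (SS K b S w - SS K b S (2 ^ f * q + j)) (SS K b S (2 ^ f * q + j))
            simpa using this
          linarith
      calc (Z.filter (fun x => x / 2 ^ c = m)).card ≤ 2 ^ c := hc1
        _ = 2 ^ (2 * H) * 2 ^ f := by rw [hcf, pow_add, mul_comm]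
        _ ≤ 2 ^ (2 * H) * (P.filter (fun x => x / 2 ^ c = m)).card := Nat.mul_le_mul_left _ hc2
    exact_mod_cast key

end Pool.Agent.Helper57.SN
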