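import Pool.Agent.Helper57.SN.StA

set_option autoImplicit false

open Finset

namespace Pool.Agent.Helper57.SN

private theorem sin_lb_trig {t : ℝ} (ht : |t| ≤ 1 / 2) : 2 * |t| ≤ |Real.sin (Real.pi * t)| := by
  have h1 : |Real.sin (Real.pi * t)| = |Real.sin (Real.pi * |t|)| := by
    rcases abs_choice t with h | h
    · rw [h]
    · rw [h, mul_neg, Real.sin_neg, abs_neg]
  rw [h1]
  have h2 : 0 ≤ Real.pi * |t| := by positivity
  have h3 : Real.pi * |t| ≤ Real.pi / 2 := by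
    have := mul_le_mul_of_nonneg_left ht Real.pi_pos.le
    linarith
  have h4 := Real.mul_le_sin h2 h3
  have h5 : 2 / Real.pi * (Real.pi * |t|) = 2 * |t| := by
    field_simp
  rw [h5] at h4
  exact h4.trans (le_abs_self _)

private theorem cos_sum_trig (θ m : ℝ) (n : ℕ) :
    2 * Real.sin (θ / 2) * ∑ y ∈ range n, Real.cos (θ * (m + y)) =
      Real.sin (θ * (m + n - 1 / 2)) - Real.sin (θ * (m - 1 / 2)) := by
  have h := Finset.sum_range_sub (fun y : ℕ => Real.sin (θ * (m + y - 1 / 2))) n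
  simp only [Nat.cast_zero, add_zero] at h
  rw [← h, Finset.mul_sum]
  refine Finset.sum_congr rfl fun y _ => ?_
  have e1 : θ * (m + ((y + 1 : ℕ) : ℝ) - 1 / 2) = θ * (m + y) + θ / 2 := by
    push_cast
    ring
  have e2 : θ * (m + y - 1 / 2) = θ * (m + y) - θ / 2 := by ring
  rw [e1, e2, Real.sin_add, Real.sin_sub]
  ring

private theorem sin_sum_trig (θ m : ℝ) (n : ℕ) :
    2 * Real.sin (θ / 2) * ∑ y ∈ range n, Real.sin (θ * (m + y)) =
      Real.cos (θ * (m - 1 / 2)) - Real.cos (θ * (m + n - 1 / 2)) := by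
  have h := Finset.sum_range_sub (fun y : ℕ => -Real.cos (θ * (m + y - 1 / 2))) n
  simp only [Nat.cast_zero, add_zero] at h
  have h' : Real.cos (θ * (m - 1 / 2)) - Real.cos (θ * (m + n - 1 / 2)) =
      -Real.cos (θ * (m + n - 1 / 2)) - -Real.cos (θ * (m - 1 / 2)) := by ring
  rw [h', ← h, Finset.mul_sum]
  refine Finset.sum_congr rfl fun y _ => ?_
  have e1 : θ * (m + ((y + 1 : ℕ) : ℝ) - 1 / 2) = θ * (m + y) + θ / 2 := by
    push_cast
    ring
  have e2 : θ * (m + y - 1 / 2) = θ * (m + y) - θ / 2 := by ring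
  rw [e1, e2, Real.cos_add, Real.cos_sub]
  ring

/-- A3 -/
theorem m_trig : St_trig := by
  intro K a h x _ hh h2
  have hK : (0 : ℝ) < 2 ^ K := by positivity
  have ha : (0 : ℝ) < 2 ^ a := by positivity
  have hh0 : (0 : ℝ) < |(h : ℝ)| := by
    rw [abs_pos]
    exact_mod_cast hh
  have h2' : 2 * |(h : ℝ)| ≤ 2 ^ K := by exact_mod_cast h2
  set θ : ℝ := 2 * Real.pi * h / 2 ^ K with hθ
  have hs : 2 * |(h : ℝ)| / 2 ^ K ≤ |Real.sin (θ / 2)| := by
    have h3 : θ / 2 = Real.pi * ((h : ℝ) / 2 ^ K) := by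
      rw [hθ]
      ring
    have h4 : |(h : ℝ) / 2 ^ K| ≤ 1 / 2 := by
      rw [abs_div, abs_of_pos hK, div_le_iff₀ hK]
      linarith
    have h5 := sin_lb_trig h4
    rw [abs_div, abs_of_pos hK] at h5
    rw [h3]
    calc 2 * |(h : ℝ)| / 2 ^ K = 2 * (|(h : ℝ)| / 2 ^ K) := by ring
      _ ≤ _ := h5
  have hs0 : 0 < |Real.sin (θ / 2)| := lt_of_lt_of_le (by positivity) hs
  have key : ∀ T : ℝ, |2 * Real.sin (θ / 2) * T| ≤ 2 →
      |T / 2 ^ a| ≤ 2 ^ K / (2 * |(h : ℝ)| * 2 ^ a) := by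
    intro T hT
    rw [abs_mul, abs_mul, abs_two] at hT
    rw [abs_div, abs_of_pos ha]
    have h6 : |T| ≤ 2 ^ K / (2 * |(h : ℝ)|) := by
      rw [le_div_iff₀ (by positivity)]
      have h7 : |Real.sin (θ / 2)| * |T| ≤ 1 := by linarith
      have h8 : 2 * |(h : ℝ)| / 2 ^ K * |T| ≤ 1 :=
        (mul_le_mul_of_nonneg_right hs (abs_nonneg T)).trans h7
      rw [div_mul_eq_mul_div, div_le_one hK] at h8
      linarith
    calc |T| / 2 ^ a ≤ 2 ^ K / (2 * |(h : ℝ)|) / 2 ^ a := by gcongr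
      _ = _ := by rw [div_div]
  constructor
  · have h9 : blk a (fun y => co K h y) x =
        (∑ y ∈ range (2 ^ a), Real.cos (θ * (((2 ^ a * (x / 2 ^ a) : ℕ) : ℝ) + y))) / 2 ^ a := by
      unfold blk
      congr 1
      refine Finset.sum_congr rfl fun y _ => ?_
      simp only [co, hθ]
      congr 1
      rw [Int.cast_natCast, Nat.cast_add]
      ring
    rw [h9]
    apply key
    rw [cos_sum_trig]
    refine (abs_sub _ _).trans ?_
    have := Real.abs_sin_le_one (θ * (((2 ^ a * (x / 2 ^ a) : ℕ) : ℝ) + ((2 ^ a : ℕ) : ℝ) - 1 / 2))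
    have := Real.abs_sin_le_one (θ * (((2 ^ a * (x / 2 ^ a) : ℕ) : ℝ) - 1 / 2))
    linarith
  · have h9 : blk a (fun y => si K h y) x =
        (∑ y ∈ range (2 ^ a), Real.sin (θ * (((2 ^ a * (x / 2 ^ a) : ℕ) : ℝ) + y))) / 2 ^ a := by
      unfold blk
      congr 1
      refine Finset.sum_congr rfl fun y _ => ?_
      simp only [si, hθ]
      congr 1
      rw [Int.cast_natCast, Nat.cast_add]
      ring
    rw [h9]
    apply key
    rw [sin_sum_trig]
    refine (abs_sub _ _).trans ?_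
    have := Real.abs_cos_le_one (θ * (((2 ^ a * (x / 2 ^ a) : ℕ) : ℝ) + ((2 ^ a : ℕ) : ℝ) - 1 / 2))
    have := Real.abs_cos_le_one (θ * (((2 ^ a * (x / 2 ^ a) : ℕ) : ℝ) - 1 / 2))
    linarith

end Pool.Agent.Helper57.SN
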