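import Pool.Agent.Helper57.SN.Asm
import Pool.Agent.Helper57.SN.M_Bohr
import Pool.Agent.Helper57.SN.M_Car
import Pool.Agent.Helper57.SN.M_CarFam
import Pool.Agent.Helper57.SN.M_Cheb
import Pool.Agent.Helper57.SN.M_Dis
import Pool.Agent.Helper57.SN.M_GL
import Pool.Agent.Helper57.SN.M_GLest
import Pool.Agent.Helper57.SN.M_GLmono
import Pool.Agent.Helper57.SN.M_L2
import Pool.Agent.Helper57.SN.M_P2
import Pool.Agent.Helper57.SN.M_P4
import Pool.Agent.Helper57.SN.M_PMC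
import Pool.Agent.Helper57.SN.M_Rf
import Pool.Agent.Helper57.SN.M_Rud
import Pool.Agent.Helper57.SN.M_STR
import Pool.Agent.Helper57.SN.M_Samp
import Pool.Agent.Helper57.SN.M_avg
import Pool.Agent.Helper57.SN.M_bad
import Pool.Agent.Helper57.SN.M_blk1
import Pool.Agent.Helper57.SN.M_blk2
import Pool.Agent.Helper57.SN.M_core
import Pool.Agent.Helper57.SN.M_count
import Pool.Agent.Helper57.SN.M_cuts
import Pool.Agent.Helper57.SN.M_dd
import Pool.Agent.Helper57.SN.M_dict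
import Pool.Agent.Helper57.SN.M_exFil
import Pool.Agent.Helper57.SN.M_fam
import Pool.Agent.Helper57.SN.M_hits
import Pool.Agent.Helper57.SN.M_hyp
import Pool.Agent.Helper57.SN.M_ker
import Pool.Agent.Helper57.SN.M_land1
import Pool.Agent.Helper57.SN.M_landmass
import Pool.Agent.Helper57.SN.M_marg
import Pool.Agent.Helper57.SN.M_mass
import Pool.Agent.Helper57.SN.M_orth
import Pool.Agent.Helper57.SN.M_phase
import Pool.Agent.Helper57.SN.M_pig
import Pool.Agent.Helper57.SN.M_pmFam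
import Pool.Agent.Helper57.SN.M_prod
import Pool.Agent.Helper57.SN.M_shape
import Pool.Agent.Helper57.SN.M_th
import Pool.Agent.Helper57.SN.M_trig
import Pool.Agent.Helper56.SS.Top

/-! Project SN: the power saving for sine polynomials with nonnegative coefficients. -/

set_option autoImplicit false

open Finset

namespace Pool.Agent.Helper57.SN

theorem t_dd : St_dd := m_dd m_blk1 m_blk2 m_trig m_orth
theorem t_P2 : St_P2 := m_P2 m_blk1 m_blk2 m_trig m_orth t_dd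
theorem t_P4 : St_P4 := m_P4 m_blk1 m_blk2 m_trig m_orth t_dd
theorem t_L2 : St_L2 := m_L2 m_orth t_dd
theorem t_th : St_th := m_th m_blk1 m_orth t_dd
theorem t_mass : St_mass := m_mass m_GL m_GLest
theorem t_Car : St_Car := m_Car m_GL m_GLmono m_orth
theorem t_CarFam : St_CarFam := m_CarFam t_Car
theorem t_core : St_core :=
  m_core m_ker m_prod (m_Rf m_orth) m_Bohr m_shape m_phase m_GL m_GLest
theorem t_STR : St_STR := m_STR t_core m_avg m_land1 (m_hits m_count) (m_landmass m_count) t_mass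
theorem t_Samp : St_Samp := m_Samp m_Rud m_Cheb m_Dis
theorem t_fam : St_fam := m_fam m_marg m_pig
theorem t_hyp : St_hyp := m_hyp m_blk1 m_blk2 t_dd t_P2 t_th m_dict
theorem t_cuts : St_cuts := m_cuts t_P4 m_dict m_blk1
theorem t_bad : St_bad := m_bad t_CarFam m_PMC m_pmFam

set_option maxRecDepth 100000 in
/-- the power saving for `N ≥ N0` -/
theorem sine_large : ∃ N0 : ℕ, 1 ≤ N0 ∧ ∀ N : ℕ, N0 ≤ N → ∀ (Ω : Finset ℕ) (b : ℕ → ℝ), Ω.card ≤ N →
    (∀ ω ∈ Ω, 1 ≤ ω) → (∀ ω ∈ Ω, 0 ≤ b ω) →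
    (∀ x : ℝ, |∑ ω ∈ Ω, b ω * Real.sin (ω * x)| ≤ 1) →
    ∑ ω ∈ Ω, b ω ≤ (N : ℝ) ^ ((1 : ℝ) / 2 - 1 / 8000) := by
  obtain ⟨N0, hN0⟩ := num_ex
  refine ⟨max N0 1, le_max_right _ _, ?_⟩
  intro N hN Ω b hcard hpos hb hF
  obtain ⟨H, hn⟩ := hN0 N (le_trans (le_max_left _ _) hN)
  by_contra hcon
  have hNpos : (0 : ℝ) < N := hn.N0
  have e1 : ((N : ℝ) ^ ((1 : ℝ) / 8000)) ^ 3999 = (N : ℝ) ^ ((1 : ℝ) / 2 - 1 / 8000) := by
    rw [← Real.rpow_natCast, ← Real.rpow_mul hNpos.le]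
    congr 1
    norm_num
  exact contra t_fam t_STR t_Samp t_th t_L2 t_mass m_exFil m_dict t_hyp t_cuts t_bad
    Pool.Agent.Helper56.SS.tFin hn Ω b hcard hpos hb hF (by rw [e1]; exact not_le.mp hcon)

end Pool.Agent.Helper57.SN
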