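import Pool.Agent.Helper57.SN.StD

/-! # Project SN, module dict: the dyadic blocks as a filtration -/

set_option autoImplicit false

open Finset
open Pool.Agent.Helper56.SS (Fil Dat Hyp Cuts)

namespace Pool.Agent.Helper57.SN

private lemma sum_dict (A K : ℕ) (hA : A ≤ K) (g : ℕ → ℝ) (w : Fin (2 ^ K)) :
    ∑ w' ∈ univ.filter (fun w' : Fin (2 ^ K) => (w' : ℕ) / 2 ^ A = (w : ℕ) / 2 ^ A), g w' =
      ∑ y ∈ range (2 ^ A), g (2 ^ A * ((w : ℕ) / 2 ^ A) + y) := by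
  have hpos : 0 < 2 ^ A := by positivity
  have hK : 2 ^ K = 2 ^ A * 2 ^ (K - A) := by rw [← pow_add, Nat.add_sub_cancel' hA]
  have hlt : ∀ y < 2 ^ A, 2 ^ A * ((w : ℕ) / 2 ^ A) + y < 2 ^ K := by
    intro y hy
    have h1 : (w : ℕ) / 2 ^ A < 2 ^ (K - A) := by
      rw [Nat.div_lt_iff_lt_mul hpos, mul_comm, ← hK]
      exact w.2
    calc 2 ^ A * ((w : ℕ) / 2 ^ A) + y < 2 ^ A * ((w : ℕ) / 2 ^ A) + 2 ^ A := by omega
      _ = 2 ^ A * ((w : ℕ) / 2 ^ A + 1) := by ring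
      _ ≤ 2 ^ A * 2 ^ (K - A) := Nat.mul_le_mul_left _ h1
      _ = 2 ^ K := hK.symm
  symm
  refine sum_bij (fun y hy => ⟨2 ^ A * ((w : ℕ) / 2 ^ A) + y, hlt y (mem_range.1 hy)⟩) ?_ ?_ ?_ ?_
  · intro y hy
    rw [mem_filter]
    refine ⟨mem_univ _, ?_⟩
    show (2 ^ A * ((w : ℕ) / 2 ^ A) + y) / 2 ^ A = (w : ℕ) / 2 ^ A
    rw [Nat.mul_add_div hpos, Nat.div_eq_of_lt (mem_range.1 hy), add_zero]
  · intro y _ y' _ h
    have := congrArg Fin.val h
    simp only at this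
    omega
  · intro w' hw'
    rw [mem_filter] at hw'
    refine ⟨(w' : ℕ) % 2 ^ A, mem_range.2 (Nat.mod_lt _ hpos), ?_⟩
    refine Fin.ext ?_
    show 2 ^ A * ((w : ℕ) / 2 ^ A) + (w' : ℕ) % 2 ^ A = (w' : ℕ)
    rw [← hw'.2]
    exact Nat.div_add_mod _ _
  · intro y _
    rfl

theorem m_dict : St_dict := by
  intro K H T a F hF ha
  have hAK : ∀ j < T, K - a j + H ≤ K := by
    intro j hj
    have := ha j hj
    omega
  refine ⟨?_, ?_, ?_, ?_, ?_⟩
  · intro g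
    unfold Pool.Agent.Helper56.SS.E av
    rw [Fin.sum_univ_eq_sum_range (fun x => g x) (2 ^ K), Fintype.card_fin]
    push_cast
    rfl
  · intro j hj g w
    have hblk : F.blk j w = univ.filter (fun w' : Fin (2 ^ K) =>
        (w' : ℕ) / 2 ^ (K - a j + H) = (w : ℕ) / 2 ^ (K - a j + H)) := by
      ext w'
      rw [Fil.mem_blk, mem_filter, hF.1 j hj, hF.1 j hj]
      simp
    unfold Fil.C blk
    rw [hblk]
    have h1 := sum_dict (K - a j + H) K (hAK j hj) g w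
    have h2 := sum_dict (K - a j + H) K (hAK j hj) (fun _ => (1 : ℝ)) w
    rw [sum_const, sum_const, card_range, nsmul_eq_mul, nsmul_eq_mul, mul_one, mul_one] at h2
    rw [h1, h2]
    push_cast
    rfl
  · intro j hj g hg
    refine ⟨fun x => g ⟨x % 2 ^ K, Nat.mod_lt _ (by positivity)⟩, ?_, ?_, ?_⟩
    · intro x y hxy
      refine hg _ _ ?_
      rw [hF.1 j hj, hF.1 j hj]
      show x % 2 ^ K / 2 ^ (K - a j + H) = y % 2 ^ K / 2 ^ (K - a j + H)
      have hK : 2 ^ K = 2 ^ (K - a j + H) * 2 ^ (K - (K - a j + H)) := by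
        rw [← pow_add, Nat.add_sub_cancel' (hAK j hj)]
      have h1 : ∀ z : ℕ, z % 2 ^ K / 2 ^ (K - a j + H) =
          z / 2 ^ (K - a j + H) % 2 ^ (K - (K - a j + H)) := by
        intro z
        rw [hK, Nat.mod_mul_right_div_self]
      rw [h1, h1, hxy]
    · intro w
      show g ⟨(w : ℕ) % 2 ^ K, _⟩ = g w
      congr 1
      exact Fin.ext (Nat.mod_eq_of_lt w.2)
    · intro hg0 x
      exact hg0 _
  · intro j hj g hg w w' hw
    rw [hF.1 j hj, hF.1 j hj] at hw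
    exact hg _ _ hw
  · intro j hj g w w' hw
    rw [hF.2 j hj, hF.2 j hj] at hw
    rw [Fin.ext hw]

end Pool.Agent.Helper57.SN
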