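import Pool.Agent.Helper57.SN.Defs

/-! # Project SN, statements A: blocks, one level, geometric law, Carleson -/

set_option autoImplicit false

open Finset

namespace Pool.Agent.Helper57.SN

/-! ## A1, A2: calculus of block averages.  All are finite sums.
`2^a * (x / 2^a) + y` with `y < 2^a` runs through the block of `x`; `x ↦ x / 2^a` is its label. -/

/-- A1 -/
def St_blk1 : Prop := ∀ (a : ℕ),
  (∀ f : ℕ → ℝ, BC a (blk a f)) ∧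
  (∀ (f g : ℕ → ℝ), BC a g → ∀ x, blk a (fun y => g y * f y) x = g x * blk a f x) ∧
  (∀ (f g : ℕ → ℝ) (x : ℕ), blk a (fun y => f y + g y) x = blk a f x + blk a g x) ∧
  (∀ (f : ℕ → ℝ) (r : ℝ) (x : ℕ), blk a (fun y => r * f y) x = r * blk a f x) ∧
  (∀ (f g : ℕ → ℝ) (x : ℕ), (∀ y, y / 2 ^ a = x / 2 ^ a → f y ≤ g y) → blk a f x ≤ blk a g x) ∧
  (∀ (f : ℕ → ℝ) (r : ℝ) (x : ℕ), (∀ y, y / 2 ^ a = x / 2 ^ a → |f y| ≤ r) → |blk a f x| ≤ r) ∧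
  (∀ (f : ℕ → ℝ) (x : ℕ), (blk a f x) ^ 2 ≤ blk a (fun y => f y ^ 2) x) ∧
  (∀ g : ℕ → ℝ, BC a g → ∀ x, blk a g x = g x)

/-- A2 -/
def St_blk2 : Prop := ∀ (a' a K : ℕ), a' ≤ a → a ≤ K →
  (∀ g : ℕ → ℝ, BC a g → BC a' g) ∧
  (∀ (f : ℕ → ℝ) (x : ℕ), blk a (blk a' f) x = blk a f x) ∧
  (∀ (f : ℕ → ℝ), av K (blk a f) = av K f) ∧
  (∀ (f g : ℕ → ℝ), BC a g → av K (fun x => g x * blk a f x) = av K (fun x => g x * f x))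

/-! ## A3: block averages of one frequency.
Proof: `2 sin(θ/2) cos(θ(m+y)) = sin(θ(m+y+1/2)) - sin(θ(m+y-1/2))` telescopes, so the sum over a
block is at most `1/|sin(θ/2)|`, `θ = 2πh/2^K`, and `|sin(πt)| ≥ 2|t|` for `|t| ≤ 1/2`.
Orthogonality is the case of the full period, where `sin(θ/2 * 2^K) = sin(π h) = 0`. -/

/-- A3 -/
def St_trig : Prop := ∀ (K a : ℕ) (h : ℤ) (x : ℕ), a ≤ K → h ≠ 0 → 2 * |h| ≤ 2 ^ K →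
  |blk a (fun y => co K h y) x| ≤ 2 ^ K / (2 * |(h : ℝ)| * 2 ^ a) ∧
  |blk a (fun y => si K h y) x| ≤ 2 ^ K / (2 * |(h : ℝ)| * 2 ^ a)

/-- A3b: mean values and Lipschitz bounds -/
def St_orth : Prop := ∀ (K : ℕ),
  (∀ h : ℤ, |h| < 2 ^ K → av K (fun x => co K h x) = if h = 0 then 1 else 0) ∧
  (∀ h : ℤ, |h| < 2 ^ K → av K (fun x => si K h x) = 0) ∧
  (∀ (h x y : ℤ), |co K h x - co K h y| ≤ 2 * Real.pi * |(h : ℝ)| * |(x : ℝ) - y| / 2 ^ K) ∧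
  (∀ (h x y : ℤ), |si K h x - si K h y| ≤ 2 * Real.pi * |(h : ℝ)| * |(x : ℝ) - y| / 2 ^ K) ∧
  (∀ (g h x : ℤ), si K g x * si K h x = (co K (g - h) x - co K (g + h) x) / 2)

/-! ## A4: the level function.
`|blk_fine SS - SS| ≤ Σ b ξ * 2π ξ 2^(K-a-H)/2^K ≤ 8π B/2^H`, `|blk_coarse SS| ≤ B/2^H` by A3. -/

/-- A4 -/
def St_dd : Prop := ∀ (K H a : ℕ) (b : ℕ → ℝ) (S : Finset ℕ) (B : ℝ), Lv K H a b S B →
  (∀ x, |SS K b S x| ≤ B) ∧ (∀ x, |dd K H a b S x - SS K b S x| ≤ 27 * B / 2 ^ H) ∧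
  (∀ x, |dd K H a b S x| ≤ 2 * B) ∧ BC (K - a - H) (dd K H a b S) ∧
  (∀ x, blk (K - a + H) (dd K H a b S) x = 0)

/-- A5: L2 norm of a level.  `dd² - SS²` is at most `27B/2^H * 3B`; orthogonality for `SS²`. -/
def St_L2 : Prop := ∀ (K H a : ℕ) (b : ℕ → ℝ) (S : Finset ℕ) (B : ℝ), Lv K H a b S B →
  |av K (fun x => dd K H a b S x ^ 2) - (∑ ξ ∈ S, b ξ ^ 2) / 2| ≤ 81 * B ^ 2 / 2 ^ H

/-- A6 (gain).  `F = SS_S + F'`; `av(g SS_S dd) ≥ av(g dd²) - (27B/2^H)(2B) av g`,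
`av(g F' dd) ≥ av(g F' SS_S) - M (27B/2^H) av g`, and in `av(g F' SS_S)` every product is a
difference of two cosines of frequencies `|ω - ξ| ≥ 2^a/G`, `ω + ξ ≥ 2^(a-1)`, whose coarse block
averages are at most `G/(2*2^H)` and `1/2^H` (A3; `g` is constant on coarse blocks, A2). -/
def St_P2 : Prop := ∀ (K H a : ℕ) (b : ℕ → ℝ) (S Ω : Finset ℕ) (B M G : ℝ), Glob K b Ω M →
  Lv K H a b S B → S ⊆ Ω → 2 ≤ G →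
  (∀ ξ ∈ S, ∀ ω ∈ Ω, ω ∉ S → (2 : ℝ) ^ a ≤ G * |(ω : ℝ) - ξ|) →
  ∀ g : ℕ → ℝ, BC (K - a + H) g → (∀ x, 0 ≤ g x) →
    av K (fun x => g x * dd K H a b S x ^ 2) - B / 2 ^ H * (54 * B + 27 * M + G * M) * av K g ≤
      av K (fun x => g x * (SS K b Ω x * dd K H a b S x))

/-- A7 (increment of the conditional second moment between two cuts).
Replace `dd²` by `SS²` (error `81B²/2^H` each), expand
`SS² = (1/2) Σ_{γ,ξ} bb (cos(γ-ξ) - cos(γ+ξ))`.  A difference `h = γ-ξ` with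
`|h| ≤ 2^(a1-2H)` has both block averages within `2π/2^H` of `cos(hx)`; with `|h| > 2^a2` both are
at most `1/2^H`; the others contribute at most `pm2`; the frequencies `γ+ξ ≥ 2^a` are like the large
differences. -/
def St_P4 : Prop := ∀ (K H a a1 a2 : ℕ) (b : ℕ → ℝ) (S : Finset ℕ) (B : ℝ), Lv K H a b S B →
  2 * H + 3 ≤ a1 → a1 + 4 * H ≤ a2 → a2 ≤ a → ∀ x,
    |blk (K - a2 + H) (fun y => dd K H a b S y ^ 2) x -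
      blk (K - a1 + H) (fun y => dd K H a b S y ^ 2) x| ≤
      pm2 b S (2 ^ (a1 - 2 * H)) (2 ^ a2) + 200 * B ^ 2 / 2 ^ H

/-- A8 (cut-off).  If `|SS y| > κ` for some `y` in the coarse block then `|SS| > κ/2` on the
whole fine block of `y` (Lipschitz, `8πB/2^H ≤ κ/2`), which has `2^(K-a-H)` points, against
`2^(K-a+H)` points of the coarse block. -/
def St_th : Prop := ∀ (K H a : ℕ) (b : ℕ → ℝ) (S : Finset ℕ) (B κ : ℝ), Lv K H a b S B →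
  52 * B / 2 ^ H ≤ κ → 0 < κ →
  BC (K - a + H) (th K H a b S κ) ∧ (∀ x, th K H a b S κ x = 0 ∨ th K H a b S κ x = 1) ∧
  (∀ x, th K H a b S κ x = 1 → |dd K H a b S x| ≤ 2 * κ) ∧
  (((range (2 ^ K)).filter (fun x : ℕ => th K H a b S κ x = 0)).card : ℝ) ≤
    2 ^ (2 * H) * (((range (2 ^ K)).filter (fun x : ℕ => κ / 2 < |SS K b S x|)).card : ℝ)

/-! ## A9–A12: the geometric law.  With `ρ = rh K a` put `μ s = (1-ρ) ρ^s / (1-ρ^(2^K))`; its transform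
at `h` is `(1-ρ)/(1-ρ e^{iθ})`, `θ = 2πh/2^K` (finite geometric series, `e^{iθ 2^K} = 1`). -/

/-- A9 -/
def St_GL : Prop := ∀ (K a : ℕ), a + 12 ≤ K → ∃ μ : ℕ → ℝ, (∀ s, 0 ≤ μ s) ∧
  (∑ s ∈ range (2 ^ K), μ s = 1) ∧
  ∀ h : ℤ, (∑ s ∈ range (2 ^ K), μ s * co K h s = pre K a h) ∧
    (∑ s ∈ range (2 ^ K), μ s * si K h s = pim K a h)

/-- A10.  `κ = 2^(a+3)/2^K`, `θ = 2πh/2^K`, `θ/κ = (2π/8) h/2^a`;
`gim = κρ sin θ/(κ²+2ρ(1-cos θ)) ≥ κρ sin θ/(κ²+θ²)`, `|1 - ψ| = ρ|e^{iθ}-1|/|1-ρe^{iθ}| ≤ |θ|/κ`. -/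
def St_GLest : Prop := ∀ (K a : ℕ), a + 12 ≤ K →
  (∀ h : ℤ, 0 ≤ h → 2 * h ≤ 2 ^ K → 0 ≤ pim K a h) ∧
  (∀ h : ℤ, 2 ^ a ≤ 4 * h → h ≤ 2 ^ (a + 3) → 1 / 8 ≤ pim K a h) ∧
  (∀ h : ℤ, |1 - pre K a h| ≤ |(h : ℝ)| / 2 ^ a ∧ |pim K a h| ≤ |(h : ℝ)| / 2 ^ a) ∧
  (∀ h : ℤ, pre K a h ^ 2 + pim K a h ^ 2 ≤ 1) ∧
  (∀ h : ℤ, pre K a (-h) = pre K a h ∧ pim K a (-h) = - pim K a h)

/-- A11.  `gre = κ(κ+ρu)/(κ²+2ρu)` with `u = 1 - cos θ` is decreasing in `u`. -/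
def St_GLmono : Prop := ∀ (K a : ℕ), a + 12 ≤ K →
  (∀ h1 h2 : ℤ, 0 ≤ h1 → h1 ≤ h2 → 2 * h2 ≤ 2 ^ K → pre K a h2 ≤ pre K a h1) ∧
  (∀ h1 h2 : ℤ, 0 ≤ h1 → h1 ≤ 2 ^ a → 2 ^ (a + 1) ≤ h2 → 2 * h2 ≤ 2 ^ K →
    1 / 8 ≤ pre K a h1 - pre K a h2)

/-- A12 (dyadic mass): average `F` over the geometric law. -/
def St_mass : Prop := ∀ (K a : ℕ) (b : ℕ → ℝ) (Ω : Finset ℕ) (M : ℝ), Glob K b Ω M →
  a + 12 ≤ K → ∑ ω ∈ Ω with (2 ^ a ≤ 4 * ω ∧ ω ≤ 2 ^ (a + 3)), b ω ≤ 8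

/-- A13 (Carleson): average `F²` over the geometric law,
`F² = (1/2) Σ bb (cos(γ-ξ) - cos(γ+ξ))`, every term has a nonnegative average by A11. -/
def St_Car : Prop := ∀ (K a : ℕ) (b : ℕ → ℝ) (Ω : Finset ℕ) (M : ℝ), Glob K b Ω M →
  a + 12 ≤ K → pm b {ω ∈ Ω | 2 ^ a ≤ ω} (2 ^ a) ≤ 16

/-- A14 (Carleson for a family): the levels `l > c` are disjoint and above `2^(a c)`. -/
def St_CarFam : Prop := ∀ (K H T : ℕ) (b : ℕ → ℝ) (Ω : Finset ℕ) (a : ℕ → ℕ) (Om : ℕ → Finset ℕ)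
  (B G M : ℝ), Glob K b Ω M → Fam K H T b Ω a Om B G → 1 ≤ H → ∀ c < T,
    ∑ l ∈ Ioo c T, pm b (Om l) (2 ^ (a c)) ≤ 16

/-- A15 (abstract counting of pair masses).  For `l ≥ d`:
`Σ_{j ∈ [l-d', l-d)} e l j ≤ 2 mm l (l-d)` (telescoping), and
`d * Σ_{l ≥ d} mm l (l-d) ≤ Σ_{l} Σ_{1 ≤ i ≤ d} mm l (l-i) ≤ C1 T`. For `l ≤ d` the interval is empty
or ends at `0`. -/
def St_PMC : Prop := ∀ (T : ℕ) (C1 : ℝ) (mm e : ℕ → ℕ → ℝ),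
  (∀ l c, 0 ≤ mm l c) → (∀ l c c', c ≤ c' → c' < l → l < T → mm l c ≤ mm l c') →
  (∀ c < T, ∑ l ∈ Ioo c T, mm l c ≤ C1) →
  (∀ l < T, ∀ j, 1 ≤ j → j + 1 < l → e l j ≤ mm l (j + 1) - mm l (j - 1)) →
  (∀ l < T, 1 < l → e l 0 ≤ mm l 1) →
  ∀ d d' : ℕ, 1 ≤ d → d ≤ d' →
    ∑ l ∈ range T, ∑ j ∈ Ico (l - d') (l - d), e l j ≤ 2 * C1 * T / d

/-- A16: for a family the pair masses satisfy the hypotheses of A15. -/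
def St_pmFam : Prop := ∀ (K H T : ℕ) (b : ℕ → ℝ) (Ω : Finset ℕ) (a : ℕ → ℕ) (Om : ℕ → Finset ℕ)
  (B G : ℝ), (∀ ω ∈ Ω, 0 ≤ b ω) → Fam K H T b Ω a Om B G → 1 ≤ H → ∀ l < T,
    (∀ A, 0 ≤ pm b (Om l) A) ∧ (∀ A A', A ≤ A' → pm b (Om l) A ≤ pm b (Om l) A') ∧
    (∀ A' A, 0 ≤ pm2 b (Om l) A' A) ∧
    (∀ j, 1 ≤ j → j + 1 < T → pm2 b (Om l) (2 ^ (a j - 2 * H)) (2 ^ (a (j + 1))) ≤
      pm b (Om l) (2 ^ (a (j + 1))) - pm b (Om l) (2 ^ (a (j - 1)))) ∧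
    (∀ A' A, pm2 b (Om l) A' A ≤ pm b (Om l) A) ∧
    (∀ A, pm b (Om l) A ≤ B ^ 2)

end Pool.Agent.Helper57.SN
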