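import Pool.Agent.Helper57.SN.Defs

/-! # Project SN, statements C: sampling lemma, selection of the levels -/

set_option autoImplicit false

open Finset

namespace Pool.Agent.Helper57.SN

/-! ## Sampling: an unstructured level is small outside an exponentially small set -/

/-- the tuple `d` has no nontrivial relation with coefficients `-1, 0, 1` -/
def Dis {s : ℕ} (d : Fin s → ℕ) : Prop :=
  ∀ ε : Fin s → ℤ, (∀ i, |ε i| ≤ 1) → ∑ i, ε i * (d i : ℤ) = 0 → ∀ i, ε i = 0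

/-- C1 (Rudin).  `e^{ty} ≤ cosh t + y sinh t` for `|y| ≤ 1`; expand the product over `i`:
`av Π_{i ∈ A} sin(d_i x) = 0` for `A ≠ ∅` since every frequency `Σ_{i ∈ A} ± d_i` is nonzero and smaller
than `2^K` in absolute value; `cosh t ≤ exp(t²/2)`. Then Markov with `t = c`. -/
def St_Rud : Prop := ∀ (K s : ℕ) (d : Fin s → ℕ), Dis d → (∑ i, d i < 2 ^ K) →
  (∀ t : ℝ, av K (fun x => Real.exp (t * ∑ i, si K (d i) x)) ≤ Real.exp (s * t ^ 2 / 2)) ∧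
  (∀ c : ℝ, 0 ≤ c →
    (((range (2 ^ K)).filter (fun x : ℕ => s * c ≤ ∑ i, si K (d i) x)).card : ℝ) ≤
      Real.exp (-(c ^ 2 * s / 2)) * 2 ^ K) ∧
  (∀ c : ℝ, 0 ≤ c →
    (((range (2 ^ K)).filter (fun x : ℕ => ∑ i, si K (d i) x ≤ -(s * c))).card : ℝ) ≤
      Real.exp (-(c ^ 2 * s / 2)) * 2 ^ K)

/-- C2 (Chebyshev for weighted samples).  `y` bounded by 1, weights `b ≥ 0` of total mass `β`;
if `κ < Σ b y` then all but one tenth of the weight of the `s`-tuples satisfies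
`Σ_i y(d_i) ≥ s κ/(2β)`. (Variance of the sum under the product law is at most `s`;
`Σ_{d ∈ S^s} Π b(d_i) = β^s`.) -/
def St_Cheb : Prop := ∀ (s : ℕ) (S : Finset ℕ) (b y : ℕ → ℝ) (κ β : ℝ), 1 ≤ s →
  (∀ ξ ∈ S, 0 ≤ b ξ) → (∀ ξ, |y ξ| ≤ 1) → ∑ ξ ∈ S, b ξ = β → 0 < β → 0 < κ → 40 * β ^ 2 ≤ s * κ ^ 2 →
  κ < ∑ ξ ∈ S, b ξ * y ξ →
  9 / 10 * β ^ s ≤ ∑ d ∈ Fintype.piFinset (fun _ : Fin s => S),
    if s * (κ / (2 * β)) ≤ ∑ i, y (d i) then ∏ i, b (d i) else 0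

open Classical in
/-- C3 (random tuples are dissociated).  If not, let `i` be the first index such that
`d_0, …, d_i` has a relation; then `d_0, …, d_{i-1}` are distinct, nonzero coefficient at `i`, so
`d_i ∈ Spn 1 {d_0, …, d_{i-1}}`, whose conditional weight is at most `τ` out of `β`. -/
def St_Dis : Prop := ∀ (s : ℕ) (S : Finset ℕ) (b : ℕ → ℝ) (τ β : ℝ), 1 ≤ s →
  (∀ ξ ∈ S, 0 ≤ b ξ) → ∑ ξ ∈ S, b ξ = β → (∀ D ⊆ S, D.card < s → stm b S D ≤ τ) →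
  10 * s * τ ≤ β →
  ∑ d ∈ Fintype.piFinset (fun _ : Fin s => S), (if Dis d then 0 else ∏ i, b (d i)) ≤ β ^ s / 10

/-- C4 (sampling lemma), from C1, C2, C3: for the points `x` with `SS x > κ` the tuples that are
dissociated and have `Σ_i sin(d_i x) ≥ s κ/(2β)` have weight at least `(8/10) β^s`; sum over `x`, exchange
the sums, C1 with `c = κ/(2β)`: the number of these points is at most `(5/4) exp(-κ² s/(8β²)) 2^K`.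
Same for `SS x < -κ`. `β ≤ B`. -/
def St_Samp : Prop := ∀ (K H a s : ℕ) (b : ℕ → ℝ) (S : Finset ℕ) (B τ κ : ℝ), Lv K H a b S B →
  1 ≤ s → s ≤ 2 ^ H → 0 < κ → 0 < ∑ ξ ∈ S, b ξ → 40 * B ^ 2 ≤ s * κ ^ 2 →
  (∀ D ⊆ S, D.card < s → stm b S D ≤ τ) → 10 * s * τ ≤ ∑ ξ ∈ S, b ξ →
  (((range (2 ^ K)).filter (fun x : ℕ => κ < |SS K b S x|)).card : ℝ) ≤
    3 * Real.exp (-(κ ^ 2 * s / (8 * B ^ 2))) * 2 ^ K

/-! ## Selection of the levels -/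

/-- C5 (one scale with empty margins).  Among the `N + 1` disjoint windows
`[2^(a-1) + i w, 2^(a-1) + (i+1) w)`, `w = 2^(a-1)/(N+1)`, one contains no element of `Ω`; let the level
start at its right end; likewise in `[2^(a+1), 2^(a+2))` (windows `[2^(a+1) + i w', …)`), the level stops
at the left end. -/
def St_marg : Prop := ∀ (a N : ℕ) (Ω : Finset ℕ), 1 ≤ a → Ω.card ≤ N → ∃ S ⊆ Ω,
  (∀ ω ∈ Ω, 2 ^ a ≤ ω → ω < 2 ^ (a + 1) → ω ∈ S) ∧ (∀ ξ ∈ S, 2 ^ a ≤ 2 * ξ ∧ ξ < 2 ^ (a + 2)) ∧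
  (∀ ξ ∈ S, ∀ ω ∈ Ω, ω ∉ S → (2 : ℝ) ^ a ≤ (2 * (N + 1)) * |(ω : ℝ) - ξ|)

/-- C6 (pigeonhole).  Numbers `0 ≤ f a ≤ 8` (`a < A`), counts `n a` with `Σ_{a ∈ any class mod s0} n a ≤ N`,
`f a = 0` if `n a = 0`.  Total `≥ M`.  Take the best residue class mod `s0` (total `≥ M/s0`), drop the
`a` with `f a ≤ M/(2 s0 N)` (total loss `≤ M/(2 s0)`), dyadic classes `β < f a ≤ 2β`, `β = 4, 2, …` (`I` of
them, as `8/2^I ≤ M/(2 s0 N)`): one has total `≥ M/(2 s0 I)`, so its cardinality `T0` has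
`2 β T0 ≥ M/(2 s0 I)`. Keep the `a` with `n a ≤ 2N/T0`, at least `T0/2` of them. -/
def St_pig : Prop := ∀ (A s0 I N : ℕ) (f : ℕ → ℝ) (n : ℕ → ℕ) (M : ℝ), 1 ≤ s0 → 1 ≤ I → 1 ≤ N → 0 < M →
  (∀ a < A, 0 ≤ f a ∧ f a ≤ 8) → (∀ a < A, n a = 0 → f a = 0) →
  (∀ r < s0, ∑ a ∈ range A with a % s0 = r, n a ≤ N) → M ≤ ∑ a ∈ range A, f a →
  16 * s0 * N ≤ 2 ^ I * M →
  ∃ (E : Finset ℕ) (β : ℝ), E ⊆ range A ∧ E.Nonempty ∧ 0 < β ∧ β ≤ 4 ∧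
    (∀ a ∈ E, β < f a ∧ f a ≤ 2 * β) ∧ (∀ a ∈ E, ∀ a' ∈ E, a < a' → a + s0 ≤ a') ∧
    (∀ a ∈ E, n a * E.card ≤ 2 * N) ∧ M ≤ 8 * s0 * I * (E.card * β)

/-- C7 (family).  From C5, C6 with `A` = all scales with `2H+3 ≤ a`, `f a = Σ_{S_a} b` (`≤ 8` by the
hypothesis `hm`, which is A12), `n a = |S_a|`, `s0 = 4H`, `I = H`; `Σ_a f a ≥ M - 8 (2H+4) ≥ M/2`.
The levels are listed in increasing order. -/
def St_fam : Prop := ∀ (K H N : ℕ) (b : ℕ → ℝ) (Ω : Finset ℕ) (M : ℝ), Glob K b Ω M →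
  M = ∑ ω ∈ Ω, b ω → (∀ ω ∈ Ω, ω * 2 ^ (2 * H + 13) ≤ 2 ^ K) → Ω.card ≤ N → 1 ≤ N → 10 ≤ H →
  32 * (2 * H + 4) ≤ M → 256 * H * N ≤ 2 ^ H →
  (∀ a : ℕ, a + 12 ≤ K → ∑ ω ∈ Ω with (2 ^ a ≤ 4 * ω ∧ ω ≤ 2 ^ (a + 3)), b ω ≤ 8) →
  ∃ (T : ℕ) (β : ℝ) (a : ℕ → ℕ) (Om : ℕ → Finset ℕ), 1 ≤ T ∧ T ≤ N ∧ 0 < β ∧ β ≤ 4 ∧
    Fam K H T b Ω a Om (2 * β) (2 * (N + 1)) ∧ (∀ i < T, β ≤ ∑ ξ ∈ Om i, b ξ) ∧
    (∀ i < T, (Om i).card * T ≤ 2 * N) ∧ M ≤ 64 * H ^ 2 * (T * β)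

end Pool.Agent.Helper57.SN
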