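import Pool.Agent.Helper57.SN.Num3
import Pool.Agent.Helper57.SN.StA
import Pool.Agent.Helper57.SN.StB
import Pool.Agent.Helper57.SN.StC
import Pool.Agent.Helper57.SN.StD
import Pool.Agent.Helper56.SS.St

/-! Project SN: final assembly. -/

set_option autoImplicit false
set_option linter.unusedSectionVars false

open Finset
open Pool.Agent.Helper56.SS (Fil Dat Hyp Cuts S_FIN)

namespace Pool.Agent.Helper57.SN

theorem le_two_pow_self (n : ℕ) : n ≤ 2 ^ n := Nat.lt_two_pow_self.le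

theorem freq_bound (Ω : Finset ℕ) (H : ℕ) (ω : ℕ) (h : ω ∈ Ω) :
    ω * 2 ^ (2 * H + 20) ≤ 2 ^ (2 * H + 20 + Ω.sup id) := by
  have h1 : ω ≤ Ω.sup id := le_sup (f := id) h
  have h2 : ω ≤ 2 ^ (Ω.sup id) := h1.trans (le_two_pow_self _)
  calc ω * 2 ^ (2 * H + 20) ≤ 2 ^ (Ω.sup id) * 2 ^ (2 * H + 20) := Nat.mul_le_mul_right _ h2
    _ = _ := by rw [← pow_add, add_comm]

theorem SS_real (K : ℕ) (b : ℕ → ℝ) (Ω : Finset ℕ) (x : ℕ) :
    SS K b Ω x = ∑ ω ∈ Ω, b ω * Real.sin (ω * (2 * Real.pi * x / 2 ^ K)) := by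
  unfold SS si
  apply sum_congr rfl
  intro ω _
  congr 2
  push_cast
  ring

theorem glob_of {N H : ℕ} {y : ℝ} (hn : Num N H y) (Ω : Finset ℕ) (b : ℕ → ℝ)
    (hpos : ∀ ω ∈ Ω, 1 ≤ ω) (hb0 : ∀ ω ∈ Ω, 0 ≤ b ω)
    (hF : ∀ x : ℝ, |∑ ω ∈ Ω, b ω * Real.sin (ω * x)| ≤ 1) :
    Glob (2 * H + 20 + Ω.sup id) b Ω (∑ ω ∈ Ω, b ω) where
  b0 := hb0
  pos := hpos
  small := by
    intro ω hω
    have h1 := freq_bound Ω H ω hω
    have h2 : 64 ≤ 2 ^ (2 * H + 20) := by
      calc 64 = 2 ^ 6 := by norm_num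
        _ ≤ 2 ^ (2 * H + 20) := Nat.pow_le_pow_right (by norm_num) (by omega)
    calc 64 * ω = ω * 64 := by ring
      _ ≤ ω * 2 ^ (2 * H + 20) := Nat.mul_le_mul_left _ h2
      _ ≤ _ := h1
  mass := le_rfl
  bdd := by
    intro x
    rw [SS_real]
    exact hF _

/-- single coefficients are at most 8 -/
theorem coef_le {K H : ℕ} {b : ℕ → ℝ} {Ω : Finset ℕ} {M : ℝ} (hg : Glob K b Ω M) (hmass : St_mass)
    (hK : ∀ ω ∈ Ω, ω * 2 ^ (2 * H + 13) ≤ 2 ^ K) (ω : ℕ) (hω : ω ∈ Ω) : b ω ≤ 8 := by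
  have h1 : 1 ≤ ω := hg.pos ω hω
  have h2 : 2 ^ (Nat.log 2 ω) ≤ ω := Nat.pow_log_le_self 2 (by omega)
  have h3 : ω < 2 ^ (Nat.log 2 ω + 1) := Nat.lt_pow_succ_log_self (by norm_num) ω
  have h4 : Nat.log 2 ω + 12 ≤ K := by
    have h5 : 2 ^ (Nat.log 2 ω + (2 * H + 13)) ≤ 2 ^ K := by
      rw [pow_add]
      exact (Nat.mul_le_mul_right _ h2).trans (hK ω hω)
    have := (Nat.pow_le_pow_iff_right (by norm_num : 1 < 2)).mp h5
    omega
  have h5 := hmass K (Nat.log 2 ω) b Ω M hg h4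
  have h6 : ω ∈ Ω.filter (fun ω' => 2 ^ (Nat.log 2 ω) ≤ 4 * ω' ∧ ω' ≤ 2 ^ (Nat.log 2 ω + 3)) := by
    rw [mem_filter]
    refine ⟨hω, by omega, ?_⟩
    have : 2 ^ (Nat.log 2 ω + 1) ≤ 2 ^ (Nat.log 2 ω + 3) := Nat.pow_le_pow_right (by norm_num) (by omega)
    omega
  refine le_trans ?_ h5
  exact single_le_sum (f := b) (fun i hi => hg.b0 i (mem_filter.mp hi).1) h6

/-- Cauchy-Schwarz for one level -/
theorem lev_L2 {S : Finset ℕ} {b : ℕ → ℝ} {β : ℝ} {T N : ℕ} (hβ : 0 < β) (h1 : β ≤ ∑ ξ ∈ S, b ξ)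
    (h2 : S.card * T ≤ 2 * N) (hN : 0 < N) : β ^ 2 * T / (2 * N) ≤ ∑ ξ ∈ S, b ξ ^ 2 := by
  have h3 : (∑ ξ ∈ S, b ξ) ^ 2 ≤ S.card * ∑ ξ ∈ S, b ξ ^ 2 := sq_sum_le_card_mul_sum_sq
  have h4 : β ^ 2 ≤ S.card * ∑ ξ ∈ S, b ξ ^ 2 := le_trans (by gcongr) h3
  have h5 : (S.card : ℝ) * T ≤ 2 * N := by exact_mod_cast h2
  have h6 : 0 ≤ ∑ ξ ∈ S, b ξ ^ 2 := sum_nonneg (fun _ _ => by positivity)
  have hN' : (0 : ℝ) < N := by exact_mod_cast hN
  rw [div_le_iff₀ (by positivity)]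
  calc β ^ 2 * T ≤ (S.card * ∑ ξ ∈ S, b ξ ^ 2) * T := by gcongr
    _ = (S.card * T) * ∑ ξ ∈ S, b ξ ^ 2 := by ring
    _ ≤ (2 * N) * ∑ ξ ∈ S, b ξ ^ 2 := by gcongr
    _ = _ := by ring

set_option maxRecDepth 100000 in
open Classical in
/-- the contradiction for one value of `N` -/
theorem contra (h_fam : St_fam) (h_STR : St_STR) (h_Samp : St_Samp) (h_th : St_th) (h_L2 : St_L2)
    (h_mass : St_mass) (h_exFil : St_exFil) (h_dict : St_dict) (h_hyp : St_hyp) (h_cuts : St_cuts)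
    (h_bad : St_bad) (h_fin : S_FIN) {N H : ℕ} {y : ℝ} (hn : Num N H y) (Ω : Finset ℕ) (b : ℕ → ℝ)
    (hcard : Ω.card ≤ N) (hpos : ∀ ω ∈ Ω, 1 ≤ ω) (hb0 : ∀ ω ∈ Ω, 0 ≤ b ω)
    (hF : ∀ x : ℝ, |∑ ω ∈ Ω, b ω * Real.sin (ω * x)| ≤ 1)
    (hM : y ^ 3999 < ∑ ω ∈ Ω, b ω) : False := by
  have hG := glob_of hn Ω b hpos hb0 hF
  set K := 2 * H + 20 + Ω.sup id with hKdef
  set M := ∑ ω ∈ Ω, b ω with hMdef
  have hH10 := hn.H10
  have hN0 := hn.N0
  have hNnat : 0 < N := by exact_mod_cast hN0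
  have hK : ∀ ω ∈ Ω, ω * 2 ^ (2 * H + 13) ≤ 2 ^ K := by
    intro ω hω
    refine le_trans ?_ (freq_bound Ω H ω hω)
    exact Nat.mul_le_mul_left _ (Nat.pow_le_pow_right (by norm_num) (by omega))
  have hM8 : M ≤ 8 * N := by
    calc M ≤ ∑ ω ∈ Ω, (8 : ℝ) := sum_le_sum (fun ω hω => coef_le hG h_mass hK ω hω)
      _ = Ω.card * 8 := by rw [sum_const, nsmul_eq_mul]
      _ ≤ N * 8 := by
        have : (Ω.card : ℝ) ≤ N := by exact_mod_cast hcard
        linarith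
      _ = 8 * N := by ring
  have hM0 : 0 ≤ M := (hn.pp 3999).le.trans hM.le
  have hm : ∀ a : ℕ, a + 12 ≤ K → ∑ ω ∈ Ω with (2 ^ a ≤ 4 * ω ∧ ω ≤ 2 ^ (a + 3)), b ω ≤ 8 :=
    fun a ha => h_mass K a b Ω M hG ha
  have hfa : 32 * (2 * (H : ℝ) + 4) ≤ M := by
    have h1 := hn.Hle
    have h2 := hn.y_ge
    have h3 : y ^ 2 ≤ y ^ 3999 := hn.pw (by norm_num)
    nlinarith
  have hfb : 256 * H * N ≤ 2 ^ H := by
    have h1 : (256 : ℝ) * H * N ≤ 2 ^ H := by
      refine le_trans ?_ (hn.N2H (a := 3) (by norm_num))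
      have h2 := hn.N6
      have h3 : (H : ℝ) ≤ N := hn.Hle.trans (by simpa using hn.Ny (a := 1) (by norm_num))
      have h4 : (256 : ℝ) * H * N ≤ 256 * N * N := by gcongr
      nlinarith [mul_pos hN0 hN0, mul_le_mul_of_nonneg_right h2 (mul_pos hN0 hN0).le]
    exact_mod_cast h1
  obtain ⟨T, β, a, Om, hT1, hTN, hβ0, hβ4, hFam, hβm, hcT, hMT⟩ :=
    h_fam K H N b Ω M hG rfl hK hcard hNnat hH10 hfa hfb hm
  have hT0 : (0 : ℝ) < T := by exact_mod_cast hT1
  have hTN' : (T : ℝ) ≤ N := by exact_mod_cast hTN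
  -- T β ≥ y^3998
  have hTβ : y ^ 3998 ≤ T * β := by
    have h1 := hn.Hy
    have h2 : M ≤ y * (T * β) := hMT.trans (by gcongr)
    have h3 : y ^ 3999 = y * y ^ 3998 := by rw [← pow_succ']
    rw [h3] at hM
    have h4 : y * y ^ 3998 ≤ y * (T * β) := hM.le.trans h2
    exact le_of_mul_le_mul_left h4 hn.y0
  have hT_ge : y ^ 3998 / 4 ≤ T := by
    rw [div_le_iff₀ (by norm_num)]
    exact hTβ.trans (by gcongr)
  set B : ℝ := 2 * β with hBdef
  have hB0 : 0 < B := by positivity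
  have hB8 : B ≤ 8 := by linarith
  set κ : ℝ := (y ^ 200)⁻¹ with hκdef
  have hκ0 : 0 < κ := inv_pos.mpr (hn.pp 200)
  set τ : ℝ := (y ^ 1000)⁻¹ with hτdef
  set s := Num.sN y with hsdef
  set m := Num.mN y with hmdef
  set Gp : ℝ := 2 * ((N : ℝ) + 1) with hGp
  -- structured levels
  let Sg : Finset ℕ := (range T).filter (fun l => ∃ D ⊆ Om l, D.card ≤ s ∧ τ ≤ stm b (Om l) D)
  have hSg : (Sg.card : ℝ) ≤ T / 8 := by
    have h1 : Sg.card ≤ 170 * m ^ 2 * s * H :=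
      h_STR K H T N b Ω a Om B Gp M τ s m N Sg hG hFam hH10 hn.sN_one hn.mN_one hNnat hn.m_tau hcard
        hTN hn.c1 hn.c2 hn.c3 (hn.c4 hM8 hM0) hn.c5 (filter_subset _ _)
        (fun l hl => (mem_filter.mp hl).2)
    have h2 : (Sg.card : ℝ) ≤ 170 * (m : ℝ) ^ 2 * s * H := by exact_mod_cast h1
    have h3 := hn.c6
    have h4 : 32 * y ^ 2802 ≤ y ^ 3998 := (hn.abs1 (by norm_num) 2802).trans (hn.pw (by norm_num))
    linarith
  -- exceptional levels
  let Bad : ℕ → Finset ℕ := fun k => (range T).filter (fun j : ℕ =>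
    y / dkN y k < ∑ l ∈ range T, if j ∈ Ico (l - dkN y (k + 1)) (l - dkN y k) then
      eS H T b a Om l j else 0)
  have hBad : ∀ k ∈ Ico 1 196, ((Bad k).card : ℝ) ≤ 32 * T / (dkN y k * (y / dkN y k)) := by
    intro k hk
    have hk1 := (mem_Ico.mp hk).1
    have hd := hn.dk_pos k hk1
    refine h_bad K H T b Ω a Om B Gp M (y / dkN y k) hG hFam (by omega) (by have := hn.y0; positivity)
      (dkN y k) (dkN y (k + 1)) ?_ (hn.dk_mono k)
    exact_mod_cast hd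
  let Ex : Finset ℕ := (Ico 1 196).biUnion Bad
  have hEx : (Ex.card : ℝ) ≤ T / 8 := by
    have h1 : (Ex.card : ℝ) ≤ ∑ k ∈ Ico 1 196, ((Bad k).card : ℝ) := by
      exact_mod_cast card_biUnion_le
    exact h1.trans ((sum_le_sum hBad).trans (hn.f10 T))
  let Gd : Finset ℕ := range T \ (Sg ∪ Ex)
  have hGdT : Gd ⊆ range T := sdiff_subset
  have hGdle : (Gd.card : ℝ) ≤ T := by
    have := card_le_card hGdT
    rw [card_range] at this
    exact_mod_cast this
  have hGdN : (Gd.card : ℝ) ≤ N := hGdle.trans hTN'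
  have hGdge : (T : ℝ) / 2 ≤ Gd.card := by
    have h1 : T ≤ Gd.card + (Sg ∪ Ex).card := by
      have h2 : range T ⊆ Gd ∪ (Sg ∪ Ex) := by
        intro x hx
        by_cases hx2 : x ∈ Sg ∪ Ex
        · exact mem_union_right _ hx2
        · exact mem_union_left _ (mem_sdiff.mpr ⟨hx, hx2⟩)
      have := (card_le_card h2).trans (card_union_le _ _)
      rwa [card_range] at this
    have h3 : (T : ℝ) ≤ Gd.card + (Sg.card + Ex.card) := by
      have := card_union_le Sg Ex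
      have h4 : T ≤ Gd.card + (Sg.card + Ex.card) := by omega
      exact_mod_cast h4
    linarith
  -- the filtration
  have hsepa : ∀ i j, i < j → j < T → a i ≤ a j := fun i j hij hj => by
    have := hFam.sep i j hij hj
    omega
  obtain ⟨F, hFil⟩ := h_exFil K H T a hsepa
  have hlv : ∀ j < T, H ≤ a j ∧ a j ≤ K := fun j hj => by
    have h1 := (hFam.lv j hj).Ha
    have h2 := (hFam.lv j hj).aK
    constructor <;> omega
  obtain ⟨dE, dC, dM, dB, dP⟩ := h_dict K H T a F hFil hlv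
  have hy6 : (1 : ℝ) ≤ y ^ 6 := hn.one_pw 6
  have hf8 : 52 * B / 2 ^ H ≤ κ := hn.f8 hB8
  have hlamk : y ^ 6 * (2 * κ) ≤ 1 / 4 := by
    refine le_trans ?_ hn.f1
    have h1 := hn.one_pw 60
    have h2 : 0 ≤ y ^ 6 * (2 * κ) := by positivity
    calc y ^ 6 * (2 * κ) = 1 * (y ^ 6 * (2 * κ)) := (one_mul _).symm
      _ ≤ y ^ 60 * (y ^ 6 * (2 * κ)) := by
        exact mul_le_mul_of_nonneg_right h1 h2
  have hGp2 : 2 ≤ Gp := by rw [hGp]; linarith
  have hHyp := h_hyp K H T b Ω a Om B Gp M κ (y ^ 6) Gd F hG hFam hFil (by omega) hGp2 hB0.le hκ0 hf8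
    hy6 hlamk hGdT
  let Mk : ℕ → ℝ := fun k => if k = 0 then 0 else y / dkN y k
  have hMk0 : ∀ k, 0 ≤ Mk k := by
    intro k
    show 0 ≤ (if k = 0 then (0 : ℝ) else y / dkN y k)
    have := hn.y0
    split_ifs <;> positivity
  have hCuts := h_cuts K H T b Ω a Om B Gp M κ (y ^ 6)
    (B / 2 ^ H * (54 * B + 27 * M + Gp * M)) (2 * B) Gd F 196 (dkN y) (tN y) Mk hG hFam hFil (by omega)
    hGdT (by norm_num) (by simp [dkN]) hn.dk_one hn.dk_mono (hn.dk_T hTN) (by simp [tN, hκdef])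
    (fun k _ => hn.t_pos k) hMk0 (by
      intro k hk1 hk2 j hj
      have h1 : j ∉ Bad k := by
        intro h2
        have h3 := (mem_sdiff.mp hj).2
        exact h3 (mem_union_right _ (mem_biUnion.mpr ⟨k, mem_Ico.mpr ⟨hk1, hk2⟩, h2⟩))
      have h2 : j ∈ range T := (mem_sdiff.mp hj).1
      have h3 : ¬ (y / dkN y k < ∑ l ∈ range T, if j ∈ Ico (l - dkN y (k + 1)) (l - dkN y k) then
          eS H T b a Om l j else 0) := fun h4 => h1 (mem_filter.mpr ⟨h2, h4⟩)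
      have h4 : Mk k = y / dkN y k := by
        show (if k = 0 then (0 : ℝ) else y / dkN y k) = _
        rw [if_neg (by omega)]
      rw [h4]
      exact not_lt.mp h3)
  haveI : Nonempty (Fin (2 ^ K)) := ⟨⟨0, by positivity⟩⟩
  have hδ0 : 0 < 1 / (4 * y ^ 6) := by have := hn.pp 6; positivity
  have hδ1 : 1 / (4 * y ^ 6) ≤ 1 / 4 := by
    have h1 := hn.pp 6
    rw [div_le_div_iff₀ (by positivity) (by norm_num)]
    linarith
  -- the exceptional sets
  have hz : ∀ l ∈ Gd, Pool.Agent.Helper56.SS.E (fun w : Fin (2 ^ K) =>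
      1 - (if l < T then th K H (a l) b (Om l) κ w else 1)) ≤ Real.exp (-(y ^ 398)) := by
    intro l hl
    have hlT : l < T := mem_range.mp (hGdT hl)
    have hL := hFam.lv l hlT
    obtain ⟨t1, t2, t3, t4⟩ := h_th K H (a l) b (Om l) B κ hL hf8 hκ0
    have e1 : Pool.Agent.Helper56.SS.E (fun w : Fin (2 ^ K) =>
        1 - (if l < T then th K H (a l) b (Om l) κ w else 1)) =
        av K (fun x => 1 - th K H (a l) b (Om l) κ x) := by
      rw [← dE (fun x => 1 - th K H (a l) b (Om l) κ x)]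
      congr 1
      funext w
      rw [if_pos hlT]
    rw [e1]
    have e2 : av K (fun x => 1 - th K H (a l) b (Om l) κ x) =
        (((range (2 ^ K)).filter (fun x : ℕ => th K H (a l) b (Om l) κ x = 0)).card : ℝ) / 2 ^ K := by
      unfold av
      congr 1
      rw [card_filter]
      push_cast
      apply sum_congr rfl
      intro x _
      rcases t2 x with h | h <;> simp [h]
    rw [e2]
    have hu : (((range (2 ^ K)).filter (fun x : ℕ => κ / 2 < |SS K b (Om l) x|)).card : ℝ) ≤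
        3 * Real.exp (-((κ / 2) ^ 2 * s / (8 * B ^ 2))) * 2 ^ K := by
      by_cases hcase : B ≤ κ / 2
      · have : (range (2 ^ K)).filter (fun x : ℕ => κ / 2 < |SS K b (Om l) x|) = ∅ := by
          apply filter_eq_empty_iff.mpr
          intro x _ hx
          have h5 : |SS K b (Om l) x| ≤ B := by
            unfold SS
            refine (abs_sum_le_sum_abs _ _).trans (le_trans ?_ hL.mass)
            apply sum_le_sum
            intro ξ hξ
            rw [abs_mul, abs_of_nonneg (hL.b0 ξ hξ)]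
            have : |si K ξ x| ≤ 1 := Real.abs_sin_le_one _
            calc b ξ * |si K ξ x| ≤ b ξ * 1 := mul_le_mul_of_nonneg_left this (hL.b0 ξ hξ)
              _ = b ξ := mul_one _
          linarith
        rw [this, card_empty]
        push_cast
        positivity
      · have hns : ∀ D ⊆ Om l, D.card < s → stm b (Om l) D ≤ τ := by
          intro D hD hDc
          by_contra hcon
          have h1 : l ∈ Sg := mem_filter.mpr ⟨mem_range.mpr hlT, D, hD, hDc.le, (not_le.mp hcon).le⟩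
          exact (mem_sdiff.mp hl).2 (mem_union_left _ h1)
        have hβl := hβm l hlT
        refine h_Samp K H (a l) s b (Om l) B τ (κ / 2) hL hn.sN_one ?_ (by positivity)
          (lt_of_lt_of_le hβ0 hβl) (hn.f7 hB0.le hB8) hns ?_
        · have h1 := hn.sN_N
          have h2 : (s : ℝ) ≤ 2 ^ H := h1.trans (by simpa using hn.N2H (a := 1) (by norm_num))
          exact_mod_cast h2
        · refine le_trans ?_ hβl
          -- 10 s τ ≤ 10 (y^800/40) y^{-1000} = y^{-200}/4 ≤ β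
          have h1 := hn.sN_le
          have h2 : κ / 4 ≤ β := by linarith [not_le.mp hcase]
          refine le_trans ?_ h2
          have h3 : y ^ 800 * (y ^ 1000)⁻¹ = (y ^ 200)⁻¹ := by
            have : y ^ 1000 = y ^ 800 * y ^ 200 := by rw [← pow_add]
            rw [this, mul_inv]
            have h4 := hn.pp 800
            generalize y ^ 800 = A at *
            generalize y ^ 200 = C at *
            field_simp
          have h5 : 0 < τ := inv_pos.mpr (hn.pp 1000)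
          calc 10 * (s : ℝ) * τ ≤ 10 * (y ^ 800 / 40) * τ := by
                exact mul_le_mul_of_nonneg_right (by linarith) h5.le
            _ = (y ^ 800 * (y ^ 1000)⁻¹) / 4 := by rw [hτdef]; ring
            _ = κ / 4 := by rw [h3]
    calc (((range (2 ^ K)).filter (fun x : ℕ => th K H (a l) b (Om l) κ x = 0)).card : ℝ) / 2 ^ K
        ≤ (2 ^ (2 * H) * (3 * Real.exp (-((κ / 2) ^ 2 * s / (8 * B ^ 2))) * 2 ^ K)) / 2 ^ K := by
          apply div_le_div_of_nonneg_right _ (by positivity)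
          exact t4.trans (mul_le_mul_of_nonneg_left hu (by positivity))
      _ = 2 ^ (2 * H) * (3 * Real.exp (-((κ / 2) ^ 2 * s / (8 * B ^ 2)))) := by
          field_simp
      _ ≤ _ := hn.f6 hB0 hB8
  have hfinal := h_fin (Fin (2 ^ K)) _ hHyp 196 (fun k l => l - dkN y k) (tN y)
    (fun k => (dkN y (k + 1) : ℝ)) (eS H T b a Om) (200 * B ^ 2 / 2 ^ H) Mk hCuts
    (y ^ 60) ((y ^ 20)⁻¹) (Real.exp (-(y ^ 40 / 2))) (1 / (4 * y ^ 6)) (Real.exp (-(y ^ 398)))
    (hn.one_pw 60) hn.f1 (inv_pos.mpr (hn.pp 20)) (by simpa using hn.f2) (fun k _ => hn.f3 k) hδ0 hδ1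
    (by
      show 4 * (1 / (4 * y ^ 6)) * y ^ 6 ≤ 1
      have h1 := hn.pp 6
      have h2 : 4 * (1 / (4 * y ^ 6)) * y ^ 6 = 1 := by
        generalize y ^ 6 = A at *
        field_simp
      exact h2.le)
    (by
      show y ^ 6 * (B / 2 ^ H * (54 * B + 27 * M + Gp * M)) * (Gd.card : ℝ) ≤ 1 / 4
      exact hn.f5 hB0.le hB8 hM0 hM8 hGp (by positivity) hGdN)
    hz
  have hrhs := hn.rhs (g := Gd.card) (B := B) (by positivity) hGdN hB0.le hB8
  have hlhs := hn.lhs (g := Gd.card) (T := T) (β := β) (B := B) hT0 hTN' hGdge hβ0 hTβ hB0.le hB8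
  have hsum : (Gd.card : ℝ) * (β ^ 2 * T / (4 * N) - 81 * B ^ 2 / 2 ^ H) ≤
      ∑ l ∈ Gd, Pool.Agent.Helper56.SS.E (fun w : Fin (2 ^ K) =>
        (if l < T then dd K H (a l) b (Om l) w else 0) ^ 2) := by
    have h1 : ∀ l ∈ Gd, β ^ 2 * T / (4 * N) - 81 * B ^ 2 / 2 ^ H ≤
        Pool.Agent.Helper56.SS.E (fun w : Fin (2 ^ K) =>
          (if l < T then dd K H (a l) b (Om l) w else 0) ^ 2) := by
      intro l hl
      have hlT : l < T := mem_range.mp (hGdT hl)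
      have hL := hFam.lv l hlT
      have e1 : Pool.Agent.Helper56.SS.E (fun w : Fin (2 ^ K) =>
          (if l < T then dd K H (a l) b (Om l) w else 0) ^ 2) =
          av K (fun x => dd K H (a l) b (Om l) x ^ 2) := by
        rw [← dE (fun x => dd K H (a l) b (Om l) x ^ 2)]
        congr 1
        funext w
        rw [if_pos hlT]
      rw [e1]
      have e2 := h_L2 K H (a l) b (Om l) B hL
      have e3 := lev_L2 hβ0 (hβm l hlT) (hcT l hlT) hNnat
      have e4 := (abs_le.mp e2).1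
      have e5 : β ^ 2 * T / (4 * N) = (β ^ 2 * T / (2 * N)) / 2 := by
        rw [div_div]; congr 1; ring
      rw [e5]
      linarith
    have h2 := sum_le_sum h1
    rw [sum_const, nsmul_eq_mul] at h2
    exact h2
  have hfin2 : (∑ l ∈ Gd, Pool.Agent.Helper56.SS.E (fun w : Fin (2 ^ K) =>
        (if l < T then dd K H (a l) b (Om l) w else 0) ^ 2)) / 2 ≤ 4 / y ^ 6 :=
    le_trans hfinal hrhs
  linarith

end Pool.Agent.Helper57.SN
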