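import Mathlib

/-! # Project SN: sine polynomials with nonnegative coefficients. Definitions.

Grid `0, …, 2^K - 1` (average `av K`), dyadic blocks of length `2^a` (label `x / 2^a`),
block average `blk a`.  `co K g x = cos (2 π g x / 2^K)`, `si` likewise.
-/

set_option autoImplicit false

open Finset

namespace Pool.Agent.Helper57.SN

noncomputable section

/-- average over the grid -/
def av (K : ℕ) (f : ℕ → ℝ) : ℝ := (∑ x ∈ range (2 ^ K), f x) / 2 ^ K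

/-- constant on the blocks `[2^a m, 2^a (m+1))` -/
def BC (a : ℕ) (g : ℕ → ℝ) : Prop := ∀ x y : ℕ, x / 2 ^ a = y / 2 ^ a → g x = g y

/-- block average -/
def blk (a : ℕ) (f : ℕ → ℝ) (x : ℕ) : ℝ :=
  (∑ y ∈ range (2 ^ a), f (2 ^ a * (x / 2 ^ a) + y)) / 2 ^ a

def co (K : ℕ) (g x : ℤ) : ℝ := Real.cos (2 * Real.pi * g * x / 2 ^ K)

def si (K : ℕ) (g x : ℤ) : ℝ := Real.sin (2 * Real.pi * g * x / 2 ^ K)

/-- sine polynomial with frequencies in `S` and coefficients `b` -/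
def SS (K : ℕ) (b : ℕ → ℝ) (S : Finset ℕ) (x : ℕ) : ℝ := ∑ ξ ∈ S, b ξ * si K ξ x

/-- fine block average minus coarse block average, level of scale `2^a` -/
def dd (K H a : ℕ) (b : ℕ → ℝ) (S : Finset ℕ) (x : ℕ) : ℝ :=
  blk (K - a - H) (SS K b S) x - blk (K - a + H) (SS K b S) x

open Classical in
/-- cut-off: `1` if the sine polynomial is at most `κ` on the whole coarse block of `x` -/
def th (K H a : ℕ) (b : ℕ → ℝ) (S : Finset ℕ) (κ : ℝ) (x : ℕ) : ℝ :=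
  if ∀ y < 2 ^ (K - a + H),
    |SS K b S (2 ^ (K - a + H) * (x / 2 ^ (K - a + H)) + y)| ≤ κ then 1 else 0

/-- one level: frequencies in `[2^(a-1), 2^(a+2))`, nonnegative coefficients of total mass `≤ B` -/
structure Lv (K H a : ℕ) (b : ℕ → ℝ) (S : Finset ℕ) (B : ℝ) : Prop where
  Ha : 2 * H + 3 ≤ a
  aK : a + 2 * H + 12 ≤ K
  b0 : ∀ ξ ∈ S, 0 ≤ b ξ
  lo : ∀ ξ ∈ S, 2 ^ a ≤ 2 * ξ
  hi : ∀ ξ ∈ S, ξ < 2 ^ (a + 2)
  mass : ∑ ξ ∈ S, b ξ ≤ B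

/-- the global sine polynomial: frequencies `Ω`, coefficients `b ≥ 0`, sup norm at most 1 -/
structure Glob (K : ℕ) (b : ℕ → ℝ) (Ω : Finset ℕ) (M : ℝ) : Prop where
  b0 : ∀ ω ∈ Ω, 0 ≤ b ω
  pos : ∀ ω ∈ Ω, 1 ≤ ω
  small : ∀ ω ∈ Ω, 64 * ω ≤ 2 ^ K
  mass : ∑ ω ∈ Ω, b ω ≤ M
  bdd : ∀ x : ℕ, |SS K b Ω x| ≤ 1

/-- a separated family of `T` levels with margins -/
structure Fam (K H T : ℕ) (b : ℕ → ℝ) (Ω : Finset ℕ) (a : ℕ → ℕ) (Om : ℕ → Finset ℕ)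
    (B G : ℝ) : Prop where
  lv : ∀ i < T, Lv K H (a i) b (Om i) B
  sub : ∀ i < T, Om i ⊆ Ω
  gap : ∀ i < T, ∀ ξ ∈ Om i, ∀ ω ∈ Ω, ω ∉ Om i → (2 : ℝ) ^ (a i) ≤ G * |(ω : ℝ) - ξ|
  sep : ∀ i j, i < j → j < T → a i + 4 * H ≤ a j

/-- bounded integer combinations -/
def Spn (m : ℕ) (D : Finset ℕ) (g : ℤ) : Prop :=
  ∃ c : ℕ → ℤ, (∀ d, |c d| ≤ m) ∧ g = ∑ d ∈ D, c d * d

open Classical in
/-- mass of the part of a level that lies in `Spn 1 D` -/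
def stm (b : ℕ → ℝ) (S D : Finset ℕ) : ℝ := ∑ ξ ∈ S, if Spn 1 D (ξ : ℤ) then b ξ else 0

/-- real part of `(1-ρ)/(1-ρ e^{iθ})` -/
def gre (ρ θ : ℝ) : ℝ := (1 - ρ) * (1 - ρ * Real.cos θ) / (1 - 2 * ρ * Real.cos θ + ρ ^ 2)

/-- imaginary part of `(1-ρ)/(1-ρ e^{iθ})` -/
def gim (ρ θ : ℝ) : ℝ := (1 - ρ) * (ρ * Real.sin θ) / (1 - 2 * ρ * Real.cos θ + ρ ^ 2)

/-- the parameter of the geometric law adapted to the scale `2^a` -/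
def rh (K a : ℕ) : ℝ := 1 - 2 ^ (a + 3) / 2 ^ K

/-- real and imaginary part of the transform of the geometric law of scale `2^a` at the frequency `h` -/
def pre (K a : ℕ) (h : ℤ) : ℝ := gre (rh K a) (2 * Real.pi * h / 2 ^ K)
def pim (K a : ℕ) (h : ℤ) : ℝ := gim (rh K a) (2 * Real.pi * h / 2 ^ K)

/-- Bohr kernel -/
def ker (K m0 : ℕ) (D : Finset ℕ) (x : ℤ) : ℝ := ∏ d ∈ D, ((1 + co K d x) / 2) ^ m0

/-- mass of the close pairs of a level: differences at most `A` -/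
def pm (b : ℕ → ℝ) (S : Finset ℕ) (A : ℕ) : ℝ :=
  ∑ γ ∈ S, ∑ ξ ∈ S, if |(γ : ℤ) - ξ| ≤ A then b γ * b ξ else 0

/-- mass of the pairs with difference in `(A', A]` -/
def pm2 (b : ℕ → ℝ) (S : Finset ℕ) (A' A : ℕ) : ℝ :=
  ∑ γ ∈ S, ∑ ξ ∈ S, if |(γ : ℤ) - ξ| ≤ A ∧ (A' : ℤ) < |(γ : ℤ) - ξ| then b γ * b ξ else 0

end

end Pool.Agent.Helper57.SN
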