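import Pool.Agent.Helper57.SN.StA

/-! # Project SN, module PMC: abstract counting of pair masses -/

set_option autoImplicit false

open Finset

namespace Pool.Agent.Helper57.SN

theorem m_PMC : St_PMC := by
  intro T C1 mm e h0 hmono hC he he0 d d' hd hdd
  have key : ∀ l < T, ∀ s n, n < l → ∑ j ∈ Ico s n, e l j ≤ mm l n + mm l (n - 1) := by
    intro l hl s n
    induction n with
    | zero =>
      intro _
      rw [Ico_eq_empty (by omega), sum_empty]
      exact add_nonneg (h0 l 0) (h0 l _)
    | succ n ih =>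
      intro hn
      by_cases hs : s ≤ n
      · rw [sum_Ico_succ_top hs]
        have h1 := ih (by omega)
        rcases Nat.eq_zero_or_pos n with hn0 | hn0
        · subst hn0
          have h2 := he0 l hl (by omega)
          have h3 := h0 l 0
          rw [Ico_eq_empty (by omega), sum_empty, zero_add]
          show e l 0 ≤ mm l 1 + mm l 0
          linarith
        · have h2 := he l hl n hn0 hn
          rw [Nat.add_sub_cancel]
          linarith
      · rw [Ico_eq_empty (by omega), sum_empty]
        exact add_nonneg (h0 l _) (h0 l _)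
  have hd0 : (0 : ℝ) < d := by exact_mod_cast hd
  have inner : ∀ l ∈ range T, ∑ j ∈ Ico (l - d') (l - d), e l j ≤
      2 / d * ∑ c ∈ range l, mm l c := by
    intro l hl
    rw [mem_range] at hl
    have hnn : 0 ≤ ∑ c ∈ range l, mm l c := sum_nonneg fun c _ => h0 l c
    rcases Nat.lt_or_ge d l with hdl | hdl
    · have h1 := key l hl (l - d') (l - d) (by omega)
      have h2 : mm l (l - d - 1) ≤ mm l (l - d) := hmono l _ _ (by omega) (by omega) hl
      have h3 : (d : ℝ) * mm l (l - d) ≤ ∑ c ∈ Ico (l - d) l, mm l c := by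
        have h4 : ∑ _c ∈ Ico (l - d) l, mm l (l - d) ≤ ∑ c ∈ Ico (l - d) l, mm l c := by
          refine sum_le_sum fun c hc => ?_
          rw [mem_Ico] at hc
          exact hmono l _ _ hc.1 hc.2 hl
        rw [sum_const, Nat.card_Ico, nsmul_eq_mul, show l - (l - d) = d by omega] at h4
        exact h4
      have h5 : ∑ c ∈ Ico (l - d) l, mm l c ≤ ∑ c ∈ range l, mm l c := by
        refine sum_le_sum_of_subset_of_nonneg ?_ fun c _ _ => h0 l c
        intro c hc
        rw [mem_Ico] at hc
        exact mem_range.2 hc.2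
      have h6 : 2 * mm l (l - d) ≤ 2 / d * ∑ c ∈ range l, mm l c := by
        rw [div_mul_eq_mul_div, le_div_iff₀ hd0]
        nlinarith
      linarith
    · rw [Ico_eq_empty (by omega), sum_empty]
      positivity
  refine (sum_le_sum inner).trans ?_
  rw [← mul_sum]
  have hswap : ∑ l ∈ range T, ∑ c ∈ range l, mm l c = ∑ c ∈ range T, ∑ l ∈ Ioo c T, mm l c := by
    refine sum_comm' ?_
    intro l c
    simp only [mem_range, mem_Ioo]
    constructor
    · rintro ⟨h1, h2⟩
      exact ⟨⟨h2, h1⟩, by omega⟩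
    · rintro ⟨⟨h1, h2⟩, _⟩
      exact ⟨h2, h1⟩
  have hb : ∑ l ∈ range T, ∑ c ∈ range l, mm l c ≤ T * C1 := by
    rw [hswap]
    have h1 : ∑ c ∈ range T, ∑ l ∈ Ioo c T, mm l c ≤ ∑ _c ∈ range T, C1 :=
      sum_le_sum fun c hc => hC c (mem_range.1 hc)
    rw [sum_const, card_range, nsmul_eq_mul] at h1
    exact h1
  have h2 : 0 ≤ 2 / (d : ℝ) := by positivity
  calc 2 / (d : ℝ) * ∑ l ∈ range T, ∑ c ∈ range l, mm l c ≤ 2 / d * (T * C1) :=
        mul_le_mul_of_nonneg_left hb h2
    _ = 2 * C1 * T / d := by ring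

end Pool.Agent.Helper57.SN
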