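import Pool.Agent.Helper57.SN.StA

/-! # Project SN: elementary properties of the pair masses -/

set_option autoImplicit false

open Finset

namespace Pool.Agent.Helper57.SN

theorem m_pmFam : St_pmFam := by
  intro K H T b Ω a Om B G hb hFam _hH l hl
  have hb' : ∀ ξ ∈ Om l, 0 ≤ b ξ := fun ξ hξ => hb ξ (hFam.sub l hl hξ)
  have hbb : ∀ γ ∈ Om l, ∀ ξ ∈ Om l, 0 ≤ b γ * b ξ := fun γ hγ ξ hξ =>
    mul_nonneg (hb' γ hγ) (hb' ξ hξ)
  have hmono : ∀ A A', A ≤ A' → pm b (Om l) A ≤ pm b (Om l) A' := by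
    intro A A' h
    unfold pm
    refine sum_le_sum fun γ hγ => sum_le_sum fun ξ hξ => ?_
    have h0 := hbb γ hγ ξ hξ
    have hAA : (A : ℤ) ≤ A' := by exact_mod_cast h
    by_cases h1 : |(γ : ℤ) - ξ| ≤ A
    · rw [if_pos h1, if_pos (h1.trans hAA)]
    · rw [if_neg h1]
      split_ifs
      · exact h0
      · exact le_rfl
  refine ⟨?_, hmono, ?_, ?_, ?_, ?_⟩
  · intro A
    unfold pm
    refine sum_nonneg fun γ hγ => sum_nonneg fun ξ hξ => ?_
    have h0 := hbb γ hγ ξ hξ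
    split_ifs
    · exact h0
    · exact le_rfl
  · intro A' A
    unfold pm2
    refine sum_nonneg fun γ hγ => sum_nonneg fun ξ hξ => ?_
    have h0 := hbb γ hγ ξ hξ
    split_ifs
    · exact h0
    · exact le_rfl
  · intro j hj hj1
    have h1 : a (j - 1) + 4 * H ≤ a j := hFam.sep (j - 1) j (by omega) (by omega)
    have h2 : a j + 4 * H ≤ a (j + 1) := hFam.sep j (j + 1) (by omega) hj1
    have h3 : (2 : ℕ) ^ (a (j - 1)) ≤ 2 ^ (a j - 2 * H) :=
      Nat.pow_le_pow_right (by norm_num) (by omega)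
    have h4 : (2 : ℕ) ^ (a (j - 1)) ≤ 2 ^ (a (j + 1)) :=
      Nat.pow_le_pow_right (by norm_num) (by omega)
    have h3' : (((2 : ℕ) ^ (a (j - 1)) : ℕ) : ℤ) ≤ ((2 ^ (a j - 2 * H) : ℕ) : ℤ) := by
      exact_mod_cast h3
    have h4' : (((2 : ℕ) ^ (a (j - 1)) : ℕ) : ℤ) ≤ ((2 ^ (a (j + 1)) : ℕ) : ℤ) := by
      exact_mod_cast h4
    unfold pm2 pm
    rw [← sum_sub_distrib]
    refine sum_le_sum fun γ hγ => ?_
    rw [← sum_sub_distrib]
    refine sum_le_sum fun ξ hξ => ?_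
    have h0 := hbb γ hγ ξ hξ
    by_cases c1 : |(γ : ℤ) - ξ| ≤ ((2 ^ (a (j - 1)) : ℕ) : ℤ)
    · have c2 : |(γ : ℤ) - ξ| ≤ ((2 ^ (a (j + 1)) : ℕ) : ℤ) := c1.trans h4'
      rw [if_pos c1, if_pos c2, if_neg (fun h => absurd (c1.trans h3') (not_le.2 h.2)), sub_self]
    · rw [if_neg c1, sub_zero]
      by_cases c2 : |(γ : ℤ) - ξ| ≤ ((2 ^ (a (j + 1)) : ℕ) : ℤ)
      · rw [if_pos c2]
        split_ifs
        · exact le_rfl
        · exact h0
      · rw [if_neg c2, if_neg (fun h => c2 h.1)]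
  · intro A' A
    unfold pm2 pm
    refine sum_le_sum fun γ hγ => sum_le_sum fun ξ hξ => ?_
    have h0 := hbb γ hγ ξ hξ
    by_cases c1 : |(γ : ℤ) - ξ| ≤ A
    · rw [if_pos c1]
      split_ifs
      · exact le_rfl
      · exact h0
    · rw [if_neg c1, if_neg (fun h => c1 h.1)]
  · intro A
    have hs0 : 0 ≤ ∑ ξ ∈ Om l, b ξ := sum_nonneg hb'
    have hs1 := (hFam.lv l hl).mass
    calc pm b (Om l) A ≤ ∑ γ ∈ Om l, ∑ ξ ∈ Om l, b γ * b ξ := by
          unfold pm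
          refine sum_le_sum fun γ hγ => sum_le_sum fun ξ hξ => ?_
          have h0 := hbb γ hγ ξ hξ
          split_ifs
          · exact le_rfl
          · exact h0
      _ = (∑ ξ ∈ Om l, b ξ) ^ 2 := by rw [pow_two, sum_mul_sum]
      _ ≤ B ^ 2 := pow_le_pow_left₀ hs0 hs1 2

end Pool.Agent.Helper57.SN
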