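import Mathlib

/-! Project SN: the numerical parameters. -/

set_option autoImplicit false

open Finset Filter Topology

namespace Pool.Agent.Helper57.SN

/-- the parameters: `y = N^(1/8000)`, `2^H ≥ N^30`, `H` logarithmic -/
structure Num (N H : ℕ) (y : ℝ) : Prop where
  y_ge : 10 ^ 6 ≤ y
  yN : y ^ 8000 = N
  H10 : 10 ≤ H
  HN : (N : ℝ) ^ 30 ≤ 2 ^ H
  Hy : 64 * (H : ℝ) ^ 2 ≤ y
  logN : Real.log (2 * N) ≤ y

theorem num_ex : ∃ N0 : ℕ, ∀ N : ℕ, N0 ≤ N → ∃ (H : ℕ), Num N H ((N : ℝ) ^ ((1 : ℝ) / 8000)) := by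
  -- work in the variable y
  have h1 : ∀ᶠ y : ℝ in atTop, 64 * (30 * (8000 * Real.log y / Real.log 2 + 1)) ^ 2 ≤ y := by
    have hlog : (fun y : ℝ => Real.log y ^ 2) =o[atTop] (id : ℝ → ℝ) :=
      Real.isLittleO_pow_log_id_atTop
    have hlog1 : (fun y : ℝ => Real.log y ^ 1) =o[atTop] (id : ℝ → ℝ) :=
      Real.isLittleO_pow_log_id_atTop
    have hc : (fun _ : ℝ => (1 : ℝ)) =o[atTop] (id : ℝ → ℝ) :=
      Asymptotics.isLittleO_const_id_atTop 1
    have hs : (fun y : ℝ => 64 * (30 * (8000 * Real.log y / Real.log 2 + 1)) ^ 2) =o[atTop]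
        (id : ℝ → ℝ) := by
      have := ((hlog.const_mul_left (64 * 900 * (8000 / Real.log 2) ^ 2)).add
        (hlog1.const_mul_left (64 * 900 * 2 * (8000 / Real.log 2)))).add
        (hc.const_mul_left (64 * 900))
      refine this.congr_left ?_
      intro y
      ring
    have := hs.def (c := 1) one_pos
    filter_upwards [this, eventually_ge_atTop (0 : ℝ)] with y hy hy0
    have h2 : |64 * (30 * (8000 * Real.log y / Real.log 2 + 1)) ^ 2| ≤ 1 * |y| := by
      simpa [Real.norm_eq_abs] using hy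
    rw [one_mul, abs_of_nonneg hy0] at h2
    exact (le_abs_self _).trans h2
  have h2 : ∀ᶠ y : ℝ in atTop, Real.log 2 + 8000 * Real.log y ≤ y := by
    have hlog1 : (fun y : ℝ => Real.log y ^ 1) =o[atTop] (id : ℝ → ℝ) :=
      Real.isLittleO_pow_log_id_atTop
    have hc : (fun _ : ℝ => (1 : ℝ)) =o[atTop] (id : ℝ → ℝ) :=
      Asymptotics.isLittleO_const_id_atTop 1
    have hs : (fun y : ℝ => Real.log 2 + 8000 * Real.log y) =o[atTop] (id : ℝ → ℝ) := by
      have := (hlog1.const_mul_left 8000).add (hc.const_mul_left (Real.log 2))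
      refine this.congr_left ?_
      intro y
      ring
    have := hs.def (c := 1) one_pos
    filter_upwards [this, eventually_ge_atTop (0 : ℝ)] with y hy hy0
    have h2 : |Real.log 2 + 8000 * Real.log y| ≤ 1 * |y| := by
      simpa [Real.norm_eq_abs] using hy
    rw [one_mul, abs_of_nonneg hy0] at h2
    exact (le_abs_self _).trans h2
  have h3 : Tendsto (fun N : ℕ => ((N : ℝ) ^ ((1 : ℝ) / 8000))) atTop atTop :=
    (tendsto_rpow_atTop (by norm_num)).comp tendsto_natCast_atTop_atTop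
  have h4 := h3.eventually (h1.and (h2.and (eventually_ge_atTop (10 ^ 6 : ℝ))))
  obtain ⟨N0, hN0⟩ := eventually_atTop.mp h4
  refine ⟨max N0 1, fun N hN => ?_⟩
  obtain ⟨e1, e2, e3⟩ := hN0 N (le_trans (le_max_left _ _) hN)
  have hN1 : 1 ≤ N := le_trans (le_max_right _ _) hN
  have hNpos : (0 : ℝ) < N := by exact_mod_cast hN1
  set y := (N : ℝ) ^ ((1 : ℝ) / 8000) with hy
  have hyN : y ^ 8000 = N := by
    rw [hy, ← Real.rpow_natCast, ← Real.rpow_mul hNpos.le]
    norm_num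
  have hypos : 0 < y := by positivity
  have hlogy : Real.log N = 8000 * Real.log y := by
    rw [← hyN, Real.log_pow]; norm_num
  refine ⟨30 * (Nat.log 2 N + 1), ⟨e3, hyN, by omega, ?_, ?_, ?_⟩⟩
  · have : N ≤ 2 ^ (Nat.log 2 N + 1) := (Nat.lt_pow_succ_log_self (by norm_num) N).le
    have h5 : (N : ℝ) ≤ 2 ^ (Nat.log 2 N + 1) := by exact_mod_cast this
    rw [mul_comm, pow_mul]
    exact pow_le_pow_left₀ hNpos.le h5 30
  · have h6 : (Nat.log 2 N : ℝ) ≤ Real.log N / Real.log 2 := by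
      rw [le_div_iff₀ (Real.log_pos (by norm_num))]
      have h7 : (2 : ℝ) ^ (Nat.log 2 N) ≤ N := by
        exact_mod_cast Nat.pow_log_le_self 2 (by omega)
      have := Real.log_le_log (by positivity) h7
      rwa [Real.log_pow] at this
    have h8 : ((30 * (Nat.log 2 N + 1) : ℕ) : ℝ) ≤ 30 * (8000 * Real.log y / Real.log 2 + 1) := by
      push_cast
      rw [← hlogy]
      linarith
    have h9 : (0 : ℝ) ≤ ((30 * (Nat.log 2 N + 1) : ℕ) : ℝ) := by positivity
    calc 64 * ((30 * (Nat.log 2 N + 1) : ℕ) : ℝ) ^ 2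
        ≤ 64 * (30 * (8000 * Real.log y / Real.log 2 + 1)) ^ 2 := by gcongr
      _ ≤ y := e1
  · rw [Real.log_mul (by norm_num) hNpos.ne', hlogy]
    exact e2

end Pool.Agent.Helper57.SN
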