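import Pool.Agent.Helper57.SN.Num

/-! Project SN: numerical inequalities. -/

set_option autoImplicit false

open Finset Filter Topology

namespace Pool.Agent.Helper57.SN

namespace Num

variable {N H : ℕ} {y : ℝ} (hn : Num N H y)
include hn

theorem y1 : 1 ≤ y := le_trans (by norm_num) hn.y_ge
theorem y0 : 0 < y := lt_of_lt_of_le one_pos hn.y1

theorem pw {a b : ℕ} (h : a ≤ b) : y ^ a ≤ y ^ b := pow_le_pow_right₀ hn.y1 h

theorem pp (a : ℕ) : 0 < y ^ a := pow_pos hn.y0 a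

theorem one_pw (a : ℕ) : 1 ≤ y ^ a := one_le_pow₀ hn.y1

/-- a constant at most `10^6` is absorbed by one factor `y` -/
theorem abs1 {c : ℝ} (hc : c ≤ 10 ^ 6) (a : ℕ) : c * y ^ a ≤ y ^ (a + 1) := by
  rw [pow_succ, mul_comm (y ^ a)]
  exact mul_le_mul_of_nonneg_right (hc.trans hn.y_ge) (hn.pp a).le

theorem Ny {a : ℕ} (h : a ≤ 8000) : y ^ a ≤ N := by
  rw [← hn.yN]; exact hn.pw h

theorem N1 : (1 : ℝ) ≤ N := by simpa using hn.Ny (a := 0) (by norm_num)

theorem N6 : (10 : ℝ) ^ 6 ≤ N := hn.y_ge.trans (by simpa using hn.Ny (a := 1) (by norm_num))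

theorem N0 : (0 : ℝ) < N := lt_of_lt_of_le one_pos hn.N1

theorem Npw {a b : ℕ} (h : a ≤ b) : (N : ℝ) ^ a ≤ (N : ℝ) ^ b := pow_le_pow_right₀ hn.N1 h

theorem N2H {a : ℕ} (h : a ≤ 30) : (N : ℝ) ^ a ≤ 2 ^ H := (hn.Npw h).trans hn.HN

theorem Hle : (H : ℝ) ≤ y := by
  have h1 : (10 : ℝ) ≤ H := by exact_mod_cast hn.H10
  nlinarith [hn.Hy]

theorem H0 : (0 : ℝ) ≤ H := by positivity

/-- number of samples -/
noncomputable def sN (y : ℝ) : ℕ := ⌊y ^ 800 / 40⌋₊

/-- number of levels in the product kernel -/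
noncomputable def mN (y : ℝ) : ℕ := ⌈24 * y ^ 1000⌉₊

theorem sN_le : (sN y : ℝ) ≤ y ^ 800 / 40 := Nat.floor_le (by have := hn.pp 800; positivity)

theorem sN_ge : y ^ 800 / 41 ≤ (sN y : ℝ) := by
  have h1 : y ^ 800 / 40 < (sN y : ℝ) + 1 := Nat.lt_floor_add_one _
  have h2 : (10 : ℝ) ^ 6 ≤ y ^ 800 := hn.y_ge.trans (by simpa using hn.pw (a := 1) (b := 800) (by norm_num))
  linarith

theorem sN_one : 1 ≤ sN y := by
  have h1 := hn.sN_ge
  have h2 : (10 : ℝ) ^ 6 ≤ y ^ 800 := hn.y_ge.trans (by simpa using hn.pw (a := 1) (b := 800) (by norm_num))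
  have : (1 : ℝ) ≤ (sN y : ℝ) := by linarith
  exact_mod_cast this

theorem mN_ge : 24 * y ^ 1000 ≤ (mN y : ℝ) := Nat.le_ceil _

theorem mN_le : (mN y : ℝ) ≤ 25 * y ^ 1000 := by
  have h1 : (mN y : ℝ) < 24 * y ^ 1000 + 1 := Nat.ceil_lt_add_one (by have := hn.pp 1000; positivity)
  have h2 := hn.one_pw 1000
  linarith

theorem mN_one : 1 ≤ mN y := by
  have h1 := hn.mN_ge
  have h2 := hn.one_pw 1000
  have : (1 : ℝ) ≤ (mN y : ℝ) := by linarith
  exact_mod_cast this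

theorem m_tau : 24 ≤ (mN y : ℝ) * (y ^ 1000)⁻¹ := by
  rw [← div_eq_mul_inv, le_div_iff₀ (hn.pp 1000)]
  exact hn.mN_ge

theorem mN_N : (mN y : ℝ) ≤ N := by
  have h1 := hn.mN_le
  have h2 := hn.abs1 (c := 25) (by norm_num) 1000
  exact h1.trans (h2.trans (hn.Ny (by norm_num)))

theorem sN_N : (sN y : ℝ) ≤ N := by
  have h1 := hn.sN_le
  have h2 : y ^ 800 ≤ N := hn.Ny (by norm_num)
  have h3 := hn.pp 800
  linarith

theorem c1 : 4 * N * N + 1 ≤ 2 ^ H := by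
  have h1 : (4 : ℝ) * N * N + 1 ≤ 2 ^ H := by
    refine le_trans ?_ (hn.N2H (a := 3) (by norm_num))
    have h2 := hn.N6
    have h3 : (0 : ℝ) ≤ N := hn.N0.le
    nlinarith [mul_nonneg h3 h3, mul_le_mul_of_nonneg_right h2 (mul_nonneg h3 h3)]
  exact_mod_cast h1

theorem c2 : 4 * sN y * N ≤ 2 ^ H := by
  have h0 := hn.sN_N
  have h1 : (4 : ℝ) * sN y * N ≤ 2 ^ H := by
    refine le_trans ?_ (hn.N2H (a := 3) (by norm_num))
    have h2 := hn.N6
    have h3 : (0 : ℝ) ≤ N := hn.N0.le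
    have h4 : (4 : ℝ) * sN y * N ≤ 4 * N * N := by gcongr
    nlinarith [mul_nonneg h3 h3, mul_le_mul_of_nonneg_right h2 (mul_nonneg h3 h3)]
  exact_mod_cast h1

theorem c3 : 400 * mN y ≤ 2 ^ H := by
  have h0 := hn.mN_N
  have h1 : (400 : ℝ) * mN y ≤ 2 ^ H := by
    refine le_trans ?_ (hn.N2H (a := 2) (by norm_num))
    have h2 := hn.N6
    have h3 : (0 : ℝ) ≤ N := hn.N0.le
    nlinarith [mul_le_mul_of_nonneg_right h2 h3]
  exact_mod_cast h1

theorem c4 {M : ℝ} (hM : M ≤ 8 * N) (hM0 : 0 ≤ M) : 16 * M * mN y ≤ 2 ^ H := by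
  have h0 := hn.mN_N
  refine le_trans ?_ (hn.N2H (a := 3) (by norm_num))
  have h2 := hn.N6
  have h3 : (0 : ℝ) ≤ N := hn.N0.le
  have h4 : 16 * M * mN y ≤ 16 * (8 * N) * N := by gcongr
  nlinarith [mul_nonneg h3 h3, mul_le_mul_of_nonneg_right h2 (mul_nonneg h3 h3)]

theorem c5 : 7 * Real.exp (-((N : ℕ) : ℝ) / (8 * (sN y : ℝ) ^ 2)) ≤
    (1 / (2 * (N : ℝ))) ^ (mN y * sN y) := by
  have hs := hn.sN_ge
  have hs2 := hn.sN_le
  have hm := hn.mN_le
  have hs0 : (0 : ℝ) < sN y := by have := hn.sN_one; exact_mod_cast this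
  have hm0 : (0 : ℝ) ≤ mN y := by positivity
  have hN := hn.N0
  have e1 : (1 / (2 * (N : ℝ))) ^ (mN y * sN y) =
      Real.exp (-(((mN y : ℝ) * (sN y : ℝ)) * Real.log (2 * N))) := by
    have : ((mN y : ℝ) * (sN y : ℝ)) = ((mN y * sN y : ℕ) : ℝ) := by push_cast; ring
    rw [this, one_div, inv_pow, Real.exp_neg, Real.exp_nat_mul, Real.exp_log (by positivity)]
  have e2 : (7 : ℝ) ≤ Real.exp 2 := by
    have := Real.exp_one_gt_d9
    have h2 : Real.exp 2 = Real.exp 1 * Real.exp 1 := by rw [← Real.exp_add]; norm_num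
    rw [h2]; nlinarith
  have l1 := hn.logN
  have l0 : 0 ≤ Real.log (2 * N) := Real.log_nonneg (by have := hn.N1; linarith)
  have p1 := hn.pp 1000
  have p2 := hn.pp 800
  have p3 := hn.pp 6400
  have q1 : y ^ 1000 * y ^ 800 * y ≤ y ^ 6400 := by
    rw [← pow_add, ← pow_succ]; exact hn.pw (by norm_num)
  have q2 : y ^ 6400 * (y ^ 800) ^ 2 = N := by
    rw [← pow_mul, ← pow_add]; exact hn.yN
  have q3 := hn.one_pw 6400
  have y0 := hn.y0
  rw [e1]
  generalize y ^ 1000 = A at *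
  generalize y ^ 800 = C at *
  generalize y ^ 6400 = E at *
  generalize (sN y : ℝ) = S at *
  generalize (mN y : ℝ) = m at *
  generalize Real.log (2 * (N : ℝ)) = l at *
  calc 7 * Real.exp (-((N : ℕ) : ℝ) / (8 * S ^ 2))
      ≤ Real.exp 2 * Real.exp (-((N : ℕ) : ℝ) / (8 * S ^ 2)) :=
        mul_le_mul_of_nonneg_right e2 (Real.exp_pos _).le
    _ = Real.exp (2 + -((N : ℕ) : ℝ) / (8 * S ^ 2)) := by rw [← Real.exp_add]
    _ ≤ _ := by
      apply Real.exp_le_exp.mpr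
      have a1 : m * S * l ≤ E := by
        calc m * S * l ≤ (25 * A) * (C / 40) * y := by gcongr
          _ = 25 / 40 * (A * C * y) := by ring
          _ ≤ A * C * y := by
            have : 0 < A * C * y := by positivity
            linarith
          _ ≤ E := q1
      have a2 : 200 * E ≤ (N : ℝ) / (8 * S ^ 2) := by
        rw [le_div_iff₀ (by positivity)]
        calc 200 * E * (8 * S ^ 2) ≤ 200 * E * (8 * (C / 40) ^ 2) := by gcongr
          _ = E * C ^ 2 := by ring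
          _ = N := q2
      rw [neg_div]
      linarith

theorem c6 : 170 * (mN y : ℝ) ^ 2 * sN y * H ≤ y ^ 2802 := by
  have hs2 := hn.sN_le
  have hm := hn.mN_le
  have hH := hn.Hle
  have p1 := hn.pp 1000
  have p2 := hn.pp 800
  have y0 := hn.y0
  have q1 : (170 * 625 / 40) * ((y ^ 1000) ^ 2 * y ^ 800 * y) ≤ y ^ 2802 := by
    rw [← pow_mul, ← pow_add, ← pow_succ]
    exact hn.abs1 (by norm_num) 2801
  refine le_trans ?_ q1
  have m0 : (0 : ℝ) ≤ mN y := by positivity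
  have s0 : (0 : ℝ) ≤ sN y := by positivity
  have H0 : (0 : ℝ) ≤ H := by positivity
  generalize y ^ 1000 = A at *
  generalize y ^ 800 = C at *
  generalize (sN y : ℝ) = S at *
  generalize (mN y : ℝ) = m at *
  calc 170 * m ^ 2 * S * H ≤ 170 * (25 * A) ^ 2 * (C / 40) * y := by gcongr
    _ = _ := by ring

end Num

end Pool.Agent.Helper57.SN
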