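import Pool.Agent.Helper57.SN.Num2

/-! Project SN: numerical inequalities for the abstract theorem. -/

set_option autoImplicit false
set_option linter.unusedSectionVars false

open Finset Filter Topology

namespace Pool.Agent.Helper57.SN

/-- thresholds -/
noncomputable def tN (y : ℝ) (k : ℕ) : ℝ :=
  if k = 0 then 2 * (y ^ 200)⁻¹ else (y ^ (166 + 20 * k))⁻¹ / 4

/-- distances of the cuts -/
noncomputable def dkN (y : ℝ) (k : ℕ) : ℕ := if k = 0 then 0 else ⌈y ^ (160 + 40 * k)⌉₊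

namespace Num

variable {N H : ℕ} {y : ℝ} (hn : Num N H y)
include hn

theorem dk_ge (k : ℕ) (hk : 1 ≤ k) : y ^ (160 + 40 * k) ≤ (dkN y k : ℝ) := by
  unfold dkN
  rw [if_neg (by omega)]
  exact Nat.le_ceil _

theorem dk_le (k : ℕ) : (dkN y (k + 1) : ℝ) ≤ 2 * y ^ (200 + 40 * k) := by
  unfold dkN
  rw [if_neg (by omega)]
  have h1 : ((⌈y ^ (160 + 40 * (k + 1))⌉₊ : ℕ) : ℝ) < y ^ (160 + 40 * (k + 1)) + 1 :=
    Nat.ceil_lt_add_one (hn.pp _).le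
  have h2 := hn.one_pw (200 + 40 * k)
  have h3 : 160 + 40 * (k + 1) = 200 + 40 * k := by ring
  rw [h3] at h1 ⊢
  linarith

theorem dk_pos (k : ℕ) (hk : 1 ≤ k) : (0 : ℝ) < dkN y k := lt_of_lt_of_le (hn.pp _) (hn.dk_ge k hk)

theorem dk_mono (k : ℕ) : dkN y k ≤ dkN y (k + 1) := by
  unfold dkN
  rw [if_neg (by omega : k + 1 ≠ 0)]
  split_ifs with h
  · omega
  · exact Nat.ceil_mono (hn.pw (by omega))

theorem dk_T {T : ℕ} (hT : T ≤ N) : T ≤ dkN y 196 := by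
  have h1 := hn.dk_ge 196 (by norm_num)
  have h2 : (N : ℝ) ≤ dkN y 196 := by
    rw [← hn.yN]
    exact h1
  have h3 : N ≤ dkN y 196 := by exact_mod_cast h2
  omega

theorem dk_one : 1 ≤ dkN y 1 := by
  have h1 := hn.dk_pos 1 le_rfl
  exact_mod_cast h1

theorem t_pos (k : ℕ) : 0 < tN y k := by
  unfold tN
  split_ifs
  · have := hn.pp 200; positivity
  · have := hn.pp (166 + 20 * k); positivity

theorem f1 : y ^ 60 * (y ^ 6 * (2 * (y ^ 200)⁻¹)) ≤ 1 / 4 := by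
  have h1 : y ^ 60 * (y ^ 6 * (2 * (y ^ 200)⁻¹)) = 2 * (y ^ 60 * y ^ 6) / y ^ 200 := by
    generalize y ^ 60 = A; generalize y ^ 6 = B; generalize (y ^ 200) = C; ring
  rw [h1, div_le_iff₀ (hn.pp 200), ← pow_add]
  have h2 := hn.abs1 (c := 8) (by norm_num) 66
  have h3 : y ^ 67 ≤ y ^ 200 := hn.pw (by norm_num)
  have h4 : (60 : ℕ) + 6 = 66 := by norm_num
  have h5 : y ^ (66 + 1) = y ^ 67 := by norm_num
  rw [h4]
  rw [h5] at h2
  linarith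

theorem f2 : (196 : ℝ) * (y ^ 20)⁻¹ ≤ 1 / 2 := by
  rw [← div_eq_mul_inv, div_le_iff₀ (hn.pp 20)]
  have h3 : y ^ 1 ≤ y ^ 20 := hn.pw (by norm_num)
  have := hn.y_ge
  rw [pow_one] at h3
  linarith

theorem f3 (k : ℕ) :
    Real.exp (-(y ^ 60 * (y ^ 20)⁻¹) + 5 * (y ^ 60) ^ 2 * ((dkN y (k + 1) : ℝ) *
      ((y ^ 6) ^ 2 * (tN y k) ^ 2))) ≤ Real.exp (-(y ^ 40 / 2)) := by
  apply Real.exp_le_exp.mpr
  have e1 : y ^ 60 * (y ^ 20)⁻¹ = y ^ 40 := by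
    rw [← div_eq_mul_inv, div_eq_iff (hn.pp 20).ne', ← pow_add]
  rw [e1]
  have e2 : (1 : ℝ) ≤ y ^ 40 / 2 := by
    have h3 : y ^ 1 ≤ y ^ 40 := hn.pw (by norm_num)
    have := hn.y_ge
    rw [pow_one] at h3
    linarith
  have e3 : 5 * (y ^ 60) ^ 2 * ((dkN y (k + 1) : ℝ) * ((y ^ 6) ^ 2 * (tN y k) ^ 2)) ≤ 1 := by
    have hd := hn.dk_le k
    have hd0 : (0 : ℝ) ≤ dkN y (k + 1) := by positivity
    unfold tN
    split_ifs with hk
    · subst hk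
      have q : 40 * ((y ^ 60) ^ 2 * (y ^ 6) ^ 2) ≤ y ^ 200 := by
        rw [← pow_mul, ← pow_mul, ← pow_add]
        exact (hn.abs1 (by norm_num) _).trans (hn.pw (by norm_num))
      have p := hn.pp 200
      have hd' : (dkN y (0 + 1) : ℝ) ≤ 2 * y ^ 200 := hd
      generalize (dkN y (0 + 1) : ℝ) = D at *
      generalize y ^ 200 = A at *
      generalize y ^ 60 = C at *
      generalize y ^ 6 = E at *
      calc 5 * C ^ 2 * (D * (E ^ 2 * (2 * A⁻¹) ^ 2)) ≤ 5 * C ^ 2 * ((2 * A) * (E ^ 2 * (2 * A⁻¹) ^ 2)) := by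
            gcongr
        _ = 40 * (C ^ 2 * E ^ 2) * A⁻¹ := by field_simp; ring
        _ ≤ A * A⁻¹ := by gcongr
        _ = 1 := mul_inv_cancel₀ p.ne'
    · have q : (y ^ 60) ^ 2 * (y ^ 6) ^ 2 * y ^ (200 + 40 * k) = (y ^ (166 + 20 * k)) ^ 2 := by
        rw [← pow_mul, ← pow_mul, ← pow_mul, ← pow_add, ← pow_add]
        congr 1
        ring
      have p := hn.pp (166 + 20 * k)
      generalize (dkN y (k + 1) : ℝ) = D at *
      generalize y ^ (166 + 20 * k) = A at *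
      generalize y ^ (200 + 40 * k) = F at *
      generalize y ^ 60 = C at *
      generalize y ^ 6 = E at *
      calc 5 * C ^ 2 * (D * (E ^ 2 * (A⁻¹ / 4) ^ 2)) ≤ 5 * C ^ 2 * ((2 * F) * (E ^ 2 * (A⁻¹ / 4) ^ 2)) := by
            gcongr
        _ = 10 / 16 * (C ^ 2 * E ^ 2 * F) * (A⁻¹) ^ 2 := by ring
        _ = 10 / 16 := by rw [q]; field_simp
        _ ≤ 1 := by norm_num
  linarith

theorem f5 {B M G g : ℝ} (hB0 : 0 ≤ B) (hB : B ≤ 8) (hM0 : 0 ≤ M) (hM : M ≤ 8 * N)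
    (hG : G = 2 * (N + 1)) (_hg0 : 0 ≤ g) (hg : g ≤ N) :
    y ^ 6 * (B / 2 ^ H * (54 * B + 27 * M + G * M)) * g ≤ 1 / 4 := by
  have h1 := hn.N2H (a := 30) le_rfl
  have hN := hn.N0
  have hN6 := hn.N6
  have h2 : (0 : ℝ) < (N : ℝ) ^ 30 := by positivity
  have h3 : B / 2 ^ H ≤ 8 / (N : ℝ) ^ 30 := by gcongr
  have h4 : 54 * B + 27 * M + G * M ≤ (N : ℝ) ^ 3 := by
    rw [hG]
    have a1 : 2 * ((N : ℝ) + 1) * M ≤ 2 * (N + 1) * (8 * N) := by gcongr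
    nlinarith [mul_pos hN hN, mul_le_mul_of_nonneg_right hN6 (mul_pos hN hN).le]
  have h5 : y ^ 6 ≤ N := hn.Ny (by norm_num)
  have h6 : 0 ≤ G := by rw [hG]; positivity
  have hy := hn.pp 6
  calc y ^ 6 * (B / 2 ^ H * (54 * B + 27 * M + G * M)) * g
      ≤ N * (8 / (N : ℝ) ^ 30 * (N : ℝ) ^ 3) * N := by gcongr
    _ = 8 / (N : ℝ) ^ 25 := by field_simp
    _ ≤ 1 / 4 := by
      rw [div_le_iff₀ (by positivity)]
      have : (N : ℝ) ^ 1 ≤ (N : ℝ) ^ 25 := hn.Npw (by norm_num)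
      rw [pow_one] at this
      linarith

theorem f7 {B : ℝ} (hB0 : 0 ≤ B) (hB : B ≤ 8) :
    40 * B ^ 2 ≤ (sN y : ℝ) * ((y ^ 200)⁻¹ / 2) ^ 2 := by
  have hs := hn.sN_ge
  have p := hn.pp 200
  have q : y ^ 800 = (y ^ 200) ^ 4 := by rw [← pow_mul]
  have q2 : 10 ^ 6 ≤ y ^ 200 := hn.y_ge.trans (by simpa using hn.pw (a := 1) (b := 200) (by norm_num))
  rw [q] at hs
  generalize (sN y : ℝ) = S at *
  generalize y ^ 200 = A at *
  calc 40 * B ^ 2 ≤ 40 * 8 ^ 2 := by gcongr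
    _ ≤ A / 164 := by
      rw [le_div_iff₀ (by norm_num)]; linarith
    _ ≤ (A ^ 4 / 41) * (A⁻¹ / 2) ^ 2 := by
      have : (A ^ 4 / 41) * (A⁻¹ / 2) ^ 2 = A ^ 2 / 164 := by field_simp; ring
      rw [this]
      have : A ≤ A ^ 2 := by nlinarith
      linarith
    _ ≤ S * (A⁻¹ / 2) ^ 2 := by gcongr

theorem f8 {B : ℝ} (hB : B ≤ 8) : 52 * B / 2 ^ H ≤ (y ^ 200)⁻¹ := by
  have p := hn.pp 200
  have h1 := hn.N2H (a := 2) (by norm_num)
  have h2 : y ^ 200 ≤ N := hn.Ny (by norm_num)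
  have h3 := hn.N6
  have hN := hn.N0
  rw [div_le_iff₀ (by positivity), ← div_eq_inv_mul, le_div_iff₀ p]
  calc 52 * B * y ^ 200 ≤ 52 * 8 * N := by gcongr
    _ ≤ (N : ℝ) ^ 2 := by nlinarith
    _ ≤ _ := h1

theorem f6 {B : ℝ} (hB0 : 0 < B) (hB : B ≤ 8) :
    2 ^ (2 * H) * (3 * Real.exp (-(((y ^ 200)⁻¹ / 2) ^ 2 * sN y / (8 * B ^ 2)))) ≤
      Real.exp (-(y ^ 398)) := by
  have hs := hn.sN_ge
  have p := hn.pp 200
  have q : y ^ 800 = (y ^ 200) ^ 4 := by rw [← pow_mul]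
  have q2 : y ^ 399 ≤ ((y ^ 200)⁻¹ / 2) ^ 2 * sN y / (8 * B ^ 2) := by
    have q3 : 83968 * y ^ 399 ≤ (y ^ 200) ^ 2 := by
      rw [← pow_mul]
      exact (hn.abs1 (by norm_num) 399).trans (hn.pw (by norm_num))
    rw [le_div_iff₀ (by positivity)]
    rw [q] at hs
    have p4 := hn.pp 399
    generalize (sN y : ℝ) = S at *
    generalize y ^ 399 = E at *
    generalize y ^ 200 = A at *
    calc E * (8 * B ^ 2) ≤ E * (8 * 8 ^ 2) := by gcongr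
      _ = (83968 * E) / 164 := by ring
      _ ≤ A ^ 2 / 164 := by gcongr
      _ = (A⁻¹ / 2) ^ 2 * (A ^ 4 / 41) := by field_simp; ring
      _ ≤ (A⁻¹ / 2) ^ 2 * S := by gcongr
  have e1 : (2 : ℝ) ^ (2 * H) ≤ Real.exp (2 * y) := by
    have h2 : (2 : ℝ) ≤ Real.exp 1 := by
      have := Real.exp_one_gt_d9; linarith
    calc (2 : ℝ) ^ (2 * H) ≤ (Real.exp 1) ^ (2 * H) := by gcongr
      _ = Real.exp (2 * H) := by rw [← Real.exp_nat_mul]; push_cast; ring_nf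
      _ ≤ Real.exp (2 * y) := by
        apply Real.exp_le_exp.mpr
        have := hn.Hle
        linarith
  have e2 : (3 : ℝ) ≤ Real.exp 2 := by
    have := Real.exp_one_gt_d9
    have h2 : Real.exp 2 = Real.exp 1 * Real.exp 1 := by rw [← Real.exp_add]; norm_num
    rw [h2]; nlinarith
  calc 2 ^ (2 * H) * (3 * Real.exp (-(((y ^ 200)⁻¹ / 2) ^ 2 * sN y / (8 * B ^ 2))))
      ≤ Real.exp (2 * y) * (Real.exp 2 * Real.exp (-(y ^ 399))) := by gcongr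
    _ = Real.exp (2 * y + (2 + -(y ^ 399))) := by rw [Real.exp_add, Real.exp_add]
    _ ≤ Real.exp (-(y ^ 398)) := by
      apply Real.exp_le_exp.mpr
      have h1 := hn.abs1 (c := 10 ^ 6) le_rfl 398
      have h2 := hn.y_ge
      have h3 : y ^ 1 ≤ y ^ 398 := hn.pw (by norm_num)
      rw [pow_one] at h3
      have h4 : y ^ (398 + 1) = y ^ 399 := by norm_num
      rw [h4] at h1
      linarith

/-- exponentially small numbers -/
theorem ex : Real.exp (-(y ^ 40 / 2)) ≤ (y ^ 9000)⁻¹ := by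
  rw [Real.exp_neg]
  have h1 : y ≤ Real.exp y := by have := Real.add_one_le_exp y; linarith
  have h2 : y ^ 9000 ≤ Real.exp (9000 * y) := by
    have : Real.exp (9000 * y) = (Real.exp y) ^ 9000 := by
      rw [← Real.exp_nat_mul]; norm_num
    rw [this]
    exact pow_le_pow_left₀ hn.y0.le h1 9000
  have h3 : Real.exp (9000 * y) ≤ Real.exp (y ^ 40 / 2) := by
    apply Real.exp_le_exp.mpr
    have h4 : 18000 * y ^ 1 ≤ y ^ (1 + 1) := hn.abs1 (by norm_num) 1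
    have h5 : y ^ (1 + 1) ≤ y ^ 40 := hn.pw (by norm_num)
    rw [pow_one] at h4
    linarith
  exact inv_anti₀ (hn.pp 9000) (h2.trans h3)

theorem zex : Real.exp (-(y ^ 398)) ^ ((1 / (4 * y ^ 6)) / (1 + 1 / (4 * y ^ 6))) ≤ (y ^ 9000)⁻¹ := by
  refine le_trans ?_ hn.ex
  rw [← Real.exp_mul]
  apply Real.exp_le_exp.mpr
  have p6 := hn.pp 6
  have e1 : (1 / (4 * y ^ 6)) / (1 + 1 / (4 * y ^ 6)) = 1 / (4 * y ^ 6 + 1) := by
    generalize y ^ 6 = E at *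
    have : 1 + 1 / (4 * E) = (4 * E + 1) / (4 * E) := by field_simp
    rw [this]
    field_simp
  rw [e1, mul_one_div, neg_div]
  apply neg_le_neg
  rw [le_div_iff₀ (by positivity)]
  have q1 : 5 * y ^ 46 ≤ y ^ (46 + 1) := hn.abs1 (by norm_num) 46
  have q2 : y ^ (46 + 1) ≤ y ^ 398 := hn.pw (by norm_num)
  have q3 : y ^ 46 = y ^ 40 * y ^ 6 := by rw [← pow_add]
  have q4 := hn.one_pw 6
  have q5 := hn.pp 40
  rw [q3] at q1
  have q6 : 4 * y ^ 6 + 1 ≤ 5 * y ^ 6 := by linarith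
  calc y ^ 40 / 2 * (4 * y ^ 6 + 1) ≤ y ^ 40 / 2 * (5 * y ^ 6) := by gcongr
    _ ≤ 5 * (y ^ 40 * y ^ 6) := by
      have : 0 < y ^ 40 * y ^ 6 := mul_pos q5 p6
      linarith
    _ ≤ _ := q1.trans q2

theorem r3 {g om : ℝ} (hg0 : 0 ≤ g) (hg : g ≤ N) (hom : om ≤ (y ^ 9000)⁻¹) (hom0 : 0 ≤ om) :
    g * (y ^ 6 * (2 * (y ^ 200)⁻¹) ^ 2 * om) ≤ 1 := by
  have p := hn.pp 200
  have p1 := hn.one_pw 200
  have hN := hn.yN
  have p6 : y ^ 6 ≤ N := hn.Ny (by norm_num)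
  have h6 := hn.pp 6
  have q1 : (y ^ 200)⁻¹ ≤ 1 := inv_le_one_of_one_le₀ p1
  have q0 : 0 ≤ (y ^ 200)⁻¹ := by positivity
  have q2 : (2 * (y ^ 200)⁻¹) ^ 2 ≤ 4 := by nlinarith
  have q3 : 0 ≤ (2 * (y ^ 200)⁻¹) ^ 2 := by positivity
  generalize (2 * (y ^ 200)⁻¹) ^ 2 = W at *
  have h9 := hn.pp 9000
  have e : y ^ 9000 = y ^ 8000 * y ^ 1000 := by rw [← pow_add]
  have e6 : 4 * y ^ 6 ≤ y ^ 1000 := (hn.abs1 (by norm_num) 6).trans (hn.pw (by norm_num))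
  have hN0 := hn.N0
  have e7 : y ^ 1000 * (N * (y ^ 9000)⁻¹) = 1 := by
    rw [e, ← hN]
    have a1 := hn.pp 8000
    have a2 := hn.pp 1000
    generalize y ^ 8000 = P at *
    generalize y ^ 1000 = Q at *
    field_simp
  have e8 : 0 < (y ^ 9000)⁻¹ := inv_pos.mpr h9
  clear e h9 hN
  generalize (y ^ 9000)⁻¹ = V at *
  generalize y ^ 1000 = Q at *
  generalize y ^ 6 = E at *
  calc g * (E * W * om) ≤ N * (E * 4 * V) :=
        mul_le_mul hg (mul_le_mul (mul_le_mul_of_nonneg_left q2 h6.le) hom hom0 (by positivity))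
          (by positivity) hN0.le
    _ = (4 * E) * (N * V) := by ring_nf
    _ ≤ Q * (N * V) := by gcongr
    _ = 1 := e7

theorem r1 {g B om : ℝ} (hg0 : 0 ≤ g) (hg : g ≤ N) (hB0 : 0 ≤ B) (hB : B ≤ 8)
    (hom : om ≤ (y ^ 9000)⁻¹) (hom0 : 0 ≤ om) : g * (196 * ((2 * B) ^ 2 * om)) ≤ (y ^ 12)⁻¹ := by
  have hN := hn.yN
  have e : y ^ 9000 = y ^ 8000 * (y ^ 988 * y ^ 12) := by rw [← pow_add, ← pow_add]
  have e6 : 50176 * y ^ 0 ≤ y ^ 988 := (hn.abs1 (by norm_num) 0).trans (hn.pw (by norm_num))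
  rw [pow_zero, mul_one] at e6
  have a1 := hn.pp 8000
  have a2 := hn.pp 988
  have a3 := hn.pp 12
  have hN0 := hn.N0
  calc g * (196 * ((2 * B) ^ 2 * om)) ≤ N * (196 * ((2 * 8) ^ 2 * (y ^ 9000)⁻¹)) := by gcongr
    _ ≤ _ := by
      rw [e, ← hN]
      generalize y ^ 8000 = P at *
      generalize y ^ 988 = Q at *
      generalize y ^ 12 = R at *
      have : P * (196 * ((2 * 8) ^ 2 * (P * (Q * R))⁻¹)) = (50176 / Q) * R⁻¹ := by
        field_simp; norm_num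
      rw [this]
      have : 50176 / Q ≤ 1 := by rw [div_le_one a2]; exact e6
      calc 50176 / Q * R⁻¹ ≤ 1 * R⁻¹ := by gcongr
        _ = R⁻¹ := one_mul _

theorem r4 {g B X : ℝ} (k : ℕ) (hk : 1 ≤ k) (hk2 : k < 196) (hg0 : 0 ≤ g) (hg : g ≤ N) (hB0 : 0 ≤ B)
    (hB : B ≤ 8) (hX : X ≤ 1) (hX0 : 0 ≤ X) :
    (y / dkN y k + g * (200 * B ^ 2 / 2 ^ H)) * (1 / tN y k * (6 + X)) ≤ 56 * (y ^ 13)⁻¹ := by
  have hN0 := hn.N0
  have h1 : y / dkN y k ≤ y / y ^ (160 + 40 * k) := by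
    have := hn.dk_ge k hk
    have := hn.pp (160 + 40 * k)
    have := hn.y0
    gcongr
  have h2 : g * (200 * B ^ 2 / 2 ^ H) ≤ y / y ^ (160 + 40 * k) := by
    have a1 := hn.N2H (a := 30) le_rfl
    have a2 := hn.N6
    have a3 : y ^ (160 + 40 * k) ≤ N := hn.Ny (by omega)
    have a4 := hn.pp (160 + 40 * k)
    calc g * (200 * B ^ 2 / 2 ^ H) ≤ N * (200 * 8 ^ 2 / (N : ℝ) ^ 30) := by gcongr
      _ = 12800 / (N : ℝ) ^ 29 := by field_simp; norm_num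
      _ ≤ 1 / N := by
        rw [div_le_div_iff₀ (by positivity) hN0]
        have : (N : ℝ) ^ 3 ≤ (N : ℝ) ^ 29 := hn.Npw (by norm_num)
        nlinarith [mul_pos hN0 hN0, mul_le_mul_of_nonneg_right a2 (mul_pos hN0 hN0).le]
      _ ≤ 1 / y ^ (160 + 40 * k) := by gcongr
      _ ≤ y / y ^ (160 + 40 * k) := by
        have := hn.y1
        gcongr
  have h3 : 1 / tN y k = 4 * y ^ (166 + 20 * k) := by
    unfold tN
    rw [if_neg (by omega)]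
    have := hn.pp (166 + 20 * k)
    field_simp
  rw [h3]
  have h4 : y * y ^ (166 + 20 * k) * y ^ 13 ≤ y ^ (160 + 40 * k) := by
    have : y * y ^ (166 + 20 * k) * y ^ 13 = y ^ (180 + 20 * k) := by
      rw [← pow_succ', ← pow_add]; congr 1; ring
    rw [this]
    exact hn.pw (by omega)
  have p1 := hn.pp (166 + 20 * k)
  have p2 := hn.pp (160 + 40 * k)
  have p3 := hn.pp 13
  have y0 := hn.y0
  have hd : 0 ≤ y / dkN y k := by positivity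
  have hd2 : 0 ≤ g * (200 * B ^ 2 / 2 ^ H) := by positivity
  generalize g * (200 * B ^ 2 / 2 ^ H) = Z at *
  generalize y / (dkN y k : ℝ) = D at *
  generalize y ^ (166 + 20 * k) = P at *
  generalize y ^ (160 + 40 * k) = Q at *
  generalize y ^ 13 = R at *
  calc (D + Z) * (4 * P * (6 + X)) ≤ (y / Q + y / Q) * (4 * P * (6 + 1)) := by gcongr
    _ = 56 * (y * P * R / Q) * R⁻¹ := by field_simp; ring
    _ ≤ 56 * 1 * R⁻¹ := by
      have : y * P * R / Q ≤ 1 := by rw [div_le_one p2]; exact h4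
      gcongr
    _ = 56 * R⁻¹ := by ring

theorem f10 (T : ℕ) : ∑ k ∈ Ico 1 196, 32 * (T : ℝ) / (dkN y k * (y / dkN y k)) ≤ T / 8 := by
  have h1 : ∀ k ∈ Ico 1 196, 32 * (T : ℝ) / (dkN y k * (y / dkN y k)) ≤ T / 1560 := by
    intro k hk
    have := hn.dk_pos k (mem_Ico.mp hk).1
    have h2 : (dkN y k : ℝ) * (y / dkN y k) = y := by field_simp
    rw [h2]
    have hy := hn.y_ge
    have hT : (0 : ℝ) ≤ T := by positivity
    rw [div_le_div_iff₀ hn.y0 (by norm_num)]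
    nlinarith
  refine (sum_le_sum h1).trans ?_
  rw [sum_const, Nat.card_Ico]
  simp only [nsmul_eq_mul]
  have hT : (0 : ℝ) ≤ T := by positivity
  push_cast
  norm_num
  linarith

/-- upper bound for the right side of the abstract theorem -/
theorem rhs {g B : ℝ} (hg0 : 0 ≤ g) (hg : g ≤ N) (hB0 : 0 ≤ B) (hB : B ≤ 8) :
    3 / y ^ 6 + g * (3 * (2 * B) ^ 2 *
        Real.exp (-(y ^ 398)) ^ ((1 / (4 * y ^ 6)) / (1 + 1 / (4 * y ^ 6)))) +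
      g * (((196 : ℕ) : ℝ) * ((2 * B) ^ 2 * Real.exp (-(y ^ 40 / 2)))) +
      ∑ k ∈ Ico 1 196, ((if k = 0 then 0 else y / dkN y k) + g * (200 * B ^ 2 / 2 ^ H)) *
        (1 / tN y k * (6 + g * (y ^ 6 * (2 * (y ^ 200)⁻¹) ^ 2 * Real.exp (-(y ^ 40 / 2))))) ≤
    4 / y ^ 6 := by
  have z1 := hn.zex
  have z0 : 0 ≤ Real.exp (-(y ^ 398)) ^ ((1 / (4 * y ^ 6)) / (1 + 1 / (4 * y ^ 6))) := by positivity
  have o1 := hn.ex
  have o0 : 0 ≤ Real.exp (-(y ^ 40 / 2)) := (Real.exp_pos _).le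
  have t1 : g * (3 * (2 * B) ^ 2 *
        Real.exp (-(y ^ 398)) ^ ((1 / (4 * y ^ 6)) / (1 + 1 / (4 * y ^ 6)))) ≤ (y ^ 12)⁻¹ := by
    refine le_trans ?_ (hn.r1 hg0 hg hB0 hB z1 z0)
    generalize Real.exp (-(y ^ 398)) ^ ((1 / (4 * y ^ 6)) / (1 + 1 / (4 * y ^ 6))) = Z at *
    have : 3 * (2 * B) ^ 2 * Z ≤ 196 * ((2 * B) ^ 2 * Z) := by
      have : 0 ≤ (2 * B) ^ 2 * Z := by positivity
      linarith
    gcongr
  have t2 : g * (((196 : ℕ) : ℝ) * ((2 * B) ^ 2 * Real.exp (-(y ^ 40 / 2)))) ≤ (y ^ 12)⁻¹ := by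
    have := hn.r1 hg0 hg hB0 hB o1 o0
    simpa using this
  have t3 : ∑ k ∈ Ico 1 196, ((if k = 0 then 0 else y / dkN y k) + g * (200 * B ^ 2 / 2 ^ H)) *
        (1 / tN y k * (6 + g * (y ^ 6 * (2 * (y ^ 200)⁻¹) ^ 2 * Real.exp (-(y ^ 40 / 2))))) ≤
      195 * (56 * (y ^ 13)⁻¹) := by
    have x1 := hn.r3 hg0 hg o1 o0
    have x0 : 0 ≤ g * (y ^ 6 * (2 * (y ^ 200)⁻¹) ^ 2 * Real.exp (-(y ^ 40 / 2))) :=
      mul_nonneg hg0 (mul_nonneg (mul_nonneg (hn.pp 6).le (sq_nonneg _)) o0)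
    have : ∀ k ∈ Ico 1 196, ((if k = 0 then 0 else y / dkN y k) + g * (200 * B ^ 2 / 2 ^ H)) *
        (1 / tN y k * (6 + g * (y ^ 6 * (2 * (y ^ 200)⁻¹) ^ 2 * Real.exp (-(y ^ 40 / 2))))) ≤
        56 * (y ^ 13)⁻¹ := by
      intro k hk
      have hk' := mem_Ico.mp hk
      rw [if_neg (by omega)]
      exact hn.r4 k hk'.1 hk'.2 hg0 hg hB0 hB x1 x0
    refine (sum_le_sum this).trans ?_
    rw [sum_const, Nat.card_Ico]
    simp
  have p6 := hn.pp 6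
  have e1 : (y ^ 12)⁻¹ ≤ 1 / 10 * (1 / y ^ 6) := by
    rw [← one_div, div_le_iff₀ (hn.pp 12)]
    have : y ^ 12 = y ^ 6 * y ^ 6 := by rw [← pow_add]
    rw [this]
    have h1 : y ^ 1 ≤ y ^ 6 := hn.pw (by norm_num)
    have h2 := hn.y_ge
    rw [pow_one] at h1
    have : 1 / 10 * (1 / y ^ 6) * (y ^ 6 * y ^ 6) = y ^ 6 / 10 := by field_simp
    rw [this]
    linarith
  have e2 : 195 * (56 * (y ^ 13)⁻¹) ≤ 1 / 10 * (1 / y ^ 6) := by
    have : y ^ 13 = y ^ 6 * y ^ 7 := by rw [← pow_add]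
    rw [this]
    have h1 : y ^ 1 ≤ y ^ 7 := hn.pw (by norm_num)
    have h2 := hn.y_ge
    have p7 := hn.pp 7
    rw [pow_one] at h1
    have : 195 * (56 * (y ^ 6 * y ^ 7)⁻¹) = (10920 / y ^ 7) * (1 / y ^ 6) := by field_simp; norm_num
    rw [this]
    have : 10920 / y ^ 7 ≤ 1 / 10 := by
      rw [div_le_iff₀ p7]; linarith
    gcongr
  have e3 : 3 / y ^ 6 = 3 * (1 / y ^ 6) := by ring
  have e4 : 4 / y ^ 6 = 4 * (1 / y ^ 6) := by ring
  have e5 : 0 < 1 / y ^ 6 := by positivity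
  rw [e3, e4]
  linarith

/-- lower bound for the left side -/
theorem lhs {g T β B : ℝ} (hT0 : 0 < T) (hTN : T ≤ N) (hg : T / 2 ≤ g) (hβ0 : 0 < β) (hTβ : y ^ 3998 ≤ T * β)
    (hB0 : 0 ≤ B) (hB : B ≤ 8) :
    4 / y ^ 6 < g * (β ^ 2 * T / (4 * N) - 81 * B ^ 2 / 2 ^ H) / 2 := by
  have hN0 := hn.N0
  have hN6 := hn.N6
  have h1 : 81 * B ^ 2 / 2 ^ H ≤ 1 / (N : ℝ) ^ 3 := by
    have a1 := hn.N2H (a := 4) (by norm_num)
    calc 81 * B ^ 2 / 2 ^ H ≤ 81 * 8 ^ 2 / (N : ℝ) ^ 4 := by gcongr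
      _ ≤ 1 / (N : ℝ) ^ 3 := by
        rw [div_le_div_iff₀ (by positivity) (by positivity)]
        have : (N : ℝ) ^ 4 = N ^ 3 * N := by ring
        rw [this, one_mul]
        have h3 : 0 < (N : ℝ) ^ 3 := by positivity
        nlinarith [mul_le_mul_of_nonneg_left hN6 h3.le]
  have h2 : y ^ 7996 ≤ (T * β) ^ 2 := by
    have : y ^ 7996 = (y ^ 3998) ^ 2 := by rw [← pow_mul]
    rw [this]
    have := hn.pp 3998
    generalize y ^ 3998 = A at *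
    gcongr
  have h3 : (1 / y ^ 4) ≤ (T * β) ^ 2 / N := by
    rw [le_div_iff₀ hN0, ← hn.yN]
    have : y ^ 8000 = y ^ 7996 * y ^ 4 := by rw [← pow_add]
    rw [this]
    have p4 := hn.pp 4
    have : 1 / y ^ 4 * (y ^ 7996 * y ^ 4) = y ^ 7996 := by
      generalize y ^ 7996 = A at *
      generalize y ^ 4 = C at *
      field_simp
    rw [this]
    exact h2
  -- T * (β^2 T/(4N)) = (Tβ)^2/(4N)
  have p4 := hn.pp 4
  have hb : 0 ≤ β ^ 2 * T / (4 * N) - 81 * B ^ 2 / 2 ^ H := by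
    have e1 : β ^ 2 * T / (4 * N) = ((T * β) ^ 2 / N) / (4 * T) := by field_simp
    rw [e1]
    have e2 : 1 / y ^ 4 / (4 * N) ≤ ((T * β) ^ 2 / N) / (4 * T) := by gcongr
    have e3 : 1 / (N : ℝ) ^ 3 ≤ 1 / y ^ 4 / (4 * N) := by
      have q : y ^ 4 ≤ N := hn.Ny (by norm_num)
      rw [div_div, div_le_div_iff₀ (by positivity) (by positivity)]
      have : y ^ 4 * (4 * N) ≤ N * (4 * N) := by gcongr
      nlinarith [mul_pos hN0 hN0, mul_le_mul_of_nonneg_right hN6 (mul_pos hN0 hN0).le]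
    linarith
  have h4 : T / 2 * (β ^ 2 * T / (4 * N) - 81 * B ^ 2 / 2 ^ H) / 2 ≤
      g * (β ^ 2 * T / (4 * N) - 81 * B ^ 2 / 2 ^ H) / 2 := by gcongr
  refine lt_of_lt_of_le ?_ h4
  have h5 : T / 2 * (β ^ 2 * T / (4 * N) - 81 * B ^ 2 / 2 ^ H) / 2 =
      (T * β) ^ 2 / N / 16 - T * (81 * B ^ 2 / 2 ^ H) / 4 := by field_simp; ring
  rw [h5]
  have h6 : T * (81 * B ^ 2 / 2 ^ H) / 4 ≤ 1 / (N : ℝ) ^ 2 := by
    calc T * (81 * B ^ 2 / 2 ^ H) / 4 ≤ N * (1 / (N : ℝ) ^ 3) / 4 := by gcongr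
      _ = 1 / (N : ℝ) ^ 2 / 4 := by field_simp
      _ ≤ 1 / (N : ℝ) ^ 2 := by
        have : 0 < 1 / (N : ℝ) ^ 2 := by positivity
        linarith
  have h7 : 1 / (N : ℝ) ^ 2 ≤ 1 / y ^ 6 := by
    have q : y ^ 6 ≤ N := hn.Ny (by norm_num)
    have q2 : (N : ℝ) ≤ N ^ 2 := by nlinarith
    have := hn.pp 6
    gcongr
    linarith
  have h8 : 1 / y ^ 4 = y ^ 2 * (1 / y ^ 6) := by
    have : y ^ 6 = y ^ 2 * y ^ 4 := by rw [← pow_add]
    rw [this]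
    have := hn.pp 2
    field_simp
  have h9 : (10 : ℝ) ^ 12 ≤ y ^ 2 := by
    have := hn.y_ge
    nlinarith
  have h10 : 0 < 1 / y ^ 6 := by have := hn.pp 6; positivity
  have h11 : 4 / y ^ 6 = 4 * (1 / y ^ 6) := by ring
  rw [h11]
  rw [h8] at h3
  nlinarith

end Num

end Pool.Agent.Helper57.SN
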